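import Pool.Agent.Q90.HS.Dec

/-! The operators on the coefficients and adjointness (job HS2). -/

set_option autoImplicit false
open Filter Topology

namespace Q90.HS

/-- the power series `(1 - X) ^ (-θ)` -/
noncomputable def AS (θ : ℝ) : PowerSeries ℂ := PowerSeries.mk fun j => (aa θ j : ℂ)

theorem pc_eq (θ : ℝ) (p : Polynomial ℂ) (m : ℕ) :
    pc θ p m = PowerSeries.coeff m ((p : PowerSeries ℂ) * AS θ) := by
  unfold pc AS
  rw [PowerSeries.coeff_mul, Finset.Nat.sum_antidiagonal_eq_sum_range_succ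
    (f := fun i j => PowerSeries.coeff i (p : PowerSeries ℂ) * PowerSeries.coeff j (PowerSeries.mk fun j => (aa θ j : ℂ)))]
  refine Finset.sum_congr rfl fun l _ => ?_
  rw [Polynomial.coeff_coe, PowerSeries.coeff_mk]

theorem coeff_X_deriv (P : PowerSeries ℂ) (m : ℕ) :
    PowerSeries.coeff m (PowerSeries.X * PowerSeries.derivative ℂ P) = (m : ℂ) * PowerSeries.coeff m P := by
  cases m with
  | zero => simp
  | succ k =>
    rw [PowerSeries.coeff_succ_X_mul, PowerSeries.coeff_derivative]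
    push_cast
    ring

theorem AS_deriv (θ : ℝ) : (1 - PowerSeries.X) * PowerSeries.derivative ℂ (AS θ) = PowerSeries.C (θ : ℂ) * AS θ := by
  ext m
  rw [sub_mul, one_mul, map_sub, coeff_X_deriv, PowerSeries.coeff_derivative, PowerSeries.coeff_C_mul]
  unfold AS
  rw [PowerSeries.coeff_mk, PowerSeries.coeff_mk, aa_succ]
  push_cast
  have : ((m : ℂ) + 1) ≠ 0 := by exact_mod_cast Nat.succ_ne_zero m
  field_simp
  ring

theorem cf : S_cf := by
  intro θ lam N p
  set P : PowerSeries ℂ := (p : PowerSeries ℂ) * AS θ with hP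
  have hD : (1 - PowerSeries.X) * PowerSeries.derivative ℂ P =
      (1 - PowerSeries.X) * ((Polynomial.derivative p : Polynomial ℂ) : PowerSeries ℂ) * AS θ +
        PowerSeries.C (θ : ℂ) * P := by
    rw [hP, Derivation.leibniz, PowerSeries.derivative_coe, smul_eq_mul, smul_eq_mul]
    linear_combination (p : PowerSeries ℂ) * AS_deriv θ
  have h1 : ((Lm N p : Polynomial ℂ) : PowerSeries ℂ) * AS θ =
      PowerSeries.C (N : ℂ) * P + PowerSeries.derivative ℂ P - PowerSeries.X * PowerSeries.derivative ℂ P -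
        PowerSeries.C (θ : ℂ) * P := by
    unfold Lm
    simp only [Polynomial.coe_add, Polynomial.coe_mul, Polynomial.coe_C, Polynomial.coe_sub, Polynomial.coe_one,
      Polynomial.coe_X]
    rw [hP] at hD ⊢
    linear_combination -hD
  have h2 : ((Lp θ lam N p : Polynomial ℂ) : PowerSeries ℂ) * AS θ =
      PowerSeries.C ((((N : ℝ) - θ : ℝ)) : ℂ) * P - PowerSeries.X * PowerSeries.derivative ℂ P +
        PowerSeries.X * (PowerSeries.X * PowerSeries.derivative ℂ P) +
        PowerSeries.X * (PowerSeries.C (((lam + 1 + θ : ℝ) : ℂ) + (θ : ℂ)) * P) := by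
    unfold Lp
    simp only [Polynomial.coe_add, Polynomial.coe_mul, Polynomial.coe_C, Polynomial.coe_sub, Polynomial.coe_one,
      Polynomial.coe_X, map_add]
    rw [hP] at hD ⊢
    linear_combination PowerSeries.X * hD
  refine ⟨fun m => ?_, fun m => ?_, ?_⟩
  · rw [pc_eq, pc_eq, pc_eq, h1]
    simp only [map_sub, map_add, PowerSeries.coeff_C_mul, coeff_X_deriv, PowerSeries.coeff_derivative]
    ring
  · rw [pc_eq, pc_eq, pc_eq, h2, ← hP]
    simp only [map_sub, map_add, add_mul, PowerSeries.coeff_C_mul, coeff_X_deriv, PowerSeries.coeff_succ_X_mul,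
      PowerSeries.coeff_derivative]
    push_cast
    ring
  · rw [pc_eq, pc_eq, h2]
    simp only [map_sub, map_add, PowerSeries.coeff_C_mul, PowerSeries.coeff_zero_X_mul]
    push_cast
    ring

/-- the terms of the form are summable -/
theorem sumBB (h : S_dec) {θ lam : ℝ} (hθ : 0 < θ) (hθ1 : θ < 1) (hl : 0 < lam) (N : ℕ) (p q : Polynomial ℂ) :
    Summable (fun m : ℕ => ((((N : ℝ) - m - θ) * om (lam + 2 * θ) m : ℝ) : ℂ) *
      ((starRingEnd ℂ) (pc θ p m) * pc θ q m)) := by
  have h1 := ((h θ lam hθ hθ1 hl p q).1).mul_left ((N : ℝ) + 1)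
  refine Summable.of_norm_bounded h1 fun m => ?_
  have hom := om_pos (μ := lam + 2 * θ) (by positivity) m
  rw [norm_mul, norm_mul, Complex.norm_real, RCLike.norm_conj, norm_mul, Real.norm_of_nonneg hom.le,
    Real.norm_eq_abs]
  have h2 : |(N : ℝ) - m - θ| ≤ ((N : ℝ) + 1) * ((m : ℝ) + 1) := by
    have hN : (0 : ℝ) ≤ N := Nat.cast_nonneg N
    have hm : (0 : ℝ) ≤ m := Nat.cast_nonneg m
    rw [abs_le]
    constructor <;> nlinarith [mul_nonneg hN hm]
  calc |(N : ℝ) - m - θ| * om (lam + 2 * θ) m * (‖pc θ p m‖ * ‖pc θ q m‖)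
      ≤ ((N : ℝ) + 1) * ((m : ℝ) + 1) * om (lam + 2 * θ) m * (‖pc θ p m‖ * ‖pc θ q m‖) := by
        refine mul_le_mul_of_nonneg_right ?_ (by positivity)
        exact mul_le_mul_of_nonneg_right h2 hom.le
    _ = _ := by ring

theorem adj (h : S_dec) : S_adj := by
  intro θ lam hθ hθ1 hl N p q
  set μ : ℝ := lam + 2 * θ with hμ
  have hμ0 : 0 < μ := by positivity
  have hom := om_pos (μ := μ) hμ0.le
  set P : ℕ → ℂ := pc θ p with hP
  set Q : ℕ → ℂ := pc θ q with hQ
  set l : ℕ → ℂ := fun m => (((((N + 1 : ℕ) : ℝ) - m - θ) * om μ m : ℝ) : ℂ) *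
      ((starRingEnd ℂ) (pc θ (Lp θ lam N p) m) * pc θ q m) with hl'
  set r : ℕ → ℂ := fun m => ((((N : ℝ) - m - θ) * om μ m : ℝ) : ℂ) *
      ((starRingEnd ℂ) (pc θ p m) * pc θ (Lm (N + 1) q) m) with hr'
  set V : ℕ → ℂ := fun m => ((((N : ℝ) - m - θ) * om μ m * ((m : ℝ) + 1) : ℝ) : ℂ) *
      ((starRingEnd ℂ) (pc θ p m) * pc θ q (m + 1)) with hV
  have hls : Summable l := sumBB h hθ hθ1 hl (N + 1) (Lp θ lam N p) q
  have hrs : Summable r := sumBB h hθ hθ1 hl N p (Lm (N + 1) q)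
  obtain ⟨c1, c2, c3⟩ := cf θ lam N p
  obtain ⟨d1, -, -⟩ := cf θ lam (N + 1) q
  have hpart : ∀ n : ℕ, ∑ m ∈ Finset.range (n + 1), (l m - r m) = -V n := by
    intro n
    induction n with
    | zero =>
      rw [Finset.sum_range_one, hl', hr', hV]
      simp only
      rw [c3, d1 0]
      simp only [map_mul, map_sub, Complex.conj_ofReal, map_natCast]
      push_cast
      ring
    | succ n ih =>
      rw [Finset.sum_range_succ, ih, hl', hr', hV]
      simp only
      rw [c2 n, d1 (n + 1)]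
      have e1 : ((om μ (n + 1) : ℝ) : ℂ) * ((n : ℂ) + 1 + lam + 2 * θ) = (om μ n : ℂ) * ((n : ℂ) + 1) := by
        have e2 : om μ (n + 1) * ((n : ℝ) + 1 + lam + 2 * θ) = om μ n * ((n : ℝ) + 1) := by
          rw [om_succ]
          have h3 : (n : ℝ) + 1 + μ ≠ 0 := by positivity
          have h4 : (n : ℝ) + 1 + lam + 2 * θ = (n : ℝ) + 1 + μ := by rw [hμ]; ring
          rw [h4]
          field_simp
        exact_mod_cast e2
      simp only [map_mul, map_sub, map_add, map_one, Complex.conj_ofReal, map_natCast, map_ofNat]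
      push_cast
      linear_combination ((N : ℂ) - n - θ) * ((starRingEnd ℂ) (pc θ p n) * pc θ q (n + 1)) * e1
  have hV0 : Tendsto V atTop (𝓝 0) := by
    have h2 := ((h θ lam hθ hθ1 hl p q).2).const_mul ((N : ℝ) + 1)
    rw [mul_zero] at h2
    refine squeeze_zero_norm (fun m => ?_) h2
    rw [hV]
    simp only
    rw [norm_mul, norm_mul, Complex.norm_real, RCLike.norm_conj, norm_mul, norm_mul,
      Real.norm_of_nonneg (hom m).le, Real.norm_of_nonneg (by positivity : (0 : ℝ) ≤ (m : ℝ) + 1), Real.norm_eq_abs]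
    have h3 : |(N : ℝ) - m - θ| ≤ ((N : ℝ) + 1) * ((m : ℝ) + 1) := by
      have hN : (0 : ℝ) ≤ N := Nat.cast_nonneg N
      have hm : (0 : ℝ) ≤ m := Nat.cast_nonneg m
      rw [abs_le]
      constructor <;> nlinarith [mul_nonneg hN hm]
    have := (hom m).le
    calc |(N : ℝ) - m - θ| * om μ m * ((m : ℝ) + 1) * (‖pc θ p m‖ * ‖pc θ q (m + 1)‖)
        ≤ ((N : ℝ) + 1) * ((m : ℝ) + 1) * om μ m * ((m : ℝ) + 1) * (‖pc θ p m‖ * ‖pc θ q (m + 1)‖) := by
          refine mul_le_mul_of_nonneg_right ?_ (by positivity)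
          refine mul_le_mul_of_nonneg_right ?_ (by positivity)
          exact mul_le_mul_of_nonneg_right h3 this
      _ = _ := by ring
  have hlim1 : Tendsto (fun n : ℕ => ∑ m ∈ Finset.range (n + 1), (l m - r m)) atTop (𝓝 (∑' m, (l m - r m))) :=
    (tendsto_add_atTop_iff_nat 1).2 (hls.sub hrs).hasSum.tendsto_sum_nat
  have hlim2 : Tendsto (fun n : ℕ => ∑ m ∈ Finset.range (n + 1), (l m - r m)) atTop (𝓝 0) := by
    simp_rw [hpart]
    simpa using hV0.neg
  have h3 := tendsto_nhds_unique hlim1 hlim2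
  rw [hls.tsum_sub hrs] at h3
  exact sub_eq_zero.1 h3

end Q90.HS
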