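import Mathlib
import Pool.Agent.Q90.SM.Def

/-! Definitions for the power area inequality (Prawitz, Hedenmalm and Shimorin) in coefficient form. -/

set_option autoImplicit false
open Complex Filter Topology Set Metric MeasureTheory

namespace Q90.HS

/-- `(θ)_j / j!`, the coefficients of `(1 - v) ^ (-θ)`. -/
noncomputable def aa (θ : ℝ) (j : ℕ) : ℝ := ∏ i ∈ Finset.range j, (θ + i) / (i + 1)

/-- `m! / (1 + μ)_m`. -/
noncomputable def om (μ : ℝ) (m : ℕ) : ℝ := ∏ i ∈ Finset.range m, ((i : ℝ) + 1) / (i + 1 + μ)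

/-- The coefficients of `p(v) (1 - v) ^ (-θ)`. -/
noncomputable def pc (θ : ℝ) (p : Polynomial ℂ) (m : ℕ) : ℂ :=
  ∑ l ∈ Finset.range (m + 1), p.coeff l * (aa θ (m - l) : ℂ)

/-- The quadratic form. -/
noncomputable def QQ (θ μ : ℝ) (N : ℕ) (p : Polynomial ℂ) : ℝ :=
  ∑' m : ℕ, ((N : ℝ) - m - θ) * om μ m * ‖pc θ p m‖ ^ 2

/-- Its polarisation. -/
noncomputable def BB (θ μ : ℝ) (N : ℕ) (p q : Polynomial ℂ) : ℂ :=
  ∑' m : ℕ, ((((N : ℝ) - m - θ) * om μ m : ℝ) : ℂ) * ((starRingEnd ℂ) (pc θ p m) * pc θ q m)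

/-- The lowering operator from degree `≤ N` to degree `≤ N - 1`. -/
noncomputable def Lm (N : ℕ) (p : Polynomial ℂ) : Polynomial ℂ :=
  Polynomial.C (N : ℂ) * p + (1 - Polynomial.X) * Polynomial.derivative p

/-- The raising operator from degree `≤ N` to degree `≤ N + 1`. -/
noncomputable def Lp (θ lam : ℝ) (N : ℕ) (p : Polynomial ℂ) : Polynomial ℂ :=
  Polynomial.C (((N : ℝ) - θ : ℝ) : ℂ) * p - Polynomial.X * (1 - Polynomial.X) * Polynomial.derivative p +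
    Polynomial.C ((lam + 1 + θ : ℝ) : ℂ) * Polynomial.X * p

/-- The array of the coefficients of a holomorphic function `∑ φ k l z^k ζ^l` in the bidisc. -/
def IsArr (φ : ℕ → ℕ → ℂ) : Prop :=
  ∀ r : ℝ, 0 < r → r < 1 → ∃ C : ℝ, ∀ k l : ℕ, ‖φ k l‖ * r ^ (k + l) ≤ C

/-- The part of degree `N`, a polynomial in `v = ζ / z`. -/
noncomputable def pN (φ : ℕ → ℕ → ℂ) (N : ℕ) : Polynomial ℂ :=
  ∑ l ∈ Finset.range (N + 1), Polynomial.C (φ (N - l) l) * Polynomial.X ^ l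

/-- The coefficient of `z^k`, a function of `ζ`. -/
noncomputable def uu (φ : ℕ → ℕ → ℂ) (ζ : ℂ) (k : ℕ) : ℂ := ∑' l : ℕ, φ k l * ζ ^ l

/-- The area inequality for `(∑ φ k l z^k ζ^l) (1 - ζ / z) ^ (-θ)` as a function of `z` on `|z| = R`. -/
def AreaI (θ : ℝ) (φ : ℕ → ℕ → ℂ) : Prop :=
  ∀ (ζ : ℂ) (R : ℝ), ζ ≠ 0 → ‖ζ‖ < R → R < 1 →
    ∑' n : ℕ, (n : ℝ) * ‖∑' j : ℕ, (aa θ j : ℂ) * ζ ^ j * uu φ ζ (n + j)‖ ^ 2 * R ^ (2 * n) ≤
    ∑' k : ℕ, (k : ℝ) * ‖∑' j : ℕ, (aa θ (k + j) : ℂ) * ζ ^ (k + j) * uu φ ζ j‖ ^ 2 * (R⁻¹) ^ (2 * k)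

end Q90.HS
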