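import Mathlib
import Pool.Agent.Q90.HS.Def

/-! Statements of the lemmas for the power area inequality. Throughout `μ = λ + 2θ`, `0 < θ < 1`, `0 < λ`. -/

set_option autoImplicit false
open Complex Filter Topology Set Metric MeasureTheory

namespace Q90.HS

open Pool.Agent.TH325.SI (mn em la)
open Pool.Agent.H713R2 (tc)
open Pool.Agent.W677.Mar (Sg NN)
open Q90.SM (FF)

/-- **Decay** (job HS1).  Proof. With `a_j = aa θ j`, `ω_m = om μ m`: `a_{j+1} = a_j (θ + j)/(j + 1)`, so `a` is antitone, positive and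
`a_{j+1} ≥ θ a_j`; hence `‖pc θ p m‖ ≤ (∑_{l ≤ deg p} ‖p_l‖ θ^{-l}) a_m` (for `l ≤ m`, `a_{m-l} ≤ θ^{-l} a_m`) and
`‖pc θ q (m+1)‖ ≤ C a_m`. So it is enough that `∑ (m+1) ω_m a_m² < ∞` and `(m+1)² ω_m a_m² → 0`.
Put `B_m = (m+1)² ω_m a_m²`. Then `B_{m+1}/B_m = (m+2)² (m+θ)² / ((m+1)³ (m+1+μ))`, and for all large `m` one has
`B_m - B_{m+1} ≥ (λ/2) B_m/(m+1)` (the ratio is `1 - λ/m + O(1/m²)`; a polynomial inequality in `m`). So `B` is eventually antitone and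
nonnegative, it converges to some `L ≥ 0`, and `∑ B_m/(m+1) < ∞` by telescoping. If `L > 0`, then `B_m/(m+1) ≥ L/(m+1)` eventually, which is
not summable; so `L = 0`. -/
def S_dec : Prop := ∀ (θ lam : ℝ), 0 < θ → θ < 1 → 0 < lam → ∀ p q : Polynomial ℂ,
  Summable (fun m : ℕ => ((m : ℝ) + 1) * om (lam + 2 * θ) m * (‖pc θ p m‖ * ‖pc θ q m‖)) ∧
  Tendsto (fun m : ℕ => ((m : ℝ) + 1) ^ 2 * om (lam + 2 * θ) m * (‖pc θ p m‖ * ‖pc θ q (m + 1)‖)) atTop (𝓝 0)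

/-- **Coefficients of `L_- p` and `L_+ p`** (job HS2).  Write `P_m = pc θ p m`. Proof. In `PowerSeries ℂ` let `A = mk (fun j => aa θ j)`; the
recursion gives `(1 - X) A' = θ A` (coefficientwise `(m+1) a_{m+1} - m a_m = θ a_m`). `P = p A`, so `(1 - X) P' = (1 - X) p' A + θ P`, hence
`(L_- p) A = (N - θ) P + (1 - X) P'` and `(L_+ p) A = (N - θ) P - X (1 - X) P' + (λ + 1 + 2θ) X P`. Compare coefficients. (Or direct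
manipulation of the sums `pc`.) -/
def S_cf : Prop := ∀ (θ lam : ℝ) (N : ℕ) (p : Polynomial ℂ),
  (∀ m : ℕ, pc θ (Lm N p) m = ((m : ℂ) + 1) * pc θ p (m + 1) + ((N : ℂ) - m - θ) * pc θ p m) ∧
  (∀ m : ℕ, pc θ (Lp θ lam N p) (m + 1) = ((N : ℂ) - (m + 1) - θ) * pc θ p (m + 1) + ((m : ℂ) + 1 + lam + 2 * θ) * pc θ p m) ∧
  pc θ (Lp θ lam N p) 0 = ((N : ℂ) - θ) * pc θ p 0

/-- **Adjointness** (job HS2).  Proof. `P_m = pc θ p m`, `Q_m = pc θ q m`, `ω_m = om μ m`, `μ = λ + 2θ`, `ω_{m+1} (m+1+μ) = ω_m (m+1)`.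
By `S_cf` the `m`-th terms of the two sides are `(N+1-m-θ) ω_m conj((N-m-θ) P_m + (m+μ) P_{m-1}) Q_m` (with `P_{-1} = 0`) and
`(N-m-θ) ω_m conj(P_m) ((m+1) Q_{m+1} + (N+1-m-θ) Q_m)`. The partial sums over `m ≤ M` differ by `(N-M-θ) ω_M (M+1) conj(P_M) Q_{M+1}`
(as `(N+1-m-θ) ω_m (m+μ) = (N-(m-1)-θ) ω_{m-1} m`), which tends to `0` by `S_dec`. Both series are summable by `S_dec` (applied to the
polynomials `L_+ p, q` and `p, L_- q`). -/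
def S_adj : Prop := ∀ (θ lam : ℝ), 0 < θ → θ < 1 → 0 < lam → ∀ (N : ℕ) (p q : Polynomial ℂ),
  BB θ (lam + 2 * θ) (N + 1) (Lp θ lam N p) q = BB θ (lam + 2 * θ) N p (Lm (N + 1) q)

/-- **The sums for `(1 - v)^N`** (job HS3).  Proof. `pc θ ((1-X)^N) m` is the coefficient `c_m(b) = ∏_{i<m} (i - b)/(i + 1)` of `(1 - v)^b`,
`b = N - θ` (induction on `N`: `c_{m+1}(b+1) = c_{m+1}(b) - c_m(b)`, `c_m(-θ) = aa θ m`). Since `(b - m) c_m(b)² = b c_m(b) d_m(b)` with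
`d_m(b) = ∏_{i<m} (i + 1 - b)/(i + 1)`, the `m`-th term of `QQ` is `b T_m(b)`, where
`T_m(b) = ∏_{i<m} (i - b)(i + 1 - b)/((i + 1 + μ)(i + 1))`. Put `S(b) = ∑ T_m(b)`.
(i) `T_m(-θ) > 0`, so `QQ .. 0 1 = -θ S(-θ) < 0`.
(ii) Recurrence `(1+μ+b)(μ+b) S(b+1) = (μ+2b)(μ+2b+1) S(b)` for `b = N - θ`, `N ≥ 0`: indeed `T_m(b+1) (m-b-1)(m-b) = b (b+1) T_m(b)`
(the factors `m-b-1`, `m-b` are nonzero as `b` is not an integer) and with `U_m = m (m+μ) q(m) T_m(b)/((m-b)(m-b-1))`,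
`q(m) = (μ+2b+1) m - b (2μ+3b+1) - (μ+2b+1)`, one has
`(1+μ+b)(μ+b) T_m(b+1) - (μ+2b)(μ+2b+1) T_m(b) = U_{m+1} - U_m`, `U_0 = 0`, `U_{m+1} = T_m(b) q(m+1)`, because
`(1+μ+b)(μ+b) b (b+1) - (μ+2b)(μ+2b+1)(m-b)(m-b-1) = q(m+1)(m-b)(m-b-1) - m (m+μ) q(m)` (ring) and
`T_{m+1}(b) (m+1+μ)(m+1) = T_m(b) (m-b)(m+1-b)`. `U_m → 0` because `m T_m(b) → 0`: for `b = -θ`, `T_m(-θ) = (m+θ)/θ ω_m a_m²`, so this is
`S_dec` with `p = q = 1` (`pc θ 1 m = aa θ m`; `aa θ (m+1) ≥ θ aa θ m`), and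
`|T_m(b+1)| ≤ C |T_m(b)|/(m+1)²`.
(iii) So `S(N - θ) > 0` for all `N` (all the factors in (ii) are positive: for `N = 0` they are `(1+λ+θ)(λ+θ)` and `λ (λ+1)`), and
`QQ .. (N+1) ((1-X)^(N+1)) = (N+1-θ) S(N+1-θ) > 0`, and the last identity is (ii) with `b = -θ`. -/
def S_gs : Prop := ∀ (θ lam : ℝ), 0 < θ → θ < 1 → 0 < lam →
  QQ θ (lam + 2 * θ) 0 1 < 0 ∧
  (∀ N : ℕ, 0 < QQ θ (lam + 2 * θ) (N + 1) ((1 - Polynomial.X) ^ (N + 1))) ∧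
  QQ θ (lam + 2 * θ) 1 (1 - Polynomial.X) * (θ * ((lam + θ) * (lam + θ + 1))) =
    -(QQ θ (lam + 2 * θ) 0 1) * ((1 - θ) * (lam * (lam + 1)))

/-- **Positivity** (job HS4).  Proof, by strong induction on `N`; write `B_N = BB .. N` (hermitian, `B_N(p,p) = QQ .. N p`, sesquilinear; all the
series converge absolutely by `S_dec`). `N = 0`: `p = 0`. Step to `N + 1`, `M = N + 1`: the polynomials of degree `≤ M` that vanish at `1` are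
`x (1-X)^M + L_+ q`, `x ∈ ℂ`, `deg q ≤ N`, `q(1) = 0`. Indeed `L_+` maps degree `≤ N` to degree `≤ N+1`, `(L_+ q)(1) = (N + λ + 1) q(1)`
(with the parameter `N` of `Lp θ lam N`); it is injective there because
`B_{N+1}(L_+ q, L_+ q') = B_N(q, L_- L_+ q')` and `L_- L_+ - L_+ L_- = 2N + λ + 1` on degree `≤ N` (that is
`Lm (N+1) (Lp θ lam N q) = Lp θ lam (N-1) (Lm N q) + (2N+λ+1) q`, a polynomial identity, valid for every `q` when `N ≥ 1`; for `N = 0`, `q`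
constant, `Lm 1 (Lp θ lam 0 q) = (λ+1) q`), so that `L_- L_+` has the eigenvalues `(N+1-n)(N+1+n+λ) > 0` on the flag of the polynomials
divisible by `(1-X)^n` (or: the leading coefficient of `L_+ q` is `(deg q + λ + 1 + θ)` times that of `q`, of degree `deg q + 1`, which gives
injectivity at once). And `(1-X)^M` is not `L_+ q`: `L_- (1-X)^M = 0`, so `B_M((1-X)^M, L_+ q) = 0` by `S_adj` while `B_M((1-X)^M, (1-X)^M) > 0`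
by `S_gs`. Count dimensions (or, directly: given `p` with `deg p ≤ M`, subtract `L_+ q` to make the polynomial constant and then compare the
constant with `(1-X)^M`; `1` is not in the image of `L_+`). Now
`QQ M (x (1-X)^M + L_+ q) = |x|² QQ M ((1-X)^M) + B_M(L_+ q, L_+ q)` and
`B_M(L_+ q, L_+ q) = B_N(q, L_- L_+ q) = (2N+λ+1) QQ N q + B_N(q, L_+ L_- q) = (2N+λ+1) QQ N q + QQ (N-1) (L_- q)` (the last term absent for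
`N = 0`), where `(L_- q)(1) = N q(1) = 0` and `deg L_- q ≤ N - 1`. Both are `≥ 0` by induction. -/
def S_pos : Prop := ∀ (θ lam : ℝ), 0 < θ → θ < 1 → 0 < lam → ∀ (N : ℕ) (p : Polynomial ℂ), p.natDegree ≤ N → p.eval 1 = 0 →
  0 ≤ QQ θ (lam + 2 * θ) N p

/-- **The lower bound** (job HS5).  Proof. `e_N = L_+^N 1` (`e_0 = 1`, `e_{N+1} = Lp θ lam N e_N`), `f_1 = 1 - X`, `f_{N+1} = Lp θ lam N f_N`
(`N ≥ 1`). By induction (`(L_+ p)(1) = (N+λ+1) p(1)`, `(L_+ p)'(1) = (N+λ+2) p'(1) + (λ+1+θ) p(1)`): `e_N(1) = (λ+1)_N`,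
`e_N'(1) = ((λ+1+θ) N/(λ+1)) e_N(1)`, `f_N(1) = 0`, `f_N'(1) = -(λ+3)_{N-1}`.
`L_- e_N = N (N+λ) e_{N-1}` (`N ≥ 1`), `L_- f_N = (N-1)(N+1+λ) f_{N-1}` (`N ≥ 2`), `L_- 1 = 0` at level `0`, `L_- f_1 = 0`: induction with
`L_- L_+ - L_+ L_- = 2N + λ + 1` at level `N`. So by `S_adj`, `QQ N e_N = N! (λ+1)_N QQ 0 1`, `QQ N f_N = (N-1)! (λ+3)_{N-1} QQ 1 (1-X)`, and
`B_N(e_N, r) = B_0(1, L_-^N r) = 0` if `r(1) = 0` (`(L_- r)(1) = N r(1)`, and a polynomial of degree `≤ 0` vanishing at `1` is `0`),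
`B_N(f_N, r) = B_1(1-X, L_-^{N-1} r) = 0` if `r(1) = r'(1) = 0` (`(L_- r)'(1) = (N-1) r'(1)` at level `N`), `B_N(e_N, f_N) = 0`.
For `p` of degree `≤ N`, `N ≥ 1`, write `p = x e_N + y f_N + r`, `x = p(1)/(λ+1)_N`, `y = -(p'(1) - ((λ+1+θ) N/(λ+1)) p(1))/(λ+3)_{N-1}`; then
`QQ N p = |x|² QQ N e_N + |y|² QQ N f_N + QQ N r` and `QQ N r ≥ 0` by `S_pos`. With `Q0 = -QQ 0 1 > 0` and the value of `QQ 1 (1-X)` from `S_gs`,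
`om lam N = N!/(λ+1)_N` and `(N-1)!/(λ+3)_{N-1} = om lam N (λ+1)(λ+2)/(N (N+λ+1))`, this is the claim. `N = 0`: equality. -/
def S_alg : Prop := ∀ (θ lam : ℝ), 0 < θ → θ < 1 → 0 < lam → ∃ Q0 : ℝ, 0 < Q0 ∧ ∀ (N : ℕ) (p : Polynomial ℂ), p.natDegree ≤ N →
  Q0 * om lam N * ((1 - θ) / θ * (lam * (lam + 2) * (lam + 1) ^ 2) / ((lam + θ) * (lam + θ + 1)) *
      ‖(Polynomial.derivative p).eval 1 - (((lam + 1 + θ) * N / (lam + 1) : ℝ) : ℂ) * p.eval 1‖ ^ 2 / (N * (N + lam + 1)) -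
    ‖p.eval 1‖ ^ 2) ≤ QQ θ (lam + 2 * θ) N p

/-- **Binomial series** (job HS6). -/
def S_bin : Prop := ∀ (θ : ℝ) (w : ℂ), ‖w‖ < 1 →
  HasSum (fun j : ℕ => (aa θ j : ℂ) * w ^ j) (Complex.exp (-(θ : ℂ) * Complex.log (1 - w)))

/-- **The power area inequality, functional form** (job HS6).  Proof. Library: `Pool.Agent.W677.Mar.t1, t2, t3, phi_deriv` (files
`Pool/Agent/W677/MarG1.lean, MarG3.lean`; model: `area_log` in `MarG3.lean`). Let `Ψ z = A z + ∑' k, de ζ k (z⁻¹)^k`, `G z = Y z / z`,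
`w(z) = (Y ζ/ζ - G z)⁻¹`. On `‖ζ‖ < ‖z‖ < 1`, `Ψ' = -w G'` (`phi_deriv`), so `φ = exp(-θ Ψ)` has `φ' = Q G'` with `Q = θ w exp(-θ Ψ)`. By `t3 t1`
it is enough that `Q` is a uniform limit on `|z| = R` of polynomials in `G`. `w` is (`t2`). If `q` is a polynomial with `|q(G) + w| ≤ δ` on the
circle and `V' = q` (`Pool.Agent.H643R3.BomC3.exists_antideriv`), then `θ ↦ Ψ - V(G)` along the circle has derivative `≤ δ R sup |G'|`, so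
`Ψ - V(G)` differs from a constant by at most `2π δ R sup |G'|`: so `Ψ` is a uniform limit of polynomials in `G`. The set of the continuous
functions on the circle that are uniform limits of polynomials in `G` is a closed subalgebra, it contains `exp(-θ Ψ)` and `Q`. -/
def S_areaJ : Prop := ∀ (Y H : ℂ → ℂ), Sg Y H → ∀ ζ : ℂ, ζ ≠ 0 → ∀ A : ℂ → ℂ, DifferentiableOn ℂ A (ball 0 1) →
  (∀ z ∈ ball (0:ℂ) 1, Complex.exp (A z) = NN Y ζ z) → ∀ θ R : ℝ, 0 < θ → ‖ζ‖ < R → R < 1 →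
  Pool.Agent.H33R3.Bom.J R (fun z => Complex.exp (-(θ : ℂ) * (A z + ∑' k : ℕ, Pool.Agent.W677.Mar.de ζ k * (z⁻¹) ^ k)))
    (deriv fun z => Complex.exp (-(θ : ℂ) * (A z + ∑' k : ℕ, Pool.Agent.W677.Mar.de ζ k * (z⁻¹) ^ k))) ≤ 0

/-- **The power area inequality, coefficients** (job HS7, from `S_bin` and `S_areaJ`).  Proof. On the annulus `‖ζ‖ < ‖z‖ < 1` the function of `S_areaJ` is
`exp(-θ A z) (1 - ζ/z)^(-θ) = (∑ u_k z^k)(∑ a_j ζ^j z^{-j})` (`de_hasSum`, `S_bin`) `= ∑_{n ≥ 0} c_n z^n + ∑_{k ≥ 1} d_k z^{-k}`,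
`c_n = ∑_j a_j ζ^j u_{n+j}`, `d_k = ∑_j a_{k+j} ζ^{k+j} u_j` (absolute convergence: for `r < 1`, `|u_k| ≤ C r^{-k}`, and `0 ≤ a_j ≤ 1`), `|d_k| ≤ C ‖ζ‖^k`.
Apply `Pool.Agent.H643R3.BomC4.taskC4` with `Φ z = ∑ c_n z^n`, `r₀ = ‖ζ‖`, `d_0` replaced by `0`; the two functions agree near the circle, so
`J` is the same. -/
def S_area : Prop := ∀ (Y H : ℂ → ℂ), Sg Y H → ∀ ζ : ℂ, ζ ≠ 0 → ∀ A : ℂ → ℂ, DifferentiableOn ℂ A (ball 0 1) →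
  (∀ z ∈ ball (0:ℂ) 1, Complex.exp (A z) = NN Y ζ z) → ∀ θ : ℝ, 0 < θ → θ < 1 → ∀ u : ℕ → ℂ,
  (∀ z ∈ ball (0:ℂ) 1, HasSum (fun k => u k * z ^ k) (Complex.exp (-(θ : ℂ) * A z))) → ∀ R : ℝ, ‖ζ‖ < R → R < 1 →
  ∑' n : ℕ, (n : ℝ) * ‖∑' j : ℕ, (aa θ j : ℂ) * ζ ^ j * u (n + j)‖ ^ 2 * R ^ (2 * n) ≤
  ∑' k : ℕ, (k : ℝ) * ‖∑' j : ℕ, (aa θ (k + j) : ℂ) * ζ ^ (k + j) * u j‖ ^ 2 * (R⁻¹) ^ (2 * k)

/-- **Coefficients in the bidisc** (job HS8).  Proof. For `r < 1` let `M` bound `‖Φ‖` on the compact `{|ζ|,|z| ≤ r'}`, `r < r' < 1`. `u_k(ζ) = (2πi)⁻¹ ∮ Φ(ζ,z) z^{-k-1} dz` over `|z| = r'`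
(Mathlib's Cauchy coefficients of `Φ(ζ,·)`, independent of `r'`) is holomorphic in `ζ` on `|ζ| < 1` (differentiation under the integral, or a
locally uniform limit/`hasFDerivAt_integral`, or Morera), and `|u_k(ζ)| ≤ M r'^{-k}` for `|ζ| ≤ r'`; `φ k l` = the `l`-th Taylor coefficient of `u_k`,
`|φ k l| ≤ M r'^{-k-l}`. Absolute convergence of the double series and the two one-variable expansions give the sum. -/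
def S_coef : Prop := ∀ Φ : ℂ × ℂ → ℂ, ContinuousOn Φ (ball 0 1 ×ˢ ball 0 1) →
  (∀ ζ ∈ ball (0:ℂ) 1, DifferentiableOn ℂ (fun z => Φ (ζ, z)) (ball 0 1)) →
  (∀ z ∈ ball (0:ℂ) 1, DifferentiableOn ℂ (fun ζ => Φ (ζ, z)) (ball 0 1)) →
  ∃ φ : ℕ → ℕ → ℂ, IsArr φ ∧ ∀ ζ ∈ ball (0:ℂ) 1, ∀ z ∈ ball (0:ℂ) 1,
    HasSum (fun y : ℕ × ℕ => φ y.1 y.2 * z ^ y.1 * ζ ^ y.2) (Φ (ζ, z))

/-- **The diagonal** (job HS9).  Proof. `(pN φ N).eval 1 = ∑_{k+l=N} φ k l`, `(derivative (pN φ N)).eval 1 = ∑_{k+l=N} l φ k l`. The first sum is the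
rearrangement of the double series at `ζ = z = v` by `N = k + l`. For the second, `ζ ↦ Φ(ζ,v) = ∑_l (∑_k φ k l v^k) ζ^l` is a power series;
differentiate termwise at `ζ = v` and multiply by `v`, then rearrange `∑ l φ k l v^{k+l}` (absolutely convergent by `IsArr`). -/
def S_der : Prop := ∀ (Φ : ℂ × ℂ → ℂ) (φ : ℕ → ℕ → ℂ), IsArr φ → (∀ ζ ∈ ball (0:ℂ) 1, ∀ z ∈ ball (0:ℂ) 1,
    HasSum (fun y : ℕ × ℕ => φ y.1 y.2 * z ^ y.1 * ζ ^ y.2) (Φ (ζ, z))) → ∀ v ∈ ball (0:ℂ) 1,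
  HasSum (fun N : ℕ => (pN φ N).eval 1 * v ^ N) (Φ (v, v)) ∧
  HasSum (fun N : ℕ => (Polynomial.derivative (pN φ N)).eval 1 * v ^ N) (v * deriv (fun ζ => Φ (ζ, v)) v)

/-- **The coefficients on the diagonal** (job HS10, from `S_coef`, `S_der`).  Proof. `f(v,v) = H v` (`exp_unique`, as in `goluzin` in
`Pool/Agent/W677/MarG3.lean`), so `Φ(v,v) = exp(σ H v)`; the first claim is the uniqueness of Taylor coefficients (`tc`). `f` is symmetric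
(`NN Y ζ z = NN Y z ζ` and `exp_unique` on the product, `f(0,0) = 0`), it is separately holomorphic (`log_diff`, `NN_diff`), so by `S_coef` it
has an array `g`, symmetric by uniqueness, so `2 (derivative (pN g N)).eval 1 = 2 ∑_{k+l=N} l g k l = N ∑_{k+l=N} g k l`, and by `S_der` for `f`,
`2 v ∂_1 f(v,v) = ∑ N h_N v^N = v H'(v)`, where `H = ∑ h_N v^N`. By the chain rule
`v ∂_ζ Φ(ζ,v)|_{ζ=v} = (-θ/2 + θ + σ) v H'(v) exp(σ H v)`, and `σ v H' exp(σ H) = v (exp(σ H))' = ∑ N c_N v^N`. Compare with `S_der` for `Φ`. -/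
def S_diag : Prop := ∀ (Y H : ℂ → ℂ), Sg Y H → ∀ f : ℂ × ℂ → ℂ, ContinuousOn f (ball 0 1 ×ˢ ball 0 1) →
  (∀ ζ ∈ ball (0:ℂ) 1, ∀ z ∈ ball (0:ℂ) 1, Complex.exp (f (ζ, z)) = NN Y ζ z) → (∀ ζ ∈ ball (0:ℂ) 1, f (ζ, 0) = 0) →
  ∀ (θ : ℝ) (σ : ℂ) (φ : ℕ → ℕ → ℂ), IsArr φ → (∀ ζ ∈ ball (0:ℂ) 1, ∀ z ∈ ball (0:ℂ) 1,
    HasSum (fun y : ℕ × ℕ => φ y.1 y.2 * z ^ y.1 * ζ ^ y.2) (Complex.exp (-(θ : ℂ) * f (ζ, z) + (θ + σ) * H ζ))) → ∀ N : ℕ,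
  (pN φ N).eval 1 = tc (fun v => Complex.exp (σ * H v)) N ∧
  σ * (Polynomial.derivative (pN φ N)).eval 1 = (θ / 2 + σ) * N * tc (fun v => Complex.exp (σ * H v)) N

/-- **Beta integrals** (job HS11).  Proof. `om ν m = ν ∫_0^1 x^m (1-x)^{ν-1} dx` (integration by parts or `Complex.betaIntegral`/Gamma functions). The
first: integrate `∑ G_m x^m` termwise against `(1-x)^{ν-1}` (dominated: `∑ |G_m| om ν m < ∞`). The second: `∑ w_m om ν m = ν ∫ (∑ w_m x^m)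
(1-x)^{ν-1} ≤ ν ∫ (1-x)^{ν-1-τ}` (monotone convergence). The third: `ν ∫_{x}^1 y^m (1-y)^{ν-1} dy ≥ x^m (1-x)^ν`. -/
def S_beta : Prop := ∀ ν : ℝ, 0 < ν →
  (∀ G : ℕ → ℝ, Summable (fun m => |G m| * om ν m) → (∀ x : ℝ, 0 < x → x < 1 → ∑' m, G m * x ^ m ≤ 0) →
    ∑' m, G m * om ν m ≤ 0) ∧
  (∀ (w : ℕ → ℝ) (τ : ℝ), 0 ≤ τ → τ < ν → (∀ m, 0 ≤ w m) →
    (∀ x : ℝ, 0 < x → x < 1 → Summable (fun m => w m * x ^ m) ∧ ∑' m, w m * x ^ m ≤ (1 - x) ^ (-τ)) →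
    Summable (fun m => w m * om ν m) ∧ ∑' m, w m * om ν m ≤ ν / (ν - τ)) ∧
  (∀ (m : ℕ) (x : ℝ), 0 < x → x < 1 → x ^ m * (1 - x) ^ ν ≤ om ν m)

/-- **Summability** (job HS12).  Proof. `pc θ (pN φ N) m = ∑_{l ≤ min(m,N)} φ (N-l) l a_{m-l}`. Choose `R < r < 1`, `‖φ k l‖ ≤ C r^{-(k+l)}`, so
`‖pc θ (pN φ N) m‖ ≤ C r^{-N} (N+1) max_{l ≤ min(m,N)} a_{m-l}`. `a` is antitone with `0 ≤ a ≤ 1` and `a_{m-l} ≤ 3 a_m` if `2l ≤ m`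
(`a_m ≥ a_j ∏_{i=j}^{m-1} i/(i+1) = a_j j/m` for `j ≥ 1`). So for `m ≤ 2N` the max is `≤ 1`, and for `m ≥ 2N` it is `≤ 3 a_m`; the sum over `m` is
`≤ C² r^{-2N} (N+1)² ((2N+1)(3N+1) + 9 ∑_m (N+m+1) ω_m a_m²)` (`∑ (m+1) ω_m a_m² < ∞` is `S_dec` with `p = q = 1`), and `∑_N (R/r)^{2N} N^4 < ∞`. -/
def S_sum : Prop := ∀ (θ lam : ℝ), 0 < θ → θ < 1 → 0 < lam → ∀ φ : ℕ → ℕ → ℂ, IsArr φ → ∀ R : ℝ, 0 < R → R < 1 →
  Summable (fun y : ℕ × ℕ => R ^ (2 * y.1) * ((y.1 : ℝ) + y.2 + 1) * om (lam + 2 * θ) y.2 * ‖pc θ (pN φ y.1) y.2‖ ^ 2)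

/-- **Averaging over `|ζ| = R √x`** (job HS13).  Proof. `P(N,m) = pc θ (pN φ N) m = ∑_{l ≤ min(m,N)} φ (N-l) l a_{m-l}`, `ρ = R √x`. For `|ζ| < R` one has
`∑_j a_j ζ^j u_{n+j}(ζ) = ∑_m P(n+m, m) ζ^m` and `∑_j a_{k+j} ζ^{k+j} u_j(ζ) = ∑_{N} P(N, N+k) ζ^{N+k}` (`u = uu φ ζ`; absolutely convergent double series).
Integrate `AreaI` over `|ζ| = ρ` (Parseval: `Pool.Agent.Helper405.Area.parseval`, or `Pool.Agent.W677.Mar.mean_sq` applied to `ζ ↦ ∑_m P(n+m,m) (ρ'ζ)^m`);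
the terms are dominated: with `R < r < 1`, `‖φ k l‖ ≤ C r^{-(k+l)}`, `0 ≤ a ≤ 1`, `|∑_j a_j ζ^j u_{n+j}| ≤ C' r^{-n}`, `|∑_j a_{k+j} ζ^{k+j} u_j| ≤ C' ρ^k`. Result:
`∑_n n R^{2n} ∑_m |P(n+m,m)|² ρ^{2m} ≤ ∑_k k R^{-2k} ∑_N |P(N,N+k)|² ρ^{2(N+k)}`, that is
`∑_{N ≥ m} (N-m) R^{2N} x^m |P(N,m)|² ≤ ∑_{m ≥ N} (m-N) R^{2N} x^m |P(N,m)|²`. The summability: `|P(N,m)| ≤ C (N+1) r^{-N}`. -/
def S_avgx : Prop := ∀ (θ : ℝ), 0 < θ → θ < 1 → ∀ φ : ℕ → ℕ → ℂ, IsArr φ → AreaI θ φ → ∀ R x : ℝ, 0 < R → R < 1 → 0 < x → x < 1 →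
  Summable (fun y : ℕ × ℕ => R ^ (2 * y.1) * ((y.1 : ℝ) + y.2) * x ^ y.2 * ‖pc θ (pN φ y.1) y.2‖ ^ 2) ∧
  ∑' y : ℕ × ℕ, R ^ (2 * y.1) * ((y.1 : ℝ) - y.2) * x ^ y.2 * ‖pc θ (pN φ y.1) y.2‖ ^ 2 ≤ 0

/-- **Averaging with the weight `(1 - x)^(μ - 1)`** (job HS14, from `S_dec`, `S_beta`, `S_sum`, `S_avgx`).  Proof. `G_m = ∑_N R^{2N} (N - m) |P(N,m)|²`. `∑ |G_m| ω_m < ∞`
by `S_sum`; `∑ G_m x^m ≤ 0` by `S_avgx` (Fubini for the absolutely summable double series); so `∑ G_m ω_m ≤ 0` by the first part of `S_beta` with `ν = μ`.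
By Fubini again `∑_N R^{2N} ∑_m (N-m) ω_m |P(N,m)|² ≤ 0`, and `QQ .. N (pN φ N) ≤ ∑_m (N-m) ω_m |P(N,m)|²`. -/
def S_avg : Prop := ∀ (θ lam : ℝ), 0 < θ → θ < 1 → 0 < lam → ∀ φ : ℕ → ℕ → ℂ, IsArr φ → AreaI θ φ → ∀ R : ℝ, 0 < R → R < 1 →
  Summable (fun N : ℕ => R ^ (2 * N) * QQ θ (lam + 2 * θ) N (pN φ N)) ∧
  ∑' N : ℕ, R ^ (2 * N) * QQ θ (lam + 2 * θ) N (pN φ N) ≤ 0

/-- The inequality for the Taylor coefficients of `exp (t H / 2)`. -/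
def S_star : Prop := ∀ (Y H : ℂ → ℂ), Sg Y H → ∀ t : ℂ, t ≠ 0 → ∀ θ lam : ℝ, 0 < θ → θ < 1 → 0 < lam → ∀ R : ℝ, 0 < R → R < 1 →
  ∑' N : ℕ, R ^ (2 * N) * ‖tc (FF t H) N‖ ^ 2 * om lam N *
    ((N : ℝ) / (N + lam + 1) * (lam * (lam + 2) * ‖((lam + 1 : ℝ) : ℂ) - t‖ ^ 2 * (θ * (1 - θ))) -
      ‖t‖ ^ 2 * ((lam + θ) * (lam + θ + 1))) ≤ 0

/-- The growth of the means. -/
def S_grow : Prop := ∀ (Y H : ℂ → ℂ), Sg Y H → ∀ t : ℂ, t ≠ 0 → ∀ θ lam q : ℝ, 0 < θ → θ < 1 → 0 < lam → 0 < q → q < 1 → ‖t‖ < lam + 1 →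
  ‖t‖ ^ 2 * ((lam + θ) * (lam + θ + 1)) ≤ q * (lam * (lam + 2) * ‖((lam + 1 : ℝ) : ℂ) - t‖ ^ 2 * (θ * (1 - θ))) →
  ∀ s : ℝ, 0 < s → s < 1 → mn (FF t H) s ≤ (1 - q)⁻¹ * ((lam + 1) / (lam + 1 - ‖t‖)) * 2 ^ lam * Real.exp (lam * la s)

end Q90.HS
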