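import Mathlib
import Pool.Agent.Q90.HS.Stm

/-! The lower bound for the quadratic form (job HS5, helper251). -/

set_option autoImplicit false
open Complex Filter Topology Set Metric MeasureTheory

namespace Q90.HS

namespace Alg

open Polynomial

theorem pc_add (θ : ℝ) (p q : Polynomial ℂ) (m : ℕ) : pc θ (p + q) m = pc θ p m + pc θ q m := by
  unfold pc
  rw [← Finset.sum_add_distrib]
  refine Finset.sum_congr rfl fun l _ => ?_
  rw [coeff_add, add_mul]

theorem pc_C_mul (θ : ℝ) (c : ℂ) (p : Polynomial ℂ) (m : ℕ) : pc θ (C c * p) m = c * pc θ p m := by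
  unfold pc
  rw [Finset.mul_sum]
  refine Finset.sum_congr rfl fun l _ => ?_
  rw [coeff_C_mul, mul_assoc]

theorem om_nonneg {μ : ℝ} (hμ : 0 < μ) (m : ℕ) : 0 ≤ om μ m :=
  Finset.prod_nonneg fun i _ => by positivity

section

variable {θ lam : ℝ}

theorem bb_sum (hd : S_dec) (h0 : 0 < θ) (h1 : θ < 1) (hl : 0 < lam) (N : ℕ) (p q : Polynomial ℂ) :
    Summable fun m : ℕ => ((((N : ℝ) - m - θ) * om (lam + 2 * θ) m : ℝ) : ℂ) *
      ((starRingEnd ℂ) (pc θ p m) * pc θ q m) := by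
  have hs := (hd θ lam h0 h1 hl p q).1
  refine Summable.of_norm_bounded (hs.mul_left ((N : ℝ) + 1)) fun m => ?_
  have ho := om_nonneg (μ := lam + 2 * θ) (by positivity) m
  rw [norm_mul, norm_mul, RCLike.norm_conj, Complex.norm_real, Real.norm_eq_abs, abs_mul, abs_of_nonneg ho]
  have h2 : |(N : ℝ) - m - θ| ≤ ((N : ℝ) + 1) * ((m : ℝ) + 1) := by
    have hN : (0 : ℝ) ≤ N := Nat.cast_nonneg N
    have hm : (0 : ℝ) ≤ m := Nat.cast_nonneg m
    rw [abs_le]
    constructor <;> nlinarith [mul_nonneg hN hm]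
  calc |(N : ℝ) - m - θ| * om (lam + 2 * θ) m * (‖pc θ p m‖ * ‖pc θ q m‖)
      ≤ (((N : ℝ) + 1) * ((m : ℝ) + 1)) * om (lam + 2 * θ) m * (‖pc θ p m‖ * ‖pc θ q m‖) := by
        gcongr
    _ = _ := by ring

theorem BB_add_right (hd : S_dec) (h0 : 0 < θ) (h1 : θ < 1) (hl : 0 < lam) (N : ℕ) (p q r : Polynomial ℂ) :
    BB θ (lam + 2 * θ) N p (q + r) = BB θ (lam + 2 * θ) N p q + BB θ (lam + 2 * θ) N p r := by
  unfold BB
  rw [← Summable.tsum_add (bb_sum hd h0 h1 hl N p q) (bb_sum hd h0 h1 hl N p r)]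
  refine tsum_congr fun m => ?_
  rw [pc_add]
  ring

theorem BB_add_left (hd : S_dec) (h0 : 0 < θ) (h1 : θ < 1) (hl : 0 < lam) (N : ℕ) (p q r : Polynomial ℂ) :
    BB θ (lam + 2 * θ) N (p + q) r = BB θ (lam + 2 * θ) N p r + BB θ (lam + 2 * θ) N q r := by
  unfold BB
  rw [← Summable.tsum_add (bb_sum hd h0 h1 hl N p r) (bb_sum hd h0 h1 hl N q r)]
  refine tsum_congr fun m => ?_
  rw [pc_add, map_add]
  ring

theorem BB_C_right (μ : ℝ) (N : ℕ) (c : ℂ) (p q : Polynomial ℂ) : BB θ μ N p (C c * q) = c * BB θ μ N p q := by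
  unfold BB
  rw [← tsum_mul_left]
  refine tsum_congr fun m => ?_
  rw [pc_C_mul]
  ring

theorem BB_C_left (μ : ℝ) (N : ℕ) (c : ℂ) (p q : Polynomial ℂ) :
    BB θ μ N (C c * p) q = (starRingEnd ℂ) c * BB θ μ N p q := by
  unfold BB
  rw [← tsum_mul_left]
  refine tsum_congr fun m => ?_
  rw [pc_C_mul, map_mul]
  ring

theorem BB_conj (μ : ℝ) (N : ℕ) (p q : Polynomial ℂ) : (starRingEnd ℂ) (BB θ μ N p q) = BB θ μ N q p := by
  unfold BB
  rw [Complex.conj_tsum]
  refine tsum_congr fun m => ?_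
  rw [map_mul, map_mul, Complex.conj_ofReal, Complex.conj_conj]
  ring

theorem BB_self (μ : ℝ) (N : ℕ) (p : Polynomial ℂ) : BB θ μ N p p = ((QQ θ μ N p : ℝ) : ℂ) := by
  unfold BB QQ
  rw [Complex.ofReal_tsum]
  refine tsum_congr fun m => ?_
  rw [Complex.conj_mul']
  push_cast
  ring

/-! ### the operators -/

theorem comm (N : ℕ) (p : Polynomial ℂ) :
    Lm (N + 2) (Lp θ lam (N + 1) p) = Lp θ lam N (Lm (N + 1) p) + C ((2 * ((N : ℝ) + 1) + lam + 1 : ℝ) : ℂ) * p := by
  unfold Lm Lp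
  simp only [derivative_add, derivative_sub, derivative_mul, derivative_C, derivative_X, derivative_one, zero_mul,
    zero_add, mul_one, one_mul, Nat.cast_add, Nat.cast_one, Nat.cast_ofNat, Complex.ofReal_add, Complex.ofReal_sub,
    Complex.ofReal_mul, Complex.ofReal_natCast, Complex.ofReal_one, Complex.ofReal_ofNat, C_add, C_sub, C_mul, C_1, map_ofNat]
  ring

theorem Lm_C_mul (N : ℕ) (c : ℂ) (p : Polynomial ℂ) : Lm N (C c * p) = C c * Lm N p := by
  unfold Lm
  rw [derivative_C_mul]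
  ring

theorem Lp_C_mul (N : ℕ) (c : ℂ) (p : Polynomial ℂ) : Lp θ lam N (C c * p) = C c * Lp θ lam N p := by
  unfold Lp
  rw [derivative_C_mul]
  ring

theorem Lp_eval (N : ℕ) (p : Polynomial ℂ) : (Lp θ lam N p).eval 1 = ((N + lam + 1 : ℝ) : ℂ) * p.eval 1 := by
  unfold Lp
  simp only [eval_add, eval_sub, eval_mul, eval_C, eval_X, eval_one]
  push_cast
  ring

theorem Lp_der (N : ℕ) (p : Polynomial ℂ) : (derivative (Lp θ lam N p)).eval 1 =
    ((N + lam + 2 : ℝ) : ℂ) * (derivative p).eval 1 + ((lam + 1 + θ : ℝ) : ℂ) * p.eval 1 := by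
  unfold Lp
  simp only [derivative_add, derivative_sub, derivative_mul, derivative_C, derivative_X, derivative_one,
    eval_add, eval_sub, eval_mul, eval_C, eval_X, eval_one, eval_zero]
  push_cast
  ring

theorem Lm_eval (N : ℕ) (p : Polynomial ℂ) : (Lm N p).eval 1 = (N : ℂ) * p.eval 1 := by
  unfold Lm
  simp only [eval_add, eval_sub, eval_mul, eval_C, eval_X, eval_one]
  ring

theorem Lm_der (N : ℕ) (p : Polynomial ℂ) : (derivative (Lm N p)).eval 1 = ((N : ℂ) - 1) * (derivative p).eval 1 := by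
  unfold Lm
  simp only [derivative_add, derivative_sub, derivative_mul, derivative_C, derivative_X, derivative_one,
    eval_add, eval_sub, eval_mul, eval_C, eval_X, eval_one, eval_zero]
  ring

theorem Lm_deg (N : ℕ) (p : Polynomial ℂ) (hp : p.natDegree ≤ N + 1) : (Lm (N + 1) p).natDegree ≤ N := by
  rw [natDegree_le_iff_coeff_eq_zero] at hp ⊢
  intro k hk
  obtain ⟨j, rfl⟩ : ∃ j, k = j + 1 := ⟨k - 1, by omega⟩
  unfold Lm
  have e : (1 - X) * derivative p = derivative p - X * derivative p := by ring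
  rw [e, coeff_add, coeff_sub, coeff_C_mul, coeff_X_mul, coeff_derivative, coeff_derivative, hp (j + 1 + 1) (by omega)]
  rcases Nat.lt_or_ge N j with h | h
  · rw [hp (j + 1) (by omega)]
    ring
  · have : j = N := by omega
    subst this
    push_cast
    ring

theorem Lp_deg (N : ℕ) (p : Polynomial ℂ) (hp : p.natDegree ≤ N) : (Lp θ lam N p).natDegree ≤ N + 1 := by
  rw [natDegree_le_iff_coeff_eq_zero] at hp ⊢
  intro k hk
  obtain ⟨j, rfl⟩ : ∃ j, k = j + 2 := ⟨k - 2, by omega⟩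
  unfold Lp
  have e : ∀ a : ℂ, C a * p - X * (1 - X) * derivative p + C ((lam + 1 + θ : ℝ) : ℂ) * X * p =
      C a * p - X * derivative p + X * (X * derivative p) + X * (C ((lam + 1 + θ : ℝ) : ℂ) * p) := by
    intro a
    ring
  rw [e, coeff_add, coeff_add, coeff_sub, coeff_C_mul, coeff_X_mul, coeff_X_mul, coeff_X_mul, coeff_X_mul, coeff_C_mul,
    coeff_derivative, coeff_derivative, hp (j + 2) (by omega), hp (j + 1) (by omega)]
  ring

/-! ### the two flags -/

variable (θ lam) in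
/-- `e_N` -/
noncomputable def ee : ℕ → Polynomial ℂ
  | 0 => 1
  | N + 1 => Lp θ lam N (ee N)

variable (θ lam) in
/-- `f_(n+1)` -/
noncomputable def ff : ℕ → Polynomial ℂ
  | 0 => 1 - X
  | n + 1 => Lp θ lam (n + 1) (ff n)

theorem Lm_ee (N : ℕ) : Lm (N + 1) (ee θ lam (N + 1)) = C ((((N : ℝ) + 1) * ((N : ℝ) + 1 + lam) : ℝ) : ℂ) * ee θ lam N := by
  induction N with
  | zero =>
    show Lm 1 (Lp θ lam 0 1) = C _ * 1
    unfold Lm Lp
    simp only [derivative_add, derivative_sub, derivative_mul, derivative_C, derivative_X, derivative_one, zero_mul,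
      zero_add, mul_one, one_mul, Nat.cast_one, CharP.cast_eq_zero, Complex.ofReal_add, Complex.ofReal_sub,
      Complex.ofReal_mul, Complex.ofReal_zero, Complex.ofReal_one, Complex.ofReal_neg, C_neg, C_add, C_sub, C_mul, C_1,
      C_0, mul_zero, zero_sub, sub_zero, derivative_neg, neg_zero]
    ring
  | succ N ih =>
    show Lm (N + 2) (Lp θ lam (N + 1) (ee θ lam (N + 1))) = _
    rw [comm, ih, Lp_C_mul]
    show C _ * ee θ lam (N + 1) + _ = _
    rw [← add_mul, ← C_add]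
    congr 2
    push_cast
    ring

theorem Lm_ff_zero : Lm 1 (ff θ lam 0) = 0 := by
  show Lm 1 (1 - X) = 0
  unfold Lm
  simp only [derivative_sub, derivative_one, derivative_X, Nat.cast_one, C_1]
  ring

theorem Lm_ff (n : ℕ) : Lm (n + 2) (ff θ lam (n + 1)) = C ((((n : ℝ) + 1) * ((n : ℝ) + 3 + lam) : ℝ) : ℂ) * ff θ lam n := by
  induction n with
  | zero =>
    show Lm 2 (Lp θ lam 1 (ff θ lam 0)) = _
    have h := comm (θ := θ) (lam := lam) 0 (ff θ lam 0)
    rw [zero_add, zero_add, Lm_ff_zero] at h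
    rw [h]
    have h2 : Lp θ lam 0 0 = 0 := by
      unfold Lp
      simp
    rw [h2, zero_add]
    congr 2
    push_cast
    ring
  | succ n ih =>
    show Lm (n + 1 + 2) (Lp θ lam (n + 1 + 1) (ff θ lam (n + 1))) = _
    rw [comm]
    show Lp θ lam (n + 1) (Lm (n + 2) (ff θ lam (n + 1))) + _ = _
    rw [ih, Lp_C_mul]
    show C _ * ff θ lam (n + 1) + _ = _
    rw [← add_mul, ← C_add]
    congr 2
    push_cast
    ring

variable (lam) in
/-- `(λ+1)_N` -/
noncomputable def EE (N : ℕ) : ℝ := ∏ i ∈ Finset.range N, (lam + 1 + i)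

variable (lam) in
/-- `(λ+3)_n` -/
noncomputable def GG (n : ℕ) : ℝ := ∏ i ∈ Finset.range n, (lam + 3 + i)

theorem EE_pos (hl : 0 < lam) (N : ℕ) : 0 < EE lam N := Finset.prod_pos fun i _ => by positivity

theorem GG_pos (hl : 0 < lam) (N : ℕ) : 0 < GG lam N := Finset.prod_pos fun i _ => by positivity

theorem ee_eval (N : ℕ) : (ee θ lam N).eval 1 = ((EE lam N : ℝ) : ℂ) := by
  induction N with
  | zero => simp [ee, EE]
  | succ N ih =>
    show (Lp θ lam N (ee θ lam N)).eval 1 = _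
    rw [Lp_eval, ih, EE, EE, Finset.prod_range_succ]
    push_cast
    ring

theorem ee_der (hl : 0 < lam) (N : ℕ) : (derivative (ee θ lam N)).eval 1 =
    (((lam + 1 + θ) * N / (lam + 1) * EE lam N : ℝ) : ℂ) := by
  induction N with
  | zero => simp [ee]
  | succ N ih =>
    show (derivative (Lp θ lam N (ee θ lam N))).eval 1 = _
    rw [Lp_der, ih, ee_eval]
    have h1 : EE lam (N + 1) = EE lam N * (lam + 1 + N) := by rw [EE, EE, Finset.prod_range_succ]
    rw [h1, ← Complex.ofReal_mul, ← Complex.ofReal_mul, ← Complex.ofReal_add]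
    congr 1
    have : lam + 1 ≠ 0 := by positivity
    push_cast
    field_simp
    ring

theorem ff_eval (n : ℕ) : (ff θ lam n).eval 1 = 0 := by
  induction n with
  | zero => simp [ff]
  | succ n ih =>
    show (Lp θ lam (n + 1) (ff θ lam n)).eval 1 = _
    rw [Lp_eval, ih, mul_zero]

theorem ff_der (n : ℕ) : (derivative (ff θ lam n)).eval 1 = ((-(GG lam n) : ℝ) : ℂ) := by
  induction n with
  | zero => simp [ff, GG]
  | succ n ih =>
    show (derivative (Lp θ lam (n + 1) (ff θ lam n))).eval 1 = _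
    rw [Lp_der, ih, ff_eval, GG, GG, Finset.prod_range_succ]
    push_cast
    ring

theorem ee_deg (N : ℕ) : (ee θ lam N).natDegree ≤ N := by
  induction N with
  | zero => simp [ee]
  | succ N ih => exact Lp_deg N _ ih

theorem ff_deg (n : ℕ) : (ff θ lam n).natDegree ≤ n + 1 := by
  induction n with
  | zero =>
    show (1 - X : Polynomial ℂ).natDegree ≤ 1
    compute_degree
  | succ n ih => exact Lp_deg (n + 1) _ ih

theorem BB_ee (ha : S_adj) (h0 : 0 < θ) (h1 : θ < 1) (hl : 0 < lam) (N : ℕ) :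
    BB θ (lam + 2 * θ) N (ee θ lam N) (ee θ lam N) =
      (((N.factorial : ℝ) * EE lam N : ℝ) : ℂ) * BB θ (lam + 2 * θ) 0 1 1 := by
  induction N with
  | zero => simp [ee, EE]
  | succ N ih =>
    have h2 := ha θ lam h0 h1 hl N (ee θ lam N) (ee θ lam (N + 1))
    rw [Lm_ee, BB_C_right, ih] at h2
    rw [show BB θ (lam + 2 * θ) (N + 1) (ee θ lam (N + 1)) (ee θ lam (N + 1)) =
      BB θ (lam + 2 * θ) (N + 1) (Lp θ lam N (ee θ lam N)) (ee θ lam (N + 1)) from rfl, h2,
      EE, EE, Finset.prod_range_succ, Nat.factorial_succ]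
    push_cast
    ring

theorem BB_ff (ha : S_adj) (h0 : 0 < θ) (h1 : θ < 1) (hl : 0 < lam) (n : ℕ) :
    BB θ (lam + 2 * θ) (n + 1) (ff θ lam n) (ff θ lam n) =
      (((n.factorial : ℝ) * GG lam n : ℝ) : ℂ) * BB θ (lam + 2 * θ) 1 (1 - X) (1 - X) := by
  induction n with
  | zero => simp [ff, GG]
  | succ n ih =>
    have h2 := ha θ lam h0 h1 hl (n + 1) (ff θ lam n) (ff θ lam (n + 1))
    rw [show n + 1 + 1 = n + 2 from rfl, Lm_ff, BB_C_right, ih] at h2
    rw [show BB θ (lam + 2 * θ) (n + 1 + 1) (ff θ lam (n + 1)) (ff θ lam (n + 1)) =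
      BB θ (lam + 2 * θ) (n + 2) (Lp θ lam (n + 1) (ff θ lam n)) (ff θ lam (n + 1)) from rfl, h2,
      GG, GG, Finset.prod_range_succ, Nat.factorial_succ]
    push_cast
    ring

theorem BB_zero_right (μ : ℝ) (N : ℕ) (p : Polynomial ℂ) : BB θ μ N p 0 = 0 := by
  have h := BB_C_right (θ := θ) μ N 0 p 0
  rwa [mul_zero, zero_mul] at h

theorem orth_ee (ha : S_adj) (h0 : 0 < θ) (h1 : θ < 1) (hl : 0 < lam) (N : ℕ) :
    ∀ r : Polynomial ℂ, r.natDegree ≤ N → r.eval 1 = 0 → BB θ (lam + 2 * θ) N (ee θ lam N) r = 0 := by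
  induction N with
  | zero =>
    intro r hr h
    replace hr := eq_C_of_natDegree_le_zero hr
    have h3 : r = 0 := by
      rw [hr] at h ⊢
      rw [eval_C] at h
      rw [h, C_0]
    rw [h3, BB_zero_right]
  | succ N ih =>
    intro r hr h
    show BB θ (lam + 2 * θ) (N + 1) (Lp θ lam N (ee θ lam N)) r = 0
    rw [ha θ lam h0 h1 hl]
    exact ih _ (Lm_deg N r hr) (by rw [Lm_eval, h, mul_zero])

theorem orth_ff (ha : S_adj) (h0 : 0 < θ) (h1 : θ < 1) (hl : 0 < lam) (n : ℕ) :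
    ∀ r : Polynomial ℂ, r.natDegree ≤ n + 1 → r.eval 1 = 0 → (derivative r).eval 1 = 0 →
      BB θ (lam + 2 * θ) (n + 1) (ff θ lam n) r = 0 := by
  induction n with
  | zero =>
    intro r hr h h'
    obtain ⟨a, b, hab⟩ := exists_eq_X_add_C_of_natDegree_le_one hr
    have h3 : r = 0 := by
      rw [hab] at h h' ⊢
      simp at h h'
      rw [h'] at h ⊢
      simp at h
      simp [h]
    rw [h3, BB_zero_right]
  | succ n ih =>
    intro r hr h h'
    show BB θ (lam + 2 * θ) (n + 1 + 1) (Lp θ lam (n + 1) (ff θ lam n)) r = 0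
    rw [ha θ lam h0 h1 hl]
    exact ih _ (Lm_deg (n + 1) r hr) (by rw [Lm_eval, h, mul_zero]) (by rw [Lm_der, h', mul_zero])

theorem om_eq (hl : 0 < lam) (N : ℕ) : om lam N = (N.factorial : ℝ) / EE lam N := by
  induction N with
  | zero => simp [om, EE]
  | succ N ih =>
    have h1 : EE lam (N + 1) = EE lam N * (lam + 1 + N) := by rw [EE, EE, Finset.prod_range_succ]
    have h2 : om lam (N + 1) = om lam N * (((N : ℝ) + 1) / (N + 1 + lam)) := by rw [om, om, Finset.prod_range_succ]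
    rw [h1, h2, ih, Nat.factorial_succ]
    have := (EE_pos hl N).ne'
    have h3 : (lam + 1 + N : ℝ) ≠ 0 := by positivity
    have h4 : ((N : ℝ) + 1 + lam) ≠ 0 := by positivity
    push_cast
    field_simp
    ring

theorem EE_GG (n : ℕ) : EE lam (n + 1) * ((n : ℝ) + 1 + lam + 1) = (lam + 1) * (lam + 2) * GG lam n := by
  induction n with
  | zero =>
    simp only [EE, GG, Finset.prod_range_succ, Finset.prod_range_zero]
    push_cast
    ring
  | succ n ih =>
    have h1 : EE lam (n + 1 + 1) = EE lam (n + 1) * (lam + 1 + (n + 1 : ℕ)) := by rw [EE, EE, Finset.prod_range_succ]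
    have h2 : GG lam (n + 1) = GG lam n * (lam + 3 + n) := by rw [GG, GG, Finset.prod_range_succ]
    rw [h1, h2]
    push_cast
    linear_combination (lam + 3 + n) * ih

end

end Alg

open Alg Polynomial in
theorem alg (hd : S_dec) (ha : S_adj) (hg : S_gs) (hp : S_pos) : S_alg := by
  intro θ lam h0 h1 hl
  obtain ⟨g1, -, g3⟩ := hg θ lam h0 h1 hl
  refine ⟨-(QQ θ (lam + 2 * θ) 0 1), by linarith, fun N p hdeg => ?_⟩
  set μ := lam + 2 * θ with hμ
  rcases N with _ | n
  · replace hdeg := eq_C_of_natDegree_le_zero hdeg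
    set c := p.coeff 0 with hc
    have h2 : QQ θ μ 0 p = ‖c‖ ^ 2 * QQ θ μ 0 1 := by
      have h3 := BB_self (θ := θ) μ 0 (C c * 1)
      rw [BB_C_left, BB_C_right, BB_self, ← mul_assoc, Complex.conj_mul', mul_one, ← hdeg] at h3
      have h4 : ((QQ θ μ 0 p : ℝ) : ℂ) = ((‖c‖ ^ 2 * QQ θ μ 0 1 : ℝ) : ℂ) := by
        rw [← h3]
        push_cast
        ring
      exact Complex.ofReal_injective h4
    rw [h2, hdeg]
    simp [om]
    linarith
  · set N : ℕ := n + 1 with hN
    have hE := EE_pos hl N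
    have hG := GG_pos hl n
    set Dp : ℂ := (derivative p).eval 1 - (((lam + 1 + θ) * N / (lam + 1) : ℝ) : ℂ) * p.eval 1 with hDp
    set x : ℂ := p.eval 1 / ((EE lam N : ℝ) : ℂ) with hx
    set y : ℂ := -(Dp / ((GG lam n : ℝ) : ℂ)) with hy
    set r : Polynomial ℂ := p - C x * ee θ lam N - C y * ff θ lam n with hr
    have hEc : ((EE lam N : ℝ) : ℂ) ≠ 0 := Complex.ofReal_ne_zero.2 hE.ne'
    have hGc : ((GG lam n : ℝ) : ℂ) ≠ 0 := Complex.ofReal_ne_zero.2 hG.ne'
    have r1 : r.eval 1 = 0 := by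
      rw [hr]
      simp only [eval_sub, eval_mul, eval_C]
      rw [ee_eval, ff_eval, hx, div_mul_cancel₀ _ hEc]
      ring
    have r2 : (derivative r).eval 1 = 0 := by
      rw [hr]
      simp only [derivative_sub, derivative_C_mul, eval_sub, eval_mul, eval_C]
      rw [ee_der hl, ff_der]
      have e1 : x * (((lam + 1 + θ) * N / (lam + 1) * EE lam N : ℝ) : ℂ) =
          (((lam + 1 + θ) * N / (lam + 1) : ℝ) : ℂ) * p.eval 1 := by
        rw [hx, Complex.ofReal_mul (_ / _), mul_comm (((_ / _ : ℝ) : ℂ)) ((EE lam N : ℝ) : ℂ), ← mul_assoc,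
          div_mul_cancel₀ _ hEc, mul_comm]
      have e2 : y * ((-(GG lam n) : ℝ) : ℂ) = Dp := by
        rw [hy, Complex.ofReal_neg, neg_mul_neg, div_mul_cancel₀ _ hGc]
      rw [e1, e2, hDp]
      ring
    have r3 : r.natDegree ≤ N := by
      rw [hr]
      refine (natDegree_sub_le _ _).trans (max_le ((natDegree_sub_le _ _).trans (max_le hdeg ?_)) ?_)
      · exact (natDegree_C_mul_le _ _).trans (ee_deg N)
      · exact (natDegree_C_mul_le _ _).trans (ff_deg n)
    have o1 : BB θ μ N (ee θ lam N) (ff θ lam n) = 0 := orth_ee ha h0 h1 hl N _ (ff_deg n) (ff_eval n)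
    have o2 : BB θ μ N (ee θ lam N) r = 0 := orth_ee ha h0 h1 hl N _ r3 r1
    have o3 : BB θ μ N (ff θ lam n) r = 0 := orth_ff ha h0 h1 hl n _ r3 r1 r2
    have o1' : BB θ μ N (ff θ lam n) (ee θ lam N) = 0 := by rw [← BB_conj, o1, map_zero]
    have o2' : BB θ μ N r (ee θ lam N) = 0 := by rw [← BB_conj, o2, map_zero]
    have o3' : BB θ μ N r (ff θ lam n) = 0 := by rw [← BB_conj, o3, map_zero]
    have hpsum : p = C x * ee θ lam N + C y * ff θ lam n + r := by
      rw [hr]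
      ring
    have hexp : BB θ μ N p p = (starRingEnd ℂ x * x) * BB θ μ N (ee θ lam N) (ee θ lam N) +
        (starRingEnd ℂ y * y) * BB θ μ N (ff θ lam n) (ff θ lam n) + BB θ μ N r r := by
      rw [hpsum]
      simp only [hμ, BB_add_right hd h0 h1 hl, BB_add_left hd h0 h1 hl, BB_C_left, BB_C_right]
      simp only [← hμ, o1, o2, o3, o1', o2', o3']
      ring
    rw [BB_ee ha h0 h1 hl N, BB_ff ha h0 h1 hl n] at hexp
    simp only [BB_self, Complex.conj_mul'] at hexp
    have hreal : QQ θ μ N p = ‖x‖ ^ 2 * ((N.factorial : ℝ) * EE lam N * QQ θ μ 0 1) +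
        ‖y‖ ^ 2 * ((n.factorial : ℝ) * GG lam n * QQ θ μ 1 (1 - X)) + QQ θ μ N r := by
      apply Complex.ofReal_injective
      rw [hexp]
      push_cast
      ring
    have hrpos := hp θ lam h0 h1 hl N r r3 r1
    have hxn : ‖x‖ ^ 2 = ‖p.eval 1‖ ^ 2 / EE lam N ^ 2 := by
      rw [hx, norm_div, Complex.norm_real, Real.norm_eq_abs, abs_of_pos hE, div_pow]
    have hyn : ‖y‖ ^ 2 = ‖Dp‖ ^ 2 / GG lam n ^ 2 := by
      rw [hy, norm_neg, norm_div, Complex.norm_real, Real.norm_eq_abs, abs_of_pos hG, div_pow]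
    have hQ1 : QQ θ μ 1 (1 - X) = -(QQ θ μ 0 1) * ((1 - θ) * (lam * (lam + 1))) / (θ * ((lam + θ) * (lam + θ + 1))) := by
      rw [eq_div_iff (by positivity)]
      exact g3
    have hEG := EE_GG (lam := lam) n
    have hgoal : -(QQ θ μ 0 1) * om lam N * ((1 - θ) / θ * (lam * (lam + 2) * (lam + 1) ^ 2) / ((lam + θ) * (lam + θ + 1)) *
        ‖Dp‖ ^ 2 / (N * (N + lam + 1)) - ‖p.eval 1‖ ^ 2) =
        ‖x‖ ^ 2 * ((N.factorial : ℝ) * EE lam N * QQ θ μ 0 1) +
        ‖y‖ ^ 2 * ((n.factorial : ℝ) * GG lam n * QQ θ μ 1 (1 - X)) := by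
      have hGe : GG lam n = EE lam N * ((n : ℝ) + 1 + lam + 1) / ((lam + 1) * (lam + 2)) := by
        rw [eq_div_iff (by positivity)]
        linarith
      rw [hxn, hyn, hQ1, om_eq hl, hGe, hN, Nat.factorial_succ]
      have k1 : (n : ℝ) + 1 ≠ 0 := by positivity
      have k2 : (n : ℝ) + 1 + lam + 1 ≠ 0 := by positivity
      have k3 : EE lam (n + 1) ≠ 0 := hE.ne'
      have k4 : lam + 1 ≠ 0 := by positivity
      have k5 : lam + 2 ≠ 0 := by positivity
      have k6 : lam + θ ≠ 0 := by positivity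
      have k7 : lam + θ + 1 ≠ 0 := by positivity
      have k8 : θ ≠ 0 := h0.ne'
      push_cast
      field_simp
      ring
    rw [hgoal, hreal]
    linarith

end Q90.HS
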