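import Mathlib
import Pool.Agent.Q90.HS.Stm

/-! Job HS7 (helper96): the power area inequality in coefficient form. -/

set_option autoImplicit false
open Complex Filter Topology Set Metric MeasureTheory

namespace Q90.HS

open Pool.Agent.W677.Mar (Sg NN)

lemma ar_aa (θ : ℝ) (h0 : 0 < θ) (h1 : θ < 1) (j : ℕ) : 0 ≤ aa θ j ∧ aa θ j ≤ 1 := by
  unfold aa
  constructor
  · exact Finset.prod_nonneg fun i _ => by positivity
  · refine Finset.prod_le_one (fun i _ => by positivity) fun i _ => ?_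
    rw [div_le_one (by positivity)]
    linarith

lemma ar_na (θ : ℝ) (h0 : 0 < θ) (h1 : θ < 1) (j : ℕ) : ‖(aa θ j : ℂ)‖ ≤ 1 := by
  rw [Complex.norm_real, Real.norm_eq_abs, abs_of_nonneg (ar_aa θ h0 h1 j).1]
  exact (ar_aa θ h0 h1 j).2

lemma ar_c (θ : ℝ) (h0 : 0 < θ) (h1 : θ < 1) (ζ : ℂ) (hζ : ‖ζ‖ < 1) (u : ℕ → ℂ)
    (hun : ∀ ρ : ℝ, 0 ≤ ρ → ρ < 1 → Summable (fun k => ‖u k‖ * ρ ^ k)) (z : ℂ) (hz : ‖z‖ < 1) :
    Summable (fun y : ℕ × ℕ => ((aa θ y.2 : ℂ) * ζ ^ y.2 * u (y.1 + y.2)) * z ^ y.1) := by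
  obtain ⟨ρ, hρ, hρ1⟩ := exists_between (max_lt hz hζ)
  have hρz : ‖z‖ < ρ := (le_max_left _ _).trans_lt hρ
  have hρζ : ‖ζ‖ < ρ := (le_max_right _ _).trans_lt hρ
  have hρ0 : 0 < ρ := (norm_nonneg z).trans_lt hρz
  have hS := hun ρ hρ0.le hρ1
  have hle : ∀ k, ‖u k‖ * ρ ^ k ≤ ∑' k, ‖u k‖ * ρ ^ k := fun k => hS.le_tsum k fun j _ => by positivity
  have hg1 := summable_geometric_of_lt_one (r := ‖z‖ / ρ) (by positivity) ((div_lt_one hρ0).2 hρz)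
  have hg2 := summable_geometric_of_lt_one (r := ‖ζ‖ / ρ) (by positivity) ((div_lt_one hρ0).2 hρζ)
  have hg := hg1.mul_of_nonneg hg2 (fun n => by positivity) (fun n => by positivity)
  refine Summable.of_norm_bounded (g := fun y : ℕ × ℕ => (∑' k, ‖u k‖ * ρ ^ k) * ((‖z‖ / ρ) ^ y.1 * (‖ζ‖ / ρ) ^ y.2))
    (hg.mul_left _) fun y => ?_
  rw [norm_mul, norm_mul, norm_mul, norm_pow, norm_pow]
  have e1 : ‖z‖ ^ y.1 = ρ ^ y.1 * (‖z‖ / ρ) ^ y.1 := by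
    rw [← mul_pow, mul_div_cancel₀ _ hρ0.ne']
  have e2 : ‖ζ‖ ^ y.2 = ρ ^ y.2 * (‖ζ‖ / ρ) ^ y.2 := by
    rw [← mul_pow, mul_div_cancel₀ _ hρ0.ne']
  calc ‖(aa θ y.2 : ℂ)‖ * ‖ζ‖ ^ y.2 * ‖u (y.1 + y.2)‖ * ‖z‖ ^ y.1
      ≤ 1 * ‖ζ‖ ^ y.2 * ‖u (y.1 + y.2)‖ * ‖z‖ ^ y.1 := by
        have := ar_na θ h0 h1 y.2
        gcongr
    _ = (‖u (y.1 + y.2)‖ * ρ ^ (y.1 + y.2)) * ((‖z‖ / ρ) ^ y.1 * (‖ζ‖ / ρ) ^ y.2) := by
        rw [one_mul, e1, e2, pow_add]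
        ring
    _ ≤ _ := mul_le_mul_of_nonneg_right (hle _) (by positivity)

lemma ar_dn (θ : ℝ) (h0 : 0 < θ) (h1 : θ < 1) (ζ : ℂ) (u : ℕ → ℂ) (k j : ℕ) :
    ‖(aa θ (k + j) : ℂ) * ζ ^ (k + j) * u j‖ ≤ ‖ζ‖ ^ k * (‖u j‖ * ‖ζ‖ ^ j) := by
  rw [norm_mul, norm_mul, norm_pow, pow_add]
  calc ‖(aa θ (k + j) : ℂ)‖ * (‖ζ‖ ^ k * ‖ζ‖ ^ j) * ‖u j‖ ≤ 1 * (‖ζ‖ ^ k * ‖ζ‖ ^ j) * ‖u j‖ := by
        have := ar_na θ h0 h1 (k + j)
        gcongr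
    _ = _ := by ring

lemma ar_split (F : ℕ × ℕ → ℂ) (a : ℂ) (h : HasSum F a) (c d : ℕ → ℂ)
    (hc : ∀ n, HasSum (fun j => F (n + j, j)) (c n)) (hd : ∀ k, HasSum (fun i => F (i, k + 1 + i)) (d k)) :
    a = ∑' n, c n + ∑' k, d k := by
  obtain ⟨e1, he1⟩ : ∃ e1 : ℕ × ℕ → ℕ × ℕ, e1 = fun y => (y.1 + y.2, y.2) := ⟨_, rfl⟩
  obtain ⟨e2, he2⟩ : ∃ e2 : ℕ × ℕ → ℕ × ℕ, e2 = fun y => (y.2, y.1 + 1 + y.2) := ⟨_, rfl⟩
  have i1 : Function.Injective e1 := by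
    rw [he1]
    rintro ⟨n, j⟩ ⟨n', j'⟩ h
    simp only [Prod.mk.injEq] at h ⊢
    omega
  have i2 : Function.Injective e2 := by
    rw [he2]
    rintro ⟨n, j⟩ ⟨n', j'⟩ h
    simp only [Prod.mk.injEq] at h ⊢
    omega
  have hcompl : IsCompl (range e1) (range e2) := by
    constructor
    · rw [Set.disjoint_left]
      rintro _ ⟨⟨n, j⟩, rfl⟩ ⟨⟨k, i⟩, h2⟩
      rw [he1, he2] at h2
      simp only [Prod.mk.injEq] at h2
      omega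
    · rw [codisjoint_iff, eq_top_iff]
      rintro ⟨i, j⟩ _
      show (i, j) ∈ range e1 ∪ range e2
      rcases le_or_gt j i with h3 | h3
      · left
        refine ⟨(i - j, j), ?_⟩
        rw [he1]
        simp only [Prod.mk.injEq, and_true]
        omega
      · right
        refine ⟨(j - i - 1, i), ?_⟩
        rw [he2]
        simp only [Prod.mk.injEq, true_and]
        omega
  have s1 : Summable (F ∘ e1) := h.summable.comp_injective i1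
  have s2 : Summable (F ∘ e2) := h.summable.comp_injective i2
  have t1 : HasSum c (∑' y, (F ∘ e1) y) := s1.hasSum.prod_fiberwise fun n => by
    rw [he1]
    exact hc n
  have t2 : HasSum d (∑' y, (F ∘ e2) y) := s2.hasSum.prod_fiberwise fun k => by
    rw [he2]
    exact hd k
  have u1 := (i1.hasSum_range_iff (f := F)).2 s1.hasSum
  have u2 := (i2.hasSum_range_iff (f := F)).2 s2.hasSum
  have u3 := u1.add_isCompl hcompl u2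
  rw [t1.tsum_eq, t2.tsum_eq]
  exact h.unique u3

lemma ar_mul (f g : ℕ → ℂ) (a b : ℂ) (hf : HasSum f a) (hg : HasSum g b) :
    HasSum (fun y : ℕ × ℕ => f y.1 * g y.2) (a * b) := by
  have h1 : Summable (fun x => ‖f x‖) := hf.summable.norm
  have h2 : Summable (fun x => ‖g x‖) := hg.summable.norm
  exact hf.mul hg (summable_mul_of_summable_norm h1 h2)

lemma ar_id (ζ z : ℂ) (hz0 : z ≠ 0) (u a : ℕ → ℂ) (U W : ℂ)
    (h : HasSum (fun y : ℕ × ℕ => (u y.1 * z ^ y.1) * (a y.2 * (ζ * z⁻¹) ^ y.2)) (U * W)) (c d : ℕ → ℂ)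
    (hc : ∀ n, HasSum (fun j : ℕ => a j * ζ ^ j * u (n + j)) (c n))
    (hd : ∀ k, HasSum (fun j : ℕ => a (k + 1 + j) * ζ ^ (k + 1 + j) * u j) (d (k + 1))) :
    U * W = ∑' k, c k * z ^ k + ∑' k, d (k + 1) * (z⁻¹) ^ (k + 1) := by
  have h8 : ∀ j : ℕ, z ^ j * (z⁻¹) ^ j = 1 := fun j => by rw [← mul_pow, mul_inv_cancel₀ hz0, one_pow]
  refine ar_split _ _ h (fun k => c k * z ^ k) (fun k => d (k + 1) * (z⁻¹) ^ (k + 1)) ?_ ?_
  · intro n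
    have h6 := (hc n).mul_right (z ^ n)
    have h9 : ∀ j : ℕ, (u (n + j) * z ^ (n + j)) * (a j * (ζ * z⁻¹) ^ j) = a j * ζ ^ j * u (n + j) * z ^ n := by
      intro j
      rw [pow_add, mul_pow]
      linear_combination (u (n + j) * z ^ n * a j * ζ ^ j) * h8 j
    show HasSum (fun j : ℕ => (u (n + j) * z ^ (n + j)) * (a j * (ζ * z⁻¹) ^ j)) (c n * z ^ n)
    simp only [h9]
    exact h6
  · intro k
    have h6 := (hd k).mul_right ((z⁻¹) ^ (k + 1))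
    have h9 : ∀ j : ℕ, (u j * z ^ j) * (a (k + 1 + j) * (ζ * z⁻¹) ^ (k + 1 + j)) =
        a (k + 1 + j) * ζ ^ (k + 1 + j) * u j * (z⁻¹) ^ (k + 1) := by
      intro j
      rw [mul_pow, pow_add (z⁻¹) (k + 1) j]
      linear_combination (u j * a (k + 1 + j) * ζ ^ (k + 1 + j) * (z⁻¹) ^ (k + 1)) * h8 j
    show HasSum (fun j : ℕ => (u j * z ^ j) * (a (k + 1 + j) * (ζ * z⁻¹) ^ (k + 1 + j))) (d (k + 1) * (z⁻¹) ^ (k + 1))
    simp only [h9]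
    exact h6

theorem area (hb : S_bin) (hj : S_areaJ) : S_area := by
  intro Y H S ζ hζ0 A hA hAe θ hθ0 hθ1 u hu R hR hR1
  have hζp : 0 < ‖ζ‖ := norm_pos_iff.2 hζ0
  have hR0 : 0 < R := hζp.trans hR
  have hζ1 : ‖ζ‖ < 1 := hR.trans hR1
  have hun : ∀ ρ : ℝ, 0 ≤ ρ → ρ < 1 → Summable (fun k => ‖u k‖ * ρ ^ k) := by
    intro ρ h0 h1
    have h2 : (ρ : ℂ) ∈ ball (0:ℂ) 1 := by
      rw [mem_ball_zero_iff, Complex.norm_real, Real.norm_eq_abs, abs_of_nonneg h0]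
      exact h1
    have h3 := (hu (ρ : ℂ) h2).summable.norm
    refine h3.congr fun k => ?_
    rw [norm_mul, norm_pow, Complex.norm_real, Real.norm_eq_abs, abs_of_nonneg h0]
  obtain ⟨c, hc⟩ : ∃ c : ℕ → ℂ, c = fun n => ∑' j : ℕ, (aa θ j : ℂ) * ζ ^ j * u (n + j) := ⟨_, rfl⟩
  obtain ⟨d', hd'⟩ : ∃ d' : ℕ → ℂ, d' = fun k => ∑' j : ℕ, (aa θ (k + j) : ℂ) * ζ ^ (k + j) * u j := ⟨_, rfl⟩
  obtain ⟨d, hd⟩ : ∃ d : ℕ → ℂ, d = fun k => if k = 0 then 0 else d' k := ⟨_, rfl⟩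
  have hd's : ∀ k, Summable (fun j : ℕ => (aa θ (k + j) : ℂ) * ζ ^ (k + j) * u j) := fun k =>
    Summable.of_norm_bounded ((hun ‖ζ‖ hζp.le hζ1).mul_left (‖ζ‖ ^ k)) fun j => ar_dn θ hθ0 hθ1 ζ u k j
  have hd'n : ∀ k, ‖d' k‖ ≤ (∑' j, ‖u j‖ * ‖ζ‖ ^ j) * ‖ζ‖ ^ k := by
    intro k
    rw [hd']
    refine (tsum_of_norm_bounded ((hun ‖ζ‖ hζp.le hζ1).mul_left (‖ζ‖ ^ k)).hasSum
      fun j => ar_dn θ hθ0 hθ1 ζ u k j).trans ?_
    rw [tsum_mul_left, mul_comm]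
  have hd0 : d 0 = 0 := by rw [hd]; simp
  have hdS : ∀ k, d (k + 1) = d' (k + 1) := by
    intro k
    rw [hd]
    simp
  have hdn : ∀ k, ‖d k‖ ≤ (∑' j, ‖u j‖ * ‖ζ‖ ^ j) * ‖ζ‖ ^ k := by
    intro k
    rcases Nat.eq_zero_or_pos k with h | h
    · rw [h, hd0, norm_zero]
      have : 0 ≤ ∑' j, ‖u j‖ * ‖ζ‖ ^ j := tsum_nonneg fun j => by positivity
      positivity
    · obtain ⟨k', rfl⟩ : ∃ k', k = k' + 1 := ⟨k - 1, by omega⟩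
      rw [hdS]
      exact hd'n _
  have hcs : ∀ n, Summable (fun j : ℕ => (aa θ j : ℂ) * ζ ^ j * u (n + j)) := by
    intro n
    have h1 := (ar_c θ hθ0 hθ1 ζ hζ1 u hun (ζ / 1) (by simpa using hζ1)).prod_factor n
    simp only [div_one] at h1
    exact (summable_mul_right_iff (pow_ne_zero n hζ0)).1 h1
  have hcz : ∀ z ∈ ball (0:ℂ) 1, Summable (fun k : ℕ => c k * z ^ k) := by
    intro z hz
    have hz1 : ‖z‖ < 1 := by simpa using hz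
    have h1 := (ar_c θ hθ0 hθ1 ζ hζ1 u hun z hz1).prod
    refine h1.congr fun k => ?_
    show ∑' j : ℕ, ((aa θ j : ℂ) * ζ ^ j * u (k + j)) * z ^ k = c k * z ^ k
    rw [tsum_mul_right, hc]
  -- the identity on the annulus
  have hid : ∀ z : ℂ, ‖ζ‖ < ‖z‖ → ‖z‖ < 1 →
      Complex.exp (-(θ : ℂ) * (A z + ∑' k : ℕ, Pool.Agent.W677.Mar.de ζ k * (z⁻¹) ^ k)) =
        (∑' k : ℕ, c k * z ^ k) + ∑' k : ℕ, d k * (z⁻¹) ^ k := by
    intro z hz1 hz2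
    have hz0 : z ≠ 0 := norm_pos_iff.1 (hζp.trans hz1)
    have hzb : z ∈ ball (0:ℂ) 1 := by simpa using hz2
    have hw : ‖ζ * z⁻¹‖ < 1 := by
      rw [norm_mul, norm_inv, ← div_eq_mul_inv, div_lt_one (hζp.trans hz1)]
      exact hz1
    have h1 := hu z hzb
    have h2 := hb θ (ζ * z⁻¹) hw
    have h3 : HasSum (fun y : ℕ × ℕ => (u y.1 * z ^ y.1) * ((aa θ y.2 : ℂ) * (ζ * z⁻¹) ^ y.2))
        (Complex.exp (-(θ : ℂ) * A z) * Complex.exp (-(θ : ℂ) * Complex.log (1 - ζ * z⁻¹))) :=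
      ar_mul (fun k => u k * z ^ k) (fun j => (aa θ j : ℂ) * (ζ * z⁻¹) ^ j) _ _ h1 h2
    have h4 : Complex.exp (-(θ : ℂ) * (A z + ∑' k : ℕ, Pool.Agent.W677.Mar.de ζ k * (z⁻¹) ^ k)) =
        Complex.exp (-(θ : ℂ) * A z) * Complex.exp (-(θ : ℂ) * Complex.log (1 - ζ * z⁻¹)) := by
      rw [(Pool.Agent.W677.Mar.de_hasSum hz1).tsum_eq, mul_add, Complex.exp_add]
    have h5 := ar_id ζ z hz0 u (fun j => (aa θ j : ℂ)) _ _ h3 c d (fun n => by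
        have h6 := (hcs n).hasSum
        have h7 : ∑' j : ℕ, (aa θ j : ℂ) * ζ ^ j * u (n + j) = c n := by rw [hc]
        rw [h7] at h6
        exact h6) (fun k => by
        have h6 := (hd's (k + 1)).hasSum
        have h7 : ∑' j : ℕ, (aa θ (k + 1 + j) : ℂ) * ζ ^ (k + 1 + j) * u j = d (k + 1) := by rw [hdS, hd']
        rw [h7] at h6
        exact h6)
    rw [h4, h5]
    congr 1
    have h9 : Summable (fun k : ℕ => d k * (z⁻¹) ^ k) := by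
      have hq : ‖ζ‖ / ‖z‖ < 1 := (div_lt_one (hζp.trans hz1)).2 hz1
      refine Summable.of_norm_bounded ((summable_geometric_of_lt_one (by positivity) hq).mul_left
        (∑' j, ‖u j‖ * ‖ζ‖ ^ j)) fun k => ?_
      rw [norm_mul, norm_pow, norm_inv, div_pow, inv_pow]
      calc ‖d k‖ * (‖z‖ ^ k)⁻¹ ≤ ((∑' j, ‖u j‖ * ‖ζ‖ ^ j) * ‖ζ‖ ^ k) * (‖z‖ ^ k)⁻¹ :=
            mul_le_mul_of_nonneg_right (hdn k) (by positivity)
        _ = _ := by ring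
    rw [h9.tsum_eq_zero_add, hd0, zero_mul, zero_add]
  obtain ⟨_, _, g3⟩ := Pool.Agent.H643R3.BomC4.taskC4 R ‖ζ‖ (∑' j, ‖u j‖ * ‖ζ‖ ^ j) c d (fun z => ∑' k : ℕ, c k * z ^ k)
    hζp hR hR1 hd0 (fun z hz => (hcz z hz).hasSum) hdn
  have g4 := hj Y H S ζ hζ0 A hA hAe θ R hθ0 hR hR1
  have g5 : Pool.Agent.H33R3.Bom.J R
      (fun z => Complex.exp (-(θ : ℂ) * (A z + ∑' k : ℕ, Pool.Agent.W677.Mar.de ζ k * (z⁻¹) ^ k)))
      (deriv fun z => Complex.exp (-(θ : ℂ) * (A z + ∑' k : ℕ, Pool.Agent.W677.Mar.de ζ k * (z⁻¹) ^ k))) =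
      Pool.Agent.H33R3.Bom.J R (fun z => (∑' k : ℕ, c k * z ^ k) + ∑' k : ℕ, d k * (z⁻¹) ^ k)
        (deriv fun z => (∑' k : ℕ, c k * z ^ k) + ∑' k : ℕ, d k * (z⁻¹) ^ k) := by
    unfold Pool.Agent.H33R3.Bom.J
    congr 1
    refine intervalIntegral.integral_congr fun t _ => ?_
    have hn : ‖circleMap 0 R t‖ = R := by
      rw [norm_circleMap_zero, abs_of_pos hR0]
    have hn1 : ‖ζ‖ < ‖circleMap 0 R t‖ := by rw [hn]; exact hR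
    have hn2 : ‖circleMap 0 R t‖ < 1 := by rw [hn]; exact hR1
    have hop : IsOpen {z : ℂ | ‖ζ‖ < ‖z‖ ∧ ‖z‖ < 1} :=
      (isOpen_lt continuous_const continuous_norm).inter (isOpen_lt continuous_norm continuous_const)
    have hev : (fun z => Complex.exp (-(θ : ℂ) * (A z + ∑' k : ℕ, Pool.Agent.W677.Mar.de ζ k * (z⁻¹) ^ k))) =ᶠ[𝓝 (circleMap 0 R t)]
        fun z => (∑' k : ℕ, c k * z ^ k) + ∑' k : ℕ, d k * (z⁻¹) ^ k := by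
      filter_upwards [hop.mem_nhds ⟨hn1, hn2⟩] with z hz
      exact hid z hz.1 hz.2
    show (starRingEnd ℂ) (Complex.exp (-(θ : ℂ) * (A (circleMap 0 R t) +
        ∑' k : ℕ, Pool.Agent.W677.Mar.de ζ k * ((circleMap 0 R t)⁻¹) ^ k))) * (circleMap 0 R t * deriv (fun z =>
        Complex.exp (-(θ : ℂ) * (A z + ∑' k : ℕ, Pool.Agent.W677.Mar.de ζ k * (z⁻¹) ^ k))) (circleMap 0 R t)) =
      (starRingEnd ℂ) ((∑' k : ℕ, c k * (circleMap 0 R t) ^ k) + ∑' k : ℕ, d k * ((circleMap 0 R t)⁻¹) ^ k) *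
        (circleMap 0 R t * deriv (fun z => (∑' k : ℕ, c k * z ^ k) + ∑' k : ℕ, d k * (z⁻¹) ^ k) (circleMap 0 R t))
    rw [hev.deriv_eq, hid _ hn1 hn2]
  rw [g5, g3] at g4
  have hpi : 0 < 2 * Real.pi := by positivity
  have g6 : ∑' k : ℕ, (k : ℝ) * ‖c k‖ ^ 2 * R ^ (2 * k) ≤ ∑' k : ℕ, (k : ℝ) * ‖d k‖ ^ 2 * (R⁻¹) ^ (2 * k) := by
    by_contra hcon
    push Not at hcon
    have := mul_pos hpi (sub_pos.2 hcon)
    linarith
  have e1 : ∑' k : ℕ, (k : ℝ) * ‖d k‖ ^ 2 * (R⁻¹) ^ (2 * k) = ∑' k : ℕ, (k : ℝ) * ‖d' k‖ ^ 2 * (R⁻¹) ^ (2 * k) := by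
    refine tsum_congr fun k => ?_
    rcases Nat.eq_zero_or_pos k with h | h
    · rw [h]
      simp
    · obtain ⟨k', rfl⟩ : ∃ k', k = k' + 1 := ⟨k - 1, by omega⟩
      rw [hdS]
  rw [e1, hc, hd'] at g6
  exact g6

end Q90.HS
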