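import Pool.Agent.Q90.HS.Stm
import Pool.Agent.W677.MarG3

/-! The power area inequality, functional form (job HS6). -/

set_option autoImplicit false
open Complex Filter Topology Set Metric MeasureTheory

namespace Q90.HS

open Pool.Agent.W677.Mar (Sg NN phi_deriv t1 t2 t3)

/-- `f` is a uniform limit of polynomials in `G` on the circle `|z| = R` -/
def PA (G : ℂ → ℂ) (R : ℝ) (f : ℂ → ℂ) : Prop :=
  ∀ δ : ℝ, 0 < δ → ∃ q : Polynomial ℂ, ∀ z : ℂ, ‖z‖ = R → ‖q.eval (G z) - f z‖ ≤ δ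

section

variable {G : ℂ → ℂ} {R : ℝ} {f g : ℂ → ℂ}

theorem PA.bdd (hG : ContinuousOn G (sphere 0 R)) (h : PA G R f) :
    ∃ K : ℝ, 0 ≤ K ∧ ∀ z : ℂ, ‖z‖ = R → ‖f z‖ ≤ K := by
  obtain ⟨q, hq⟩ := h 1 one_pos
  obtain ⟨K, hK⟩ := (isCompact_sphere (0 : ℂ) R).exists_bound_of_continuousOn
    (f := fun z => q.eval (G z)) (q.continuous.comp_continuousOn hG)
  refine ⟨max K 0 + 1, by positivity, fun z hz => ?_⟩
  have h1 := hK z (mem_sphere_zero_iff_norm.2 hz)
  have h2 := hq z hz
  have h3 : f z = q.eval (G z) - (q.eval (G z) - f z) := by ring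
  rw [h3]
  refine (norm_sub_le _ _).trans ?_
  have := le_max_left K 0
  linarith

theorem PA.const (c : ℂ) : PA G R (fun _ => c) := by
  intro δ hδ
  refine ⟨Polynomial.C c, fun z _ => ?_⟩
  simp [hδ.le]

theorem PA.add (hf : PA G R f) (hg : PA G R g) : PA G R (fun z => f z + g z) := by
  intro δ hδ
  obtain ⟨q1, h1⟩ := hf (δ / 2) (by positivity)
  obtain ⟨q2, h2⟩ := hg (δ / 2) (by positivity)
  refine ⟨q1 + q2, fun z hz => ?_⟩
  rw [Polynomial.eval_add]
  have h3 : q1.eval (G z) + q2.eval (G z) - (f z + g z) = (q1.eval (G z) - f z) + (q2.eval (G z) - g z) := by ring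
  rw [h3]
  refine (norm_add_le _ _).trans ?_
  have := h1 z hz
  have := h2 z hz
  linarith

theorem PA.mul (hG : ContinuousOn G (sphere 0 R)) (hf : PA G R f) (hg : PA G R g) :
    PA G R (fun z => f z * g z) := by
  obtain ⟨K1, hK1, hf1⟩ := hf.bdd hG
  obtain ⟨K2, hK2, hg1⟩ := hg.bdd hG
  intro δ hδ
  set η : ℝ := min 1 (δ / (K1 + K2 + 1)) with hη
  have hη0 : 0 < η := by positivity
  obtain ⟨q1, h1⟩ := hf η hη0
  obtain ⟨q2, h2⟩ := hg η hη0
  refine ⟨q1 * q2, fun z hz => ?_⟩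
  rw [Polynomial.eval_mul]
  have h3 : q1.eval (G z) * q2.eval (G z) - f z * g z =
      (q1.eval (G z) - f z) * (q2.eval (G z) - g z) + (q1.eval (G z) - f z) * g z +
        f z * (q2.eval (G z) - g z) := by ring
  rw [h3]
  have a1 := h1 z hz
  have a2 := h2 z hz
  have a3 := hf1 z hz
  have a4 := hg1 z hz
  have b1 : ‖(q1.eval (G z) - f z) * (q2.eval (G z) - g z)‖ ≤ η * 1 := by
    rw [norm_mul]
    exact mul_le_mul a1 (a2.trans (min_le_left _ _)) (norm_nonneg _) hη0.le
  have b2 : ‖(q1.eval (G z) - f z) * g z‖ ≤ η * K2 := by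
    rw [norm_mul]
    exact mul_le_mul a1 a4 (norm_nonneg _) hη0.le
  have b3 : ‖f z * (q2.eval (G z) - g z)‖ ≤ K1 * η := by
    rw [norm_mul]
    exact mul_le_mul a3 a2 (norm_nonneg _) hK1
  have b4 : η * (K1 + K2 + 1) ≤ δ := by
    have : η ≤ δ / (K1 + K2 + 1) := min_le_right _ _
    rwa [le_div_iff₀ (by positivity)] at this
  refine (norm_add_le _ _).trans ?_
  have b5 := norm_add_le ((q1.eval (G z) - f z) * (q2.eval (G z) - g z)) ((q1.eval (G z) - f z) * g z)
  nlinarith

theorem PA.pow (hG : ContinuousOn G (sphere 0 R)) (hf : PA G R f) (n : ℕ) : PA G R (fun z => f z ^ n) := by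
  induction n with
  | zero => simpa using PA.const (G := G) (R := R) 1
  | succ n ih =>
    have := ih.mul hG hf
    simpa [pow_succ] using this

theorem PA.sum (F : ℕ → ℂ → ℂ) (n : ℕ) (h : ∀ m, PA G R (F m)) : PA G R (fun z => ∑ m ∈ Finset.range n, F m z) := by
  induction n with
  | zero => simpa using PA.const (G := G) (R := R) 0
  | succ n ih =>
    have := ih.add (h n)
    simpa [Finset.sum_range_succ] using this

theorem PA.exp (hG : ContinuousOn G (sphere 0 R)) (hf : PA G R f) : PA G R (fun z => Complex.exp (f z)) := by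
  obtain ⟨K, hK, hf1⟩ := hf.bdd hG
  intro δ hδ
  have ht : Tendsto (fun n : ℕ => K ^ n / n.factorial * 2) atTop (𝓝 0) := by
    have := (FloorSemiring.tendsto_pow_div_factorial_atTop K).mul_const 2
    simpa using this
  obtain ⟨n, hn1, hn2⟩ := ((ht.eventually_le_const (by positivity : (0 : ℝ) < δ / 2)).and
    (eventually_ge_atTop ⌈2 * K⌉₊)).exists
  have hn3 : 2 * K ≤ n := (Nat.le_ceil _).trans (by exact_mod_cast hn2)
  have hP : PA G R (fun z => ∑ m ∈ Finset.range n, f z ^ m / m.factorial) := by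
    refine PA.sum (fun m z => f z ^ m / m.factorial) n fun m => ?_
    have := (hf.pow hG m).mul hG (PA.const ((m.factorial : ℂ)⁻¹))
    simpa [div_eq_mul_inv] using this
  obtain ⟨q, hq⟩ := hP (δ / 2) (by positivity)
  refine ⟨q, fun z hz => ?_⟩
  have h1 := hq z hz
  have hfz := hf1 z hz
  have h2 : ‖Complex.exp (f z) - ∑ m ∈ Finset.range n, f z ^ m / m.factorial‖ ≤ ‖f z‖ ^ n / n.factorial * 2 := by
    refine Complex.exp_bound' ?_
    rw [div_le_iff₀ (by positivity)]
    push_cast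
    linarith
  have h3 : ‖f z‖ ^ n / n.factorial * 2 ≤ K ^ n / n.factorial * 2 := by gcongr
  have h4 : q.eval (G z) - Complex.exp (f z) =
      (q.eval (G z) - ∑ m ∈ Finset.range n, f z ^ m / m.factorial) -
        (Complex.exp (f z) - ∑ m ∈ Finset.range n, f z ^ m / m.factorial) := by ring
  rw [h4]
  refine (norm_sub_le _ _).trans ?_
  linarith

end

/-- the power area inequality -/
theorem areaJ : S_areaJ := by
  intro Y H S ζ hζ0 A hA hAe θ R hθ hζR hR1
  have hζp : 0 < ‖ζ‖ := norm_pos_iff.2 hζ0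
  have hR0 : 0 < R := hζp.trans hζR
  have hζ : ζ ∈ ball (0 : ℂ) 1 := by
    rw [mem_ball_zero_iff]
    exact hζR.trans hR1
  set G : ℂ → ℂ := fun z => Y z / z with hG
  set Ψ : ℂ → ℂ := fun z => A z + ∑' k : ℕ, Pool.Agent.W677.Mar.de ζ k * (z⁻¹) ^ k with hΨ
  have hopen : IsOpen (ball (0 : ℂ) 1 \ {0}) := isOpen_ball.sdiff isClosed_singleton
  have hGd : DifferentiableOn ℂ G (ball (0 : ℂ) 1 \ {0}) := by
    intro z hz
    have h1 : DifferentiableAt ℂ Y z := S.G.diff.differentiableAt (isOpen_ball.mem_nhds hz.1)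
    exact (h1.div differentiableAt_id (by simpa using hz.2)).differentiableWithinAt
  have hsub : sphere (0 : ℂ) R ⊆ ball (0 : ℂ) 1 \ {0} := by
    intro z hz
    rw [mem_sphere_zero_iff_norm] at hz
    refine ⟨by rw [mem_ball_zero_iff]; linarith, ?_⟩
    intro h
    rw [Set.mem_singleton_iff] at h
    rw [h, norm_zero] at hz
    linarith
  have hGc : ContinuousOn G (sphere (0 : ℂ) R) := (hGd.continuousOn).mono hsub
  have hG'c : ContinuousOn (deriv G) (sphere (0 : ℂ) R) :=
    ((hGd.deriv hopen).continuousOn).mono hsub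
  obtain ⟨M, hM⟩ := (isCompact_sphere (0 : ℂ) R).exists_bound_of_continuousOn hG'c
  have hM0 : 0 ≤ M := (norm_nonneg _).trans (hM (R : ℂ) (by simp [abs_of_pos hR0]))
  have hΨd : ∀ z : ℂ, ‖z‖ = R → HasDerivAt Ψ (-(Y ζ / ζ - Y z / z)⁻¹ * deriv G z) z := by
    intro z hz
    exact phi_deriv S hζ0 hζ hA hAe (by rw [hz]; exact hζR) (by rw [hz]; exact hR1)
  -- the first function
  have hw : PA G R (fun z => (Y ζ / ζ - Y z / z)⁻¹) := t2 Y S.G R hR1 ζ hζ0 hζR
  -- the logarithm
  have hPsi : PA G R Ψ := by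
    intro δ hδ
    set η : ℝ := δ / (Real.pi * (R * M) + 1) with hη
    have hpi := Real.pi_pos
    have hη0 : 0 < η := by positivity
    obtain ⟨q0, hq0⟩ := hw η hη0
    obtain ⟨V, hV⟩ := Pool.Agent.H643R3.BomC3.exists_antideriv (-q0)
    have hVd : ∀ z : ℂ, ‖z‖ = R → HasDerivAt (fun z => V.eval (G z)) ((-q0).eval (G z) * deriv G z) z := by
      intro z hz
      have h1 : HasDerivAt G (deriv G z) z :=
        (hGd.differentiableAt (hopen.mem_nhds (hsub (mem_sphere_zero_iff_norm.2 hz)))).hasDerivAt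
      have h2 := (V.hasDerivAt (G z)).comp z h1
      rw [hV] at h2
      exact h2
    set d : ℝ → ℂ := fun t => Ψ (circleMap 0 R t) - V.eval (G (circleMap 0 R t)) with hd
    have hγn : ∀ t, ‖circleMap 0 R t‖ = R := fun t =>
      mem_sphere_zero_iff_norm.1 (circleMap_mem_sphere 0 hR0.le t)
    have hdd : ∀ t, HasDerivAt d ((circleMap 0 R t * I) * ((-(Y ζ / ζ - Y (circleMap 0 R t) / circleMap 0 R t)⁻¹ -
        (-q0).eval (G (circleMap 0 R t))) * deriv G (circleMap 0 R t))) t := by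
      intro t
      have h1 := (hΨd _ (hγn t)).scomp t (hasDerivAt_circleMap 0 R t)
      have h2 := (hVd _ (hγn t)).scomp t (hasDerivAt_circleMap 0 R t)
      have h3 := h1.sub h2
      refine h3.congr_deriv ?_
      simp only [smul_eq_mul]
      ring
    have hbd : ∀ t, ‖(circleMap 0 R t * I) * ((-(Y ζ / ζ - Y (circleMap 0 R t) / circleMap 0 R t)⁻¹ -
        (-q0).eval (G (circleMap 0 R t))) * deriv G (circleMap 0 R t))‖ ≤ R * (η * M) := by
      intro t
      rw [norm_mul, norm_mul, norm_mul, Complex.norm_I, mul_one, hγn t]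
      refine mul_le_mul_of_nonneg_left ?_ hR0.le
      refine mul_le_mul ?_ (hM _ (circleMap_mem_sphere 0 hR0.le t)) (norm_nonneg _) hη0.le
      have h1 := hq0 _ (hγn t)
      rw [Polynomial.eval_neg]
      have h2 : -(Y ζ / ζ - Y (circleMap 0 R t) / circleMap 0 R t)⁻¹ - -q0.eval (G (circleMap 0 R t)) =
          q0.eval (G (circleMap 0 R t)) - (Y ζ / ζ - Y (circleMap 0 R t) / circleMap 0 R t)⁻¹ := by ring
      rw [h2]
      exact h1
    refine ⟨V + Polynomial.C (d 0), fun z hz => ?_⟩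
    rw [Polynomial.eval_add, Polynomial.eval_C]
    have hz' : circleMap 0 R (Complex.arg z) = z := by
      rw [circleMap, zero_add, ← hz]
      exact Complex.norm_mul_exp_arg_mul_I z
    have h1 := Convex.norm_image_sub_le_of_norm_hasDerivWithin_le (s := (Set.univ : Set ℝ))
      (f := d) (C := R * (η * M)) (x := 0) (y := Complex.arg z)
      (fun t _ => (hdd t).hasDerivWithinAt) (fun t _ => hbd t) convex_univ (Set.mem_univ _)
      (Set.mem_univ _)
    have h2 : V.eval (G z) + d 0 - Ψ z = -(d (Complex.arg z) - d 0) := by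
      rw [hd]
      simp only
      rw [hz']
      ring
    rw [h2, norm_neg]
    refine h1.trans ?_
    rw [sub_zero, Real.norm_eq_abs]
    have h3 := Complex.abs_arg_le_pi z
    calc R * (η * M) * |Complex.arg z| ≤ R * (η * M) * Real.pi :=
          mul_le_mul_of_nonneg_left h3 (by positivity)
      _ = η * (Real.pi * (R * M)) := by ring
      _ ≤ η * (Real.pi * (R * M) + 1) := mul_le_mul_of_nonneg_left (by linarith) hη0.le
      _ = δ := by
          rw [hη]
          field_simp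
  -- the exponential
  have hexp : PA G R (fun z => Complex.exp (-(θ : ℂ) * Ψ z)) :=
    ((PA.const (-(θ : ℂ))).mul hGc hPsi).exp hGc
  have hQ : PA G R (fun z => (θ : ℂ) * (Y ζ / ζ - Y z / z)⁻¹ * Complex.exp (-(θ : ℂ) * Ψ z)) :=
    ((PA.const (θ : ℂ)).mul hGc hw).mul hGc hexp
  refine t3 t1 Y S.G R hR0 hR1 _ _ hQ fun z hz => ?_
  have h1 := ((hΨd z hz).const_mul (-(θ : ℂ))).cexp
  refine h1.congr_deriv ?_
  ring

end Q90.HS
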