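import Pool.Agent.Q90.HS.Stm

/-! Averaging with the weight `(1 - x)^(μ - 1)` (job HS14, helper275). -/

set_option autoImplicit false
open Complex Filter Topology Set Metric MeasureTheory

namespace Q90.HS

theorem avgx_om_pos {μ : ℝ} (h : 0 < μ) (m : ℕ) : 0 < om μ m := by
  unfold om
  exact Finset.prod_pos fun i _ => by positivity

theorem avgx_swap {f : ℕ × ℕ → ℝ} (h : Summable f) :
    Summable (fun m : ℕ => ∑' N : ℕ, f (N, m)) ∧ ∑' m : ℕ, ∑' N : ℕ, f (N, m) = ∑' y, f y := by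
  have h1 : Summable (fun y : ℕ × ℕ => f (y.2, y.1)) := h.prod_symm
  refine ⟨h1.prod, ?_⟩
  have h2 := h1.tsum_prod
  rw [← h2]
  exact (Equiv.prodComm ℕ ℕ).tsum_eq f

theorem avg (_hd : S_dec) (hb : S_beta) (hs : S_sum) (hx : S_avgx) : S_avg := by
  intro θ lam h0 h1 hl φ hφ hA R hR hR1
  have hμ : 0 < lam + 2 * θ := by linarith
  have hS := hs θ lam h0 h1 hl φ hφ R hR hR1
  obtain ⟨P, hP⟩ : ∃ P : ℕ × ℕ → ℝ, P = fun y => ‖pc θ (pN φ y.1) y.2‖ ^ 2 := ⟨_, rfl⟩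
  have hPe : ∀ N m, ‖pc θ (pN φ N) m‖ ^ 2 = P (N, m) := fun N m => by rw [hP]
  have hP0 : ∀ y, 0 ≤ P y := fun y => by
    rw [hP]
    exact sq_nonneg _
  have hω : ∀ m, 0 < om (lam + 2 * θ) m := fun m => avgx_om_pos hμ m
  have hR2 : ∀ N : ℕ, 0 < R ^ (2 * N) := fun N => pow_pos hR _
  have hS' : Summable (fun y : ℕ × ℕ => R ^ (2 * y.1) * ((y.1 : ℝ) + y.2 + 1) * om (lam + 2 * θ) y.2 * P y) := by
    rw [hP]
    exact hS
  -- the two double series
  have hF : Summable (fun y : ℕ × ℕ => R ^ (2 * y.1) * ((y.1 : ℝ) - y.2) * om (lam + 2 * θ) y.2 * P y) := by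
    refine Summable.of_norm_bounded hS' fun y => ?_
    rw [Real.norm_eq_abs, abs_mul, abs_mul, abs_mul, abs_of_pos (hR2 _), abs_of_pos (hω _), abs_of_nonneg (hP0 y)]
    refine mul_le_mul_of_nonneg_right (mul_le_mul_of_nonneg_right (mul_le_mul_of_nonneg_left ?_ (hR2 _).le)
      (hω _).le) (hP0 y)
    have a1 : (0 : ℝ) ≤ y.1 := Nat.cast_nonneg _
    have a2 : (0 : ℝ) ≤ y.2 := Nat.cast_nonneg _
    rw [abs_le]
    constructor <;> linarith
  have hH : Summable (fun y : ℕ × ℕ => R ^ (2 * y.1) * ((y.1 : ℝ) - y.2 - θ) * om (lam + 2 * θ) y.2 * P y) := by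
    refine Summable.of_norm_bounded hS' fun y => ?_
    rw [Real.norm_eq_abs, abs_mul, abs_mul, abs_mul, abs_of_pos (hR2 _), abs_of_pos (hω _), abs_of_nonneg (hP0 y)]
    refine mul_le_mul_of_nonneg_right (mul_le_mul_of_nonneg_right (mul_le_mul_of_nonneg_left ?_ (hR2 _).le)
      (hω _).le) (hP0 y)
    have a1 : (0 : ℝ) ≤ y.1 := Nat.cast_nonneg _
    have a2 : (0 : ℝ) ≤ y.2 := Nat.cast_nonneg _
    rw [abs_le]
    constructor <;> linarith
  -- the coefficients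
  obtain ⟨G, hG⟩ : ∃ G : ℕ → ℝ, G = fun m => ∑' N : ℕ, R ^ (2 * N) * ((N : ℝ) - m) * P (N, m) := ⟨_, rfl⟩
  have hGω : ∀ m, G m * om (lam + 2 * θ) m =
      ∑' N : ℕ, R ^ (2 * N) * ((N : ℝ) - m) * om (lam + 2 * θ) m * P (N, m) := by
    intro m
    rw [hG, ← tsum_mul_right]
    exact tsum_congr fun N => by ring
  obtain ⟨f1, f2⟩ := avgx_swap hF
  have k1 : Summable (fun m => |G m| * om (lam + 2 * θ) m) := by
    have h2 : (fun m => |G m| * om (lam + 2 * θ) m) = fun m =>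
        |∑' N : ℕ, R ^ (2 * N) * ((N : ℝ) - m) * om (lam + 2 * θ) m * P (N, m)| := by
      funext m
      rw [← hGω m, abs_mul, abs_of_pos (hω m)]
    rw [h2]
    exact f1.abs
  have k2 : ∀ x : ℝ, 0 < x → x < 1 → ∑' m, G m * x ^ m ≤ 0 := by
    intro x hx0 hx1
    obtain ⟨e1, e2⟩ := hx θ h0 h1 φ hφ hA R x hR hR1 hx0 hx1
    have hK : Summable (fun y : ℕ × ℕ => R ^ (2 * y.1) * ((y.1 : ℝ) - y.2) * x ^ y.2 * P y) := by
      refine Summable.of_norm_bounded e1 fun y => ?_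
      have hxp : 0 < x ^ y.2 := pow_pos hx0 _
      rw [hPe y.1 y.2]
      rw [Real.norm_eq_abs, abs_mul, abs_mul, abs_mul, abs_of_pos (hR2 _), abs_of_pos hxp, abs_of_nonneg (hP0 y)]
      refine mul_le_mul_of_nonneg_right (mul_le_mul_of_nonneg_right (mul_le_mul_of_nonneg_left ?_ (hR2 _).le)
        hxp.le) (hP0 y)
      have a1 : (0 : ℝ) ≤ y.1 := Nat.cast_nonneg _
      have a2 : (0 : ℝ) ≤ y.2 := Nat.cast_nonneg _
      rw [abs_le]
      constructor <;> linarith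
    have h3 := (avgx_swap hK).2
    have h4 : ∀ m, G m * x ^ m = ∑' N : ℕ, R ^ (2 * N) * ((N : ℝ) - m) * x ^ m * P (N, m) := by
      intro m
      rw [hG, ← tsum_mul_right]
      exact tsum_congr fun N => by ring
    rw [tsum_congr h4]
    refine h3.le.trans ?_
    rw [hP]
    exact e2
  have k3 := (hb (lam + 2 * θ) hμ).1 G k1 k2
  rw [tsum_congr hGω] at k3
  have k4 : ∑' y : ℕ × ℕ, R ^ (2 * y.1) * ((y.1 : ℝ) - y.2) * om (lam + 2 * θ) y.2 * P y ≤ 0 := by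
    rw [← f2]
    exact k3
  -- the conclusion
  have hQ : ∀ N : ℕ, R ^ (2 * N) * QQ θ (lam + 2 * θ) N (pN φ N) =
      ∑' m : ℕ, R ^ (2 * N) * ((N : ℝ) - m - θ) * om (lam + 2 * θ) m * P (N, m) := by
    intro N
    unfold QQ
    rw [← tsum_mul_left]
    refine tsum_congr fun m => ?_
    rw [hPe N m]
    ring
  refine ⟨?_, ?_⟩
  · have h2 : (fun N : ℕ => R ^ (2 * N) * QQ θ (lam + 2 * θ) N (pN φ N)) = fun N : ℕ =>
        ∑' m : ℕ, R ^ (2 * N) * ((N : ℝ) - m - θ) * om (lam + 2 * θ) m * P (N, m) := funext hQ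
    rw [h2]
    exact hH.prod
  · rw [tsum_congr hQ]
    have h3 := hH.tsum_prod
    refine h3.symm.le.trans ?_
    refine le_trans (hH.tsum_le_tsum (fun y => ?_) hF) k4
    refine mul_le_mul_of_nonneg_right (mul_le_mul_of_nonneg_right (mul_le_mul_of_nonneg_left ?_ (hR2 _).le)
      (hω _).le) (hP0 y)
    linarith

end Q90.HS
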