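import Pool.Agent.Q90.HS.Stm
import Pool.Agent.Helper240.ZFM.AreaA

/-! Job HS13: averaging over the circle `|ζ| = R √x`. -/

set_option autoImplicit false
open Complex Filter Topology Set Metric MeasureTheory

namespace Q90.HS.Av

/-! ### summability -/

theorem sm (k : ℕ) {q : ℝ} (h0 : 0 < q) (h1 : q < 1) :
    Summable fun n : ℕ => ((n : ℝ) + 1) ^ k * q ^ n := by
  have h2 : Summable fun n : ℕ => (n : ℝ) ^ k * q ^ n := by
    apply summable_pow_mul_geometric_of_norm_lt_one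
    rw [Real.norm_eq_abs, abs_of_pos h0]
    exact h1
  have h3 := ((summable_nat_add_iff 1).2 h2).mul_left q⁻¹
  refine h3.congr fun n => ?_
  push_cast
  rw [pow_succ]
  field_simp

/-- double series, along the diagonals -/
theorem dsum (f : ℕ → ℕ → ℂ) (q C : ℝ) (hq0 : 0 ≤ q) (hq1 : q < 1)
    (hf : ∀ j l, ‖f j l‖ ≤ C * q ^ (j + l)) :
    HasSum (fun m => ∑ l ∈ Finset.range (m + 1), f (m - l) l) (∑' j, ∑' l, f j l) := by
  have hg := summable_geometric_of_lt_one hq0 hq1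
  have hs : Summable fun y : ℕ × ℕ => f y.1 y.2 := by
    apply Summable.of_norm_bounded (g := fun y : ℕ × ℕ => C * (q ^ y.1 * q ^ y.2))
    · exact (hg.mul_of_nonneg hg (fun _ => by positivity) (fun _ => by positivity)).mul_left C
    · intro y
      rw [← pow_add]
      exact hf y.1 y.2
  have h1 : ∑' y : ℕ × ℕ, f y.1 y.2 = ∑' j, ∑' l, f j l := hs.tsum_prod
  rw [← h1]
  have h2 : HasSum (fun y : ℕ × ℕ => f y.2 y.1) (∑' y : ℕ × ℕ, f y.1 y.2) := by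
    have := (Equiv.prodComm ℕ ℕ).hasSum_iff.2 hs.hasSum
    exact this
  have h3 := (Finset.HasAntidiagonal.sigmaAntidiagonalEquivProd (A := ℕ)).hasSum_iff.2 h2
  have h4 := h3.sigma (fun n => hasSum_fintype _)
  have e : (fun m => ∑ l ∈ Finset.range (m + 1), f (m - l) l) = fun m =>
      ∑ c : Finset.HasAntidiagonal.antidiagonal m, ((fun y : ℕ × ℕ => f y.2 y.1) ∘
        (Finset.HasAntidiagonal.sigmaAntidiagonalEquivProd (A := ℕ))) ⟨m, c⟩ := by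
    funext m
    have h5 := Finset.Nat.sum_antidiagonal_eq_sum_range_succ (fun k j => f j k) m
    have h6 : ∑ c : Finset.HasAntidiagonal.antidiagonal m, ((fun y : ℕ × ℕ => f y.2 y.1) ∘
        (Finset.HasAntidiagonal.sigmaAntidiagonalEquivProd (A := ℕ))) ⟨m, c⟩ =
        ∑ c ∈ Finset.HasAntidiagonal.antidiagonal m, f c.2 c.1 :=
      Finset.sum_coe_sort (Finset.HasAntidiagonal.antidiagonal m) (fun c => f c.2 c.1)
    rw [h6]
    exact h5.symm
  rw [e]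
  exact h4

/-! ### coefficients -/

theorem aa_nn {θ : ℝ} (h0 : 0 < θ) (j : ℕ) : 0 ≤ aa θ j :=
  Finset.prod_nonneg fun _ _ => by positivity

theorem aa_le {θ : ℝ} (h0 : 0 < θ) (h1 : θ < 1) (j : ℕ) : aa θ j ≤ 1 := by
  unfold aa
  apply Finset.prod_le_one
  · intro i _
    positivity
  · intro i _
    rw [div_le_one (by positivity)]
    linarith

theorem aa_norm {θ : ℝ} (h0 : 0 < θ) (h1 : θ < 1) (j : ℕ) : ‖((aa θ j : ℝ) : ℂ)‖ ≤ 1 := by
  rw [Complex.norm_real, Real.norm_eq_abs, abs_of_nonneg (aa_nn h0 j)]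
  exact aa_le h0 h1 j

theorem coeff_pN (φ : ℕ → ℕ → ℂ) (N l : ℕ) :
    (pN φ N).coeff l = if l ≤ N then φ (N - l) l else 0 := by
  unfold pN
  rw [Polynomial.finsetSum_coeff]
  simp only [Polynomial.coeff_C_mul_X_pow]
  rw [Finset.sum_ite_eq (Finset.range (N + 1)) l fun x => φ (N - x) x]
  simp

theorem pc_lt (θ : ℝ) (φ : ℕ → ℕ → ℂ) (n m : ℕ) :
    pc θ (pN φ (n + m)) m = ∑ l ∈ Finset.range (m + 1), φ (n + (m - l)) l * (aa θ (m - l) : ℂ) := by
  unfold pc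
  refine Finset.sum_congr rfl fun l hl => ?_
  have hl' : l ≤ m := Nat.lt_succ_iff.1 (Finset.mem_range.1 hl)
  rw [coeff_pN, if_pos (by omega), Nat.add_sub_assoc hl']

theorem pc_gt (θ : ℝ) (φ : ℕ → ℕ → ℂ) (N k : ℕ) :
    pc θ (pN φ N) (N + k) = ∑ l ∈ Finset.range (N + 1), φ (N - l) l * (aa θ (k + (N - l)) : ℂ) := by
  unfold pc
  have h1 : Finset.range (N + 1) ⊆ Finset.range (N + k + 1) := by
    intro l hl
    rw [Finset.mem_range] at *
    omega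
  rw [← Finset.sum_subset h1]
  · refine Finset.sum_congr rfl fun l hl => ?_
    have hl' : l ≤ N := Nat.lt_succ_iff.1 (Finset.mem_range.1 hl)
    rw [coeff_pN, if_pos hl']
    congr 3
    omega
  · intro l _ hl
    rw [Finset.mem_range] at hl
    rw [coeff_pN, if_neg (by omega), zero_mul]

/-- the hypotheses -/
structure Hy (θ : ℝ) (φ : ℕ → ℕ → ℂ) (C r : ℝ) : Prop where
  t0 : 0 < θ
  t1 : θ < 1
  C0 : 0 ≤ C
  r0 : 0 < r
  b : ∀ k l, ‖φ k l‖ ≤ C * (r⁻¹) ^ (k + l)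

variable {θ C r : ℝ} {φ : ℕ → ℕ → ℂ}

theorem Hy.pc_le1 (h : Hy θ φ C r) (n m : ℕ) :
    ‖pc θ (pN φ (n + m)) m‖ ≤ C * (((m : ℝ) + 1) * (r⁻¹) ^ (n + m)) := by
  have hr := h.r0
  rw [pc_lt]
  refine (norm_sum_le _ _).trans ?_
  have h1 : ∀ l ∈ Finset.range (m + 1), ‖φ (n + (m - l)) l * (aa θ (m - l) : ℂ)‖ ≤
      C * (r⁻¹) ^ (n + m) := by
    intro l hl
    have hl' : l ≤ m := Nat.lt_succ_iff.1 (Finset.mem_range.1 hl)
    rw [norm_mul]
    have h2 := h.b (n + (m - l)) l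
    have e : n + (m - l) + l = n + m := by omega
    rw [e] at h2
    calc ‖φ (n + (m - l)) l‖ * ‖((aa θ (m - l) : ℝ) : ℂ)‖ ≤ (C * (r⁻¹) ^ (n + m)) * 1 :=
          mul_le_mul h2 (aa_norm h.t0 h.t1 _) (norm_nonneg _)
            (mul_nonneg h.C0 (by positivity))
      _ = _ := mul_one _
  refine (Finset.sum_le_sum h1).trans (le_of_eq ?_)
  rw [Finset.sum_const, Finset.card_range, nsmul_eq_mul]
  push_cast
  ring

theorem Hy.pc_le2 (h : Hy θ φ C r) (N k : ℕ) :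
    ‖pc θ (pN φ N) (N + k)‖ ≤ C * (((N : ℝ) + 1) * (r⁻¹) ^ N) := by
  have hr := h.r0
  rw [pc_gt]
  refine (norm_sum_le _ _).trans ?_
  have h1 : ∀ l ∈ Finset.range (N + 1), ‖φ (N - l) l * (aa θ (k + (N - l)) : ℂ)‖ ≤
      C * (r⁻¹) ^ N := by
    intro l hl
    have hl' : l ≤ N := Nat.lt_succ_iff.1 (Finset.mem_range.1 hl)
    rw [norm_mul]
    have h2 := h.b (N - l) l
    rw [Nat.sub_add_cancel hl'] at h2
    calc ‖φ (N - l) l‖ * ‖((aa θ (k + (N - l)) : ℝ) : ℂ)‖ ≤ (C * (r⁻¹) ^ N) * 1 :=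
          mul_le_mul h2 (aa_norm h.t0 h.t1 _) (norm_nonneg _)
            (mul_nonneg h.C0 (by positivity))
      _ = _ := mul_one _
  refine (Finset.sum_le_sum h1).trans (le_of_eq ?_)
  rw [Finset.sum_const, Finset.card_range, nsmul_eq_mul]
  push_cast
  ring

theorem Hy.pc_le (h : Hy θ φ C r) (N m : ℕ) :
    ‖pc θ (pN φ N) m‖ ≤ C * (((N : ℝ) + 1) * (r⁻¹) ^ N) := by
  have hr := h.r0
  rcases le_total N m with h1 | h1
  · obtain ⟨k, rfl⟩ := Nat.exists_eq_add_of_le h1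
    exact h.pc_le2 N k
  · obtain ⟨n, hn⟩ := Nat.exists_eq_add_of_le' h1
    rw [hn]
    refine (h.pc_le1 n m).trans (mul_le_mul_of_nonneg_left ?_ h.C0)
    apply mul_le_mul_of_nonneg_right _ (by positivity)
    push_cast
    have : (0 : ℝ) ≤ n := by positivity
    linarith

/-! ### the two families of functions -/

theorem Hy.sum1 (h : Hy θ φ C r) {ζ : ℂ} (hζ : ‖ζ‖ * r⁻¹ < 1) (n : ℕ) :
    HasSum (fun m => pc θ (pN φ (n + m)) m * ζ ^ m) (∑' j : ℕ, (aa θ j : ℂ) * ζ ^ j * uu φ ζ (n + j)) := by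
  have hr := h.r0
  have h1 := dsum (fun j l => (aa θ j : ℂ) * ζ ^ j * (φ (n + j) l * ζ ^ l)) (‖ζ‖ * r⁻¹)
    (C * (r⁻¹) ^ n) (by positivity) hζ (by
      intro j l
      rw [norm_mul, norm_mul, norm_mul, norm_pow, norm_pow]
      calc ‖((aa θ j : ℝ) : ℂ)‖ * ‖ζ‖ ^ j * (‖φ (n + j) l‖ * ‖ζ‖ ^ l)
          ≤ 1 * ‖ζ‖ ^ j * ((C * (r⁻¹) ^ (n + j + l)) * ‖ζ‖ ^ l) := by
            apply mul_le_mul
            · exact mul_le_mul_of_nonneg_right (aa_norm h.t0 h.t1 j) (by positivity)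
            · exact mul_le_mul_of_nonneg_right (h.b _ _) (by positivity)
            · positivity
            · positivity
        _ = _ := by
            rw [mul_pow, pow_add, pow_add, pow_add, pow_add]
            ring)
  have e1 : (fun m => ∑ l ∈ Finset.range (m + 1), (fun j l => (aa θ j : ℂ) * ζ ^ j *
      (φ (n + j) l * ζ ^ l)) (m - l) l) = fun m => pc θ (pN φ (n + m)) m * ζ ^ m := by
    funext m
    rw [pc_lt, Finset.sum_mul]
    refine Finset.sum_congr rfl fun l hl => ?_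
    have hl' : l ≤ m := Nat.lt_succ_iff.1 (Finset.mem_range.1 hl)
    have e2 : ζ ^ m = ζ ^ (m - l) * ζ ^ l := by
      rw [← pow_add, Nat.sub_add_cancel hl']
    simp only
    rw [e2]
    ring
  rw [e1] at h1
  have e3 : (∑' j : ℕ, ∑' l : ℕ, (fun j l => (aa θ j : ℂ) * ζ ^ j * (φ (n + j) l * ζ ^ l)) j l) =
      ∑' j : ℕ, (aa θ j : ℂ) * ζ ^ j * uu φ ζ (n + j) := by
    refine tsum_congr fun j => ?_
    unfold uu
    rw [← tsum_mul_left]
  rw [← e3]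
  exact h1

theorem Hy.sum2 (h : Hy θ φ C r) {ζ : ℂ} (hζ : ‖ζ‖ * r⁻¹ < 1) (k : ℕ) :
    HasSum (fun N => ζ ^ k * (pc θ (pN φ N) (N + k) * ζ ^ N))
      (∑' j : ℕ, (aa θ (k + j) : ℂ) * ζ ^ (k + j) * uu φ ζ j) := by
  have hr := h.r0
  have h1 := dsum (fun j l => (aa θ (k + j) : ℂ) * ζ ^ (k + j) * (φ j l * ζ ^ l)) (‖ζ‖ * r⁻¹)
    (C * ‖ζ‖ ^ k) (by positivity) hζ (by
      intro j l
      rw [norm_mul, norm_mul, norm_mul, norm_pow, norm_pow]
      calc ‖((aa θ (k + j) : ℝ) : ℂ)‖ * ‖ζ‖ ^ (k + j) * (‖φ j l‖ * ‖ζ‖ ^ l)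
          ≤ 1 * ‖ζ‖ ^ (k + j) * ((C * (r⁻¹) ^ (j + l)) * ‖ζ‖ ^ l) := by
            apply mul_le_mul
            · exact mul_le_mul_of_nonneg_right (aa_norm h.t0 h.t1 _) (by positivity)
            · exact mul_le_mul_of_nonneg_right (h.b _ _) (by positivity)
            · positivity
            · positivity
        _ = _ := by
            rw [mul_pow, pow_add, pow_add, pow_add]
            ring)
  have e1 : (fun m => ∑ l ∈ Finset.range (m + 1), (fun j l => (aa θ (k + j) : ℂ) * ζ ^ (k + j) *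
      (φ j l * ζ ^ l)) (m - l) l) = fun N => ζ ^ k * (pc θ (pN φ N) (N + k) * ζ ^ N) := by
    funext m
    rw [pc_gt, Finset.sum_mul, Finset.mul_sum]
    refine Finset.sum_congr rfl fun l hl => ?_
    have hl' : l ≤ m := Nat.lt_succ_iff.1 (Finset.mem_range.1 hl)
    have e2 : ζ ^ m = ζ ^ (m - l) * ζ ^ l := by
      rw [← pow_add, Nat.sub_add_cancel hl']
    simp only
    rw [e2, pow_add]
    ring
  rw [e1] at h1
  have e3 : (∑' j : ℕ, ∑' l : ℕ, (fun j l => (aa θ (k + j) : ℂ) * ζ ^ (k + j) * (φ j l * ζ ^ l)) j l) =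
      ∑' j : ℕ, (aa θ (k + j) : ℂ) * ζ ^ (k + j) * uu φ ζ j := by
    refine tsum_congr fun j => ?_
    unfold uu
    rw [← tsum_mul_left]
  rw [← e3]
  exact h1

/-! ### integrals over the circle -/

theorem norm_cm {ρ : ℝ} (hρ : 0 ≤ ρ) (t : ℝ) : ‖circleMap 0 ρ t‖ = ρ := by
  simp [abs_of_nonneg hρ]

/-- power series on the circle -/
noncomputable def ps (c : ℕ → ℂ) (ρ t : ℝ) : ℂ := ∑' m, c m * (circleMap 0 ρ t) ^ m

theorem ps_facts {c : ℕ → ℂ} {ρ : ℝ} (hρ : 0 ≤ ρ) (hc : Summable fun j => ‖c j‖ * ρ ^ j) :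
    (∀ t, ‖ps c ρ t‖ ≤ ∑' j, ‖c j‖ * ρ ^ j) ∧ Continuous (ps c ρ) ∧
    HasSum (fun j => ‖c j‖ ^ 2 * ρ ^ (2 * j))
      ((2 * Real.pi)⁻¹ * ∫ t in (0 : ℝ)..(2 * Real.pi), ‖ps c ρ t‖ ^ 2) := by
  have hs : ∀ z : ℂ, ‖z‖ = ρ → HasSum (fun j => c j * z ^ j) (∑' j, c j * z ^ j) := by
    intro z hz
    apply Summable.hasSum
    apply Summable.of_norm
    refine hc.congr fun j => ?_
    rw [norm_mul, norm_pow, hz]
  refine ⟨fun t => ?_, ?_, ?_⟩
  · unfold ps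
    have h1 : ∀ j, ‖c j * (circleMap 0 ρ t) ^ j‖ = ‖c j‖ * ρ ^ j := by
      intro j
      rw [norm_mul, norm_pow, norm_cm hρ]
    have h2 : Summable fun j => ‖c j * (circleMap 0 ρ t) ^ j‖ := by
      refine hc.congr fun j => ?_
      rw [h1]
    refine (norm_tsum_le_tsum_norm h2).trans (le_of_eq ?_)
    exact tsum_congr h1
  · apply continuous_tsum (u := fun j => ‖c j‖ * ρ ^ j)
    · intro j
      exact continuous_const.mul ((continuous_circleMap 0 ρ).pow j)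
    · exact hc
    · intro j t
      rw [norm_mul, norm_pow, norm_cm hρ]
  · have h1 := Pool.Agent.Helper405.Area.parseval hρ hc hc hs hs
    rw [← Complex.hasSum_ofReal]
    have e1 : (fun j : ℕ => (starRingEnd ℂ) (c j) * c j * ((ρ ^ (2 * j) : ℝ) : ℂ)) =
        fun j => ((‖c j‖ ^ 2 * ρ ^ (2 * j) : ℝ) : ℂ) := by
      funext j
      rw [← Complex.normSq_eq_conj_mul_self, Complex.normSq_eq_norm_sq]
      push_cast
      rfl
    have e2 : ((2 * Real.pi : ℂ)⁻¹ * ∫ t in (0:ℝ)..(2 * Real.pi),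
        (starRingEnd ℂ) (∑' j, c j * (circleMap 0 ρ t) ^ j) * (∑' j, c j * (circleMap 0 ρ t) ^ j)) =
        (((2 * Real.pi)⁻¹ * ∫ t in (0 : ℝ)..(2 * Real.pi), ‖ps c ρ t‖ ^ 2 : ℝ) : ℂ) := by
      rw [Complex.ofReal_mul, ← intervalIntegral.integral_ofReal]
      push_cast
      congr 1
      refine intervalIntegral.integral_congr fun t _ => ?_
      show (starRingEnd ℂ) (∑' j, c j * (circleMap 0 ρ t) ^ j) * (∑' j, c j * (circleMap 0 ρ t) ^ j) = _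
      rw [← Complex.normSq_eq_conj_mul_self, Complex.normSq_eq_norm_sq]
      push_cast
      rfl
    rw [e1, e2] at h1
    exact h1

theorem int_sum (F : ℕ → ℝ → ℝ) (b : ℕ → ℝ) (hb : Summable b) (hc : ∀ n, Continuous (F n))
    (hF : ∀ n t, ‖F n t‖ ≤ b n) :
    HasSum (fun n => ∫ t in (0 : ℝ)..(2 * Real.pi), F n t)
      (∫ t in (0 : ℝ)..(2 * Real.pi), ∑' n, F n t) ∧ Continuous (fun t => ∑' n, F n t) := by
  refine ⟨?_, continuous_tsum hc hb hF⟩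
  apply intervalIntegral.hasSum_integral_of_dominated_convergence (fun n _ => b n)
  · intro n
    exact (hc n).aestronglyMeasurable
  · intro n
    exact Eventually.of_forall fun t _ => hF n t
  · exact Eventually.of_forall fun t _ => hb
  · exact intervalIntegrable_const
  · refine Eventually.of_forall fun t _ => ?_
    apply Summable.hasSum
    exact Summable.of_norm_bounded hb (fun n => hF n t)

/-! ### the theorem -/

/-- the terms -/
noncomputable def W (θ : ℝ) (φ : ℕ → ℕ → ℂ) (R x : ℝ) (N m : ℕ) : ℝ :=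
  R ^ (2 * N) * x ^ m * ‖pc θ (pN φ N) m‖ ^ 2

theorem Hy.sumW (h : Hy θ φ C r) {R x : ℝ} (hR : 0 < R) (hRr : R < r) (hx0 : 0 < x) (hx1 : x < 1) :
    Summable (fun y : ℕ × ℕ => ((y.1 : ℝ) + y.2) * W θ φ R x y.1 y.2) := by
  have hr := h.r0
  have hq0 : 0 < R * r⁻¹ := by positivity
  have hq1 : R * r⁻¹ < 1 := by
    rw [← div_eq_mul_inv, div_lt_one hr]
    exact hRr
  have h1 := sm 3 (pow_pos hq0 2) (pow_lt_one₀ hq0.le hq1 (by norm_num : (2 : ℕ) ≠ 0))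
  have h2 := sm 1 hx0 hx1
  have h3 := (h1.mul_of_nonneg h2 (fun _ => by positivity) (fun _ => by positivity)).mul_left (C ^ 2)
  refine Summable.of_nonneg_of_le (fun y => ?_) (fun y => ?_) h3
  · unfold W
    positivity
  · unfold W
    have h4 := h.pc_le y.1 y.2
    have h5 : ‖pc θ (pN φ y.1) y.2‖ ^ 2 ≤ (C * (((y.1 : ℝ) + 1) * (r⁻¹) ^ y.1)) ^ 2 :=
      pow_le_pow_left₀ (norm_nonneg _) h4 2
    have h6 : ((y.1 : ℝ) + y.2) ≤ ((y.1 : ℝ) + 1) * ((y.2 : ℝ) + 1) := by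
      have : (0 : ℝ) ≤ (y.1 : ℝ) * y.2 := by positivity
      nlinarith
    calc ((y.1 : ℝ) + y.2) * (R ^ (2 * y.1) * x ^ y.2 * ‖pc θ (pN φ y.1) y.2‖ ^ 2)
        ≤ (((y.1 : ℝ) + 1) * ((y.2 : ℝ) + 1)) *
          (R ^ (2 * y.1) * x ^ y.2 * (C * (((y.1 : ℝ) + 1) * (r⁻¹) ^ y.1)) ^ 2) := by
          apply mul_le_mul h6 _ (by positivity) (by positivity)
          exact mul_le_mul_of_nonneg_left h5 (by positivity)
      _ = _ := by
          rw [mul_pow, mul_pow, mul_pow R r⁻¹ 2, mul_pow (R ^ 2), ← pow_mul, ← pow_mul, ← pow_mul,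
            mul_comm y.1 2]
          ring

theorem Hy.key (h : Hy θ φ C r) (hr1 : r < 1) (hA : AreaI θ φ) {R x : ℝ} (hR : 0 < R) (hRr : R < r)
    (hx0 : 0 < x) (hx1 : x < 1) :
    ∑' n : ℕ, ∑' m : ℕ, (n : ℝ) * W θ φ R x (n + m) m ≤
      ∑' k : ℕ, ∑' N : ℕ, (k : ℝ) * W θ φ R x N (N + k) := by
  have hr := h.r0
  have hC := h.C0
  obtain ⟨ρ, hρ⟩ : ∃ ρ : ℝ, ρ = R * √x := ⟨_, rfl⟩
  have hsx : 0 < √x := Real.sqrt_pos.2 hx0
  have hsx1 : √x < 1 := by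
    rw [Real.sqrt_lt' one_pos]
    simpa using hx1
  have hρ0 : 0 < ρ := by rw [hρ]; positivity
  have hρR : ρ < R := by
    rw [hρ]
    nlinarith
  have hρ2 : ρ ^ 2 = R ^ 2 * x := by
    rw [hρ, mul_pow, Real.sq_sqrt hx0.le]
  have hq0 : 0 < ρ * r⁻¹ := by positivity
  have hq1 : ρ * r⁻¹ < 1 := by
    rw [← div_eq_mul_inv, div_lt_one hr]
    linarith
  have hp0 : 0 < R * r⁻¹ := by positivity
  have hp1 : R * r⁻¹ < 1 := by
    rw [← div_eq_mul_inv, div_lt_one hr]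
    exact hRr
  have hs0 : 0 < ρ * R⁻¹ := by positivity
  have hs1 : ρ * R⁻¹ < 1 := by
    rw [← div_eq_mul_inv, div_lt_one hR]
    exact hρR
  have hS := sm 1 hq0 hq1
  simp only [pow_one] at hS
  obtain ⟨S, hSS⟩ : ∃ S : ℝ, S = ∑' m : ℕ, ((m : ℝ) + 1) * (ρ * r⁻¹) ^ m := ⟨_, rfl⟩
  have hS0 : 0 ≤ S := by
    rw [hSS]
    exact tsum_nonneg fun m => by positivity
  -- the sequences
  set α : ℕ → ℕ → ℂ := fun n m => pc θ (pN φ (n + m)) m with hα
  set β : ℕ → ℕ → ℂ := fun k N => pc θ (pN φ N) (N + k) with hβ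
  have ha1 : ∀ n m, ‖α n m‖ * ρ ^ m ≤ C * (r⁻¹) ^ n * (((m : ℝ) + 1) * (ρ * r⁻¹) ^ m) := by
    intro n m
    calc ‖α n m‖ * ρ ^ m ≤ (C * (((m : ℝ) + 1) * (r⁻¹) ^ (n + m))) * ρ ^ m :=
          mul_le_mul_of_nonneg_right (h.pc_le1 n m) (by positivity)
      _ = _ := by
          rw [pow_add, mul_pow]
          ring
  have hb1 : ∀ k N, ‖β k N‖ * ρ ^ N ≤ C * (((N : ℝ) + 1) * (ρ * r⁻¹) ^ N) := by
    intro k N
    calc ‖β k N‖ * ρ ^ N ≤ (C * (((N : ℝ) + 1) * (r⁻¹) ^ N)) * ρ ^ N :=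
          mul_le_mul_of_nonneg_right (h.pc_le2 N k) (by positivity)
      _ = _ := by
          rw [mul_pow]
          ring
  have ha2 : ∀ n, Summable fun m => ‖α n m‖ * ρ ^ m := fun n =>
    Summable.of_nonneg_of_le (fun m => by positivity) (ha1 n) (hS.mul_left _)
  have hb2 : ∀ k, Summable fun N => ‖β k N‖ * ρ ^ N := fun k =>
    Summable.of_nonneg_of_le (fun m => by positivity) (hb1 k) (hS.mul_left _)
  have ha3 : ∀ n t, ‖ps (α n) ρ t‖ ≤ C * S * (r⁻¹) ^ n := by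
    intro n t
    refine ((ps_facts hρ0.le (ha2 n)).1 t).trans ?_
    refine (Summable.tsum_le_tsum (ha1 n) (ha2 n) (hS.mul_left _)).trans (le_of_eq ?_)
    rw [tsum_mul_left, ← hSS]
    ring
  have hb3 : ∀ k t, ‖ps (β k) ρ t‖ ≤ C * S := by
    intro k t
    refine ((ps_facts hρ0.le (hb2 k)).1 t).trans ?_
    refine (Summable.tsum_le_tsum (hb1 k) (hb2 k) (hS.mul_left _)).trans (le_of_eq ?_)
    rw [tsum_mul_left, ← hSS]
  -- the integrals
  obtain ⟨hFs, hFc⟩ := int_sum (fun n t => (n : ℝ) * ‖ps (α n) ρ t‖ ^ 2 * R ^ (2 * n))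
    (fun n => (C * S) ^ 2 * (((n : ℝ) + 1) ^ 1 * ((R * r⁻¹) ^ 2) ^ n))
    ((sm 1 (pow_pos hp0 2) (pow_lt_one₀ hp0.le hp1 (by norm_num : (2 : ℕ) ≠ 0))).mul_left _)
    (fun n => (continuous_const.mul (((ps_facts hρ0.le (ha2 n)).2.1.norm).pow 2)).mul
      continuous_const)
    (by
      intro n t
      rw [Real.norm_eq_abs, abs_of_nonneg (by positivity)]
      have h1 : ‖ps (α n) ρ t‖ ^ 2 ≤ (C * S * (r⁻¹) ^ n) ^ 2 :=
        pow_le_pow_left₀ (norm_nonneg _) (ha3 n t) 2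
      calc (n : ℝ) * ‖ps (α n) ρ t‖ ^ 2 * R ^ (2 * n)
          ≤ ((n : ℝ) + 1) * (C * S * (r⁻¹) ^ n) ^ 2 * R ^ (2 * n) := by
            apply mul_le_mul_of_nonneg_right _ (by positivity)
            exact mul_le_mul (by linarith) h1 (by positivity) (by positivity)
        _ = _ := by
            rw [mul_pow, ← pow_mul, ← pow_mul, mul_comm n 2, mul_pow]
            ring)
  obtain ⟨hGs, hGc⟩ := int_sum (fun k t => (k : ℝ) * (ρ ^ (2 * k) * ‖ps (β k) ρ t‖ ^ 2) *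
      (R⁻¹) ^ (2 * k))
    (fun k => (C * S) ^ 2 * (((k : ℝ) + 1) ^ 1 * ((ρ * R⁻¹) ^ 2) ^ k))
    ((sm 1 (pow_pos hs0 2) (pow_lt_one₀ hs0.le hs1 (by norm_num : (2 : ℕ) ≠ 0))).mul_left _)
    (fun k => (continuous_const.mul (continuous_const.mul
      (((ps_facts hρ0.le (hb2 k)).2.1.norm).pow 2))).mul continuous_const)
    (by
      intro k t
      rw [Real.norm_eq_abs, abs_of_nonneg (by positivity)]
      have h1 : ‖ps (β k) ρ t‖ ^ 2 ≤ (C * S) ^ 2 :=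
        pow_le_pow_left₀ (norm_nonneg _) (hb3 k t) 2
      calc (k : ℝ) * (ρ ^ (2 * k) * ‖ps (β k) ρ t‖ ^ 2) * (R⁻¹) ^ (2 * k)
          ≤ ((k : ℝ) + 1) * (ρ ^ (2 * k) * (C * S) ^ 2) * (R⁻¹) ^ (2 * k) := by
            apply mul_le_mul_of_nonneg_right _ (by positivity)
            apply mul_le_mul (by linarith) _ (by positivity) (by positivity)
            exact mul_le_mul_of_nonneg_left h1 (by positivity)
        _ = _ := by
            rw [← pow_mul (ρ * R⁻¹), mul_pow ρ R⁻¹ (2 * k)]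
            ring)
  have hcmp : ∀ t : ℝ, ∑' n : ℕ, (n : ℝ) * ‖ps (α n) ρ t‖ ^ 2 * R ^ (2 * n) ≤
      ∑' k : ℕ, (k : ℝ) * (ρ ^ (2 * k) * ‖ps (β k) ρ t‖ ^ 2) * (R⁻¹) ^ (2 * k) := by
    intro t
    have hz : ‖circleMap 0 ρ t‖ = ρ := norm_cm hρ0.le t
    have h0 : circleMap 0 ρ t ≠ 0 := by
      rw [← norm_pos_iff, hz]
      exact hρ0
    have h1 := hA (circleMap 0 ρ t) R h0 (by rw [hz]; exact hρR) (by linarith)
    have hz' : ‖circleMap 0 ρ t‖ * r⁻¹ < 1 := by rw [hz]; exact hq1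
    have e1 : ∀ n : ℕ, ∑' j : ℕ, (aa θ j : ℂ) * (circleMap 0 ρ t) ^ j *
        uu φ (circleMap 0 ρ t) (n + j) = ps (α n) ρ t := fun n => (h.sum1 hz' n).tsum_eq.symm
    have e2 : ∀ k : ℕ, ∑' j : ℕ, (aa θ (k + j) : ℂ) * (circleMap 0 ρ t) ^ (k + j) *
        uu φ (circleMap 0 ρ t) j = (circleMap 0 ρ t) ^ k * ps (β k) ρ t := by
      intro k
      rw [← (h.sum2 hz' k).tsum_eq, tsum_mul_left]
      rfl
    have e3 : ∀ k : ℕ, ‖(circleMap 0 ρ t) ^ k * ps (β k) ρ t‖ ^ 2 =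
        ρ ^ (2 * k) * ‖ps (β k) ρ t‖ ^ 2 := by
      intro k
      rw [norm_mul, norm_pow, hz, mul_pow, ← pow_mul, mul_comm k 2]
    simp only [e1, e2, e3] at h1
    exact h1
  have hint : ∫ t in (0 : ℝ)..(2 * Real.pi), ∑' n : ℕ, (n : ℝ) * ‖ps (α n) ρ t‖ ^ 2 * R ^ (2 * n) ≤
      ∫ t in (0 : ℝ)..(2 * Real.pi), ∑' k : ℕ, (k : ℝ) * (ρ ^ (2 * k) * ‖ps (β k) ρ t‖ ^ 2) *
        (R⁻¹) ^ (2 * k) := by
    apply intervalIntegral.integral_mono (by positivity) (hFc.intervalIntegrable _ _)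
      (hGc.intervalIntegrable _ _)
    exact hcmp
  have eF : ∀ n : ℕ, (2 * Real.pi)⁻¹ * ∫ t in (0 : ℝ)..(2 * Real.pi),
      (n : ℝ) * ‖ps (α n) ρ t‖ ^ 2 * R ^ (2 * n) = ∑' m : ℕ, (n : ℝ) * W θ φ R x (n + m) m := by
    intro n
    rw [intervalIntegral.integral_mul_const, intervalIntegral.integral_const_mul]
    have h1 := (ps_facts hρ0.le (ha2 n)).2.2.tsum_eq
    have e : (2 * Real.pi)⁻¹ * ((n : ℝ) * (∫ t in (0 : ℝ)..(2 * Real.pi), ‖ps (α n) ρ t‖ ^ 2) *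
        R ^ (2 * n)) = ((n : ℝ) * R ^ (2 * n)) * ((2 * Real.pi)⁻¹ *
        ∫ t in (0 : ℝ)..(2 * Real.pi), ‖ps (α n) ρ t‖ ^ 2) := by ring
    rw [e, ← h1, ← tsum_mul_left]
    refine tsum_congr fun m => ?_
    unfold W
    rw [pow_mul ρ 2 m, hρ2, mul_pow (R ^ 2) x m, ← pow_mul, mul_add, pow_add]
    ring
  have eG : ∀ k : ℕ, (2 * Real.pi)⁻¹ * ∫ t in (0 : ℝ)..(2 * Real.pi),
      (k : ℝ) * (ρ ^ (2 * k) * ‖ps (β k) ρ t‖ ^ 2) * (R⁻¹) ^ (2 * k) =
      ∑' N : ℕ, (k : ℝ) * W θ φ R x N (N + k) := by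
    intro k
    rw [intervalIntegral.integral_mul_const, intervalIntegral.integral_const_mul,
      intervalIntegral.integral_const_mul]
    have h1 := (ps_facts hρ0.le (hb2 k)).2.2.tsum_eq
    have e : (2 * Real.pi)⁻¹ * ((k : ℝ) * (ρ ^ (2 * k) *
        ∫ t in (0 : ℝ)..(2 * Real.pi), ‖ps (β k) ρ t‖ ^ 2) * (R⁻¹) ^ (2 * k)) =
        ((k : ℝ) * (ρ ^ (2 * k) * (R⁻¹) ^ (2 * k))) * ((2 * Real.pi)⁻¹ *
        ∫ t in (0 : ℝ)..(2 * Real.pi), ‖ps (β k) ρ t‖ ^ 2) := by ring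
    have e2 : ρ ^ (2 * k) * (R⁻¹) ^ (2 * k) = x ^ k := by
      rw [pow_mul ρ 2 k, hρ2, mul_pow (R ^ 2) x k, ← pow_mul, inv_pow]
      have : R ^ (2 * k) ≠ 0 := by positivity
      field_simp
    rw [e, ← h1, ← tsum_mul_left, e2]
    refine tsum_congr fun N => ?_
    unfold W
    rw [pow_mul ρ 2 N, hρ2, mul_pow (R ^ 2) x N, ← pow_mul, pow_add x N k]
    ring
  have e1 := (hFs.mul_left (2 * Real.pi)⁻¹).tsum_eq
  have e2 := (hGs.mul_left (2 * Real.pi)⁻¹).tsum_eq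
  simp only [eF] at e1
  simp only [eG] at e2
  rw [e1, e2]
  exact mul_le_mul_of_nonneg_left hint (by positivity)

end Q90.HS.Av

namespace Q90.HS

open Q90.HS.Av

theorem avgx : S_avgx := by
  intro θ h0 h1 φ harr hA R x hR0 hR1 hx0 hx1
  obtain ⟨r, hr⟩ : ∃ r : ℝ, r = (1 + R) / 2 := ⟨_, rfl⟩
  have hRr : R < r := by rw [hr]; linarith
  have hr1 : r < 1 := by rw [hr]; linarith
  have hr0 : 0 < r := by linarith
  obtain ⟨C, hC⟩ := harr r hr0 hr1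
  have H : Hy θ φ C r := by
    refine ⟨h0, h1, ?_, hr0, ?_⟩
    · have := hC 0 0
      simp only [add_zero, pow_zero, mul_one] at this
      exact (norm_nonneg _).trans this
    · intro k l
      have h2 := hC k l
      rw [inv_pow, ← div_eq_mul_inv, le_div_iff₀ (by positivity)]
      exact h2
  have hs := H.sumW hR0 hRr hx0 hx1
  have hW0 : ∀ N m, 0 ≤ W θ φ R x N m := fun N m => by
    unfold W
    positivity
  refine ⟨hs.congr fun y => by unfold W; ring, ?_⟩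
  -- the positive and the negative parts
  have s1 : Summable fun y : ℕ × ℕ => ((y.1 - y.2 : ℕ) : ℝ) * W θ φ R x y.1 y.2 := by
    refine Summable.of_nonneg_of_le (fun y => mul_nonneg (by positivity) (hW0 _ _)) (fun y => ?_) hs
    apply mul_le_mul_of_nonneg_right _ (hW0 _ _)
    have : y.1 - y.2 ≤ y.1 + y.2 := by omega
    exact_mod_cast this
  have s2 : Summable fun y : ℕ × ℕ => ((y.2 - y.1 : ℕ) : ℝ) * W θ φ R x y.1 y.2 := by
    refine Summable.of_nonneg_of_le (fun y => mul_nonneg (by positivity) (hW0 _ _)) (fun y => ?_) hs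
    apply mul_le_mul_of_nonneg_right _ (hW0 _ _)
    have : y.2 - y.1 ≤ y.1 + y.2 := by omega
    exact_mod_cast this
  have e0 : ∀ y : ℕ × ℕ, R ^ (2 * y.1) * ((y.1 : ℝ) - y.2) * x ^ y.2 * ‖pc θ (pN φ y.1) y.2‖ ^ 2 =
      ((y.1 - y.2 : ℕ) : ℝ) * W θ φ R x y.1 y.2 - ((y.2 - y.1 : ℕ) : ℝ) * W θ φ R x y.1 y.2 := by
    intro y
    rw [← sub_mul]
    have : ((y.1 - y.2 : ℕ) : ℝ) - ((y.2 - y.1 : ℕ) : ℝ) = (y.1 : ℝ) - y.2 := by
      rcases le_total y.1 y.2 with h | h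
      · rw [Nat.sub_eq_zero_of_le h, Nat.cast_sub h]
        simp
      · rw [Nat.sub_eq_zero_of_le h, Nat.cast_sub h]
        simp
    rw [this]
    unfold W
    ring
  rw [tsum_congr e0, s1.tsum_sub s2]
  have i1 : Function.Injective fun y : ℕ × ℕ => ((y.1 + y.2, y.2) : ℕ × ℕ) := by
    intro y y' h
    obtain ⟨h2, h3⟩ := Prod.ext_iff.1 h
    simp only at h2 h3
    exact Prod.ext (by omega) h3
  have i2 : Function.Injective fun y : ℕ × ℕ => ((y.2, y.2 + y.1) : ℕ × ℕ) := by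
    intro y y' h
    obtain ⟨h2, h3⟩ := Prod.ext_iff.1 h
    simp only at h2 h3
    exact Prod.ext (by omega) h2
  have t1 : ∑' y : ℕ × ℕ, ((y.1 - y.2 : ℕ) : ℝ) * W θ φ R x y.1 y.2 =
      ∑' n : ℕ, ∑' m : ℕ, (n : ℝ) * W θ φ R x (n + m) m := by
    have h2 := i1.tsum_eq (f := fun y : ℕ × ℕ => ((y.1 - y.2 : ℕ) : ℝ) * W θ φ R x y.1 y.2) (by
      intro y hy
      have h3 : y.2 ≤ y.1 := by
        by_contra hcon
        apply hy
        have : y.1 - y.2 = 0 := by omega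
        simp only
        rw [this, Nat.cast_zero, zero_mul]
      exact ⟨(y.1 - y.2, y.2), Prod.ext (Nat.sub_add_cancel h3) rfl⟩)
    rw [← h2]
    have h3 : Summable fun y : ℕ × ℕ => (y.1 : ℝ) * W θ φ R x (y.1 + y.2) y.2 := by
      have := s1.comp_injective i1
      refine this.congr fun y => ?_
      simp only [Function.comp, Nat.add_sub_cancel]
    rw [← h3.tsum_prod]
    refine tsum_congr fun y => ?_
    simp only [Nat.add_sub_cancel]
  have t2 : ∑' y : ℕ × ℕ, ((y.2 - y.1 : ℕ) : ℝ) * W θ φ R x y.1 y.2 =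
      ∑' k : ℕ, ∑' N : ℕ, (k : ℝ) * W θ φ R x N (N + k) := by
    have h2 := i2.tsum_eq (f := fun y : ℕ × ℕ => ((y.2 - y.1 : ℕ) : ℝ) * W θ φ R x y.1 y.2) (by
      intro y hy
      have h3 : y.1 ≤ y.2 := by
        by_contra hcon
        apply hy
        have : y.2 - y.1 = 0 := by omega
        simp only
        rw [this, Nat.cast_zero, zero_mul]
      refine ⟨(y.2 - y.1, y.1), Prod.ext rfl ?_⟩
      simp only
      omega)
    rw [← h2]
    have h3 : Summable fun y : ℕ × ℕ => (y.1 : ℝ) * W θ φ R x y.2 (y.2 + y.1) := by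
      have := s2.comp_injective i2
      refine this.congr fun y => ?_
      simp only [Function.comp, Nat.add_sub_cancel_left]
    rw [← h3.tsum_prod]
    refine tsum_congr fun y => ?_
    simp only [Nat.add_sub_cancel_left]
  rw [t1, t2]
  have := H.key hr1 hA hR0 hRr hx0 hx1
  linarith

end Q90.HS
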