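import Mathlib
import Pool.Agent.Q90.HS.Stm

/-! Job HS11 (helper96): Beta integrals. -/

set_option autoImplicit false
open Complex Filter Topology Set Metric MeasureTheory

namespace Q90.HS

lemma bt_int0 (s : ℝ) (hs : 0 < s) (a b : ℝ) : IntervalIntegrable (fun x : ℝ => (1 - x) ^ (s - 1)) volume a b := by
  have h2 : IntervalIntegrable (fun x : ℝ => x ^ (s - 1)) volume (1 - a) (1 - b) :=
    intervalIntegral.intervalIntegrable_rpow' (by linarith)
  have h3 := h2.comp_sub_left 1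
  rw [sub_sub_cancel, sub_sub_cancel] at h3
  exact h3

lemma bt_val0 (s : ℝ) (hs : 0 < s) (x : ℝ) : ∫ y in x..1, (1 - y) ^ (s - 1) = (1 - x) ^ s / s := by
  have h1 := intervalIntegral.integral_comp_sub_left (a := x) (b := 1) (fun u : ℝ => u ^ (s - 1)) 1
  rw [h1, sub_self, integral_rpow (Or.inl (by linarith)), sub_add_cancel, Real.zero_rpow hs.ne', sub_zero]

lemma bt_int (ν : ℝ) (hν : 0 < ν) (m : ℕ) (a b : ℝ) :
    IntervalIntegrable (fun x : ℝ => x ^ m * (1 - x) ^ (ν - 1)) volume a b :=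
  (bt_int0 ν hν a b).continuousOn_mul (by fun_prop)

lemma bt_rec (ν : ℝ) (hν : 0 < ν) (m : ℕ) : ((m : ℝ) + 1) * (∫ x in (0:ℝ)..1, x ^ m * (1 - x) ^ (ν - 1)) =
    ((m : ℝ) + 1 + ν) * ∫ x in (0:ℝ)..1, x ^ (m + 1) * (1 - x) ^ (ν - 1) := by
  have h1 : ∫ x in (0:ℝ)..1, (((m : ℝ) + 1) * (x ^ m * (1 - x) ^ (ν - 1)) -
      ((m : ℝ) + 1 + ν) * (x ^ (m + 1) * (1 - x) ^ (ν - 1))) =
      (1:ℝ) ^ (m + 1) * (1 - 1) ^ ν - 0 ^ (m + 1) * (1 - 0) ^ ν := by
    refine intervalIntegral.integral_eq_sub_of_hasDerivAt_of_le (f := fun x : ℝ => x ^ (m + 1) * (1 - x) ^ ν) zero_le_one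
      ?_ ?_ ?_
    · refine ContinuousOn.mul (by fun_prop) ?_
      exact (Continuous.rpow_const (by fun_prop) fun x => Or.inr hν.le).continuousOn
    · intro x hx
      have h2 : 0 < 1 - x := by linarith [hx.2]
      have h3 : HasDerivAt (fun x : ℝ => (1 - x) ^ ν) (-1 * ν * (1 - x) ^ (ν - 1)) x := by
        have h4 : HasDerivAt (fun x : ℝ => 1 - x) (-1) x := by
          simpa using (hasDerivAt_id x).const_sub 1
        exact h4.rpow_const (Or.inl h2.ne')
      have h4 : HasDerivAt (fun x : ℝ => x ^ (m + 1)) (((m : ℝ) + 1) * x ^ m) x := by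
        simpa using hasDerivAt_pow (m + 1) x
      refine (h4.mul h3).congr_deriv ?_
      have h6 : (1 - x) ^ ν = (1 - x) ^ (ν - 1) * (1 - x) := by
        rw [← Real.rpow_add_one h2.ne', sub_add_cancel]
      rw [h6]
      ring
    · exact ((bt_int ν hν m 0 1).const_mul _).sub ((bt_int ν hν (m + 1) 0 1).const_mul _)
  rw [intervalIntegral.integral_sub ((bt_int ν hν m 0 1).const_mul _) ((bt_int ν hν (m + 1) 0 1).const_mul _),
    intervalIntegral.integral_const_mul, intervalIntegral.integral_const_mul, sub_self, Real.zero_rpow hν.ne'] at h1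
  simp only [mul_zero, ne_eq, Nat.add_eq_zero_iff, one_ne_zero, and_false, not_false_eq_true, zero_pow, zero_mul, sub_zero] at h1
  linarith

lemma bt_om (ν : ℝ) (hν : 0 < ν) (m : ℕ) : om ν m = ν * ∫ x in (0:ℝ)..1, x ^ m * (1 - x) ^ (ν - 1) := by
  induction m with
  | zero =>
    have h1 := bt_val0 ν hν 0
    simp only [pow_zero, one_mul]
    rw [h1]
    unfold om
    rw [Finset.range_zero, Finset.prod_empty, sub_zero, Real.one_rpow]
    field_simp
  | succ m ih =>
    have h1 : om ν (m + 1) = om ν m * (((m : ℝ) + 1) / (m + 1 + ν)) := by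
      unfold om
      rw [Finset.prod_range_succ]
    have h2 := bt_rec ν hν m
    have h3 : (0:ℝ) < (m : ℝ) + 1 + ν := by positivity
    rw [h1, ih, mul_assoc]
    congr 1
    rw [← mul_div_assoc, div_eq_iff h3.ne', mul_comm, h2, mul_comm]

/-- the measure on the interval -/
lemma bt_om' (ν : ℝ) (hν : 0 < ν) (m : ℕ) : om ν m = ∫ x in Ioo (0:ℝ) 1, x ^ m * (ν * (1 - x) ^ (ν - 1)) := by
  rw [bt_om ν hν m, ← intervalIntegral.integral_const_mul, intervalIntegral.integral_of_le zero_le_one,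
    integral_Ioc_eq_integral_Ioo]
  refine setIntegral_congr_fun measurableSet_Ioo fun x _ => ?_
  show ν * (x ^ m * (1 - x) ^ (ν - 1)) = x ^ m * (ν * (1 - x) ^ (ν - 1))
  ring

lemma bt_intO (ν : ℝ) (hν : 0 < ν) (m : ℕ) : IntegrableOn (fun x : ℝ => x ^ m * (ν * (1 - x) ^ (ν - 1))) (Ioo 0 1) := by
  have h1 := (intervalIntegrable_iff_integrableOn_Ioo_of_le zero_le_one).1 ((bt_int ν hν m 0 1).const_mul ν)
  refine h1.congr_fun (fun x _ => ?_) measurableSet_Ioo
  show ν * (x ^ m * (1 - x) ^ (ν - 1)) = x ^ m * (ν * (1 - x) ^ (ν - 1))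
  ring

lemma bt_pos (ν : ℝ) (hν : 0 < ν) {x : ℝ} (hx : x ∈ Ioo (0:ℝ) 1) : 0 ≤ ν * (1 - x) ^ (ν - 1) :=
  mul_nonneg hν.le (Real.rpow_nonneg (by linarith [hx.2]) _)

theorem beta : S_beta := by
  intro ν hν
  refine ⟨?_, ?_, ?_⟩
  · intro G hG hle
    have h1 : ∀ m : ℕ, ∫ x in Ioo (0:ℝ) 1, ‖G m * (x ^ m * (ν * (1 - x) ^ (ν - 1)))‖ = |G m| * om ν m := by
      intro m
      rw [bt_om' ν hν m, ← integral_const_mul]
      refine setIntegral_congr_fun measurableSet_Ioo fun x hx => ?_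
      show ‖G m * (x ^ m * (ν * (1 - x) ^ (ν - 1)))‖ = |G m| * (x ^ m * (ν * (1 - x) ^ (ν - 1)))
      rw [norm_mul, Real.norm_eq_abs, Real.norm_eq_abs, abs_of_nonneg (mul_nonneg (pow_nonneg hx.1.le _) (bt_pos ν hν hx))]
    have h2 := hasSum_integral_of_summable_integral_norm (μ := volume.restrict (Ioo (0:ℝ) 1))
      (F := fun (m : ℕ) (x : ℝ) => G m * (x ^ m * (ν * (1 - x) ^ (ν - 1))))
      (fun m => (bt_intO ν hν m).const_mul (G m)) (by simpa only [h1] using hG)
    have h3 : ∀ m : ℕ, ∫ x in Ioo (0:ℝ) 1, G m * (x ^ m * (ν * (1 - x) ^ (ν - 1))) = G m * om ν m := by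
      intro m
      rw [bt_om' ν hν m, ← integral_const_mul]
    simp only [h3] at h2
    rw [h2.tsum_eq]
    refine setIntegral_nonpos measurableSet_Ioo fun x hx => ?_
    have h4 : ∑' m : ℕ, G m * (x ^ m * (ν * (1 - x) ^ (ν - 1))) = (∑' m : ℕ, G m * x ^ m) * (ν * (1 - x) ^ (ν - 1)) := by
      rw [← tsum_mul_right]
      refine tsum_congr fun m => ?_
      ring
    rw [h4]
    exact mul_nonpos_of_nonpos_of_nonneg (hle x hx.1 hx.2) (bt_pos ν hν hx)
  · intro w τ hτ hτν hw hs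
    have hpos : ∀ m, 0 ≤ w m * om ν m := by
      intro m
      refine mul_nonneg (hw m) ?_
      unfold om
      exact Finset.prod_nonneg fun i _ => by positivity
    have hval : ∫ x in Ioo (0:ℝ) 1, ν * (1 - x) ^ (ν - τ - 1) = ν / (ν - τ) := by
      have h1 := bt_val0 (ν - τ) (by linarith) 0
      rw [integral_const_mul, ← integral_Ioc_eq_integral_Ioo, ← intervalIntegral.integral_of_le zero_le_one, h1, sub_zero,
        Real.one_rpow]
      ring
    have hint : IntegrableOn (fun x : ℝ => ν * (1 - x) ^ (ν - τ - 1)) (Ioo 0 1) :=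
      (intervalIntegrable_iff_integrableOn_Ioo_of_le zero_le_one).1 ((bt_int0 (ν - τ) (by linarith) 0 1).const_mul ν)
    have hfin : ∀ s : Finset ℕ, ∑ m ∈ s, w m * om ν m ≤ ν / (ν - τ) := by
      intro s
      rw [← hval]
      have h1 : ∑ m ∈ s, w m * om ν m = ∫ x in Ioo (0:ℝ) 1, ∑ m ∈ s, w m * (x ^ m * (ν * (1 - x) ^ (ν - 1))) := by
        rw [integral_finsetSum _ fun m _ => (bt_intO ν hν m).const_mul (w m)]
        refine Finset.sum_congr rfl fun m _ => ?_
        rw [bt_om' ν hν m, ← integral_const_mul]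
      rw [h1]
      refine setIntegral_mono_on (integrable_finsetSum _ fun m _ => (bt_intO ν hν m).const_mul (w m)) hint measurableSet_Ioo
        fun x hx => ?_
      have h2 := hs x hx.1 hx.2
      have h3 : ∑ m ∈ s, w m * x ^ m ≤ ∑' m, w m * x ^ m :=
        h2.1.sum_le_tsum s fun m _ => mul_nonneg (hw m) (pow_nonneg hx.1.le _)
      have h4 : 0 < 1 - x := by linarith [hx.2]
      calc ∑ m ∈ s, w m * (x ^ m * (ν * (1 - x) ^ (ν - 1))) = (∑ m ∈ s, w m * x ^ m) * (ν * (1 - x) ^ (ν - 1)) := by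
            rw [Finset.sum_mul]
            refine Finset.sum_congr rfl fun m _ => ?_
            ring
        _ ≤ (1 - x) ^ (-τ) * (ν * (1 - x) ^ (ν - 1)) :=
            mul_le_mul_of_nonneg_right (h3.trans h2.2) (bt_pos ν hν hx)
        _ = ν * (1 - x) ^ (ν - τ - 1) := by
            have h5 : ν - τ - 1 = -τ + (ν - 1) := by ring
            rw [h5, Real.rpow_add h4]
            ring
    have hsum : Summable (fun m => w m * om ν m) := summable_of_sum_le hpos hfin
    exact ⟨hsum, hsum.tsum_le_of_sum_le hfin⟩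
  · intro m x hx0 hx1
    rw [bt_om ν hν m]
    have h1 : ∫ y in x..1, x ^ m * (1 - y) ^ (ν - 1) ≤ ∫ y in (0:ℝ)..1, y ^ m * (1 - y) ^ (ν - 1) := by
      have h2 : ∫ y in (0:ℝ)..1, y ^ m * (1 - y) ^ (ν - 1) =
          (∫ y in (0:ℝ)..x, y ^ m * (1 - y) ^ (ν - 1)) + ∫ y in x..1, y ^ m * (1 - y) ^ (ν - 1) :=
        (intervalIntegral.integral_add_adjacent_intervals (bt_int ν hν m 0 x) (bt_int ν hν m x 1)).symm
      have h3 : 0 ≤ ∫ y in (0:ℝ)..x, y ^ m * (1 - y) ^ (ν - 1) := by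
        refine intervalIntegral.integral_nonneg hx0.le fun y hy => ?_
        exact mul_nonneg (pow_nonneg hy.1 _) (Real.rpow_nonneg (by linarith [hy.2]) _)
      have h4 : ∫ y in x..1, x ^ m * (1 - y) ^ (ν - 1) ≤ ∫ y in x..1, y ^ m * (1 - y) ^ (ν - 1) := by
        refine intervalIntegral.integral_mono_on hx1.le ((bt_int0 ν hν x 1).const_mul _) (bt_int ν hν m x 1) fun y hy => ?_
        exact mul_le_mul_of_nonneg_right (pow_le_pow_left₀ hx0.le hy.1 m) (Real.rpow_nonneg (by linarith [hy.2]) _)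
      linarith
    rw [intervalIntegral.integral_const_mul, bt_val0 ν hν x] at h1
    calc x ^ m * (1 - x) ^ ν = ν * (x ^ m * ((1 - x) ^ ν / ν)) := by field_simp
      _ ≤ _ := mul_le_mul_of_nonneg_left h1 hν.le

end Q90.HS
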