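import Pool.Agent.Q90.HS.Stm

/-!
Project HS (helper90), job HS6: the binomial series.
-/

namespace Q90.HS

theorem choose_rec (z : ℂ) (n : ℕ) :
    Ring.choose z (n + 1) * ((n : ℂ) + 1) = Ring.choose z n * (z - n) := by
  have h1 := Ring.descPochhammer_eq_factorial_smul_choose z n
  have h2 := Ring.descPochhammer_eq_factorial_smul_choose z (n + 1)
  have h3 : (descPochhammer ℤ (n + 1)).smeval z = (descPochhammer ℤ n).smeval z * (z - n) := by
    rw [descPochhammer_succ_right, Polynomial.smeval_mul]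
    congr 1
    rw [Polynomial.smeval_sub, Polynomial.smeval_X, pow_one, Polynomial.smeval_natCast, pow_zero]
    simp
  rw [h1, h2, nsmul_eq_mul, nsmul_eq_mul, Nat.factorial_succ] at h3
  have h4 : ((n.factorial : ℕ) : ℂ) ≠ 0 := by exact_mod_cast n.factorial_ne_zero
  push_cast at h3
  apply mul_left_cancel₀ h4
  linear_combination h3

theorem choose_aa (θ : ℝ) (n : ℕ) : Ring.choose (-(θ : ℂ)) n * (-1) ^ n = (aa θ n : ℂ) := by
  induction n with
  | zero => simp [aa]
  | succ n ih =>
    have h1 := choose_rec (-(θ : ℂ)) n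
    have h2 : (aa θ (n + 1) : ℂ) = (aa θ n : ℂ) * (((θ : ℂ) + n) / (n + 1)) := by
      rw [aa, Finset.prod_range_succ, ← aa]
      push_cast
      ring
    have h3 : ((n : ℂ) + 1) ≠ 0 := by exact_mod_cast Nat.succ_ne_zero n
    rw [h2, ← ih, pow_succ]
    field_simp
    linear_combination (-1) * h1

theorem bin : S_bin := by
  intro θ w hw
  have h0 : (-w : ℂ) ∈ Metric.eball (0 : ℂ) 1 := by
    rw [← ENNReal.ofReal_one, Metric.eball_ofReal]
    simpa using hw
  have h1 := (Complex.one_add_cpow_hasFPowerSeriesOnBall_zero (a := -(θ : ℂ))).hasSum h0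
  simp only [zero_add] at h1
  have hne : (1 + -w : ℂ) ≠ 0 := by
    intro h
    have h2 : w = 1 := by linear_combination -h
    rw [h2, norm_one] at hw
    exact lt_irrefl _ hw
  rw [Complex.cpow_def_of_ne_zero hne] at h1
  have h2 : Complex.exp (-(θ : ℂ) * Complex.log (1 - w)) = Complex.exp (Complex.log (1 + -w) * -(θ : ℂ)) := by
    rw [← sub_eq_add_neg]
    congr 1
    ring
  rw [h2]
  have h3 : (fun n => (binomialSeries ℂ (-(θ : ℂ)) n) fun _ => -w) = fun j : ℕ => (aa θ j : ℂ) * w ^ j := by
    funext n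
    rw [binomialSeries_apply, List.ofFn_const, List.prod_replicate, smul_eq_mul, ← choose_aa, mul_assoc,
      ← mul_pow, neg_one_mul]
  rw [h3] at h1
  exact h1

end Q90.HS
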