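import Pool.Agent.Q90.HS.Stm

/-!
# Job HS8 (project of helper90): Taylor coefficients in the bidisc
-/

set_option autoImplicit false

open Complex Filter Topology Set Metric MeasureTheory

namespace Pool.Agent.Q241.HS

/-- Taylor coefficient at zero -/
noncomputable def tay (f : ℂ → ℂ) (k : ℕ) : ℂ := (k.factorial : ℂ)⁻¹ * iteratedDeriv k f 0

lemma tay_hasSum {f : ℂ → ℂ} (hf : DifferentiableOn ℂ f (ball 0 1)) {z : ℂ} (hz : z ∈ ball (0:ℂ) 1) :
    HasSum (fun k => tay f k * z ^ k) (f z) := by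
  have h := Complex.hasSum_taylorSeries_on_ball (r := 1) hf hz
  have e : (fun k => tay f k * z ^ k) =
      fun n : ℕ => ((n.factorial : ℂ))⁻¹ • (z - 0) ^ n • iteratedDeriv n f 0 := by
    funext n
    simp only [tay, smul_eq_mul, sub_zero]
    ring
  rw [e]
  exact h

lemma tay_le {f : ℂ → ℂ} (hf : DifferentiableOn ℂ f (ball 0 1)) {r M : ℝ} (hr : 0 < r) (hr1 : r < 1)
    (hM : ∀ z ∈ sphere (0:ℂ) r, ‖f z‖ ≤ M) (k : ℕ) : ‖tay f k‖ ≤ M / r ^ k := by
  have hd : DiffContOnCl ℂ f (ball 0 r) := by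
    have h1 : DifferentiableOn ℂ f (closedBall 0 r) := hf.mono (closedBall_subset_ball hr1)
    refine ⟨h1.mono ball_subset_closedBall, ?_⟩
    exact h1.continuousOn.mono (closure_ball_subset_closedBall)
  have h := Complex.norm_iteratedDeriv_le_of_forall_mem_sphere_norm_le k hr hd hM
  unfold tay
  rw [norm_mul, norm_inv, Complex.norm_natCast]
  have hk : (0:ℝ) < k.factorial := by exact_mod_cast k.factorial_pos
  rw [inv_mul_le_iff₀ hk]
  refine h.trans (le_of_eq ?_)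
  ring

lemma tay_rem {f : ℂ → ℂ} (hf : DifferentiableOn ℂ f (ball 0 1)) {r M : ℝ} (hr : 0 < r) (hr1 : r < 1)
    (hM : ∀ z ∈ sphere (0:ℂ) r, ‖f z‖ ≤ M) (k : ℕ) {z : ℂ} (hz0 : z ≠ 0) (hz : ‖z‖ ≤ r / 2) :
    ‖(f z - ∑ m ∈ Finset.range k, tay f m * z ^ m) / z ^ k - tay f k‖ ≤ 2 * M / r ^ (k + 1) * ‖z‖ := by
  have hM0 : 0 ≤ M := by
    have : (r : ℂ) ∈ sphere (0:ℂ) r := by
      rw [mem_sphere_zero_iff_norm, Complex.norm_real, Real.norm_of_nonneg hr.le]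
    exact (norm_nonneg _).trans (hM _ this)
  have hzb : z ∈ ball (0:ℂ) 1 := by
    rw [mem_ball_zero_iff]
    linarith
  have hzp : 0 < ‖z‖ := norm_pos_iff.mpr hz0
  have h1 := (hasSum_nat_add_iff' (k + 1)).mpr (tay_hasSum hf hzb)
  have h2 : ∀ n : ℕ, ‖tay f (n + (k + 1)) * z ^ (n + (k + 1))‖ ≤ M * (‖z‖ / r) ^ (k + 1) * (1 / 2) ^ n := by
    intro n
    rw [norm_mul, norm_pow]
    have h3 := tay_le hf hr hr1 hM (n + (k + 1))
    have h4 : ‖z‖ / r ≤ 1 / 2 := by rw [div_le_iff₀ hr]; linarith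
    calc ‖tay f (n + (k + 1))‖ * ‖z‖ ^ (n + (k + 1)) ≤ M / r ^ (n + (k + 1)) * ‖z‖ ^ (n + (k + 1)) := by gcongr
      _ = M * (‖z‖ / r) ^ (k + 1) * (‖z‖ / r) ^ n := by
          rw [div_pow, div_pow]
          field_simp
          ring
      _ ≤ M * (‖z‖ / r) ^ (k + 1) * (1 / 2) ^ n := by
          gcongr
  have h5 : HasSum (fun n : ℕ => M * (‖z‖ / r) ^ (k + 1) * (1 / 2 : ℝ) ^ n) (M * (‖z‖ / r) ^ (k + 1) * 2) :=
    hasSum_geometric_two.mul_left _
  have h6 := tsum_of_norm_bounded h5 h2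
  rw [h1.tsum_eq, Finset.sum_range_succ] at h6
  have e : (f z - ∑ m ∈ Finset.range k, tay f m * z ^ m) / z ^ k - tay f k =
      (f z - (∑ m ∈ Finset.range k, tay f m * z ^ m + tay f k * z ^ k)) / z ^ k := by
    field_simp
    ring
  rw [e, norm_div, norm_pow, div_le_iff₀ (by positivity)]
  refine h6.trans (le_of_eq ?_)
  rw [div_pow]
  field_simp
  ring

lemma bdd {Φ : ℂ × ℂ → ℂ} (hc : ContinuousOn Φ (ball 0 1 ×ˢ ball 0 1)) {r : ℝ} (hr1 : r < 1) :
    ∃ M : ℝ, ∀ ζ ∈ closedBall (0:ℂ) r, ∀ z ∈ closedBall (0:ℂ) r, ‖Φ (ζ, z)‖ ≤ M := by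
  have h1 : IsCompact (closedBall (0:ℂ) r ×ˢ closedBall (0:ℂ) r) :=
    (isCompact_closedBall 0 r).prod (isCompact_closedBall 0 r)
  have h2 : closedBall (0:ℂ) r ×ˢ closedBall (0:ℂ) r ⊆ ball 0 1 ×ˢ ball 0 1 :=
    prod_mono (closedBall_subset_ball hr1) (closedBall_subset_ball hr1)
  obtain ⟨M, hM⟩ := h1.exists_bound_of_continuousOn (hc.mono h2)
  exact ⟨M, fun ζ hζ z hz => hM (ζ, z) ⟨hζ, hz⟩⟩

lemma hol {Φ : ℂ × ℂ → ℂ} (hc : ContinuousOn Φ (ball 0 1 ×ˢ ball 0 1))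
    (h1 : ∀ ζ ∈ ball (0:ℂ) 1, DifferentiableOn ℂ (fun z => Φ (ζ, z)) (ball 0 1))
    (h2 : ∀ z ∈ ball (0:ℂ) 1, DifferentiableOn ℂ (fun ζ => Φ (ζ, z)) (ball 0 1)) (k : ℕ) :
    DifferentiableOn ℂ (fun ζ => tay (fun z => Φ (ζ, z)) k) (ball 0 1) := by
  induction k using Nat.strong_induction_on with
  | _ k ih =>
  set zz : ℕ → ℂ := fun n => ((1 / 2 : ℝ) ^ (n + 1) : ℝ) with hzz
  have hzn : ∀ n, ‖zz n‖ = (1 / 2 : ℝ) ^ (n + 1) := by
    intro n
    rw [hzz]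
    simp only [Complex.norm_real]
    exact Real.norm_of_nonneg (by positivity)
  have hz0 : ∀ n, zz n ≠ 0 := by
    intro n
    rw [← norm_pos_iff, hzn]
    positivity
  have hzb : ∀ n, zz n ∈ ball (0:ℂ) 1 := by
    intro n
    rw [mem_ball_zero_iff, hzn]
    exact pow_lt_one₀ (by norm_num) (by norm_num) (by omega)
  have hF : ∀ n, DifferentiableOn ℂ (fun ζ => (Φ (ζ, zz n) -
      ∑ m ∈ Finset.range k, tay (fun z => Φ (ζ, z)) m * zz n ^ m) / zz n ^ k) (ball 0 1) := by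
    intro n
    refine DifferentiableOn.div_const (DifferentiableOn.sub (h2 _ (hzb n)) ?_) _
    refine DifferentiableOn.fun_sum fun m hm => ?_
    exact (ih m (Finset.mem_range.mp hm)).mul_const _
  have hlim : TendstoLocallyUniformlyOn (fun (n : ℕ) ζ => (Φ (ζ, zz n) -
      ∑ m ∈ Finset.range k, tay (fun z => Φ (ζ, z)) m * zz n ^ m) / zz n ^ k)
      (fun ζ => tay (fun z => Φ (ζ, z)) k) atTop (ball 0 1) := by
    rw [Metric.tendstoLocallyUniformlyOn_iff]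
    intro ε hε x hx
    rw [mem_ball_zero_iff] at hx
    obtain ⟨r, hxr, hr1⟩ := exists_between hx
    have hr : 0 < r := (norm_nonneg x).trans_lt hxr
    obtain ⟨M, hM⟩ := bdd hc hr1
    refine ⟨ball 0 r, mem_nhdsWithin_of_mem_nhds (isOpen_ball.mem_nhds (by
      rw [mem_ball_zero_iff]; exact hxr)), ?_⟩
    have ht : Tendsto (fun n : ℕ => 2 * M / r ^ (k + 1) * (1 / 2 : ℝ) ^ (n + 1)) atTop (𝓝 (2 * M / r ^ (k + 1) * 0)) := by
      refine Tendsto.const_mul _ ?_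
      exact (tendsto_pow_atTop_nhds_zero_of_lt_one (by norm_num) (by norm_num)).comp (tendsto_add_atTop_nat 1)
    rw [mul_zero] at ht
    have ht2 : Tendsto (fun n : ℕ => (1 / 2 : ℝ) ^ (n + 1)) atTop (𝓝 0) :=
      (tendsto_pow_atTop_nhds_zero_of_lt_one (by norm_num) (by norm_num)).comp (tendsto_add_atTop_nat 1)
    filter_upwards [ht.eventually (gt_mem_nhds hε), ht2.eventually (gt_mem_nhds (show (0:ℝ) < r / 2 by positivity))]
      with n hn hn2 y hy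
    have hyb : y ∈ ball (0:ℂ) 1 := ball_subset_ball hr1.le hy
    have := tay_rem (h1 y hyb) hr hr1 (M := M) (fun z hz => hM y (ball_subset_closedBall hy) z
      (sphere_subset_closedBall hz)) k (hz0 n) (by rw [hzn]; exact hn2.le)
    rw [hzn] at this
    rw [dist_comm, dist_eq_norm]
    exact this.trans_lt hn
  exact hlim.differentiableOn (Eventually.of_forall hF) isOpen_ball

theorem coef : Q90.HS.S_coef := by
  intro Φ hc h1 h2
  have h3 := hol hc h1 h2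
  have hb : ∀ r : ℝ, 0 < r → r < 1 → ∀ M : ℝ, (∀ ζ ∈ closedBall (0:ℂ) r, ∀ z ∈ closedBall (0:ℂ) r,
      ‖Φ (ζ, z)‖ ≤ M) → ∀ k l, ‖tay (fun ζ => tay (fun z => Φ (ζ, z)) k) l‖ ≤ M / r ^ k / r ^ l := by
    intro r hr hr1 M hM k l
    refine tay_le (h3 k) hr hr1 (fun ζ hζ => ?_) l
    have hζ' : ζ ∈ closedBall (0:ℂ) r := sphere_subset_closedBall hζ
    exact tay_le (h1 ζ (closedBall_subset_ball hr1 hζ')) hr hr1 (fun z hz => hM ζ hζ' z
      (sphere_subset_closedBall hz)) k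
  refine ⟨fun k l => tay (fun ζ => tay (fun z => Φ (ζ, z)) k) l, ?_, ?_⟩
  · intro r hr hr1
    obtain ⟨M, hM⟩ := bdd hc hr1
    refine ⟨M, fun k l => ?_⟩
    have := hb r hr hr1 M hM k l
    rw [div_div, ← pow_add, le_div_iff₀ (by positivity)] at this
    exact this
  · intro ζ hζ z hz
    have hζ1 : ‖ζ‖ < 1 := mem_ball_zero_iff.mp hζ
    have hz1 : ‖z‖ < 1 := mem_ball_zero_iff.mp hz
    obtain ⟨r, hr0, hr1⟩ := exists_between (max_lt hζ1 hz1)
    have hζr : ‖ζ‖ < r := (le_max_left _ _).trans_lt hr0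
    have hzr : ‖z‖ < r := (le_max_right _ _).trans_lt hr0
    have hr : 0 < r := (norm_nonneg z).trans_lt hzr
    obtain ⟨M, hM⟩ := bdd hc hr1
    have hM0 : 0 ≤ M := (norm_nonneg _).trans (hM ζ (by
      rw [mem_closedBall_zero_iff]; exact hζr.le) z (by rw [mem_closedBall_zero_iff]; exact hzr.le))
    have hs : Summable (fun y : ℕ × ℕ => tay (fun ζ => tay (fun z => Φ (ζ, z)) y.1) y.2 * z ^ y.1 * ζ ^ y.2) := by
      have ha : Summable (fun k : ℕ => (‖z‖ / r) ^ k) :=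
        summable_geometric_of_lt_one (by positivity) ((div_lt_one hr).mpr hzr)
      have hb' : Summable (fun k : ℕ => (‖ζ‖ / r) ^ k) :=
        summable_geometric_of_lt_one (by positivity) ((div_lt_one hr).mpr hζr)
      have hab := (ha.mul_of_nonneg hb' (fun k => by positivity) (fun k => by positivity)).mul_left M
      refine Summable.of_norm_bounded hab fun y => ?_
      rw [norm_mul, norm_mul, norm_pow, norm_pow]
      have h5 := hb r hr hr1 M hM y.1 y.2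
      calc ‖tay (fun ζ => tay (fun z => Φ (ζ, z)) y.1) y.2‖ * ‖z‖ ^ y.1 * ‖ζ‖ ^ y.2
          ≤ M / r ^ y.1 / r ^ y.2 * ‖z‖ ^ y.1 * ‖ζ‖ ^ y.2 := by gcongr
        _ = M * ((‖z‖ / r) ^ y.1 * (‖ζ‖ / r) ^ y.2) := by
            rw [div_pow, div_pow]
            field_simp
    have hin : ∀ k : ℕ, HasSum (fun l : ℕ => tay (fun ζ => tay (fun z => Φ (ζ, z)) k) l * z ^ k * ζ ^ l)
        (tay (fun z => Φ (ζ, z)) k * z ^ k) := by
      intro k
      have h6 := (tay_hasSum (h3 k) hζ).mul_right (z ^ k)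
      have e : (fun l : ℕ => tay (fun ζ => tay (fun z => Φ (ζ, z)) k) l * z ^ k * ζ ^ l) =
          fun l : ℕ => tay (fun ζ => tay (fun z => Φ (ζ, z)) k) l * ζ ^ l * z ^ k := by
        funext l
        ring
      rw [e]
      exact h6
    have h7 := hs.hasSum.prod_fiberwise hin
    have h8 := h7.unique (tay_hasSum (h1 ζ hζ) hz)
    rw [← h8]
    exact hs.hasSum

end Pool.Agent.Q241.HS

namespace Q90.HS

theorem coef : S_coef := Pool.Agent.Q241.HS.coef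

end Q90.HS
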