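import Mathlib
import Pool.Agent.Q90.HS.Stm

/-! Job HS9 (helper96): the diagonal. -/

set_option autoImplicit false
open Complex Filter Topology Set Metric MeasureTheory

namespace Q90.HS

lemma dr_anti (F : ℕ × ℕ → ℂ) (a : ℂ) (h : HasSum F a) :
    HasSum (fun N : ℕ => ∑ l ∈ Finset.range (N + 1), F (N - l, l)) a := by
  have h1 : HasSum (fun x : (n : ℕ) × Finset.HasAntidiagonal.antidiagonal n => F (x.2 : ℕ × ℕ)) a :=
    (Finset.HasAntidiagonal.sigmaAntidiagonalEquivProd.hasSum_iff (f := F)).2 h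
  have h2 := h1.sigma (g := fun N : ℕ => ∑ l ∈ Finset.range (N + 1), F (N - l, l)) fun N => by
    have h3 : ∑ l ∈ Finset.range (N + 1), F (N - l, l) = ∑ x : Finset.HasAntidiagonal.antidiagonal N, F (x : ℕ × ℕ) := by
      rw [Finset.sum_coe_sort (Finset.HasAntidiagonal.antidiagonal N) (fun x => F x), ← Finset.Nat.sum_antidiagonal_swap,
        Finset.Nat.sum_antidiagonal_eq_sum_range_succ_mk]
      rfl
    rw [h3]
    exact hasSum_fintype _
  exact h2

lemma dr_eval (φ : ℕ → ℕ → ℂ) (N : ℕ) : (pN φ N).eval 1 = ∑ l ∈ Finset.range (N + 1), φ (N - l) l := by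
  unfold pN
  rw [Polynomial.eval_finsetSum]
  refine Finset.sum_congr rfl fun l _ => ?_
  simp

lemma dr_der (φ : ℕ → ℕ → ℂ) (N : ℕ) :
    (Polynomial.derivative (pN φ N)).eval 1 = ∑ l ∈ Finset.range (N + 1), φ (N - l) l * (l : ℂ) := by
  unfold pN
  rw [Polynomial.derivative_sum, Polynomial.eval_finsetSum]
  refine Finset.sum_congr rfl fun l _ => ?_
  rw [Polynomial.derivative_C_mul, Polynomial.derivative_X_pow]
  simp

theorem der : S_der := by
  intro Φ φ hφ hΦ v hv
  refine ⟨?_, ?_⟩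
  · have h1 := dr_anti _ _ (hΦ v hv v hv)
    have h2 : (fun N : ℕ => ∑ l ∈ Finset.range (N + 1), φ (N - l) l * v ^ (N - l) * v ^ l) =
        fun N : ℕ => (pN φ N).eval 1 * v ^ N := by
      funext N
      rw [dr_eval, Finset.sum_mul]
      refine Finset.sum_congr rfl fun l hl => ?_
      have h3 : l ≤ N := Nat.lt_succ_iff.1 (Finset.mem_range.1 hl)
      rw [mul_assoc, ← pow_add, Nat.sub_add_cancel h3]
    rw [← h2]
    exact h1
  · have hv1 : ‖v‖ < 1 := by simpa using hv
    obtain ⟨r, hr1, hr2⟩ := exists_between hv1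
    obtain ⟨r', hr3, hr4⟩ := exists_between hr2
    have hr0 : 0 < r := lt_of_le_of_lt (norm_nonneg v) hr1
    have hr'0 : 0 < r' := hr0.trans hr3
    obtain ⟨C, hC⟩ := hφ r' hr'0 hr4
    have hC0 : 0 ≤ C := le_trans (by positivity) (hC 0 0)
    have hq0 : 0 ≤ r / r' := by positivity
    have hq1 : r / r' < 1 := (div_lt_one hr'0).2 hr3
    have hbd : ∀ k l : ℕ, ‖φ k l‖ * (r ^ k * r ^ l) ≤ C * ((r / r') ^ k * (r / r') ^ l) := by
      intro k l
      have h1 : r ^ k * r ^ l = r' ^ (k + l) * ((r / r') ^ k * (r / r') ^ l) := by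
        rw [← pow_add, ← pow_add, ← mul_pow, mul_div_cancel₀ _ hr'0.ne']
      rw [h1, ← mul_assoc]
      exact mul_le_mul_of_nonneg_right (hC k l) (by positivity)
    have hsum : Summable (fun y : ℕ × ℕ => C * ((r / r') ^ y.1 * (r / r') ^ y.2)) := by
      refine Summable.mul_left C ?_
      exact (summable_geometric_of_lt_one hq0 hq1).mul_of_nonneg (summable_geometric_of_lt_one hq0 hq1)
        (fun k => pow_nonneg hq0 k) (fun k => pow_nonneg hq0 k)
    have hvr : v ∈ ball (0:ℂ) r := by simpa using hr1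
    have h1 := hasSum_deriv_of_summable_norm (F := fun (y : ℕ × ℕ) (ζ : ℂ) => φ y.1 y.2 * v ^ y.1 * ζ ^ y.2) (U := ball (0:ℂ) r)
      hsum (fun y => by fun_prop) isOpen_ball (fun y ζ hζ => by
        have h2 : ‖ζ‖ ≤ r := by
          have h3 : ‖ζ‖ < r := by simpa using hζ
          exact h3.le
        refine le_trans ?_ (hbd y.1 y.2)
        rw [norm_mul, norm_mul, norm_pow, norm_pow, mul_assoc]
        refine mul_le_mul_of_nonneg_left ?_ (norm_nonneg _)
        exact mul_le_mul (pow_le_pow_left₀ (norm_nonneg _) hr1.le _) (pow_le_pow_left₀ (norm_nonneg _) h2 _)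
          (pow_nonneg (norm_nonneg _) _) (pow_nonneg hr0.le _)) hvr
    have h2 : deriv (fun w => ∑' y : ℕ × ℕ, φ y.1 y.2 * v ^ y.1 * w ^ y.2) v = deriv (fun ζ => Φ (ζ, v)) v := by
      refine Filter.EventuallyEq.deriv_eq ?_
      filter_upwards [isOpen_ball.mem_nhds hv] with ζ hζ
      exact (hΦ ζ hζ v hv).tsum_eq
    rw [h2] at h1
    have h3 := dr_anti _ _ (h1.mul_left v)
    have h4 : (fun N : ℕ => ∑ l ∈ Finset.range (N + 1), v * deriv (fun ζ : ℂ => φ (N - l) l * v ^ (N - l) * ζ ^ l) v) =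
        fun N : ℕ => (Polynomial.derivative (pN φ N)).eval 1 * v ^ N := by
      funext N
      rw [dr_der, Finset.sum_mul]
      refine Finset.sum_congr rfl fun l hl => ?_
      have h5 : l ≤ N := Nat.lt_succ_iff.1 (Finset.mem_range.1 hl)
      have h6 : deriv (fun ζ : ℂ => φ (N - l) l * v ^ (N - l) * ζ ^ l) v = φ (N - l) l * v ^ (N - l) * ((l : ℂ) * v ^ (l - 1)) :=
        ((hasDerivAt_pow l v).const_mul _).deriv
      rw [h6]
      have h7 : v * ((l : ℂ) * v ^ (l - 1)) = (l : ℂ) * v ^ l := by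
        rcases Nat.eq_zero_or_pos l with h | h
        · rw [h]; simp
        · obtain ⟨j, rfl⟩ : ∃ j, l = j + 1 := ⟨l - 1, by omega⟩
          rw [Nat.add_sub_cancel, pow_succ]
          ring
      have h8 : v ^ N = v ^ (N - l) * v ^ l := by rw [← pow_add, Nat.sub_add_cancel h5]
      rw [h8]
      calc v * (φ (N - l) l * v ^ (N - l) * ((l : ℂ) * v ^ (l - 1))) =
            φ (N - l) l * v ^ (N - l) * (v * ((l : ℂ) * v ^ (l - 1))) := by ring
        _ = _ := by rw [h7]; ring
    rw [← h4]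
    exact h3

end Q90.HS
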