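import Pool.Agent.Q90.HS.Stm
import Pool.Agent.W677.MarG3

/-! The coefficients on the diagonal (job HS10). -/

set_option autoImplicit false
open Complex Filter Topology Set Metric MeasureTheory

namespace Q90.HS

open Pool.Agent.H713R2 (tc hasSum_tc coef_unique tc_deriv)
open Pool.Agent.W677.Mar (Sg NN NN_mul NN_diff exp_unique log_diff)

theorem hasSum_id_mul_deriv {F : ℂ → ℂ} (hF : DifferentiableOn ℂ F (ball 0 1)) {v : ℂ}
    (hv : v ∈ ball (0 : ℂ) 1) :
    HasSum (fun k : ℕ => (k : ℂ) * tc F k * v ^ k) (v * deriv F v) := by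
  have h := (hasSum_tc (hF.deriv isOpen_ball) hv).mul_left v
  have h2 : (fun k : ℕ => v * (tc (deriv F) k * v ^ k)) =
      fun k : ℕ => (((k + 1 : ℕ) : ℂ) * tc F (k + 1) * v ^ (k + 1)) := by
    funext k
    rw [tc_deriv]
    push_cast
    ring
  rw [h2] at h
  have h3 := (hasSum_nat_add_iff (f := fun k : ℕ => (k : ℂ) * tc F k * v ^ k) 1).1 h
  simpa using h3

theorem pN_eval (φ : ℕ → ℕ → ℂ) (N : ℕ) :
    (pN φ N).eval 1 = ∑ l ∈ Finset.range (N + 1), φ (N - l) l := by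
  unfold pN
  rw [Polynomial.eval_finsetSum]
  refine Finset.sum_congr rfl fun l _ => ?_
  simp

theorem pN_deriv_eval (φ : ℕ → ℕ → ℂ) (N : ℕ) :
    (Polynomial.derivative (pN φ N)).eval 1 = ∑ l ∈ Finset.range (N + 1), (l : ℂ) * φ (N - l) l := by
  unfold pN
  rw [Polynomial.derivative_sum, Polynomial.eval_finsetSum]
  refine Finset.sum_congr rfl fun l _ => ?_
  rw [Polynomial.derivative_C_mul_X_pow]
  simp
  ring

theorem pN_sym (g : ℕ → ℕ → ℂ) (hg : ∀ k l, g k l = g l k) (N : ℕ) :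
    (Polynomial.derivative (pN g N)).eval 1 = (N : ℂ) / 2 * (pN g N).eval 1 := by
  rw [pN_deriv_eval, pN_eval]
  have h1 := Finset.sum_range_reflect (fun l : ℕ => (l : ℂ) * g (N - l) l) (N + 1)
  have h2 : ∑ l ∈ Finset.range (N + 1), (fun l : ℕ => (l : ℂ) * g (N - l) l) (N + 1 - 1 - l) =
      ∑ l ∈ Finset.range (N + 1), ((N : ℂ) - l) * g (N - l) l := by
    refine Finset.sum_congr rfl fun l hl => ?_
    have hlN : l ≤ N := by
      have := Finset.mem_range.1 hl
      omega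
    show ((N + 1 - 1 - l : ℕ) : ℂ) * g (N - (N + 1 - 1 - l)) (N + 1 - 1 - l) = _
    have e1 : N + 1 - 1 - l = N - l := by omega
    have e2 : N - (N - l) = l := by omega
    rw [e1, e2, Nat.cast_sub hlN, hg]
  rw [h2] at h1
  have h3 : ∑ l ∈ Finset.range (N + 1), ((N : ℂ) - l) * g (N - l) l =
      (N : ℂ) * (∑ l ∈ Finset.range (N + 1), g (N - l) l) -
        ∑ l ∈ Finset.range (N + 1), (l : ℂ) * g (N - l) l := by
    rw [Finset.mul_sum, ← Finset.sum_sub_distrib]
    refine Finset.sum_congr rfl fun l _ => ?_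
    ring
  rw [h3] at h1
  linear_combination (-1 / 2 : ℂ) * h1

theorem diag (hc : S_coef) (hd : S_der) : S_diag := by
  intro Y H S f hf hfe hf0 θ σ φ hφ hφs N
  have h00 : (0 : ℂ) ∈ ball (0 : ℂ) 1 := mem_ball_self one_pos
  have hsub : IsPreconnected (ball (0 : ℂ) 1 ×ˢ ball (0 : ℂ) 1) :=
    ((convex_ball (0 : ℂ) 1).prod (convex_ball (0 : ℂ) 1)).isPreconnected
  -- symmetry
  have hNN : ∀ ζ z : ℂ, NN Y ζ z = NN Y z ζ := by
    intro ζ z
    by_cases h : z = ζ
    · rw [h]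
    · have h1 := NN_mul Y ζ z
      have h2 := NN_mul Y z ζ
      have h3 : z - ζ ≠ 0 := sub_ne_zero.2 h
      refine mul_right_cancel₀ h3 ?_
      linear_combination h1 + h2
  have hsym : ∀ ζ ∈ ball (0 : ℂ) 1, ∀ z ∈ ball (0 : ℂ) 1, f (ζ, z) = f (z, ζ) := by
    intro ζ hζ z hz
    have h1 := exp_unique hsub (f := f) (g := fun p => f (p.2, p.1)) hf
      (hf.comp (by fun_prop) (fun p hp => ⟨hp.2, hp.1⟩)) (fun p hp => by
        rw [hfe p.1 hp.1 p.2 hp.2, hfe p.2 hp.2 p.1 hp.1, hNN])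
      (x₀ := ((0 : ℂ), (0 : ℂ))) ⟨h00, h00⟩ rfl (x := (ζ, z)) ⟨hζ, hz⟩
    exact h1
  have hdiag : ∀ v ∈ ball (0 : ℂ) 1, f (v, v) = H v := by
    intro v hv
    refine exp_unique (convex_ball (0 : ℂ) 1).isPreconnected (f := fun w => f (w, w)) (g := H)
      (hf.comp (by fun_prop) (fun w hw => ⟨hw, hw⟩)) S.dH.continuousOn (fun w hw => ?_) h00 ?_ hv
    · rw [hfe w hw w hw, S.eq w hw]
      unfold NN
      rw [dslope_same]
    · show f (0, 0) = H 0
      rw [S.H0, hf0 0 h00]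
  -- separate holomorphy
  have hdz : ∀ ζ ∈ ball (0 : ℂ) 1, DifferentiableOn ℂ (fun z => f (ζ, z)) (ball 0 1) := by
    intro ζ hζ
    exact log_diff isOpen_ball (hf.comp (by fun_prop) (fun z hz => ⟨hζ, hz⟩))
      (NN_diff S.G.diff hζ) fun z hz => hfe ζ hζ z hz
  have hdζ : ∀ z ∈ ball (0 : ℂ) 1, DifferentiableOn ℂ (fun ζ => f (ζ, z)) (ball 0 1) := by
    intro z hz
    refine (hdz z hz).congr fun ζ hζ => ?_
    exact hsym ζ hζ z hz
  obtain ⟨g, hg, hgs⟩ := hc f hf hdz hdζ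
  -- the symmetric array
  have hgA : IsArr fun k l => (g k l + g l k) / 2 := by
    intro r hr hr1
    obtain ⟨C, hC⟩ := hg r hr hr1
    refine ⟨C, fun k l => ?_⟩
    have h1 := hC k l
    have h2 := hC l k
    rw [add_comm l k] at h2
    have h3 : ‖(g k l + g l k) / 2‖ ≤ (‖g k l‖ + ‖g l k‖) / 2 := by
      rw [norm_div, Complex.norm_ofNat]
      exact div_le_div_of_nonneg_right (norm_add_le _ _) (by norm_num)
    have h4 : 0 ≤ r ^ (k + l) := by positivity
    nlinarith [mul_le_mul_of_nonneg_right h3 h4]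
  have hgS : ∀ ζ ∈ ball (0 : ℂ) 1, ∀ z ∈ ball (0 : ℂ) 1,
      HasSum (fun y : ℕ × ℕ => (fun k l => (g k l + g l k) / 2) y.1 y.2 * z ^ y.1 * ζ ^ y.2)
        (f (ζ, z)) := by
    intro ζ hζ z hz
    have h1 := hgs ζ hζ z hz
    have h2 := hgs z hz ζ hζ
    rw [← hsym ζ hζ z hz] at h2
    have h3 := (Equiv.prodComm ℕ ℕ).hasSum_iff.2 h2
    have h4 := (h1.add h3).div_const 2
    rw [add_self_div_two] at h4
    refine h4.congr_fun ?_ |> fun h => h
    intro y
    show (g y.1 y.2 + g y.2 y.1) / 2 * z ^ y.1 * ζ ^ y.2 =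
      (g y.1 y.2 * z ^ y.1 * ζ ^ y.2 + g y.2 y.1 * ζ ^ y.2 * z ^ y.1) / 2
    ring
  have hder : ∀ v ∈ ball (0 : ℂ) 1, v * deriv (fun ζ => f (ζ, v)) v = 1 / 2 * (v * deriv H v) := by
    have hH : (fun N : ℕ => (pN (fun k l => (g k l + g l k) / 2) N).eval 1) = tc H := by
      refine coef_unique (F := H) ?_ ?_
      · filter_upwards [ball_mem_nhds (0 : ℂ) one_pos] with x hx
        have h1 := (hd f _ hgA hgS x hx).1
        rwa [hdiag x hx] at h1
      · filter_upwards [ball_mem_nhds (0 : ℂ) one_pos] with x hx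
        exact hasSum_tc S.dH hx
    intro v hv
    have h1 := (hd f _ hgA hgS v hv).2
    have h2 := (hasSum_id_mul_deriv S.dH hv).mul_left (1 / 2)
    refine h1.unique ?_
    refine h2.congr_fun ?_ |> fun h => h
    intro k
    have h3 : (pN (fun k l => (g k l + g l k) / 2) k).eval 1 = tc H k := congrFun hH k
    rw [pN_sym _ (fun k l => by rw [add_comm]) k, h3]
    ring
  -- the function
  set Φ : ℂ × ℂ → ℂ := fun p => Complex.exp (-(θ : ℂ) * f p + (θ + σ) * H p.1) with hΦ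
  set E : ℂ → ℂ := fun v => Complex.exp (σ * H v) with hE
  have hEd : DifferentiableOn ℂ E (ball 0 1) := (S.dH.const_mul σ).cexp
  have hΦd : ∀ v ∈ ball (0 : ℂ) 1, Φ (v, v) = E v := by
    intro v hv
    show Complex.exp (-(θ : ℂ) * f (v, v) + (θ + σ) * H v) = Complex.exp (σ * H v)
    rw [hdiag v hv]
    congr 1
    ring
  have hΦ' : ∀ v ∈ ball (0 : ℂ) 1, σ * (v * deriv (fun ζ => Φ (ζ, v)) v) =
      (θ / 2 + σ) * (v * deriv E v) := by
    intro v hv
    have h1 : HasDerivAt (fun ζ => f (ζ, v)) (deriv (fun ζ => f (ζ, v)) v) v :=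
      ((hdζ v hv).differentiableAt (isOpen_ball.mem_nhds hv)).hasDerivAt
    have h2 : HasDerivAt H (deriv H v) v :=
      (S.dH.differentiableAt (isOpen_ball.mem_nhds hv)).hasDerivAt
    have h3 : HasDerivAt (fun ζ => Φ (ζ, v)) (Complex.exp (-(θ : ℂ) * f (v, v) + (θ + σ) * H v) *
        (-(θ : ℂ) * deriv (fun ζ => f (ζ, v)) v + (θ + σ) * deriv H v)) v :=
      ((h1.const_mul (-(θ : ℂ))).add (h2.const_mul ((θ : ℂ) + σ))).cexp
    have h4 : HasDerivAt E (Complex.exp (σ * H v) * (σ * deriv H v)) v := (h2.const_mul σ).cexp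
    have h5 : Complex.exp (-(θ : ℂ) * f (v, v) + (θ + σ) * H v) = Complex.exp (σ * H v) := hΦd v hv
    rw [h3.deriv, h4.deriv, h5]
    linear_combination (-(θ : ℂ) * σ * Complex.exp (σ * H v)) * hder v hv
  have hA : (fun N : ℕ => (pN φ N).eval 1) = tc E := by
    refine coef_unique (F := E) ?_ ?_
    · filter_upwards [ball_mem_nhds (0 : ℂ) one_pos] with x hx
      have h1 := (hd Φ φ hφ hφs x hx).1
      rwa [hΦd x hx] at h1
    · filter_upwards [ball_mem_nhds (0 : ℂ) one_pos] with x hx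
      exact hasSum_tc hEd hx
  have hB : (fun N : ℕ => σ * (Polynomial.derivative (pN φ N)).eval 1) =
      fun N : ℕ => (θ / 2 + σ) * N * tc E N := by
    refine coef_unique (F := fun v => (θ / 2 + σ) * (v * deriv E v)) ?_ ?_
    · filter_upwards [ball_mem_nhds (0 : ℂ) one_pos] with x hx
      have h1 := ((hd Φ φ hφ hφs x hx).2).mul_left σ
      rw [hΦ' x hx] at h1
      refine h1.congr_fun ?_ |> fun h => h
      intro k
      ring
    · filter_upwards [ball_mem_nhds (0 : ℂ) one_pos] with x hx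
      have h1 := (hasSum_id_mul_deriv hEd hx).mul_left (θ / 2 + σ)
      refine h1.congr_fun ?_ |> fun h => h
      intro k
      ring
  exact ⟨congrFun hA N, congrFun hB N⟩

end Q90.HS

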