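import Mathlib
import Pool.Agent.Q90.HS.Stm
import Pool.Agent.Q90.SM.Asm

/-! The growth of the means from the inequality for the Taylor coefficients. -/

set_option autoImplicit false
open Complex Filter Topology Set Metric MeasureTheory

namespace Q90.HS

open Pool.Agent.TH325.SI (mn em la par cm_mem norm_cm cont_cm)
open Pool.Agent.H713R2 (tc hasSum_tc tc_unique)
open Pool.Agent.W677.Mar (Sg goluzin)
open Q90.SM (FF dFF)

theorem om_pos' {μ : ℝ} (hμ : 0 ≤ μ) (m : ℕ) : 0 < om μ m := by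
  unfold om
  apply Finset.prod_pos
  intro i _
  positivity

theorem om_le_one' {μ : ℝ} (hμ : 0 ≤ μ) (m : ℕ) : om μ m ≤ 1 := by
  unfold om
  apply Finset.prod_le_one
  · intro i _
    positivity
  · intro i _
    rw [div_le_one (by positivity)]
    linarith

theorem om_shift {lam : ℝ} (hl : 0 < lam) (N : ℕ) : om lam N * ((lam + 1) / (N + lam + 1)) = om (lam + 1) N := by
  induction N with
  | zero =>
    have h : lam + 1 ≠ 0 := by positivity
    unfold om
    simp [h]
  | succ n ih =>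
    unfold om at ih ⊢
    rw [Finset.prod_range_succ, Finset.prod_range_succ, ← ih]
    push_cast
    have h1 : (n : ℝ) + lam + 1 ≠ 0 := by positivity
    have h2 : (n : ℝ) + 1 + lam ≠ 0 := by positivity
    have h3 : (n : ℝ) + 1 + lam + 1 ≠ 0 := by positivity
    have h4 : (n : ℝ) + 1 + (lam + 1) ≠ 0 := by positivity
    field_simp
    ring

theorem mn_goluzin {Y H : ℂ → ℂ} (S : Sg Y H) (t : ℂ) {ρ : ℝ} (h0 : 0 < ρ) (h1 : ρ < 1) :
    mn (FF t H) ρ ≤ (1 - ρ ^ 2) ^ (-‖t‖) := by
  have hpi := Real.pi_pos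
  have h2 : 0 < 1 - ρ ^ 2 := by nlinarith
  unfold Pool.Agent.TH325.SI.mn
  have h3 : ∀ θ : ℝ, ‖FF t H (circleMap 0 ρ θ)‖ ^ 2 ≤ (1 - ρ ^ 2) ^ (-‖t‖) := by
    intro θ
    have h4 := goluzin S (cm_mem h0 h1 θ)
    rw [norm_cm h0] at h4
    unfold FF
    rw [Complex.norm_exp, sq, ← Real.exp_add, Real.rpow_def_of_pos h2]
    apply Real.exp_le_exp.2
    set w := H (circleMap 0 ρ θ) with hw
    have h5 : (t / 2 * w).re + (t / 2 * w).re = (t * w).re := by
      rw [← Complex.add_re]
      congr 1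
      ring
    rw [h5]
    calc (t * w).re ≤ ‖t * w‖ := Complex.re_le_norm _
      _ = ‖t‖ * ‖w‖ := norm_mul _ _
      _ ≤ ‖t‖ * (-Real.log (1 - ρ ^ 2)) := by gcongr
      _ = _ := by ring
  have h6 : ∫ θ in (0:ℝ)..(2 * Real.pi), ‖FF t H (circleMap 0 ρ θ)‖ ^ 2 ≤ ∫ _ in (0:ℝ)..(2 * Real.pi), (1 - ρ ^ 2) ^ (-‖t‖) := by
    apply intervalIntegral.integral_mono_on (by positivity)
    · exact ((cont_cm (dFF S.dH t) h0 h1).norm.pow 2).intervalIntegrable _ _
    · exact intervalIntegrable_const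
    · intro θ _
      exact h3 θ
  rw [intervalIntegral.integral_const, smul_eq_mul, sub_zero] at h6
  calc (2 * Real.pi)⁻¹ * ∫ θ in (0:ℝ)..(2 * Real.pi), ‖FF t H (circleMap 0 ρ θ)‖ ^ 2
      ≤ (2 * Real.pi)⁻¹ * (2 * Real.pi * (1 - ρ ^ 2) ^ (-‖t‖)) := by gcongr
    _ = _ := by field_simp

theorem grow (hst : S_star) (hb : S_beta) : S_grow := by
  intro Y H S t ht θ lam q h0 h1 hlam hq0 hq1 htl hX s hs0 hs1
  have htn : 0 < ‖t‖ := norm_pos_iff.2 ht
  set c : ℕ → ℂ := tc (FF t H) with hc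
  set X : ℝ := lam * (lam + 2) * ‖((lam + 1 : ℝ) : ℂ) - t‖ ^ 2 * (θ * (1 - θ)) with hXd
  have hXpos : 0 < X := by
    have h2 : 0 < ‖((lam + 1 : ℝ) : ℂ) - t‖ := by
      rw [norm_pos_iff, sub_ne_zero]
      intro h3
      rw [← h3, Complex.norm_real, Real.norm_of_nonneg (by linarith)] at htl
      exact lt_irrefl _ htl
    have h3 : 0 < 1 - θ := by linarith
    positivity
  set R : ℝ := Real.sqrt s with hR
  have hR0 : 0 < R := Real.sqrt_pos.2 hs0
  have hR2 : R ^ 2 = s := Real.sq_sqrt hs0.le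
  have hR1 : R < 1 := by
    rw [hR, Real.sqrt_lt' one_pos]
    simpa using hs1
  set w : ℕ → ℝ := fun N => R ^ (2 * N) * ‖c N‖ ^ 2 with hw
  have hw0 : ∀ N, 0 ≤ w N := fun N => by positivity
  -- sums of the coefficients
  have hpar : ∀ x : ℝ, 0 < x → s * x < 1 → HasSum (fun N => w N * x ^ N) (mn (FF t H) (Real.sqrt (s * x))) := by
    intro x hx hx1
    have h2 : 0 < Real.sqrt (s * x) := Real.sqrt_pos.2 (by positivity)
    have h3 : Real.sqrt (s * x) < 1 := by
      rw [Real.sqrt_lt' one_pos]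
      simpa using hx1
    have h4 := par (dFF S.dH t) h2 h3
    refine h4.congr_fun ?_ |> fun h => h
    intro N
    rw [pow_mul (Real.sqrt (s * x)), Real.sq_sqrt (by positivity)]
    simp only [hw]
    rw [pow_mul, hR2, mul_pow]
    ring
  have hw1 : Summable w := by
    have := (hpar 1 one_pos (by linarith)).summable
    simpa using this
  have hsw : ∀ {g : ℕ → ℝ}, (∀ N, 0 ≤ g N) → (∀ N, g N ≤ 1) → Summable (fun N => w N * g N) := by
    intro g hg0 hg1
    refine Summable.of_nonneg_of_le (fun N => mul_nonneg (hw0 N) (hg0 N)) (fun N => ?_) hw1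
    exact mul_le_of_le_one_right (hw0 N) (hg1 N)
  have hsA : Summable (fun N => w N * om lam N) := hsw (fun N => (om_pos' hlam.le N).le) (fun N => om_le_one' hlam.le N)
  have hsB : Summable (fun N => w N * om (lam + 1) N) :=
    hsw (fun N => (om_pos' (by linarith) N).le) (fun N => om_le_one' (by linarith) N)
  -- the upper bound of the weak norm
  obtain ⟨-, hb2, -⟩ := hb (lam + 1) (by linarith)
  have hup := (hb2 w ‖t‖ htn.le htl hw0 (fun x hx0 hx1 => by
    have h2 : s * x < 1 := by nlinarith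
    have h3 := hpar x hx0 h2
    refine ⟨h3.summable, ?_⟩
    rw [h3.tsum_eq]
    have h4 : 0 < Real.sqrt (s * x) := Real.sqrt_pos.2 (by positivity)
    have h5 : Real.sqrt (s * x) < 1 := by
      rw [Real.sqrt_lt' one_pos]
      simpa using h2
    refine (mn_goluzin S t h4 h5).trans ?_
    rw [Real.sq_sqrt (by positivity)]
    apply Real.rpow_le_rpow_of_nonpos (by linarith) (by nlinarith) (by linarith [norm_nonneg t]))).2
  -- the main inequality
  have hmain : (1 - q) * ∑' N, w N * om lam N ≤ ∑' N, w N * om (lam + 1) N := by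
    have h2 := hst Y H S t ht θ lam h0 h1 hlam R hR0 hR1
    have hsC : Summable (fun N : ℕ => w N * om lam N * ((N : ℝ) / (N + lam + 1) * X - ‖t‖ ^ 2 * ((lam + θ) * (lam + θ + 1)))) := by
      have h3 : Summable (fun N : ℕ => w N * (om lam N * ((N : ℝ) / (N + lam + 1)))) := by
        apply hsw
        · intro N
          have := om_pos' hlam.le N
          positivity
        · intro N
          have h4 := om_le_one' hlam.le N
          have h5 := (om_pos' hlam.le N).le
          have h6 : (N : ℝ) / (N + lam + 1) ≤ 1 := by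
            rw [div_le_one (by positivity)]
            linarith
          have h7 : 0 ≤ (N : ℝ) / (N + lam + 1) := by positivity
          nlinarith
      have h8 := (h3.mul_right X).sub (hsA.mul_right (‖t‖ ^ 2 * ((lam + θ) * (lam + θ + 1))))
      refine h8.congr fun N => ?_
      ring
    have h3 : ∑' N : ℕ, w N * om lam N * ((N : ℝ) / (N + lam + 1) * X - ‖t‖ ^ 2 * ((lam + θ) * (lam + θ + 1))) ≤ 0 := by
      refine le_trans (le_of_eq ?_) h2
      refine tsum_congr fun N => ?_
      simp only [hw, hXd, hc]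
    have h4 : ∑' N : ℕ, (X * ((1 - q) * (w N * om lam N)) - X * (w N * om (lam + 1) N)) ≤
        ∑' N : ℕ, w N * om lam N * ((N : ℝ) / (N + lam + 1) * X - ‖t‖ ^ 2 * ((lam + θ) * (lam + θ + 1))) := by
      apply Summable.tsum_le_tsum _ (((hsA.mul_left _).mul_left X).sub (hsB.mul_left X)) hsC
      intro N
      rw [← om_shift hlam N]
      have h5 : 0 ≤ w N * om lam N := mul_nonneg (hw0 N) (om_pos' hlam.le N).le
      have h6 : (lam + 1) / (N + lam + 1) = 1 - (N : ℝ) / (N + lam + 1) := by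
        field_simp
        ring
      rw [h6]
      have h7 := mul_le_mul_of_nonneg_left hX h5
      linarith
    rw [((hsA.mul_left _).mul_left X).tsum_sub (hsB.mul_left X), tsum_mul_left, tsum_mul_left, tsum_mul_left] at h4
    have h8 : X * ((1 - q) * ∑' N, w N * om lam N) ≤ X * ∑' N, w N * om (lam + 1) N := by linarith
    exact le_of_mul_le_mul_left h8 hXpos
  -- the lower bound
  obtain ⟨-, -, hb3⟩ := hb lam hlam
  have hlow : (1 - s) ^ lam * mn (FF t H) s ≤ ∑' N, w N * om lam N := by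
    have h2 := hpar s hs0 (by nlinarith)
    rw [Real.sqrt_mul_self hs0.le] at h2
    rw [← h2.tsum_eq, ← tsum_mul_left]
    apply Summable.tsum_le_tsum _ (h2.summable.mul_left _) hsA
    intro N
    have h3 := mul_le_mul_of_nonneg_left (hb3 N s hs0 hs1) (hw0 N)
    linarith
  have hq' : 0 < 1 - q := by linarith
  have hs' : 0 < 1 - s := by linarith
  have hp : 0 < (1 - s) ^ lam := Real.rpow_pos_of_pos hs' lam
  have h9 : (1 - q) * ((1 - s) ^ lam * mn (FF t H) s) ≤ (lam + 1) / (lam + 1 - ‖t‖) :=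
    (mul_le_mul_of_nonneg_left hlow hq'.le).trans (hmain.trans hup)
  have h10 : mn (FF t H) s ≤ (1 - q)⁻¹ * ((lam + 1) / (lam + 1 - ‖t‖)) * ((1 - s) ^ lam)⁻¹ := by
    rw [inv_mul_eq_div, ← div_eq_mul_inv, div_div, le_div_iff₀ (by positivity)]
    linarith
  refine h10.trans ?_
  have h11 : ((1 - s) ^ lam)⁻¹ ≤ 2 ^ lam * Real.exp (lam * la s) := by
    have e1 : Real.exp (lam * la s) = ((1 - s ^ 2) ^ lam)⁻¹ := by
      rw [Real.rpow_def_of_pos (by nlinarith), ← Real.exp_neg]
      congr 1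
      unfold Pool.Agent.TH325.SI.la
      ring
    have e2 : (1 - s ^ 2) ^ lam = (1 - s) ^ lam * (1 + s) ^ lam := by
      rw [← Real.mul_rpow (by linarith) (by linarith)]
      congr 1
      ring
    have e3 : (1 + s) ^ lam ≤ 2 ^ lam := Real.rpow_le_rpow (by linarith) (by linarith) hlam.le
    have e4 : 0 < (1 + s) ^ lam := Real.rpow_pos_of_pos (by linarith) lam
    rw [e1, e2, mul_inv, ← mul_assoc, mul_comm (2 ^ lam), mul_assoc]
    apply le_mul_of_one_le_right (by positivity)
    rw [← div_eq_mul_inv, one_le_div e4]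
    exact e3
  have h12 : 0 ≤ (1 - q)⁻¹ * ((lam + 1) / (lam + 1 - ‖t‖)) := by
    have : 0 < lam + 1 - ‖t‖ := by linarith
    positivity
  calc (1 - q)⁻¹ * ((lam + 1) / (lam + 1 - ‖t‖)) * ((1 - s) ^ lam)⁻¹
      ≤ (1 - q)⁻¹ * ((lam + 1) / (lam + 1 - ‖t‖)) * (2 ^ lam * Real.exp (lam * la s)) := mul_le_mul_of_nonneg_left h11 h12
    _ = _ := by ring

end Q90.HS
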