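import Mathlib
import Pool.Agent.Q90.HS.Stm

/-! Assembly: the inequality for the Taylor coefficients of `exp (t H / 2)`. -/

set_option autoImplicit false
open Complex Filter Topology Set Metric MeasureTheory

namespace Q90.HS

open Pool.Agent.TH325.SI (mn em la)
open Pool.Agent.H713R2 (tc hasSum_tc tc_unique)
open Pool.Agent.W677.Mar (Sg NN NN_mul NN_diff exists_log log_diff)
open Q90.SM (FF)

theorem NN_symm (Y : ℂ → ℂ) (ζ z : ℂ) : NN Y ζ z = NN Y z ζ := by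
  by_cases h : z = ζ
  · rw [h]
  · have h1 := NN_mul Y ζ z
    have h2 := NN_mul Y z ζ
    have h3 : z - ζ ≠ 0 := sub_ne_zero.2 h
    have h4 : (NN Y ζ z - NN Y z ζ) * (z - ζ) = 0 := by
      linear_combination h1 + h2
    rcases mul_eq_zero.1 h4 with h5 | h5
    · exact sub_eq_zero.1 h5
    · exact absurd h5 h3

theorem pN_natDegree (φ : ℕ → ℕ → ℂ) (N : ℕ) : (pN φ N).natDegree ≤ N := by
  unfold pN
  apply Polynomial.natDegree_sum_le_of_forall_le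
  intro l hl
  refine (Polynomial.natDegree_C_mul_X_pow_le _ _).trans ?_
  have := Finset.mem_range.1 hl
  omega

/-- the coefficient functions of the double series -/
theorem uu_hasSum {φ : ℕ → ℕ → ℂ} {Φ : ℂ} {ζ z : ℂ}
    (h : HasSum (fun y : ℕ × ℕ => φ y.1 y.2 * z ^ y.1 * ζ ^ y.2) Φ) :
    HasSum (fun k => uu φ ζ k * z ^ k) Φ := by
  have h1 := h.summable.tsum_prod' (f := fun y : ℕ × ℕ => φ y.1 y.2 * z ^ y.1 * ζ ^ y.2)
    (fun k => h.summable.prod_factor k)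
  have h2 := (h.summable.prod (f := fun y : ℕ × ℕ => φ y.1 y.2 * z ^ y.1 * ζ ^ y.2)).hasSum
  rw [← h1, h.tsum_eq] at h2
  refine h2.congr_fun ?_ |> fun h => h
  intro k
  unfold uu
  rw [← tsum_mul_right]
  refine tsum_congr fun l => ?_
  ring

theorem areaI_of (harea : S_area) {Y H : ℂ → ℂ} (S : Sg Y H) {f : ℂ × ℂ → ℂ} (hf : ContinuousOn f (ball 0 1 ×ˢ ball 0 1))
    (hfe : ∀ ζ ∈ ball (0:ℂ) 1, ∀ z ∈ ball (0:ℂ) 1, Complex.exp (f (ζ, z)) = NN Y ζ z)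
    {θ : ℝ} (h0 : 0 < θ) (h1 : θ < 1) (σ : ℂ) {φ : ℕ → ℕ → ℂ}
    (hφ : ∀ ζ ∈ ball (0:ℂ) 1, ∀ z ∈ ball (0:ℂ) 1,
      HasSum (fun y : ℕ × ℕ => φ y.1 y.2 * z ^ y.1 * ζ ^ y.2) (Complex.exp (-(θ : ℂ) * f (ζ, z) + (θ + σ) * H ζ))) :
    AreaI θ φ := by
  intro ζ R hζ0 hζR hR1
  have hζ : ζ ∈ ball (0:ℂ) 1 := by rw [mem_ball_zero_iff]; linarith
  have hAc : ContinuousOn (fun z => f (ζ, z)) (ball 0 1) := by
    apply hf.comp (by fun_prop)
    intro w hw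
    exact ⟨hζ, hw⟩
  have hAd : DifferentiableOn ℂ (fun z => f (ζ, z)) (ball 0 1) :=
    log_diff isOpen_ball hAc (NN_diff S.G.diff hζ) (fun z hz => hfe ζ hζ z hz)
  have hEd : DifferentiableOn ℂ (fun z => Complex.exp (-(θ : ℂ) * f (ζ, z))) (ball 0 1) :=
    (hAd.const_mul _).cexp
  set u : ℕ → ℂ := tc (fun z => Complex.exp (-(θ : ℂ) * f (ζ, z))) with hu
  have hus : ∀ z ∈ ball (0:ℂ) 1, HasSum (fun k => u k * z ^ k) (Complex.exp (-(θ : ℂ) * f (ζ, z))) := fun z hz =>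
    hasSum_tc hEd hz
  have hmain := harea Y H S ζ hζ0 (fun z => f (ζ, z)) hAd (fun z hz => hfe ζ hζ z hz) θ h0 h1 u hus R hζR hR1
  set g : ℂ := Complex.exp ((θ + σ) * H ζ) with hg
  have huu : uu φ ζ = fun k => g * u k := by
    apply Pool.Agent.H713R2.coef_unique (F := fun z => Complex.exp (-(θ : ℂ) * f (ζ, z) + (θ + σ) * H ζ))
    · filter_upwards [ball_mem_nhds (0 : ℂ) one_pos] with z hz
      exact uu_hasSum (hφ ζ hζ z hz)
    · filter_upwards [ball_mem_nhds (0 : ℂ) one_pos] with z hz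
      have h2 := (hus z hz).mul_left g
      have h3 : g * Complex.exp (-(θ : ℂ) * f (ζ, z)) = Complex.exp (-(θ : ℂ) * f (ζ, z) + (θ + σ) * H ζ) := by
        rw [hg, ← Complex.exp_add]
        congr 1
        ring
      rw [h3] at h2
      refine h2.congr_fun ?_ |> fun h => h
      intro k
      ring
  have e1 : ∀ n : ℕ, ‖∑' j : ℕ, (aa θ j : ℂ) * ζ ^ j * uu φ ζ (n + j)‖ ^ 2 =
      ‖g‖ ^ 2 * ‖∑' j : ℕ, (aa θ j : ℂ) * ζ ^ j * u (n + j)‖ ^ 2 := by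
    intro n
    rw [← mul_pow, ← norm_mul, ← tsum_mul_left]
    congr 2
    refine tsum_congr fun j => ?_
    rw [huu]
    ring
  have e2 : ∀ k : ℕ, ‖∑' j : ℕ, (aa θ (k + j) : ℂ) * ζ ^ (k + j) * uu φ ζ j‖ ^ 2 =
      ‖g‖ ^ 2 * ‖∑' j : ℕ, (aa θ (k + j) : ℂ) * ζ ^ (k + j) * u j‖ ^ 2 := by
    intro k
    rw [← mul_pow, ← norm_mul, ← tsum_mul_left]
    congr 2
    refine tsum_congr fun j => ?_
    rw [huu]
    ring
  calc ∑' n : ℕ, (n : ℝ) * ‖∑' j : ℕ, (aa θ j : ℂ) * ζ ^ j * uu φ ζ (n + j)‖ ^ 2 * R ^ (2 * n)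
      = ‖g‖ ^ 2 * ∑' n : ℕ, (n : ℝ) * ‖∑' j : ℕ, (aa θ j : ℂ) * ζ ^ j * u (n + j)‖ ^ 2 * R ^ (2 * n) := by
        rw [← tsum_mul_left]
        refine tsum_congr fun n => ?_
        rw [e1]
        ring
    _ ≤ ‖g‖ ^ 2 * ∑' k : ℕ, (k : ℝ) * ‖∑' j : ℕ, (aa θ (k + j) : ℂ) * ζ ^ (k + j) * u j‖ ^ 2 * (R⁻¹) ^ (2 * k) :=
        mul_le_mul_of_nonneg_left hmain (by positivity)
    _ = _ := by
        rw [← tsum_mul_left]
        refine tsum_congr fun k => ?_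
        rw [e2]
        ring

theorem star (harea : S_area) (hcoef : S_coef) (hdiag : S_diag) (havg : S_avg) (halg : S_alg) : S_star := by
  intro Y H S t ht θ lam h0 h1 hlam R hR0 hR1
  obtain ⟨f, hf, hfe, hf0⟩ := exists_log S
  have hAd : ∀ ζ ∈ ball (0:ℂ) 1, DifferentiableOn ℂ (fun z => f (ζ, z)) (ball 0 1) := by
    intro ζ hζ
    refine log_diff isOpen_ball ?_ (NN_diff S.G.diff hζ) (fun z hz => hfe ζ hζ z hz)
    apply hf.comp (by fun_prop)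
    intro w hw
    exact ⟨hζ, hw⟩
  have hBd : ∀ z ∈ ball (0:ℂ) 1, DifferentiableOn ℂ (fun ζ => f (ζ, z)) (ball 0 1) := by
    intro z hz
    refine log_diff isOpen_ball ?_ (NN_diff S.G.diff hz) (fun ζ hζ => by rw [hfe ζ hζ z hz, NN_symm])
    apply hf.comp (by fun_prop)
    intro w hw
    exact ⟨hw, hz⟩
  set σ : ℂ := t / 2 with hσ
  set Φ : ℂ × ℂ → ℂ := fun y => Complex.exp (-(θ : ℂ) * f y + (θ + σ) * H y.1) with hΦ
  have hΦc : ContinuousOn Φ (ball 0 1 ×ˢ ball 0 1) := by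
    apply ContinuousOn.cexp
    apply ContinuousOn.add (continuousOn_const.mul hf)
    exact continuousOn_const.mul (S.dH.continuousOn.comp continuousOn_fst (fun y hy => hy.1))
  obtain ⟨φ, hφa, hφ⟩ := hcoef Φ hΦc (fun ζ hζ => by
      have h3 : DifferentiableOn ℂ (fun z => Complex.exp (-(θ : ℂ) * f (ζ, z) + (θ + σ) * H ζ)) (ball 0 1) :=
        (((hAd ζ hζ).const_mul _).add_const _).cexp
      exact h3)
    (fun z hz => by
      have h3 : DifferentiableOn ℂ (fun ζ => Complex.exp (-(θ : ℂ) * f (ζ, z) + (θ + σ) * H ζ)) (ball 0 1) :=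
        (((hBd z hz).const_mul _).add (S.dH.const_mul _)).cexp
      exact h3)
  have hI : AreaI θ φ := areaI_of harea S hf hfe h0 h1 σ hφ
  obtain ⟨hs1, hs2⟩ := havg θ lam h0 h1 hlam φ hφa hI R hR0 hR1
  obtain ⟨Q0, hQ0, hQ⟩ := halg θ lam h0 h1 hlam
  have hd := hdiag Y H S f hf hfe hf0 θ σ φ hφa hφ
  have hFF : (fun v => Complex.exp (σ * H v)) = FF t H := by
    funext v
    rfl
  have hσ0 : σ ≠ 0 := by
    rw [hσ]
    exact div_ne_zero ht two_ne_zero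
  have htn : 0 < ‖t‖ := norm_pos_iff.2 ht
  have hlc : ((lam + 1 : ℝ) : ℂ) ≠ 0 := by
    exact_mod_cast (by linarith : (lam + 1 : ℝ) ≠ 0)
  -- the terms
  have hterm : ∀ N : ℕ, R ^ (2 * N) * ‖tc (FF t H) N‖ ^ 2 * om lam N *
      ((N : ℝ) / (N + lam + 1) * (lam * (lam + 2) * ‖((lam + 1 : ℝ) : ℂ) - t‖ ^ 2 * (θ * (1 - θ))) -
      ‖t‖ ^ 2 * ((lam + θ) * (lam + θ + 1))) ≤
      (‖t‖ ^ 2 * ((lam + θ) * (lam + θ + 1)) / Q0) * (R ^ (2 * N) * QQ θ (lam + 2 * θ) N (pN φ N)) := by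
    intro N
    have h2 := hQ N (pN φ N) (pN_natDegree φ N)
    obtain ⟨d1, d2⟩ := hd N
    rw [hFF] at d1 d2
    set c : ℂ := tc (FF t H) N with hc
    have e1 : (Polynomial.derivative (pN φ N)).eval 1 - (((lam + 1 + θ) * N / (lam + 1) : ℝ) : ℂ) * (pN φ N).eval 1 =
        ((θ * N : ℝ) : ℂ) * (((lam + 1 : ℝ) : ℂ) - t) / (t * ((lam + 1 : ℝ) : ℂ)) * c := by
      rw [d1]
      have e2 : (Polynomial.derivative (pN φ N)).eval 1 = (θ / 2 + σ) * N * c / σ := by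
        rw [eq_div_iff hσ0, ← d2]
        ring
      rw [e2, hσ]
      push_cast at hlc ⊢
      field_simp
      ring
    have e3 : ‖((θ * N : ℝ) : ℂ) * (((lam + 1 : ℝ) : ℂ) - t) / (t * ((lam + 1 : ℝ) : ℂ)) * c‖ ^ 2 =
        θ ^ 2 * N ^ 2 * ‖((lam + 1 : ℝ) : ℂ) - t‖ ^ 2 / (‖t‖ ^ 2 * (lam + 1) ^ 2) * ‖c‖ ^ 2 := by
      rw [norm_mul, norm_div, norm_mul, norm_mul, Complex.norm_real, Complex.norm_real, Real.norm_of_nonneg (by positivity),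
        Real.norm_of_nonneg (by positivity)]
      field_simp
    rw [e1, e3, d1] at h2
    set X : ℝ := ‖((lam + 1 : ℝ) : ℂ) - t‖ with hX
    set W : ℝ := om lam N with hW
    have hR2 : 0 < R ^ (2 * N) := by positivity
    have key : (‖t‖ ^ 2 * ((lam + θ) * (lam + θ + 1)) / Q0) * (Q0 * W * ((1 - θ) / θ * (lam * (lam + 2) * (lam + 1) ^ 2) / ((lam + θ) * (lam + θ + 1)) *
      (θ ^ 2 * N ^ 2 * X ^ 2 / (‖t‖ ^ 2 * (lam + 1) ^ 2) * ‖c‖ ^ 2) / (N * (N + lam + 1)) -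
    ‖c‖ ^ 2)) = ‖c‖ ^ 2 * W * ((N : ℝ) / (N + lam + 1) * (lam * (lam + 2) * X ^ 2 * (θ * (1 - θ))) - ‖t‖ ^ 2 * ((lam + θ) * (lam + θ + 1))) := by
      rcases Nat.eq_zero_or_pos N with hN | hN
      · rw [hN]
        simp
        field_simp
      · have hN' : (0 : ℝ) < N := by exact_mod_cast hN
        field_simp
    calc _ = R ^ (2 * N) * (‖c‖ ^ 2 * W * ((N : ℝ) / (N + lam + 1) * (lam * (lam + 2) * X ^ 2 * (θ * (1 - θ))) - ‖t‖ ^ 2 * ((lam + θ) * (lam + θ + 1)))) := by ring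
      _ = R ^ (2 * N) * ((‖t‖ ^ 2 * ((lam + θ) * (lam + θ + 1)) / Q0) * (Q0 * W * ((1 - θ) / θ * (lam * (lam + 2) * (lam + 1) ^ 2) / ((lam + θ) * (lam + θ + 1)) *
      (θ ^ 2 * N ^ 2 * X ^ 2 / (‖t‖ ^ 2 * (lam + 1) ^ 2) * ‖c‖ ^ 2) / (N * (N + lam + 1)) -
    ‖c‖ ^ 2))) := by rw [key]
      _ ≤ R ^ (2 * N) * ((‖t‖ ^ 2 * ((lam + θ) * (lam + θ + 1)) / Q0) * QQ θ (lam + 2 * θ) N (pN φ N)) := by
          gcongr
      _ = _ := by ring
  by_cases hsum : Summable (fun N : ℕ => R ^ (2 * N) * ‖tc (FF t H) N‖ ^ 2 * om lam N *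
      ((N : ℝ) / (N + lam + 1) * (lam * (lam + 2) * ‖((lam + 1 : ℝ) : ℂ) - t‖ ^ 2 * (θ * (1 - θ))) -
      ‖t‖ ^ 2 * ((lam + θ) * (lam + θ + 1))))
  · refine (hsum.tsum_le_tsum hterm (hs1.mul_left _)).trans ?_
    rw [tsum_mul_left]
    exact mul_nonpos_of_nonneg_of_nonpos (by positivity) hs2
  · rw [tsum_eq_zero_of_not_summable hsum]

end Q90.HS
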