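import Pool.Agent.Q90.HS.Stm

/-! Job HS12: summability. -/

set_option autoImplicit false
open Complex Filter Topology Set Metric MeasureTheory

namespace Q90.HS

namespace SumX

theorem aa_succ (θ : ℝ) (j : ℕ) : aa θ (j + 1) = aa θ j * ((θ + j) / (j + 1)) := by
  unfold aa
  rw [Finset.prod_range_succ]

theorem aa_zero (θ : ℝ) : aa θ 0 = 1 := by
  unfold aa
  simp

theorem aa_pos {θ : ℝ} (h0 : 0 < θ) (j : ℕ) : 0 < aa θ j := by
  induction j with
  | zero => rw [aa_zero]; exact one_pos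
  | succ j ih => rw [aa_succ]; positivity

theorem aa_le_one {θ : ℝ} (h0 : 0 < θ) (h1 : θ < 1) (j : ℕ) : aa θ j ≤ 1 := by
  induction j with
  | zero => rw [aa_zero]
  | succ j ih =>
    rw [aa_succ]
    have h2 : (θ + j) / (j + 1) ≤ 1 := by
      rw [div_le_one (by positivity)]
      linarith
    have h3 : 0 ≤ (θ + j) / (j + 1) := by positivity
    calc aa θ j * ((θ + j) / (j + 1)) ≤ 1 * 1 := mul_le_mul ih h2 h3 zero_le_one
      _ = 1 := one_mul 1

/-- `m a_m` is nondecreasing -/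
theorem mul_mono {θ : ℝ} (h0 : 0 < θ) : Monotone fun m : ℕ => (m : ℝ) * aa θ m := by
  refine monotone_nat_of_le_succ fun m => ?_
  have h1 := aa_pos h0 m
  have h2 : ((m + 1 : ℕ) : ℝ) * aa θ (m + 1) = (θ + m) * aa θ m := by
    rw [aa_succ]
    push_cast
    field_simp
  rw [h2]
  nlinarith

theorem aa_half {θ : ℝ} (h0 : 0 < θ) (m l : ℕ) (hl : 2 * l ≤ m) : aa θ (m - l) ≤ 2 * aa θ m := by
  rcases Nat.eq_zero_or_pos m with h | h
  · subst h
    have : 0 - l = 0 := by omega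
    rw [this, aa_zero]
    norm_num
  · have h1 := mul_mono h0 (Nat.sub_le m l)
    simp only at h1
    have h2 : (m : ℝ) ≤ 2 * ((m - l : ℕ) : ℝ) := by
      have : m ≤ 2 * (m - l) := by omega
      exact_mod_cast this
    have h3 := aa_pos h0 (m - l)
    have hm : (0 : ℝ) < m := by exact_mod_cast h
    nlinarith

theorem om_succ (μ : ℝ) (m : ℕ) : om μ (m + 1) = om μ m * (((m : ℝ) + 1) / (m + 1 + μ)) := by
  unfold om
  rw [Finset.prod_range_succ]

theorem om_pos {μ : ℝ} (h0 : 0 < μ) (m : ℕ) : 0 < om μ m := by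
  induction m with
  | zero => unfold om; simp
  | succ m ih => rw [om_succ]; positivity

theorem om_le_one {μ : ℝ} (h0 : 0 < μ) (m : ℕ) : om μ m ≤ 1 := by
  induction m with
  | zero => unfold om; simp
  | succ m ih =>
    rw [om_succ]
    have h2 : ((m : ℝ) + 1) / (m + 1 + μ) ≤ 1 := by
      rw [div_le_one (by positivity)]
      linarith
    calc om μ m * (((m : ℝ) + 1) / (m + 1 + μ)) ≤ 1 * 1 := mul_le_mul ih h2 (by positivity) zero_le_one
      _ = 1 := one_mul 1

theorem coeff_pN (φ : ℕ → ℕ → ℂ) (N l : ℕ) :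
    (pN φ N).coeff l = if l ≤ N then φ (N - l) l else 0 := by
  unfold pN
  rw [Polynomial.finsetSum_coeff]
  simp only [Polynomial.coeff_C_mul, Polynomial.coeff_X_pow, mul_ite, mul_one, mul_zero]
  rw [Finset.sum_ite_eq]
  simp only [Finset.mem_range, Nat.lt_succ_iff]

/-- the crude bound of the coefficients -/
theorem pc_bound {θ : ℝ} (h0 : 0 < θ) (h1 : θ < 1) (φ : ℕ → ℕ → ℂ) (r C : ℝ) (hr : 0 < r)
    (hC : ∀ k l : ℕ, ‖φ k l‖ * r ^ (k + l) ≤ C) (N m : ℕ) (x : ℝ) (_hx : 0 ≤ x)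
    (hxb : ∀ l, l ≤ N → l ≤ m → aa θ (m - l) ≤ x) :
    ‖pc θ (pN φ N) m‖ * r ^ N ≤ C * (N + 1) * x := by
  have hC0 : 0 ≤ C := le_trans (by positivity) (hC 0 0)
  unfold pc
  have h2 : ‖∑ l ∈ Finset.range (m + 1), (pN φ N).coeff l * (aa θ (m - l) : ℂ)‖ * r ^ N ≤
      ∑ l ∈ Finset.range (m + 1), (if l ≤ N then C * x else 0) := by
    calc _ ≤ (∑ l ∈ Finset.range (m + 1), ‖(pN φ N).coeff l * (aa θ (m - l) : ℂ)‖) * r ^ N :=
          mul_le_mul_of_nonneg_right (norm_sum_le _ _) (by positivity)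
      _ = ∑ l ∈ Finset.range (m + 1), ‖(pN φ N).coeff l * (aa θ (m - l) : ℂ)‖ * r ^ N :=
          Finset.sum_mul _ _ _
      _ ≤ _ := by
          refine Finset.sum_le_sum fun l hl => ?_
          have hlm : l ≤ m := Nat.lt_succ_iff.1 (Finset.mem_range.1 hl)
          rw [coeff_pN]
          by_cases h : l ≤ N
          · rw [if_pos h, if_pos h, norm_mul, Complex.norm_real, Real.norm_eq_abs,
              abs_of_pos (aa_pos h0 _)]
            have e := hC (N - l) l
            rw [Nat.sub_add_cancel h] at e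
            calc ‖φ (N - l) l‖ * aa θ (m - l) * r ^ N = (‖φ (N - l) l‖ * r ^ N) * aa θ (m - l) := by
                  ring
              _ ≤ C * x := mul_le_mul e (hxb l h hlm) (aa_pos h0 _).le hC0
          · rw [if_neg h, if_neg h, zero_mul, norm_zero, zero_mul]
  refine h2.trans ?_
  rw [← Finset.sum_filter, Finset.sum_const, nsmul_eq_mul]
  have h3 : ((Finset.range (m + 1)).filter fun l => l ≤ N).card ≤ N + 1 := by
    calc _ ≤ (Finset.range (N + 1)).card := Finset.card_le_card fun l hl => by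
          rw [Finset.mem_range]
          exact Nat.lt_succ_iff.2 (Finset.mem_filter.1 hl).2
      _ = N + 1 := Finset.card_range _
  have h4 : ((((Finset.range (m + 1)).filter fun l => l ≤ N).card : ℕ) : ℝ) ≤ N + 1 := by
    exact_mod_cast h3
  calc _ ≤ ((N : ℝ) + 1) * (C * x) := mul_le_mul_of_nonneg_right h4 (by positivity)
    _ = C * (N + 1) * x := by ring

theorem geo (s : ℝ) (h0 : 0 < s) (h1 : s < 1) (k : ℕ) :
    Summable fun N : ℕ => ((N : ℝ) + 1) ^ k * s ^ N := by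
  have h := summable_pow_mul_geometric_of_norm_lt_one (R := ℝ) k
    (by rwa [Real.norm_eq_abs, abs_of_pos h0] : ‖s‖ < 1)
  have h2 := ((summable_nat_add_iff 1).2 h).mul_left s⁻¹
  refine h2.congr fun N => ?_
  push_cast
  rw [pow_succ]
  field_simp

theorem inv_sq : Summable fun m : ℕ => 1 / ((m : ℝ) + 1) ^ 2 := by
  have h := (summable_nat_add_iff 1).2 (Real.summable_one_div_nat_pow.2 (by norm_num : 1 < 2))
  refine h.congr fun m => ?_
  push_cast
  rfl

theorem pc_one (θ : ℝ) (m : ℕ) : pc θ 1 m = (aa θ m : ℂ) := by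
  unfold pc
  rw [Finset.sum_eq_single 0]
  · simp
  · intro l _ hl
    rw [Polynomial.coeff_one, if_neg hl, zero_mul]
  · intro h
    exact absurd (Finset.mem_range.2 (Nat.succ_pos m)) h

end SumX

open SumX in
theorem sum (hd : S_dec) : S_sum := by
  intro θ lam h0 h1 hl φ hφ R hR0 hR1
  set μ := lam + 2 * θ with hμ
  have hμ0 : 0 < μ := by positivity
  set r : ℝ := (1 + R) / 2 with hr
  have hr0 : 0 < r := by positivity
  have hr1 : r < 1 := by rw [hr]; linarith
  have hRr : R < r := by rw [hr]; linarith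
  obtain ⟨C, hC⟩ := hφ r hr0 hr1
  have hC0 : 0 ≤ C := le_trans (by positivity) (hC 0 0)
  set s : ℝ := (R / r) ^ 2 with hs
  have hq0 : 0 < R / r := by positivity
  have hq1 : R / r < 1 := (div_lt_one hr0).2 hRr
  have hs0 : 0 < s := by positivity
  have hs1 : s < 1 := by
    rw [hs]
    exact pow_lt_one₀ hq0.le hq1 (by norm_num)
  have hdec := (hd θ lam h0 h1 hl 1 1).1
  have g1 : Summable fun y : ℕ × ℕ => (((y.1 : ℝ) + 1) ^ 6 * s ^ y.1) * (1 / ((y.2 : ℝ) + 1) ^ 2) :=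
    (geo s hs0 hs1 6).mul_of_nonneg inv_sq (fun N => by positivity) (fun m => by positivity)
  have g2 : Summable fun y : ℕ × ℕ => (((y.1 : ℝ) + 1) ^ 3 * s ^ y.1) *
      (((y.2 : ℝ) + 1) * om (lam + 2 * θ) y.2 * (‖pc θ 1 y.2‖ * ‖pc θ 1 y.2‖)) :=
    (geo s hs0 hs1 3).mul_of_nonneg hdec (fun N => by positivity) (fun m => by
      have := om_pos hμ0 m
      simp only [Pi.zero_apply]
      positivity)
  refine Summable.of_nonneg_of_le (fun y => ?_) (fun y => ?_)
    ((g1.mul_left (8 * C ^ 2)).add (g2.mul_left (4 * C ^ 2)))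
  · have := om_pos hμ0 y.2
    positivity
  · obtain ⟨N, m⟩ := y
    simp only
    have ho := om_pos hμ0 m
    have ho1 := om_le_one hμ0 m
    have ha := aa_pos h0 m
    have hpc : ‖pc θ 1 m‖ = aa θ m := by
      rw [pc_one, Complex.norm_real, Real.norm_eq_abs, abs_of_pos ha]
    rw [hpc]
    have hRN : R ^ (2 * N) = s ^ N * (r ^ N) ^ 2 := by
      rw [hs, ← pow_mul, ← pow_mul, mul_comm N 2, div_pow]
      field_simp
    have hNm : (N : ℝ) + m + 1 ≤ ((N : ℝ) + 1) * (m + 1) := by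
      have : (0 : ℝ) ≤ (N : ℝ) * m := by positivity
      nlinarith
    set Pn := ‖pc θ (pN φ N) m‖ with hPn
    have hP0 : 0 ≤ Pn := norm_nonneg _
    have sN : 0 < s ^ N := pow_pos hs0 N
    -- the reduction to a bound for `Pn * r ^ N`
    have red : ∀ x : ℝ, 0 ≤ x → Pn * r ^ N ≤ C * (N + 1) * x →
        R ^ (2 * N) * ((N : ℝ) + m + 1) * om μ m * Pn ^ 2 ≤
          C ^ 2 * (((N : ℝ) + 1) ^ 3 * s ^ N) * ((((m : ℝ) + 1) * om μ m) * x ^ 2) := by
      intro x hx hb
      have hb2 : (Pn * r ^ N) ^ 2 ≤ (C * (N + 1) * x) ^ 2 := pow_le_pow_left₀ (by positivity) hb 2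
      calc R ^ (2 * N) * ((N : ℝ) + m + 1) * om μ m * Pn ^ 2
          = (s ^ N * om μ m) * (((N : ℝ) + m + 1) * (Pn * r ^ N) ^ 2) := by rw [hRN]; ring
        _ ≤ (s ^ N * om μ m) * ((((N : ℝ) + 1) * (m + 1)) * (C * (N + 1) * x) ^ 2) := by
            refine mul_le_mul_of_nonneg_left ?_ (by positivity)
            exact mul_le_mul hNm hb2 (by positivity) (by positivity)
        _ = _ := by ring
    rcases le_total m (2 * N) with hm | hm
    · have b := pc_bound h0 h1 φ r C hr0 hC N m 1 zero_le_one (fun l _ _ => aa_le_one h0 h1 _)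
      refine (red 1 zero_le_one b).trans ?_
      have hm' : (m : ℝ) ≤ 2 * N := by exact_mod_cast hm
      have k1 : ((m : ℝ) + 1) * om μ m * 1 ^ 2 ≤ 8 * ((N : ℝ) + 1) ^ 3 * (1 / ((m : ℝ) + 1) ^ 2) := by
        have e : 8 * ((N : ℝ) + 1) ^ 3 * (1 / ((m : ℝ) + 1) ^ 2) =
            (8 * ((N : ℝ) + 1) ^ 3) / ((m : ℝ) + 1) ^ 2 := by ring
        rw [e, le_div_iff₀ (by positivity)]
        calc ((m : ℝ) + 1) * om μ m * 1 ^ 2 * ((m : ℝ) + 1) ^ 2 = om μ m * ((m : ℝ) + 1) ^ 3 := by ring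
          _ ≤ 1 * (2 * ((N : ℝ) + 1)) ^ 3 := by
              refine mul_le_mul ho1 ?_ (by positivity) zero_le_one
              exact pow_le_pow_left₀ (by positivity) (by linarith) 3
          _ = 8 * ((N : ℝ) + 1) ^ 3 := by ring
      have k2 : C ^ 2 * (((N : ℝ) + 1) ^ 3 * s ^ N) * (((m : ℝ) + 1) * om μ m * 1 ^ 2) ≤
          8 * C ^ 2 * (((N : ℝ) + 1) ^ 6 * s ^ N * (1 / ((m : ℝ) + 1) ^ 2)) := by
        calc _ ≤ C ^ 2 * (((N : ℝ) + 1) ^ 3 * s ^ N) *
              (8 * ((N : ℝ) + 1) ^ 3 * (1 / ((m : ℝ) + 1) ^ 2)) :=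
              mul_le_mul_of_nonneg_left k1 (by positivity)
          _ = _ := by ring
      refine k2.trans (le_add_of_nonneg_right ?_)
      have : 0 < om (lam + 2 * θ) m := ho
      positivity
    · have b := pc_bound h0 h1 φ r C hr0 hC N m (2 * aa θ m) (by positivity)
        (fun l hl _ => aa_half h0 m l (by omega))
      refine (red (2 * aa θ m) (by positivity) b).trans ?_
      have k2 : C ^ 2 * (((N : ℝ) + 1) ^ 3 * s ^ N) * (((m : ℝ) + 1) * om μ m * (2 * aa θ m) ^ 2) =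
          4 * C ^ 2 * (((N : ℝ) + 1) ^ 3 * s ^ N *
            (((m : ℝ) + 1) * om (lam + 2 * θ) m * (aa θ m * aa θ m))) := by
        rw [hμ]
        ring
      rw [k2]
      refine le_add_of_nonneg_left ?_
      positivity

end Q90.HS
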