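import Pool.Agent.Q90.HS.Pos
import Pool.Agent.Q90.HS.Alg
import Pool.Agent.Q90.HS.AreaJ
import Pool.Agent.Q90.HS.Bin
import Pool.Agent.Q90.HS.Area
import Pool.Agent.Q90.HS.Coef
import Pool.Agent.Q90.HS.Der
import Pool.Agent.Q90.HS.Diag
import Pool.Agent.Q90.HS.Beta
import Pool.Agent.Q90.HS.Sum
import Pool.Agent.Q90.HS.Avgx
import Pool.Agent.Q90.HS.Avg
import Pool.Agent.Q90.HS.Star
import Pool.Agent.Q90.HS.Grow

/-! The growth theorem for the means, without hypotheses. -/

set_option autoImplicit false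

namespace Q90.HS

theorem grow_all : S_grow :=
  grow (star (area bin areaJ) coef (diag coef der) (avg dec beta (sum dec) avgx)
    (alg dec (adj dec) (gs dec) (pos dec (adj dec) (gs dec)))) beta

end Q90.HS
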