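import Mathlib
import Pool.Agent.Q90.HS.Stm
import Pool.Agent.Q90.HS.Grow

/-! The growth of the means from the inequality for the Taylor coefficients, sharp form. -/

set_option autoImplicit false
open Complex Filter Topology Set Metric MeasureTheory

namespace Q90.HS

open Pool.Agent.TH325.SI (mn em la par cm_mem norm_cm cont_cm)
open Pool.Agent.H713R2 (tc hasSum_tc tc_unique)
open Pool.Agent.W677.Mar (Sg goluzin)
open Q90.SM (FF dFF)

/-- The growth of the means, sharp form. -/
theorem grow2 (hst : S_star) (hb : S_beta) : ∀ (Y H : ℂ → ℂ), Sg Y H → ∀ t : ℂ, t ≠ 0 → ∀ θ lam q : ℝ, 0 < θ → θ < 1 → 0 < lam →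
    0 < q → q < 1 → ‖t‖ < lam + 1 →
    ‖t‖ ^ 2 * ((lam + θ) * (lam + θ + 1)) ≤ q * (lam * (lam + 2) * ‖((lam + 1 : ℝ) : ℂ) - t‖ ^ 2 * (θ * (1 - θ))) →
    ∀ s : ℝ, 0 < s → s < 1 → mn (FF t H) s ≤ (1 - q)⁻¹ * ((lam + 1) / (lam + 1 - ‖t‖)) * Real.exp (lam * la s) := by
  intro Y H S t ht θ lam q h0 h1 hlam hq0 hq1 htl hX s hs0 hs1
  have htn : 0 < ‖t‖ := norm_pos_iff.2 ht
  set c : ℕ → ℂ := tc (FF t H) with hc
  set X : ℝ := lam * (lam + 2) * ‖((lam + 1 : ℝ) : ℂ) - t‖ ^ 2 * (θ * (1 - θ)) with hXd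
  have hXpos : 0 < X := by
    have h2 : 0 < ‖((lam + 1 : ℝ) : ℂ) - t‖ := by
      rw [norm_pos_iff, sub_ne_zero]
      intro h3
      rw [← h3, Complex.norm_real, Real.norm_of_nonneg (by linarith)] at htl
      exact lt_irrefl _ htl
    have h3 : 0 < 1 - θ := by linarith
    positivity
  have hq' : 0 < 1 - q := by linarith
  -- for every `R`
  have key : ∀ R : ℝ, s < R → R < 1 → (1 - q) * ((1 - s ^ 2 / R ^ 2) ^ lam * mn (FF t H) s) ≤ (lam + 1) / (lam + 1 - ‖t‖) := by
    intro R hsR hR1
    have hR0 : 0 < R := hs0.trans hsR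
    have hR2 : R ^ 2 < 1 := by nlinarith
    set w : ℕ → ℝ := fun N => R ^ (2 * N) * ‖c N‖ ^ 2 with hw
    have hw0 : ∀ N, 0 ≤ w N := fun N => by positivity
    -- sums of the coefficients
    have hpar : ∀ x : ℝ, 0 < x → R ^ 2 * x < 1 → HasSum (fun N => w N * x ^ N) (mn (FF t H) (Real.sqrt (R ^ 2 * x))) := by
      intro x hx hx1
      have h2 : 0 < Real.sqrt (R ^ 2 * x) := Real.sqrt_pos.2 (by positivity)
      have h3 : Real.sqrt (R ^ 2 * x) < 1 := by
        rw [Real.sqrt_lt' one_pos]
        simpa using hx1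
      have h4 := par (dFF S.dH t) h2 h3
      refine h4.congr_fun ?_ |> fun h => h
      intro N
      rw [pow_mul (Real.sqrt (R ^ 2 * x)), Real.sq_sqrt (by positivity)]
      simp only [hw]
      rw [mul_pow, pow_mul R 2 N]
      ring
    have hw1 : Summable w := by
      have := (hpar 1 one_pos (by linarith)).summable
      simpa using this
    have hsw : ∀ {g : ℕ → ℝ}, (∀ N, 0 ≤ g N) → (∀ N, g N ≤ 1) → Summable (fun N => w N * g N) := by
      intro g hg0 hg1
      refine Summable.of_nonneg_of_le (fun N => mul_nonneg (hw0 N) (hg0 N)) (fun N => ?_) hw1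
      exact mul_le_of_le_one_right (hw0 N) (hg1 N)
    have hsA : Summable (fun N => w N * om lam N) := hsw (fun N => (om_pos' hlam.le N).le) (fun N => om_le_one' hlam.le N)
    have hsB : Summable (fun N => w N * om (lam + 1) N) :=
      hsw (fun N => (om_pos' (by linarith) N).le) (fun N => om_le_one' (by linarith) N)
    -- the upper bound of the weak norm
    obtain ⟨-, hb2, -⟩ := hb (lam + 1) (by linarith)
    have hup := (hb2 w ‖t‖ htn.le htl hw0 (fun x hx0 hx1 => by
      have h2 : R ^ 2 * x < 1 := by nlinarith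
      have h3 := hpar x hx0 h2
      refine ⟨h3.summable, ?_⟩
      rw [h3.tsum_eq]
      have h4 : 0 < Real.sqrt (R ^ 2 * x) := Real.sqrt_pos.2 (by positivity)
      have h5 : Real.sqrt (R ^ 2 * x) < 1 := by
        rw [Real.sqrt_lt' one_pos]
        simpa using h2
      refine (mn_goluzin S t h4 h5).trans ?_
      rw [Real.sq_sqrt (by positivity)]
      apply Real.rpow_le_rpow_of_nonpos (by linarith) (by nlinarith) (by linarith [norm_nonneg t]))).2
    -- the main inequality
    have hmain : (1 - q) * ∑' N, w N * om lam N ≤ ∑' N, w N * om (lam + 1) N := by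
      have h2 := hst Y H S t ht θ lam h0 h1 hlam R hR0 hR1
      have hsC : Summable (fun N : ℕ => w N * om lam N * ((N : ℝ) / (N + lam + 1) * X - ‖t‖ ^ 2 * ((lam + θ) * (lam + θ + 1)))) := by
        have h3 : Summable (fun N : ℕ => w N * (om lam N * ((N : ℝ) / (N + lam + 1)))) := by
          apply hsw
          · intro N
            have := om_pos' hlam.le N
            positivity
          · intro N
            have h4 := om_le_one' hlam.le N
            have h5 := (om_pos' hlam.le N).le
            have h6 : (N : ℝ) / (N + lam + 1) ≤ 1 := by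
              rw [div_le_one (by positivity)]
              linarith
            have h7 : 0 ≤ (N : ℝ) / (N + lam + 1) := by positivity
            nlinarith
        have h8 := (h3.mul_right X).sub (hsA.mul_right (‖t‖ ^ 2 * ((lam + θ) * (lam + θ + 1))))
        refine h8.congr fun N => ?_
        ring
      have h3 : ∑' N : ℕ, w N * om lam N * ((N : ℝ) / (N + lam + 1) * X - ‖t‖ ^ 2 * ((lam + θ) * (lam + θ + 1))) ≤ 0 := by
        refine le_trans (le_of_eq ?_) h2
        refine tsum_congr fun N => ?_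
        simp only [hw, hXd, hc]
      have h4 : ∑' N : ℕ, (X * ((1 - q) * (w N * om lam N)) - X * (w N * om (lam + 1) N)) ≤
          ∑' N : ℕ, w N * om lam N * ((N : ℝ) / (N + lam + 1) * X - ‖t‖ ^ 2 * ((lam + θ) * (lam + θ + 1))) := by
        apply Summable.tsum_le_tsum _ (((hsA.mul_left _).mul_left X).sub (hsB.mul_left X)) hsC
        intro N
        rw [← om_shift hlam N]
        have h5 : 0 ≤ w N * om lam N := mul_nonneg (hw0 N) (om_pos' hlam.le N).le
        have h6 : (lam + 1) / (N + lam + 1) = 1 - (N : ℝ) / (N + lam + 1) := by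
          field_simp
          ring
        rw [h6]
        have h7 := mul_le_mul_of_nonneg_left hX h5
        linarith
      rw [((hsA.mul_left _).mul_left X).tsum_sub (hsB.mul_left X), tsum_mul_left, tsum_mul_left, tsum_mul_left] at h4
      have h8 : X * ((1 - q) * ∑' N, w N * om lam N) ≤ X * ∑' N, w N * om (lam + 1) N := by linarith
      exact le_of_mul_le_mul_left h8 hXpos
    -- the lower bound
    obtain ⟨-, -, hb3⟩ := hb lam hlam
    have hx0 : 0 < s ^ 2 / R ^ 2 := by positivity
    have hx1 : s ^ 2 / R ^ 2 < 1 := by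
      rw [div_lt_one (by positivity)]
      nlinarith
    have hlow : (1 - s ^ 2 / R ^ 2) ^ lam * mn (FF t H) s ≤ ∑' N, w N * om lam N := by
      have h2 := hpar (s ^ 2 / R ^ 2) hx0 (by
        have : R ^ 2 * (s ^ 2 / R ^ 2) = s ^ 2 := by field_simp
        rw [this]
        nlinarith)
      have e1 : R ^ 2 * (s ^ 2 / R ^ 2) = s ^ 2 := by field_simp
      rw [e1, Real.sqrt_sq hs0.le] at h2
      rw [← h2.tsum_eq, ← tsum_mul_left]
      apply Summable.tsum_le_tsum _ (h2.summable.mul_left _) hsA
      intro N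
      have h3 := mul_le_mul_of_nonneg_left (hb3 N (s ^ 2 / R ^ 2) hx0 hx1) (hw0 N)
      linarith
    exact (mul_le_mul_of_nonneg_left hlow hq'.le).trans (hmain.trans hup)
  -- the limit
  have hlim : Tendsto (fun R : ℝ => (1 - q) * ((1 - s ^ 2 / R ^ 2) ^ lam * mn (FF t H) s)) (𝓝[<] 1)
      (𝓝 ((1 - q) * ((1 - s ^ 2) ^ lam * mn (FF t H) s))) := by
    have hc1 : ContinuousAt (fun R : ℝ => (1 - q) * ((1 - s ^ 2 / R ^ 2) ^ lam * mn (FF t H) s)) 1 := by
      apply ContinuousAt.mul continuousAt_const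
      apply ContinuousAt.mul _ continuousAt_const
      apply ContinuousAt.rpow_const
      · apply ContinuousAt.sub continuousAt_const
        apply ContinuousAt.div continuousAt_const (continuousAt_id.pow 2)
        norm_num
      · right
        exact hlam.le
    have := (hc1.tendsto).mono_left (nhdsWithin_le_nhds (s := Iio 1))
    simpa using this
  have h9 : (1 - q) * ((1 - s ^ 2) ^ lam * mn (FF t H) s) ≤ (lam + 1) / (lam + 1 - ‖t‖) := by
    refine le_of_tendsto hlim ?_
    have hIoo : Ioo s 1 ∈ 𝓝[<] (1 : ℝ) := Ioo_mem_nhdsLT hs1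
    filter_upwards [hIoo] with R hR
    exact key R hR.1 hR.2
  have hs' : 0 < 1 - s ^ 2 := by nlinarith
  have hp : 0 < (1 - s ^ 2) ^ lam := Real.rpow_pos_of_pos hs' lam
  have e1 : Real.exp (lam * la s) = ((1 - s ^ 2) ^ lam)⁻¹ := by
    rw [Real.rpow_def_of_pos hs', ← Real.exp_neg]
    congr 1
    unfold Pool.Agent.TH325.SI.la
    ring
  rw [e1, inv_mul_eq_div, ← div_eq_mul_inv, div_div, le_div_iff₀ (by positivity)]
  linarith

end Q90.HS
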