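import Mathlib
import Pool.Agent.Q90.HS.All
import Pool.Agent.Q90.HS.Grow2

/-! The means of `|ψ' ^ t|` for `Re t ≤ 0`: the exponent `(Re t)² / 2 + (Im t)²`. -/

set_option autoImplicit false
open Complex Filter Topology Set Metric MeasureTheory

namespace Q90.HS

open Pool.Agent.TH325.SI (mn em la la_nonneg)
open Pool.Agent.W677.Mar (Sg)
open Q90.SM (FF)

/-- the sharp growth theorem, without hypotheses -/
theorem grow2_all : ∀ (Y H : ℂ → ℂ), Sg Y H → ∀ t : ℂ, t ≠ 0 → ∀ θ lam q : ℝ, 0 < θ → θ < 1 → 0 < lam →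
    0 < q → q < 1 → ‖t‖ < lam + 1 →
    ‖t‖ ^ 2 * ((lam + θ) * (lam + θ + 1)) ≤ q * (lam * (lam + 2) * ‖((lam + 1 : ℝ) : ℂ) - t‖ ^ 2 * (θ * (1 - θ))) →
    ∀ s : ℝ, 0 < s → s < 1 → mn (FF t H) s ≤ (1 - q)⁻¹ * ((lam + 1) / (lam + 1 - ‖t‖)) * Real.exp (lam * la s) :=
  grow2 (star (area bin areaJ) coef (diag coef der) (avg dec beta (sum dec) avgx)
    (alg dec (adj dec) (gs dec) (pos dec (adj dec) (gs dec)))) beta

/-- the basic inequality for the exponent -/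
theorem base {x y lam r : ℝ} (hx : 0 ≤ x) (hl : lam = x ^ 2 / 2 + y ^ 2) (h0 : 0 < lam) (hr0 : 0 ≤ r) (hr : r ^ 2 = lam * (lam + 2)) :
    (x ^ 2 + y ^ 2) * (lam + 1 + r) ^ 2 ≤ r ^ 2 * ((lam + 1 + x) ^ 2 + y ^ 2) := by
  -- `v = √(2 lam)`, `x = p v`
  set v : ℝ := Real.sqrt (2 * lam) with hv
  have hv2 : v ^ 2 = 2 * lam := Real.sq_sqrt (by positivity)
  have hv0 : 0 < v := Real.sqrt_pos.2 (by positivity)
  have hxv : x ≤ v := by
    apply Real.le_sqrt_of_sq_le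
    nlinarith [sq_nonneg y]
  set p : ℝ := x / v with hp
  have hp0 : 0 ≤ p := by positivity
  have hp1 : p ≤ 1 := by rw [hp, div_le_one hv0]; exact hxv
  have hxp : x = p * v := by rw [hp]; field_simp
  have hy : y ^ 2 = lam - x ^ 2 / 2 := by linarith
  have hx2 : x ^ 2 = p ^ 2 * (2 * lam) := by rw [hxp, mul_pow, hv2]
  have hlv : lam = v ^ 2 / 2 := by linarith
  -- bounds for `r`
  have hr1 : r ≤ v * (1 + v ^ 2 / 8) := by
    apply le_of_sq_le_sq _ (by positivity)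
    rw [hr, mul_pow, hlv]
    nlinarith [pow_pos hv0 4, pow_pos hv0 6]
  have hr2 : 2 * r ≤ (lam + 1) ^ 2 := by
    apply le_of_sq_le_sq _ (by positivity)
    rw [mul_pow, hr]
    nlinarith [sq_nonneg ((lam + 1) ^ 2 - 2)]
  -- the two end points
  have g0 : 0 ≤ (lam + 1) ^ 2 - 2 * r := by linarith
  have g1 : 0 ≤ (lam + 2) * (lam + 1 + 2 * v) - 2 * (lam + 1 + 2 * r) := by
    have : (lam + 2) * (lam + 1 + 2 * v) - 2 * (lam + 1 + 2 * r) ≥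
        (v ^ 2 / 2 + 2) * (v ^ 2 / 2 + 1 + 2 * v) - 2 * (v ^ 2 / 2 + 1 + 2 * (v * (1 + v ^ 2 / 8))) := by
      rw [← hlv]
      linarith
    refine le_trans ?_ this
    have e : (v ^ 2 / 2 + 2) * (v ^ 2 / 2 + 1 + 2 * v) - 2 * (v ^ 2 / 2 + 1 + 2 * (v * (1 + v ^ 2 / 8))) =
        v ^ 2 / 2 + v ^ 3 / 2 + v ^ 4 / 4 := by ring
    rw [e]
    positivity
  have g : 0 ≤ (lam + 2) * (lam + 1 + 2 * x) - (1 + p ^ 2) * (lam + 1 + 2 * r) := by
    have e : (lam + 2) * (lam + 1 + 2 * x) - (1 + p ^ 2) * (lam + 1 + 2 * r) =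
        (1 - p) * ((lam + 1) ^ 2 - 2 * r) + p * ((lam + 2) * (lam + 1 + 2 * v) - 2 * (lam + 1 + 2 * r)) +
          p * (1 - p) * (lam + 1 + 2 * r) := by
      rw [hxp]
      ring
    rw [e]
    have h1p : 0 ≤ 1 - p := by linarith
    positivity
  have e2 : r ^ 2 * ((lam + 1 + x) ^ 2 + y ^ 2) - (x ^ 2 + y ^ 2) * (lam + 1 + r) ^ 2 =
      (lam + 1) * lam * ((lam + 2) * (lam + 1 + 2 * x) - (1 + p ^ 2) * (lam + 1 + 2 * r)) := by
    have e3 : x ^ 2 + y ^ 2 = lam * (1 + p ^ 2) := by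
      rw [hy]
      linarith
    have e4 : (lam + 1 + x) ^ 2 + y ^ 2 = (lam + 1) ^ 2 + 2 * (lam + 1) * x + (x ^ 2 + y ^ 2) := by ring
    rw [e4, e3]
    linear_combination ((lam + 1) ^ 2 + 2 * (lam + 1) * x + lam * (1 + p ^ 2) - lam * (1 + p ^ 2)) * hr
  have h5 : 0 ≤ (lam + 1) * lam * ((lam + 2) * (lam + 1 + 2 * x) - (1 + p ^ 2) * (lam + 1 + 2 * r)) := by
    have : 0 ≤ (lam + 1) * lam := by positivity
    exact mul_nonneg this g
  linarith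

/-- the means for `Re t ≤ 0` -/
theorem comp_mn (γ : ℝ) (hγ : 1 < γ) : ∃ K : ℝ, 0 < K ∧ ∀ (Y H : ℂ → ℂ), Sg Y H → ∀ t : ℂ, t.re ≤ 0 → ∀ s : ℝ, 0 < s → s < 1 →
    mn (FF t H) s ≤ K * Real.exp (γ ^ 2 * (t.re ^ 2 / 2 + t.im ^ 2) * la s) := by
  have hγ0 : 0 < γ := by linarith
  set q : ℝ := (2 / γ + 1) / 3 with hq
  have hγi : 1 / γ < 1 := by rw [div_lt_one hγ0]; exact hγ
  have hγi0 : 0 < 1 / γ := by positivity
  have hq2 : q = (2 * (1 / γ) + 1) / 3 := by rw [hq]; ring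
  have hq0 : 0 < q := by rw [hq]; positivity
  have hq1 : q < 1 := by rw [hq2]; linarith
  refine ⟨(1 - q)⁻¹ * 4 + 1, by have : 0 < 1 - q := by linarith
                                positivity, ?_⟩
  intro Y H S t htre s hs0 hs1
  have hla := la_nonneg hs0 hs1
  have h1q : 0 < 1 - q := by linarith
  by_cases ht : t = 0
  · have h4 : mn (FF 0 H) s = 1 := by
      unfold Pool.Agent.TH325.SI.mn FF
      simp
      have := Real.pi_pos
      field_simp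
    rw [ht, h4]
    have h5 : Real.exp (γ ^ 2 * ((0:ℂ).re ^ 2 / 2 + (0:ℂ).im ^ 2) * la s) = 1 := by simp
    rw [h5, mul_one]
    have h6 : 0 ≤ (1 - q)⁻¹ * 4 := by positivity
    linarith
  set x : ℝ := -t.re with hx
  set y : ℝ := t.im with hy
  have hx0 : 0 ≤ x := by linarith
  have htn : ‖t‖ ^ 2 = x ^ 2 + y ^ 2 := by
    rw [← Complex.normSq_eq_norm_sq, Complex.normSq_apply, hx, hy]
    ring
  have htn0 : 0 < ‖t‖ := norm_pos_iff.2 ht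
  set lam : ℝ := γ ^ 2 * (x ^ 2 / 2 + y ^ 2) with hlam
  have hb0 : 0 < x ^ 2 / 2 + y ^ 2 := by
    have : 0 < x ^ 2 + y ^ 2 := by rw [← htn]; positivity
    nlinarith [sq_nonneg y, sq_nonneg x]
  have hl0 : 0 < lam := by positivity
  have hγ2 : 1 ≤ γ ^ 2 := by nlinarith
  have hlam2 : x ^ 2 + y ^ 2 ≤ 2 * lam := by
    have : x ^ 2 / 2 + y ^ 2 ≤ lam := by
      rw [hlam]
      exact le_mul_of_one_le_left hb0.le hγ2
    nlinarith [sq_nonneg y]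
  set r : ℝ := Real.sqrt (lam * (lam + 2)) with hr
  have hr2 : r ^ 2 = lam * (lam + 2) := Real.sq_sqrt (by positivity)
  have hr0 : 0 < r := Real.sqrt_pos.2 (by positivity)
  have hrl : lam < r := by
    apply lt_of_pow_lt_pow_left₀ 2 hr0.le
    rw [hr2]
    nlinarith
  have hrl2 : r < lam + 1 := by
    apply lt_of_pow_lt_pow_left₀ 2 (by positivity)
    rw [hr2]
    nlinarith
  set θ : ℝ := (r - lam) / 2 with hθ
  have hθ0 : 0 < θ := by rw [hθ]; linarith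
  have hθ1 : θ < 1 := by rw [hθ]; linarith
  have hid : (lam + θ) * (lam + θ + 1) = (lam + 1 + r) ^ 2 * (θ * (1 - θ)) := by
    rw [hθ]
    linear_combination (-(2 - (r ^ 2 - lam * (lam + 2))) / 4) * hr2
  have hnorm : ‖((lam + 1 : ℝ) : ℂ) - t‖ ^ 2 = (lam + 1 + x) ^ 2 + y ^ 2 := by
    rw [← Complex.normSq_eq_norm_sq, Complex.normSq_apply, hx, hy]
    simp only [sub_re, sub_im, ofReal_re, ofReal_im]
    ring
  have hbase := base (x := γ * x) (y := γ * y) (lam := lam) (r := r) (by positivity) (by rw [hlam]; ring) hl0 hr0.le hr2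
  have hcomb : (x ^ 2 + y ^ 2) * (lam + 1 + r) ^ 2 ≤ q * (r ^ 2 * ((lam + 1 + x) ^ 2 + y ^ 2)) := by
    have h2 : (x ^ 2 + y ^ 2) * (lam + 1 + r) ^ 2 ≤ r ^ 2 * (((lam + 1) * (1 / γ) + x) ^ 2 + y ^ 2) := by
      have e1 : (x ^ 2 + y ^ 2) * (lam + 1 + r) ^ 2 = 1 / γ ^ 2 * (((γ * x) ^ 2 + (γ * y) ^ 2) * (lam + 1 + r) ^ 2) := by
        field_simp
      have e2 : r ^ 2 * (((lam + 1) * (1 / γ) + x) ^ 2 + y ^ 2) = 1 / γ ^ 2 * (r ^ 2 * ((lam + 1 + γ * x) ^ 2 + (γ * y) ^ 2)) := by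
        field_simp
      rw [e1, e2]
      exact mul_le_mul_of_nonneg_left hbase (by positivity)
    refine h2.trans ?_
    have h3 : ((lam + 1) * (1 / γ) + x) ^ 2 + y ^ 2 ≤ q * ((lam + 1 + x) ^ 2 + y ^ 2) := by
      set g : ℝ := 1 / γ with hg
      rw [hq2]
      have hW : 0 < lam + 1 := by linarith
      have hB : 2 * (x ^ 2 + y ^ 2) ≤ (lam + 1) ^ 2 := by nlinarith [sq_nonneg (lam - 1)]
      have e : (2 * g + 1) / 3 * ((lam + 1 + x) ^ 2 + y ^ 2) - (((lam + 1) * g + x) ^ 2 + y ^ 2) =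
          (1 - g) / 3 * ((lam + 1) ^ 2 - 2 * (x ^ 2 + y ^ 2) + 2 * (lam + 1) * x) + g * (1 - g) * (lam + 1) ^ 2 := by ring
      have h4 : 0 ≤ (1 - g) / 3 * ((lam + 1) ^ 2 - 2 * (x ^ 2 + y ^ 2) + 2 * (lam + 1) * x) + g * (1 - g) * (lam + 1) ^ 2 := by
        have h5 : 0 ≤ 1 - g := by linarith
        have h6 : 0 ≤ (lam + 1) ^ 2 - 2 * (x ^ 2 + y ^ 2) + 2 * (lam + 1) * x := by
          have : 0 ≤ 2 * (lam + 1) * x := by positivity
          linarith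
        positivity
      linarith
    calc r ^ 2 * (((lam + 1) * (1 / γ) + x) ^ 2 + y ^ 2) ≤ r ^ 2 * (q * ((lam + 1 + x) ^ 2 + y ^ 2)) :=
          mul_le_mul_of_nonneg_left h3 (by positivity)
      _ = _ := by ring
  have htl : ‖t‖ < lam + 1 := by
    have h2 : ‖t‖ ^ 2 ≤ 2 * lam := by rw [htn]; exact hlam2
    nlinarith [sq_nonneg (‖t‖ - 1)]
  have hmain := grow2_all Y H S t ht θ lam q hθ0 hθ1 hl0 hq0 hq1 htl (by
    rw [htn, hnorm, hid]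
    have h2 : 0 ≤ θ * (1 - θ) := mul_nonneg hθ0.le (by linarith)
    calc (x ^ 2 + y ^ 2) * ((lam + 1 + r) ^ 2 * (θ * (1 - θ))) = ((x ^ 2 + y ^ 2) * (lam + 1 + r) ^ 2) * (θ * (1 - θ)) := by ring
      _ ≤ (q * (r ^ 2 * ((lam + 1 + x) ^ 2 + y ^ 2))) * (θ * (1 - θ)) := mul_le_mul_of_nonneg_right hcomb h2
      _ = _ := by rw [hr2]; ring) s hs0 hs1
  refine hmain.trans ?_
  have h5 : (lam + 1) / (lam + 1 - ‖t‖) ≤ 4 := by
    rw [div_le_iff₀ (by linarith)]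
    have h2 : ‖t‖ ^ 2 ≤ 2 * lam := by rw [htn]; exact hlam2
    nlinarith [sq_nonneg (3 * ‖t‖ - 4)]
  have e5 : γ ^ 2 * (t.re ^ 2 / 2 + y ^ 2) = lam := by
    rw [hlam, hx]
    ring
  rw [e5]
  apply mul_le_mul_of_nonneg_right _ (Real.exp_pos _).le
  have h6 : (1 - q)⁻¹ * ((lam + 1) / (lam + 1 - ‖t‖)) ≤ (1 - q)⁻¹ * 4 := mul_le_mul_of_nonneg_left h5 (by positivity)
  linarith

end Q90.HS
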