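import Pool.Agent.Q90.HS.Stm

/-! Decay of the coefficients (job HS1). -/

set_option autoImplicit false
open Filter Topology

namespace Q90.HS

theorem aa_zero (θ : ℝ) : aa θ 0 = 1 := by
  unfold aa
  simp

theorem aa_succ (θ : ℝ) (j : ℕ) : aa θ (j + 1) = aa θ j * ((θ + j) / (j + 1)) := by
  unfold aa
  rw [Finset.prod_range_succ]

theorem aa_pos {θ : ℝ} (hθ : 0 < θ) (j : ℕ) : 0 < aa θ j := by
  unfold aa
  exact Finset.prod_pos fun i _ => by positivity

theorem aa_anti {θ : ℝ} (hθ : 0 < θ) (hθ1 : θ < 1) : Antitone (aa θ) := by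
  refine antitone_nat_of_succ_le fun j => ?_
  rw [aa_succ]
  refine mul_le_of_le_one_right (aa_pos hθ j).le ?_
  rw [div_le_one (by positivity)]
  linarith

theorem aa_le_one {θ : ℝ} (hθ : 0 < θ) (hθ1 : θ < 1) (j : ℕ) : aa θ j ≤ 1 := by
  rw [← aa_zero θ]
  exact aa_anti hθ hθ1 (Nat.zero_le j)

theorem aa_low {θ : ℝ} (hθ : 0 < θ) (hθ1 : θ < 1) (j : ℕ) : θ * aa θ j ≤ aa θ (j + 1) := by
  rw [aa_succ, mul_comm]
  refine mul_le_mul_of_nonneg_left ?_ (aa_pos hθ j).le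
  rw [le_div_iff₀ (by positivity)]
  have : (0 : ℝ) ≤ j := Nat.cast_nonneg j
  nlinarith

theorem aa_low_pow {θ : ℝ} (hθ : 0 < θ) (hθ1 : θ < 1) (j l : ℕ) : θ ^ l * aa θ j ≤ aa θ (j + l) := by
  induction l with
  | zero => simp
  | succ l ih =>
    have h1 := aa_low hθ hθ1 (j + l)
    have h2 := mul_le_mul_of_nonneg_left ih hθ.le
    calc θ ^ (l + 1) * aa θ j = θ * (θ ^ l * aa θ j) := by ring
      _ ≤ θ * aa θ (j + l) := h2
      _ ≤ aa θ (j + l + 1) := h1
      _ = aa θ (j + (l + 1)) := by rw [add_assoc]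

theorem om_zero (μ : ℝ) : om μ 0 = 1 := by
  unfold om
  simp

theorem om_succ (μ : ℝ) (m : ℕ) : om μ (m + 1) = om μ m * (((m : ℝ) + 1) / (m + 1 + μ)) := by
  unfold om
  rw [Finset.prod_range_succ]

theorem om_pos {μ : ℝ} (hμ : 0 ≤ μ) (m : ℕ) : 0 < om μ m := by
  unfold om
  exact Finset.prod_pos fun i _ => by positivity

theorem om_anti {μ : ℝ} (hμ : 0 ≤ μ) : Antitone (om μ) := by
  refine antitone_nat_of_succ_le fun m => ?_
  rw [om_succ]
  refine mul_le_of_le_one_right (om_pos hμ m).le ?_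
  rw [div_le_one (by positivity)]
  linarith

theorem om_le_one {μ : ℝ} (hμ : 0 ≤ μ) (m : ℕ) : om μ m ≤ 1 := by
  rw [← om_zero μ]
  exact om_anti hμ (Nat.zero_le m)

theorem pc_one (θ : ℝ) (m : ℕ) : pc θ 1 m = aa θ m := by
  unfold pc
  rw [Finset.sum_eq_single_of_mem 0 (Finset.mem_range.2 (Nat.succ_pos m))]
  · simp
  · intro l _ hl
    rw [Polynomial.coeff_one, if_neg hl, zero_mul]

/-- the constant in the bound for the coefficients -/
noncomputable def Cp (θ : ℝ) (p : Polynomial ℂ) : ℝ := ∑ l ∈ p.support, ‖p.coeff l‖ * (θ⁻¹) ^ l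

theorem Cp_nonneg {θ : ℝ} (hθ : 0 < θ) (p : Polynomial ℂ) : 0 ≤ Cp θ p :=
  Finset.sum_nonneg fun _ _ => by positivity

theorem pc_le {θ : ℝ} (hθ : 0 < θ) (hθ1 : θ < 1) (p : Polynomial ℂ) (m : ℕ) :
    ‖pc θ p m‖ ≤ Cp θ p * aa θ m := by
  classical
  unfold pc
  refine (norm_sum_le _ _).trans ?_
  have h1 : ∀ l ∈ Finset.range (m + 1), ‖p.coeff l * (aa θ (m - l) : ℂ)‖ ≤
      ‖p.coeff l‖ * (θ⁻¹) ^ l * aa θ m := by
    intro l hl
    have hlm : l ≤ m := by
      have := Finset.mem_range.1 hl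
      omega
    rw [norm_mul, Complex.norm_real, Real.norm_of_nonneg (aa_pos hθ _).le, mul_assoc]
    refine mul_le_mul_of_nonneg_left ?_ (norm_nonneg _)
    have h2 := aa_low_pow hθ hθ1 (m - l) l
    rw [Nat.sub_add_cancel hlm] at h2
    rw [inv_pow, ← div_eq_inv_mul, le_div_iff₀ (by positivity), mul_comm]
    exact h2
  refine (Finset.sum_le_sum h1).trans ?_
  rw [← Finset.sum_mul]
  refine mul_le_mul_of_nonneg_right ?_ (aa_pos hθ m).le
  have h3 : ∑ l ∈ Finset.range (m + 1), ‖p.coeff l‖ * (θ⁻¹) ^ l =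
      ∑ l ∈ (Finset.range (m + 1)).filter (fun l => l ∈ p.support), ‖p.coeff l‖ * (θ⁻¹) ^ l := by
    rw [Finset.sum_filter_of_ne]
    intro l _ hl
    rw [Polynomial.mem_support_iff]
    intro h0
    apply hl
    rw [h0, norm_zero, zero_mul]
  rw [h3]
  unfold Cp
  refine Finset.sum_le_sum_of_subset_of_nonneg ?_ fun l _ _ => by positivity
  intro l hl
  exact (Finset.mem_filter.1 hl).2

/-- the main sequence -/
noncomputable def Bm (θ lam : ℝ) (m : ℕ) : ℝ := ((m : ℝ) + 1) ^ 2 * om (lam + 2 * θ) m * aa θ m ^ 2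

theorem Bm_pos {θ lam : ℝ} (hθ : 0 < θ) (hl : 0 < lam) (m : ℕ) : 0 < Bm θ lam m := by
  have h1 := om_pos (μ := lam + 2 * θ) (by positivity) m
  have h2 := aa_pos hθ m
  unfold Bm
  positivity

theorem Bm_step {θ lam : ℝ} (hθ : 0 < θ) (hθ1 : θ < 1) (hl : 0 < lam) {m : ℕ}
    (hm : 2 * θ ^ 2 + lam * (lam + 2 * θ) ≤ lam * ((m : ℝ) + 1)) :
    lam / 2 * (Bm θ lam m / ((m : ℝ) + 1)) ≤ Bm θ lam m - Bm θ lam (m + 1) := by
  have h1 := om_pos (μ := lam + 2 * θ) (by positivity) m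
  have h2 := aa_pos hθ m
  have hm0 : (0 : ℝ) ≤ m := Nat.cast_nonneg m
  have e1 : Bm θ lam (m + 1) = om (lam + 2 * θ) m * aa θ m ^ 2 *
      (((m : ℝ) + 2) ^ 2 * (θ + m) ^ 2 / (((m : ℝ) + 1) * (m + 1 + (lam + 2 * θ)))) := by
    unfold Bm
    rw [om_succ, aa_succ]
    push_cast
    field_simp
    ring
  have e2 : lam / 2 * (Bm θ lam m / ((m : ℝ) + 1)) =
      om (lam + 2 * θ) m * aa θ m ^ 2 * (lam / 2 * ((m : ℝ) + 1)) := by
    unfold Bm
    field_simp
  have e3 : Bm θ lam m = om (lam + 2 * θ) m * aa θ m ^ 2 * ((m : ℝ) + 1) ^ 2 := by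
    unfold Bm
    ring
  rw [e1, e2, e3, ← mul_sub]
  refine mul_le_mul_of_nonneg_left ?_ (by positivity)
  rw [le_sub_iff_add_le, ← le_sub_iff_add_le', div_le_iff₀ (by positivity)]
  set n : ℝ := (m : ℝ) + 1 with hn
  have hn1 : 1 ≤ n := by linarith
  have e4 : ((m : ℝ) + 2) ^ 2 * (θ + m) ^ 2 = ((n + 1) * (n - 1 + θ)) ^ 2 := by
    rw [hn]
    ring
  rw [e4]
  have h3 : ((n + 1) * (n - 1 + θ)) ^ 2 ≤ (n * (n + θ)) ^ 2 := by
    refine pow_le_pow_left₀ ?_ ?_ 2
    · exact mul_nonneg (by linarith) (by linarith)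
    · nlinarith
  refine h3.trans ?_
  have h4 : (n + θ) ^ 2 ≤ (n + (lam + 2 * θ)) * (n - lam / 2) := by nlinarith
  have h5 : (n * (n + θ)) ^ 2 = n ^ 2 * (n + θ) ^ 2 := by ring
  have h6 : (n ^ 2 - lam / 2 * n) * (n * (n + (lam + 2 * θ))) = n ^ 2 * ((n + (lam + 2 * θ)) * (n - lam / 2)) := by
    ring
  rw [h5, h6]
  exact mul_le_mul_of_nonneg_left h4 (by positivity)

/-- the main sequence tends to zero, and `B_m/(m+1)` is summable -/
theorem Bm_main {θ lam : ℝ} (hθ : 0 < θ) (hθ1 : θ < 1) (hl : 0 < lam) :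
    Summable (fun m : ℕ => Bm θ lam m / ((m : ℝ) + 1)) ∧ Tendsto (Bm θ lam) atTop (𝓝 0) := by
  obtain ⟨m0, hm0⟩ := exists_nat_ge ((2 * θ ^ 2 + lam * (lam + 2 * θ)) / lam)
  rw [div_le_iff₀ hl] at hm0
  have hstep : ∀ k : ℕ, lam / 2 * (Bm θ lam (k + m0) / (((k + m0 : ℕ) : ℝ) + 1)) ≤
      Bm θ lam (k + m0) - Bm θ lam (k + 1 + m0) := by
    intro k
    have h1 := Bm_step hθ hθ1 hl (m := k + m0) (by
      push_cast
      have : (0 : ℝ) ≤ k := Nat.cast_nonneg k
      nlinarith)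
    have e : k + m0 + 1 = k + 1 + m0 := by omega
    rw [e] at h1
    exact h1
  have hpos := Bm_pos (lam := lam) hθ hl
  have hanti : Antitone (fun k : ℕ => Bm θ lam (k + m0)) := by
    refine antitone_nat_of_succ_le fun k => ?_
    have h1 := hstep k
    have h2 : 0 ≤ lam / 2 * (Bm θ lam (k + m0) / (((k + m0 : ℕ) : ℝ) + 1)) := by
      have := hpos (k + m0)
      positivity
    linarith
  have hsum : Summable (fun k : ℕ => Bm θ lam (k + m0) / (((k + m0 : ℕ) : ℝ) + 1)) := by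
    refine summable_of_sum_range_le (c := 2 / lam * Bm θ lam m0) (fun k => ?_) fun n => ?_
    · have := hpos (k + m0)
      positivity
    · have h1 : ∑ k ∈ Finset.range n, lam / 2 * (Bm θ lam (k + m0) / (((k + m0 : ℕ) : ℝ) + 1)) ≤
          Bm θ lam m0 := by
        refine (Finset.sum_le_sum fun k _ => hstep k).trans ?_
        rw [Finset.sum_range_sub' (fun k => Bm θ lam (k + m0))]
        have := hpos (n + m0)
        simp only [zero_add]
        linarith
      rw [← Finset.mul_sum] at h1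
      rw [div_mul_eq_mul_div, le_div_iff₀ hl]
      linarith
  refine ⟨(summable_nat_add_iff m0).1 hsum, ?_⟩
  have hbdd : BddBelow (Set.range fun k : ℕ => Bm θ lam (k + m0)) :=
    ⟨0, by rintro x ⟨k, rfl⟩; exact (hpos _).le⟩
  have hlim := tendsto_atTop_ciInf hanti hbdd
  set L := ⨅ k : ℕ, Bm θ lam (k + m0) with hL
  have hL0 : 0 ≤ L := le_ciInf fun k => (hpos _).le
  have hLk : ∀ k : ℕ, L ≤ Bm θ lam (k + m0) := fun k => ciInf_le hbdd k
  rcases hL0.eq_or_lt with h0 | h0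
  · rw [← h0] at hlim
    exact (tendsto_add_atTop_iff_nat m0).1 hlim
  · exfalso
    have h1 : Summable (fun k : ℕ => L / (((k + m0 : ℕ) : ℝ) + 1)) := by
      refine Summable.of_nonneg_of_le (fun k => by positivity) (fun k => ?_) hsum
      exact div_le_div_of_nonneg_right (hLk k) (by positivity)
    have h2 : Summable (fun m : ℕ => L / ((m : ℝ) + 1)) := (summable_nat_add_iff m0).1 h1
    have h3 : Summable (fun m : ℕ => 1 / ((m : ℝ) + 1)) := by
      have := h2.mul_left L⁻¹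
      refine this.congr fun m => ?_
      field_simp
    have h4 : Summable (fun m : ℕ => 1 / (m : ℝ)) := by
      refine (summable_nat_add_iff 1).1 ?_
      refine h3.congr fun m => ?_
      push_cast
      rfl
    exact Real.not_summable_one_div_natCast h4

theorem dec : S_dec := by
  intro θ lam hθ hθ1 hl p q
  obtain ⟨h1, h2⟩ := Bm_main hθ hθ1 hl
  have hom := fun m => om_pos (μ := lam + 2 * θ) (by positivity) m
  have ha := aa_pos hθ
  have hp0 := Cp_nonneg hθ p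
  have hq0 := Cp_nonneg hθ q
  constructor
  · refine Summable.of_nonneg_of_le (fun m => ?_) (fun m => ?_) (h1.mul_left (Cp θ p * Cp θ q))
    · have := hom m
      positivity
    · have h3 := pc_le hθ hθ1 p m
      have h4 := pc_le hθ hθ1 q m
      have h5 : ‖pc θ p m‖ * ‖pc θ q m‖ ≤ (Cp θ p * aa θ m) * (Cp θ q * aa θ m) :=
        mul_le_mul h3 h4 (norm_nonneg _) (by have := ha m; positivity)
      have h6 : Cp θ p * Cp θ q * (Bm θ lam m / ((m : ℝ) + 1)) =
          ((m : ℝ) + 1) * om (lam + 2 * θ) m * ((Cp θ p * aa θ m) * (Cp θ q * aa θ m)) := by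
        unfold Bm
        field_simp
      rw [h6]
      exact mul_le_mul_of_nonneg_left h5 (by have := hom m; positivity)
  · have h3 := h2.const_mul (Cp θ p * Cp θ q)
    rw [mul_zero] at h3
    refine squeeze_zero (fun m => ?_) (fun m => ?_) h3
    · have := hom m
      positivity
    · have h4 := pc_le hθ hθ1 p m
      have h5 := (pc_le hθ hθ1 q (m + 1)).trans
        (mul_le_mul_of_nonneg_left (aa_anti hθ hθ1 (Nat.le_succ m)) hq0)
      have h6 : ‖pc θ p m‖ * ‖pc θ q (m + 1)‖ ≤ (Cp θ p * aa θ m) * (Cp θ q * aa θ m) :=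
        mul_le_mul h4 h5 (norm_nonneg _) (by have := ha m; positivity)
      have h7 : Cp θ p * Cp θ q * Bm θ lam m =
          ((m : ℝ) + 1) ^ 2 * om (lam + 2 * θ) m * ((Cp θ p * aa θ m) * (Cp θ q * aa θ m)) := by
        unfold Bm
        ring
      rw [h7]
      exact mul_le_mul_of_nonneg_left h6 (by have := hom m; positivity)

end Q90.HS
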