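import Mathlib
import Pool.Agent.Q90.HS.Diag
import Pool.Agent.W677.MarM
import Pool.Agent.Q90.SM.Sharp

/-! The mean of `|ψ'|²` from Gronwall's area theorem. -/

set_option autoImplicit false
open Complex Filter Topology Set Metric MeasureTheory

namespace Q90.HS

open Pool.Agent.TH325.SI (mn em la la_pos cont_cm)
open Pool.Agent.W677.Mar (hat Sg t1 mean_sq pt)
open Pool.Agent.H713R2 (tc hasSum_tc)
open Pool.Agent.H33R3.Bom (J)
open Q90.SM (FF)

/-- Gronwall's area theorem -/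
theorem gronwall {Y H : ℂ → ℂ} (S : Sg Y H) (N : ℕ) : ∑ j ∈ Finset.range N, (j : ℝ) * ‖tc Y (j + 1)‖ ^ 2 ≤ 1 := by
  set c : ℕ → ℂ := fun k => tc Y (k + 1) with hc
  set d : ℕ → ℂ := fun k => if k = 1 then 1 else 0 with hd
  set Φ : ℂ → ℂ := fun z => ∑' k : ℕ, c k * z ^ k with hΦd
  have hYs : ∀ z ∈ ball (0:ℂ) 1, z ≠ 0 → HasSum (fun k : ℕ => c k * z ^ k) ((Y z - 1) / z) := by
    intro z hz hz0
    have h1 := hasSum_tc S.G.diff hz
    have h2 := (hasSum_nat_add_iff' (f := fun k : ℕ => tc Y k * z ^ k) 1).2 h1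
    have h3 := h2.mul_right z⁻¹
    have e1 : (fun k : ℕ => tc Y (k + 1) * z ^ (k + 1) * z⁻¹) = fun k : ℕ => c k * z ^ k := by
      funext k
      simp only [hc]
      rw [pow_succ]
      field_simp
    have e2 : (Y z - ∑ i ∈ Finset.range 1, tc Y i * z ^ i) * z⁻¹ = (Y z - 1) / z := by
      have : tc Y 0 = 1 := by
        rw [Pool.Agent.H713R2.tc_zero, S.G.one]
      simp [this]
      rfl
    rw [e1, e2] at h3
    exact h3
  have hΦ : ∀ z ∈ ball (0:ℂ) 1, HasSum (fun k : ℕ => c k * z ^ k) (Φ z) := by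
    intro z hz
    by_cases hz0 : z = 0
    · have : Summable (fun k : ℕ => c k * z ^ k) := by
        apply summable_of_ne_finset_zero (s := {0})
        intro b hb
        have hb0 : b ≠ 0 := by simpa using hb
        rw [hz0, zero_pow hb0, mul_zero]
      exact this.hasSum
    · exact (hYs z hz hz0).summable.hasSum
  have hds : ∀ z : ℂ, ∑' k : ℕ, d k * (z⁻¹) ^ k = z⁻¹ := by
    intro z
    rw [tsum_eq_single 1]
    · simp [hd]
    · intro b hb
      simp [hd, hb]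
  have heq : ∀ z ∈ ball (0:ℂ) 1, z ≠ 0 → Φ z + ∑' k : ℕ, d k * (z⁻¹) ^ k = Y z / z := by
    intro z hz hz0
    rw [hds, (hΦ z hz).unique (hYs z hz hz0)]
    field_simp
    ring
  have key : ∀ R : ℝ, 1 / 2 < R → R < 1 → ∑ j ∈ Finset.range N, (j : ℝ) * ‖c j‖ ^ 2 * R ^ (2 * j) ≤ R⁻¹ ^ 2 := by
    intro R hR hR1
    have hR0 : 0 < R := by linarith
    obtain ⟨g1, g2, g3⟩ := Pool.Agent.H643R3.BomC4.taskC4 R (1 / 2) 2 c d Φ (by norm_num) hR hR1
      (by simp [hd]) hΦ (by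
        intro k
        simp only [hd]
        split_ifs with h
        · rw [h]
          norm_num
        · rw [norm_zero]
          positivity)
    have g4 := t1 Y S.G Polynomial.X R hR0 hR1
    have e1 : J R (fun z => Φ z + ∑' k : ℕ, d k * (z⁻¹) ^ k) (deriv fun z => Φ z + ∑' k : ℕ, d k * (z⁻¹) ^ k) =
        J R (fun z => Polynomial.X.eval (Y z / z)) (deriv fun z => Polynomial.X.eval (Y z / z)) := by
      unfold J
      congr 1
      apply intervalIntegral.integral_congr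
      intro θ _
      have hm : circleMap 0 R θ ∈ ball (0:ℂ) 1 := Pool.Agent.TH325.SI.cm_mem hR0 hR1 θ
      have hm0 : circleMap 0 R θ ≠ 0 := Pool.Agent.TH325.SI.cm_ne hR0 θ
      have hev : (fun z => Φ z + ∑' k : ℕ, d k * (z⁻¹) ^ k) =ᶠ[𝓝 (circleMap 0 R θ)] fun z => Polynomial.X.eval (Y z / z) := by
        filter_upwards [isOpen_ball.mem_nhds hm, isOpen_ne.mem_nhds hm0] with z hz hz0
        rw [Polynomial.eval_X]
        exact heq z hz hz0
      simp only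
      rw [hev.deriv_eq, hev.eq_of_nhds]
    rw [← e1, g3] at g4
    have hpi : 0 < 2 * Real.pi := by positivity
    have g5 : ∑' k : ℕ, (k : ℝ) * ‖c k‖ ^ 2 * R ^ (2 * k) ≤ ∑' k : ℕ, (k : ℝ) * ‖d k‖ ^ 2 * (R⁻¹) ^ (2 * k) := by
      by_contra hcon
      push Not at hcon
      have := mul_pos hpi (sub_pos.2 hcon)
      linarith
    have g6 : ∑' k : ℕ, (k : ℝ) * ‖d k‖ ^ 2 * (R⁻¹) ^ (2 * k) = R⁻¹ ^ 2 := by
      rw [tsum_eq_single 1]
      · simp [hd]
      · intro b hb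
        simp [hd, hb]
    rw [g6] at g5
    refine le_trans ?_ g5
    exact g1.sum_le_tsum _ (fun k _ => by positivity)
  have hL : Tendsto (fun R : ℝ => ∑ k ∈ Finset.range N, (k : ℝ) * ‖c k‖ ^ 2 * R ^ (2 * k))
      (𝓝[<] 1) (𝓝 (∑ k ∈ Finset.range N, (k : ℝ) * ‖c k‖ ^ 2)) := by
    have hcont : Continuous (fun R : ℝ => ∑ k ∈ Finset.range N, (k : ℝ) * ‖c k‖ ^ 2 * R ^ (2 * k)) := by
      fun_prop
    have := (hcont.tendsto 1).mono_left (nhdsWithin_le_nhds (s := Iio 1))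
    simpa using this
  have hRt : Tendsto (fun R : ℝ => R⁻¹ ^ 2) (𝓝[<] 1) (𝓝 1) := by
    have hc1 : ContinuousAt (fun R : ℝ => R⁻¹ ^ 2) 1 := (continuousAt_inv₀ one_ne_zero).pow 2
    have := hc1.tendsto.mono_left (nhdsWithin_le_nhds (s := Iio 1))
    simpa using this
  refine le_of_tendsto_of_tendsto hL hRt ?_
  have hIoo : Ioo (1 / 2 : ℝ) 1 ∈ 𝓝[<] (1 : ℝ) := Ioo_mem_nhdsLT (by norm_num)
  filter_upwards [hIoo] with R hR
  exact key R hR.1 hR.2

theorem mul_pow_le {x : ℝ} (h0 : 0 ≤ x) (h1 : x < 1) (m : ℕ) : (1 - x) * (m * x ^ m) ≤ 1 - x ^ m := by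
  induction m with
  | zero => simp
  | succ m ih =>
    have hx : x ^ (m + 1) ≤ 1 := pow_le_one₀ h0 h1.le
    have h2 := mul_le_mul_of_nonneg_left ih h0
    have h3 : 0 ≤ (1 - x) * (1 - x ^ (m + 1)) := mul_nonneg (by linarith) (by linarith)
    push_cast
    have e : (1 - x) * (((m : ℝ) + 1) * x ^ (m + 1)) = x * ((1 - x) * (m * x ^ m)) + (1 - x) * x ^ (m + 1) := by
      rw [pow_succ]
      ring
    rw [e]
    have e2 : x * (1 - x ^ m) = x - x ^ (m + 1) := by rw [pow_succ]; ring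
    linarith

/-- the mean of `|ψ'|²` -/
theorem two_mn {Y H : ℂ → ℂ} (S : Sg Y H) {s : ℝ} (hs0 : 0 < s) (hs1 : s < 1) : mn (FF 2 H) s ≤ 2 * Real.exp (la s) := by
  have hx0 : 0 ≤ s ^ 2 := by positivity
  have hx1 : s ^ 2 < 1 := by nlinarith
  have h1x : 0 < 1 - s ^ 2 := by linarith
  set a : ℕ → ℂ := fun j => (1 - (j : ℂ)) * tc Y j with ha
  have hf : ∀ z ∈ ball (0:ℂ) 1, HasSum (fun j => a j * z ^ j) (Complex.exp (H z)) := by
    intro z hz
    rw [S.eq z hz]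
    have h1 := (hasSum_tc S.G.diff hz).sub (hasSum_id_mul_deriv S.G.diff hz)
    have e : (fun j : ℕ => a j * z ^ j) = fun j : ℕ => tc Y j * z ^ j - (j : ℂ) * tc Y j * z ^ j := by
      funext j
      simp only [ha]
      ring
    rw [e]
    exact h1
  have hm := mean_sq hf hs0.le hs1
  have e1 : mn (FF 2 H) s = (2 * Real.pi)⁻¹ * ∫ θ in (0 : ℝ)..(2 * Real.pi), ‖Complex.exp (H (pt s θ))‖ ^ 2 := by
    unfold Pool.Agent.TH325.SI.mn FF
    congr 1
    apply intervalIntegral.integral_congr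
    intro θ _
    simp only
    rw [div_self (two_ne_zero), one_mul]
    rfl
  rw [e1]
  have e2 : Real.exp (la s) = 1 / (1 - s ^ 2) := by
    unfold Pool.Agent.TH325.SI.la
    rw [Real.exp_neg, Real.exp_log h1x, one_div]
  rw [e2]
  have h1le : 1 ≤ 1 / (1 - s ^ 2) := by rw [le_div_iff₀ h1x]; linarith
  have hfin : ∀ T : Finset ℕ, ∑ i ∈ T, ‖a i‖ ^ 2 * (s ^ 2) ^ i ≤ 1 + 1 / (1 - s ^ 2) := by
   intro T
   obtain ⟨N, hN⟩ : ∃ N : ℕ, T ⊆ Finset.range (N + 1) := by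
     obtain ⟨N, hN⟩ := T.exists_nat_subset_range
     exact ⟨N, hN.trans (Finset.range_mono (by omega))⟩
   refine (Finset.sum_le_sum_of_subset_of_nonneg hN (fun i _ _ => by positivity)).trans ?_
   rw [Finset.sum_range_succ']
   have e3 : ‖a 0‖ ^ 2 * (s ^ 2) ^ 0 = 1 := by
     simp only [ha]
     rw [Pool.Agent.H713R2.tc_zero, S.G.one]
     simp
   rw [e3, add_comm]
   gcongr
   have h4 : ∀ j ∈ Finset.range N, ‖a (j + 1)‖ ^ 2 * (s ^ 2) ^ (j + 1) ≤ 1 / (1 - s ^ 2) * ((j : ℝ) * ‖tc Y (j + 1)‖ ^ 2) := by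
     intro j _
     have e4 : a (j + 1) = -((j : ℂ) * tc Y (j + 1)) := by
       simp only [ha]
       push_cast
       ring
     rw [e4, norm_neg, norm_mul, Complex.norm_natCast]
     have h5 : (j : ℝ) * (s ^ 2) ^ j ≤ 1 / (1 - s ^ 2) := by
       rw [le_div_iff₀ h1x]
       have h6 := mul_pow_le hx0 hx1 j
       have h7 : 0 ≤ (s ^ 2) ^ j := by positivity
       linarith
     have h8 : (s ^ 2) ^ (j + 1) ≤ (s ^ 2) ^ j := pow_le_pow_of_le_one hx0 hx1.le (Nat.le_succ j)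
     calc ((j : ℝ) * ‖tc Y (j + 1)‖) ^ 2 * (s ^ 2) ^ (j + 1) ≤ ((j : ℝ) * ‖tc Y (j + 1)‖) ^ 2 * (s ^ 2) ^ j := by gcongr
       _ = ((j : ℝ) * (s ^ 2) ^ j) * ((j : ℝ) * ‖tc Y (j + 1)‖ ^ 2) := by ring
       _ ≤ _ := by gcongr
   refine (Finset.sum_le_sum h4).trans ?_
   rw [← Finset.mul_sum]
   calc 1 / (1 - s ^ 2) * ∑ i ∈ Finset.range N, (i : ℝ) * ‖tc Y (i + 1)‖ ^ 2 ≤ 1 / (1 - s ^ 2) * 1 := by
         gcongr
         exact gronwall S N
     _ = _ := mul_one _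
  have h9 := hasSum_le_of_sum_le hm hfin
  generalize 1 / (1 - s ^ 2) = w at h1le h9 ⊢
  linarith

end Q90.HS
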