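import Mathlib
import Pool.Agent.Q90.HS.Comp
import Pool.Agent.Q90.HS.Two

/-! Every map of the class `Σ`, `a ≤ 9/50`. -/

set_option autoImplicit false
open Complex Filter Topology Set Metric MeasureTheory

namespace Q90.HS

open Pool.Agent.TH325.SI (mn em la la_pos la_nonneg cm_mem norm_cm cont_cm)
open Pool.Agent.W677.Mar (hat Sg goluzin)
open Q90.SM (FF IsSig marshall transfer ext_all em_of_expo gavg_all)

/-- the line `Re t = 1/8`: first part -/
theorem line1 {v : ℝ} (h0 : 0 ≤ v) (h1 : v ≤ 9 / 100) :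
    (1 / 64 + v) * ((59 / 4000 + 259 / 200 * v + 1) ^ 2 + (59 / 4000 + 259 / 200 * v + 1) *
      ((59 / 4000 + 259 / 200 * v) * (59 / 4000 + 259 / 200 * v + 2) / (1 / 3) + 1 / 3) +
      (59 / 4000 + 259 / 200 * v) * (59 / 4000 + 259 / 200 * v + 2)) ≤
    99 / 100 * ((59 / 4000 + 259 / 200 * v) * (59 / 4000 + 259 / 200 * v + 2) * ((59 / 4000 + 259 / 200 * v + 7 / 8) ^ 2 + v)) := by
  have h2 : 0 ≤ 9 / 100 - v := by linarith
  have e : 99 / 100 * ((59 / 4000 + 259 / 200 * v) * (59 / 4000 + 259 / 200 * v + 2) * ((59 / 4000 + 259 / 200 * v + 7 / 8) ^ 2 + v)) -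
    (1 / 64 + v) * ((59 / 4000 + 259 / 200 * v + 1) ^ 2 + (59 / 4000 + 259 / 200 * v + 1) *
      ((59 / 4000 + 259 / 200 * v) * (59 / 4000 + 259 / 200 * v + 2) / (1 / 3) + 1 / 3) +
      (59 / 4000 + 259 / 200 * v) * (59 / 4000 + 259 / 200 * v + 2)) =
    (100 / 9) ^ 4 * ((983308327489 / 25600000000000000) * v ^ 0 * (9 / 100 - v) ^ 4 +
      (2620234878125917 / 64000000000000000) * v ^ 1 * (9 / 100 - v) ^ 3 +
      (14256528056902491 / 160000000000000000) * v ^ 2 * (9 / 100 - v) ^ 2 +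
      (19613043114689983 / 400000000000000000) * v ^ 3 * (9 / 100 - v) ^ 1 +
      (73409883437033 / 125000000000000000) * v ^ 4 * (9 / 100 - v) ^ 0) := by ring
  have h3 : 0 ≤ (100 / 9) ^ 4 * ((983308327489 / 25600000000000000) * v ^ 0 * (9 / 100 - v) ^ 4 +
      (2620234878125917 / 64000000000000000) * v ^ 1 * (9 / 100 - v) ^ 3 +
      (14256528056902491 / 160000000000000000) * v ^ 2 * (9 / 100 - v) ^ 2 +
      (19613043114689983 / 400000000000000000) * v ^ 3 * (9 / 100 - v) ^ 1 +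
      (73409883437033 / 125000000000000000) * v ^ 4 * (9 / 100 - v) ^ 0) := by positivity
  linarith

/-- the line `Re t = 1/8`: second part -/
theorem line2 {v : ℝ} (h0 : 9 / 100 ≤ v) (h1 : v ≤ 53 / 100) :
    (1 / 64 + v) * ((59 / 4000 + 259 / 200 * v + 1) ^ 2 + (59 / 4000 + 259 / 200 * v + 1) *
      ((59 / 4000 + 259 / 200 * v) * (59 / 4000 + 259 / 200 * v + 2) / (65 / 83) + 65 / 83) +
      (59 / 4000 + 259 / 200 * v) * (59 / 4000 + 259 / 200 * v + 2)) ≤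
    99 / 100 * ((59 / 4000 + 259 / 200 * v) * (59 / 4000 + 259 / 200 * v + 2) * ((59 / 4000 + 259 / 200 * v + 7 / 8) ^ 2 + v)) := by
  have h2 : 0 ≤ 53 / 100 - v := by linarith
  have h4 : 0 ≤ v - 9 / 100 := by linarith
  have e : 99 / 100 * ((59 / 4000 + 259 / 200 * v) * (59 / 4000 + 259 / 200 * v + 2) * ((59 / 4000 + 259 / 200 * v + 7 / 8) ^ 2 + v)) -
    (1 / 64 + v) * ((59 / 4000 + 259 / 200 * v + 1) ^ 2 + (59 / 4000 + 259 / 200 * v + 1) *
      ((59 / 4000 + 259 / 200 * v) * (59 / 4000 + 259 / 200 * v + 2) / (65 / 83) + 65 / 83) +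
      (59 / 4000 + 259 / 200 * v) * (59 / 4000 + 259 / 200 * v + 2)) =
    (25 / 11) ^ 4 * ((46243567754333989 / 10375000000000000000) * (v - 9 / 100) ^ 0 * (53 / 100 - v) ^ 4 +
      (3034333617646862253 / 41500000000000000000) * (v - 9 / 100) ^ 1 * (53 / 100 - v) ^ 3 +
      (110663980796699161537 / 539500000000000000000) * (v - 9 / 100) ^ 2 * (53 / 100 - v) ^ 2 +
      (109725771808016885251 / 539500000000000000000) * (v - 9 / 100) ^ 3 * (53 / 100 - v) ^ 1 +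
      (36328610604700352943 / 539500000000000000000) * (v - 9 / 100) ^ 4 * (53 / 100 - v) ^ 0) := by ring
  have h3 : 0 ≤ (25 / 11) ^ 4 * ((46243567754333989 / 10375000000000000000) * (v - 9 / 100) ^ 0 * (53 / 100 - v) ^ 4 +
      (3034333617646862253 / 41500000000000000000) * (v - 9 / 100) ^ 1 * (53 / 100 - v) ^ 3 +
      (110663980796699161537 / 539500000000000000000) * (v - 9 / 100) ^ 2 * (53 / 100 - v) ^ 2 +
      (109725771808016885251 / 539500000000000000000) * (v - 9 / 100) ^ 3 * (53 / 100 - v) ^ 1 +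
      (36328610604700352943 / 539500000000000000000) * (v - 9 / 100) ^ 4 * (53 / 100 - v) ^ 0) := by positivity
  linarith

/-- the strip -/
theorem strip1 {l : ℝ} (h0 : 21 / 1000 ≤ l) (h1 : l ≤ 361 / 500) :
    (l + 1) ^ 2 + (l + 1) * (l * (l + 2) / (5 / 8) + 5 / 8) + l * (l + 2) ≤
    99 / 100 * (347 / 250 * (l + 2) * ((l + 1) ^ 2 - (l + 1) / 4 + 250 / 347 * l)) := by
  have h2 : 0 ≤ 361 / 500 - l := by linarith
  have h4 : 0 ≤ l - 21 / 1000 := by linarith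
  have e : 99 / 100 * (347 / 250 * (l + 2) * ((l + 1) ^ 2 - (l + 1) / 4 + 250 / 347 * l)) -
    ((l + 1) ^ 2 + (l + 1) * (l * (l + 2) / (5 / 8) + 5 / 8) + l * (l + 2)) =
    (1000/701) ^ 3 * ((10894583976883 / 25000000000000) * (l - 21 / 1000) ^ 0 * (361 / 500 - l) ^ 3 +
      (8026860842617 / 6250000000000) * (l - 21 / 1000) ^ 1 * (361 / 500 - l) ^ 2 +
      (5821109455719 / 6250000000000) * (l - 21 / 1000) ^ 2 * (361 / 500 - l) ^ 1 +
      (1974132421 / 390625000000) * (l - 21 / 1000) ^ 3 * (361 / 500 - l) ^ 0) := by ring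
  have h3 : 0 ≤ (1000/701) ^ 3 * ((10894583976883 / 25000000000000) * (l - 21 / 1000) ^ 0 * (361 / 500 - l) ^ 3 +
      (8026860842617 / 6250000000000) * (l - 21 / 1000) ^ 1 * (361 / 500 - l) ^ 2 +
      (5821109455719 / 6250000000000) * (l - 21 / 1000) ^ 2 * (361 / 500 - l) ^ 1 +
      (1974132421 / 390625000000) * (l - 21 / 1000) ^ 3 * (361 / 500 - l) ^ 0) := by positivity
  linarith

/-- the growth theorem with the best `θ` -/
theorem grow3 {Y H : ℂ → ℂ} (S : Sg Y H) {t : ℂ} (ht : t ≠ 0) {lam r r0 : ℝ} (hl : 0 < lam) (hr0 : 0 < r) (hr : r ^ 2 = lam * (lam + 2))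
    (hr1 : 0 < r0) (htl : ‖t‖ ≤ 3 / 4) (h : ‖t‖ ^ 2 * ((lam + 1) ^ 2 + (lam + 1) * (lam * (lam + 2) / r0 + r0) + lam * (lam + 2)) ≤
      99 / 100 * (lam * (lam + 2) * ‖((lam + 1 : ℝ) : ℂ) - t‖ ^ 2)) {s : ℝ} (hs0 : 0 < s) (hs1 : s < 1) :
    mn (FF t H) s ≤ 400 * Real.exp (lam * la s) := by
  have hrl : lam < r := by
    apply lt_of_pow_lt_pow_left₀ 2 hr0.le
    rw [hr]
    nlinarith
  have hrl2 : r < lam + 1 := by
    apply lt_of_pow_lt_pow_left₀ 2 (by positivity)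
    rw [hr]
    nlinarith
  set θ : ℝ := (r - lam) / 2 with hθ
  have hθ0 : 0 < θ := by rw [hθ]; linarith
  have hθ1 : θ < 1 := by rw [hθ]; linarith
  have hid : (lam + θ) * (lam + θ + 1) = (lam + 1 + r) ^ 2 * (θ * (1 - θ)) := by
    rw [hθ]
    linear_combination (-(2 - (r ^ 2 - lam * (lam + 2))) / 4) * hr
  have h2r : 2 * r ≤ lam * (lam + 2) / r0 + r0 := by
    rw [← hr]
    have h5 : 0 ≤ (r - r0) ^ 2 / r0 := by positivity
    have e : (r - r0) ^ 2 / r0 = r ^ 2 / r0 + r0 - 2 * r := by field_simp; ring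
    linarith
  have hmain := grow2_all Y H S t ht θ lam (99 / 100) hθ0 hθ1 hl (by norm_num) (by norm_num) (by linarith) (by
    rw [hid]
    have h2 : 0 ≤ θ * (1 - θ) := mul_nonneg hθ0.le (by linarith)
    have h3 : (lam + 1 + r) ^ 2 ≤ (lam + 1) ^ 2 + (lam + 1) * (lam * (lam + 2) / r0 + r0) + lam * (lam + 2) := by
      have h4 := mul_le_mul_of_nonneg_left h2r (by linarith : 0 ≤ lam + 1)
      have e : (lam + 1 + r) ^ 2 = (lam + 1) ^ 2 + (lam + 1) * (2 * r) + r ^ 2 := by ring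
      rw [e, hr]
      linarith
    calc ‖t‖ ^ 2 * ((lam + 1 + r) ^ 2 * (θ * (1 - θ))) ≤ ‖t‖ ^ 2 * (((lam + 1) ^ 2 + (lam + 1) * (lam * (lam + 2) / r0 + r0) + lam * (lam + 2)) * (θ * (1 - θ))) := by
          gcongr
      _ = (‖t‖ ^ 2 * ((lam + 1) ^ 2 + (lam + 1) * (lam * (lam + 2) / r0 + r0) + lam * (lam + 2))) * (θ * (1 - θ)) := by ring
      _ ≤ (99 / 100 * (lam * (lam + 2) * ‖((lam + 1 : ℝ) : ℂ) - t‖ ^ 2)) * (θ * (1 - θ)) := mul_le_mul_of_nonneg_right h h2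
      _ = _ := by ring) s hs0 hs1
  refine hmain.trans ?_
  apply mul_le_mul_of_nonneg_right _ (Real.exp_pos _).le
  have h5 : (lam + 1) / (lam + 1 - ‖t‖) ≤ 4 := by
    rw [div_le_iff₀ (by linarith)]
    linarith
  calc (1 - 99 / 100 : ℝ)⁻¹ * ((lam + 1) / (lam + 1 - ‖t‖)) ≤ (1 - 99 / 100 : ℝ)⁻¹ * 4 := mul_le_mul_of_nonneg_left h5 (by norm_num)
    _ = 400 := by norm_num

theorem nsq (t : ℂ) : ‖t‖ ^ 2 = t.re ^ 2 + t.im ^ 2 := by
  rw [← Complex.normSq_eq_norm_sq, Complex.normSq_apply]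
  ring

theorem nsq2 (l : ℝ) (t : ℂ) : ‖((l : ℝ) : ℂ) - t‖ ^ 2 = (l - t.re) ^ 2 + t.im ^ 2 := by
  rw [nsq]
  simp

/-- the line -/
theorem line {Y H : ℂ → ℂ} (S : Sg Y H) {y : ℝ} (hy : y ^ 2 ≤ 53 / 100) {s : ℝ} (hs0 : 0 < s) (hs1 : s < 1) :
    mn (FF (⟨1 / 8, y⟩ : ℂ) H) s ≤ 400 * Real.exp ((59 / 4000 + 259 / 200 * y ^ 2) * la s) := by
  set t : ℂ := ⟨1 / 8, y⟩ with ht
  set v : ℝ := y ^ 2 with hv
  have hv0 : 0 ≤ v := sq_nonneg y
  have ht0 : t ≠ 0 := by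
    intro h
    have : t.re = 0 := by rw [h]; rfl
    rw [ht] at this
    norm_num at this
  have e1 : ‖t‖ ^ 2 = 1 / 64 + v := by
    rw [nsq, ht, hv]
    norm_num
  set lam : ℝ := 59 / 4000 + 259 / 200 * v with hlam
  have hl : 0 < lam := by positivity
  have e2 : ‖((lam + 1 : ℝ) : ℂ) - t‖ ^ 2 = (lam + 7 / 8) ^ 2 + v := by
    rw [nsq2, ht, hv]
    ring
  have hr : Real.sqrt (lam * (lam + 2)) ^ 2 = lam * (lam + 2) := Real.sq_sqrt (by positivity)
  have hr0 : 0 < Real.sqrt (lam * (lam + 2)) := Real.sqrt_pos.2 (by positivity)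
  have htl : ‖t‖ ≤ 3 / 4 := by
    apply le_of_sq_le_sq _ (by norm_num)
    rw [e1]
    norm_num
    linarith
  rcases le_total v (9 / 100) with h | h
  · exact grow3 S ht0 hl hr0 hr (r0 := 1 / 3) (by norm_num) htl (by
      rw [e1, e2]
      exact line1 hv0 h) hs0 hs1
  · exact grow3 S ht0 hl hr0 hr (r0 := 65 / 83) (by norm_num) htl (by
      rw [e1, e2]
      exact line2 h hy) hs0 hs1

/-- the strip -/
theorem strip {Y H : ℂ → ℂ} (S : Sg Y H) {t : ℂ} (ht0 : t ≠ 0) (h0 : 0 ≤ t.re) (h1 : t.re ≤ 1 / 8) (h2 : ‖t‖ ≤ 721 / 1000) {s : ℝ} (hs0 : 0 < s) (hs1 : s < 1) :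
    mn (FF t H) s ≤ 400 * Real.exp (347 / 250 * ‖t‖ ^ 2 * la s) := by
  set τ : ℝ := ‖t‖ with hτ
  have hτ0 : 0 < τ := norm_pos_iff.2 ht0
  set lam : ℝ := 347 / 250 * τ ^ 2 with hlam
  have hl : 0 < lam := by positivity
  have hr : Real.sqrt (lam * (lam + 2)) ^ 2 = lam * (lam + 2) := Real.sq_sqrt (by positivity)
  have hr0 : 0 < Real.sqrt (lam * (lam + 2)) := Real.sqrt_pos.2 (by positivity)
  have e1 : ‖((lam + 1 : ℝ) : ℂ) - t‖ ^ 2 = (lam + 1) ^ 2 - 2 * (lam + 1) * t.re + τ ^ 2 := by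
    rw [nsq2, hτ, nsq]
    ring
  rcases le_total τ (1 / 8) with h | h
  · refine grow3 S ht0 hl hr0 hr (r0 := 1 / 5) (by norm_num) (by linarith) ?_ hs0 hs1
    have h3 : lam + 1 - τ ≤ ‖((lam + 1 : ℝ) : ℂ) - t‖ := by
      have h3 := norm_sub_norm_le ((lam + 1 : ℝ) : ℂ) t
      rw [Complex.norm_real, Real.norm_of_nonneg (by linarith)] at h3
      exact h3
    have h4 : (7 / 8 : ℝ) ≤ ‖((lam + 1 : ℝ) : ℂ) - t‖ := by linarith
    have h5 : (49 / 64 : ℝ) ≤ ‖((lam + 1 : ℝ) : ℂ) - t‖ ^ 2 := by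
      calc (49 / 64 : ℝ) = (7 / 8) ^ 2 := by norm_num
        _ ≤ _ := pow_le_pow_left₀ (by norm_num) h4 2
    have h6 : lam ≤ 22 / 1000 := by
      rw [hlam]
      nlinarith
    have h7 : (lam + 1) ^ 2 + (lam + 1) * (lam * (lam + 2) / (1 / 5) + 1 / 5) + lam * (lam + 2) ≤ 16 / 10 := by
      have : (lam + 1) ^ 2 + (lam + 1) * (lam * (lam + 2) / (1 / 5) + 1 / 5) + lam * (lam + 2) ≤
          (22 / 1000 + 1) ^ 2 + (22 / 1000 + 1) * (22 / 1000 * (22 / 1000 + 2) / (1 / 5) + 1 / 5) + 22 / 1000 * (22 / 1000 + 2) := by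
        gcongr
      refine this.trans (by norm_num)
    calc τ ^ 2 * ((lam + 1) ^ 2 + (lam + 1) * (lam * (lam + 2) / (1 / 5) + 1 / 5) + lam * (lam + 2)) ≤ τ ^ 2 * (16 / 10) := by
          gcongr
      _ ≤ 99 / 100 * (lam * (0 + 2) * (49 / 64)) := by
          rw [hlam]
          have : 0 < τ ^ 2 := by positivity
          nlinarith
      _ ≤ _ := by gcongr
  · refine grow3 S ht0 hl hr0 hr (r0 := 5 / 8) (by norm_num) (by linarith) ?_ hs0 hs1
    have h3 : 21 / 1000 ≤ lam := by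
      rw [hlam]
      nlinarith
    have h4 : lam ≤ 361 / 500 := by
      rw [hlam]
      nlinarith
    have h5 := strip1 h3 h4
    have e2 : 250 / 347 * lam = τ ^ 2 := by rw [hlam]; ring
    rw [e2] at h5
    have h6 : (lam + 1) ^ 2 - (lam + 1) / 4 + τ ^ 2 ≤ ‖((lam + 1 : ℝ) : ℂ) - t‖ ^ 2 := by
      rw [e1]
      have : (lam + 1) * t.re ≤ (lam + 1) * (1 / 8) := mul_le_mul_of_nonneg_left h1 (by linarith)
      linarith
    calc τ ^ 2 * ((lam + 1) ^ 2 + (lam + 1) * (lam * (lam + 2) / (5 / 8) + 5 / 8) + lam * (lam + 2))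
        ≤ τ ^ 2 * (99 / 100 * (347 / 250 * (lam + 2) * ((lam + 1) ^ 2 - (lam + 1) / 4 + τ ^ 2))) :=
          mul_le_mul_of_nonneg_left h5 (by positivity)
      _ = 99 / 100 * (lam * (lam + 2) * ((lam + 1) ^ 2 - (lam + 1) / 4 + τ ^ 2)) := by rw [hlam]; ring
      _ ≤ _ := by gcongr

theorem mn_re {H : ℂ → ℂ} (s : ℝ) (t : ℂ) :
    mn (FF t H) s = (2 * Real.pi)⁻¹ * ∫ θ in (0:ℝ)..(2 * Real.pi), Real.exp (t * H (circleMap 0 s θ)).re := by
  unfold Pool.Agent.TH325.SI.mn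
  congr 1
  apply intervalIntegral.integral_congr
  intro θ _
  simp only
  unfold FF
  rw [Complex.norm_exp, ← Real.exp_nat_mul]
  congr 1
  have : ((2:ℕ):ℝ) * (t / 2 * H (circleMap 0 s θ)).re = (((2:ℝ):ℂ) * (t / 2 * H (circleMap 0 s θ))).re := by
    rw [Complex.re_ofReal_mul]
    norm_num
  rw [this]
  congr 1
  push_cast
  ring

/-- Hoelder's inequality -/
theorem holder {H : ℂ → ℂ} (hH : DifferentiableOn ℂ H (ball 0 1)) {s : ℝ} (hs : 0 < s) (hs1 : s < 1) {t1 t2 : ℂ} {α A B K : ℝ}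
    (h0 : 0 ≤ α) (h1 : α ≤ 1) (hK : 0 ≤ K) (hA : mn (FF t1 H) s ≤ K * Real.exp A) (hB : mn (FF t2 H) s ≤ K * Real.exp B) :
    mn (FF (((1 - α : ℝ) : ℂ) * t1 + (α : ℂ) * t2) H) s ≤ K * Real.exp ((1 - α) * A + α * B) := by
  have hpi := Real.pi_pos
  have hc := cont_cm hH hs hs1
  have hct : ∀ t : ℂ, Continuous fun θ : ℝ => Real.exp (t * H (circleMap 0 s θ)).re := fun t =>
    Real.continuous_exp.comp (Complex.continuous_re.comp (continuous_const.mul hc))
  have h1α : 0 ≤ 1 - α := by linarith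
  set E : ℝ := Real.exp ((1 - α) * A + α * B) with hE
  have hpt : ∀ θ : ℝ, Real.exp ((((1 - α : ℝ) : ℂ) * t1 + (α : ℂ) * t2) * H (circleMap 0 s θ)).re ≤
      E * ((1 - α) * Real.exp (-A)) * Real.exp (t1 * H (circleMap 0 s θ)).re +
      E * (α * Real.exp (-B)) * Real.exp (t2 * H (circleMap 0 s θ)).re := by
    intro θ
    set w := H (circleMap 0 s θ) with hw
    have e1 : ((((1 - α : ℝ) : ℂ) * t1 + (α : ℂ) * t2) * w).re = ((1 - α) * A + α * B) + ((1 - α) * ((t1 * w).re - A) + α * ((t2 * w).re - B)) := by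
      have : (((1 - α : ℝ) : ℂ) * t1 + (α : ℂ) * t2) * w = ((1 - α : ℝ) : ℂ) * (t1 * w) + (α : ℂ) * (t2 * w) := by ring
      rw [this, Complex.add_re, Complex.re_ofReal_mul, Complex.re_ofReal_mul]
      ring
    rw [e1, Real.exp_add, ← hE]
    have h3 := convexOn_exp.2 (mem_univ ((t1 * w).re - A)) (mem_univ ((t2 * w).re - B)) h1α h0 (by ring)
    simp only [smul_eq_mul] at h3
    calc E * Real.exp ((1 - α) * ((t1 * w).re - A) + α * ((t2 * w).re - B)) ≤
        E * ((1 - α) * Real.exp ((t1 * w).re - A) + α * Real.exp ((t2 * w).re - B)) :=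
          mul_le_mul_of_nonneg_left h3 (Real.exp_pos _).le
      _ = _ := by
          have e2 : Real.exp ((t1 * w).re - A) = Real.exp (t1 * w).re * Real.exp (-A) := by
            rw [← Real.exp_add, sub_eq_add_neg]
          have e3 : Real.exp ((t2 * w).re - B) = Real.exp (t2 * w).re * Real.exp (-B) := by
            rw [← Real.exp_add, sub_eq_add_neg]
          rw [e2, e3]
          ring
  rw [mn_re]
  have h4 : ∫ θ in (0:ℝ)..(2 * Real.pi), Real.exp ((((1 - α : ℝ) : ℂ) * t1 + (α : ℂ) * t2) * H (circleMap 0 s θ)).re ≤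
      ∫ θ in (0:ℝ)..(2 * Real.pi), (E * ((1 - α) * Real.exp (-A)) * Real.exp (t1 * H (circleMap 0 s θ)).re +
      E * (α * Real.exp (-B)) * Real.exp (t2 * H (circleMap 0 s θ)).re) := by
    apply intervalIntegral.integral_mono_on (by positivity)
    · exact (hct _).intervalIntegrable _ _
    · exact ((continuous_const.mul (hct t1)).add (continuous_const.mul (hct t2))).intervalIntegrable _ _
    · intro θ _
      exact hpt θ
  rw [intervalIntegral.integral_add, intervalIntegral.integral_const_mul, intervalIntegral.integral_const_mul] at h4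
  · have h5 := mul_le_mul_of_nonneg_left h4 (by positivity : 0 ≤ (2 * Real.pi)⁻¹)
    refine h5.trans ?_
    have e2 : (2 * Real.pi)⁻¹ * (E * ((1 - α) * Real.exp (-A)) * (∫ θ in (0:ℝ)..(2 * Real.pi), Real.exp (t1 * H (circleMap 0 s θ)).re) +
        E * (α * Real.exp (-B)) * ∫ θ in (0:ℝ)..(2 * Real.pi), Real.exp (t2 * H (circleMap 0 s θ)).re) =
        E * ((1 - α) * Real.exp (-A)) * mn (FF t1 H) s + E * (α * Real.exp (-B)) * mn (FF t2 H) s := by
      rw [mn_re, mn_re]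
      ring
    rw [e2]
    have hE0 : 0 < E := Real.exp_pos _
    calc E * ((1 - α) * Real.exp (-A)) * mn (FF t1 H) s + E * (α * Real.exp (-B)) * mn (FF t2 H) s
        ≤ E * ((1 - α) * Real.exp (-A)) * (K * Real.exp A) + E * (α * Real.exp (-B)) * (K * Real.exp B) := by gcongr
      _ = K * E * ((1 - α) * (Real.exp (-A) * Real.exp A) + α * (Real.exp (-B) * Real.exp B)) := by ring
      _ = K * E := by
          rw [← Real.exp_add, ← Real.exp_add, neg_add_cancel, neg_add_cancel, Real.exp_zero]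
          ring
  · exact (continuous_const.mul (hct t1)).intervalIntegrable _ _
  · exact (continuous_const.mul (hct t2)).intervalIntegrable _ _

/-- the inequality for the chords -/
theorem chord_num {α x y2 : ℝ} (h0 : 0 ≤ α) (h1 : α < 1) (hx : x = 1 / 8 + 15 / 8 * α) (hy0 : 0 ≤ y2) (hy : x ^ 2 + y2 ≤ 519841 / 1000000) :
    y2 / (1 - α) ^ 2 ≤ 53 / 100 ∧ (1 - α) * (59 / 4000 + 259 / 200 * (y2 / (1 - α) ^ 2)) + α ≤ 347 / 250 * (x ^ 2 + y2) := by
  have h1α : 0 < 1 - α := by linarith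
  constructor
  · rw [div_le_iff₀ (by positivity)]
    have : y2 ≤ 519841 / 1000000 - x ^ 2 := by linarith
    refine this.trans ?_
    rw [hx]
    nlinarith [sq_nonneg (α - 73 / 1000)]
  · have e : (1 - α) * (59 / 4000 + 259 / 200 * (y2 / (1 - α) ^ 2)) + α = ((1 - α) ^ 2 * (59 / 4000) + 259 / 200 * y2 + α * (1 - α)) / (1 - α) := by
      field_simp
    rw [e, div_le_iff₀ h1α]
    -- the two ends
    have hP0 : (1 - α) ^ 2 * (59 / 4000) + α * (1 - α) ≤ 347 / 250 * x ^ 2 * (1 - α) := by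
      have : (1 - α) * (59 / 4000) + α ≤ 347 / 250 * x ^ 2 := by
        rw [hx]
        nlinarith [sq_nonneg (α - 343 / 10000)]
      nlinarith [mul_le_mul_of_nonneg_right this h1α.le]
    by_cases hc : 259 / 200 ≤ 347 / 250 * (1 - α)
    · have := mul_le_mul_of_nonneg_right hc hy0
      nlinarith
    · push Not at hc
      have h3 : y2 ≤ 519841 / 1000000 - x ^ 2 := by linarith
      have h4 : (259 / 200 - 347 / 250 * (1 - α)) * y2 ≤ (259 / 200 - 347 / 250 * (1 - α)) * (519841 / 1000000 - x ^ 2) :=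
        mul_le_mul_of_nonneg_left h3 (by linarith)
      have h5 : (1 - α) ^ 2 * (59 / 4000) + 259 / 200 * (519841 / 1000000 - x ^ 2) + α * (1 - α) ≤ 347 / 250 * (519841 / 1000000) * (1 - α) := by
        rw [hx]
        nlinarith [sq_nonneg (α - 98 / 1000)]
      nlinarith

/-- the right part -/
theorem right {Y H : ℂ → ℂ} (S : Sg Y H) {t : ℂ} (h0 : 1 / 8 ≤ t.re) (h2 : ‖t‖ ≤ 721 / 1000) {s : ℝ} (hs0 : 0 < s) (hs1 : s < 1) :
    mn (FF t H) s ≤ 400 * Real.exp (347 / 250 * ‖t‖ ^ 2 * la s) := by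
  have hla := la_nonneg hs0 hs1
  set x : ℝ := t.re with hx
  set y : ℝ := t.im with hy
  set α : ℝ := (8 * x - 1) / 15 with hα
  have hα0 : 0 ≤ α := by rw [hα]; linarith
  have hxn : x ≤ 721 / 1000 := (Complex.re_le_norm t).trans h2
  have hα1 : α < 1 := by rw [hα]; linarith
  have h1α : 0 < 1 - α := by linarith
  have hn : ‖t‖ ^ 2 = x ^ 2 + y ^ 2 := nsq t
  have hn2 : x ^ 2 + y ^ 2 ≤ 519841 / 1000000 := by
    rw [← hn]
    calc ‖t‖ ^ 2 ≤ (721 / 1000) ^ 2 := by gcongr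
      _ = _ := by norm_num
  obtain ⟨h3, h4⟩ := chord_num hα0 hα1 (by rw [hα]; ring) (sq_nonneg y) hn2
  rw [← div_pow] at h3 h4
  have h5 := line S h3 hs0 hs1
  have h6 : mn (FF 2 H) s ≤ 400 * Real.exp (1 * la s) := by
    refine (two_mn S hs0 hs1).trans ?_
    rw [one_mul]
    gcongr
    norm_num
  have h7 := holder S.dH hs0 hs1 (α := α) hα0 hα1.le (by norm_num) h5 h6
  have e1 : ((1 - α : ℝ) : ℂ) * (⟨1 / 8, y / (1 - α)⟩ : ℂ) + (α : ℂ) * 2 = t := by
    apply Complex.ext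
    · rw [Complex.add_re, Complex.re_ofReal_mul, Complex.re_ofReal_mul]
      show (1 - α) * (1 / 8) + α * (2:ℂ).re = t.re
      rw [← hx, hα]
      simp
      ring
    · rw [Complex.add_im, Complex.im_ofReal_mul, Complex.im_ofReal_mul]
      show (1 - α) * (y / (1 - α)) + α * (2:ℂ).im = t.im
      rw [← hy, mul_div_cancel₀ _ h1α.ne']
      simp
  rw [e1] at h7
  refine h7.trans ?_
  apply mul_le_mul_of_nonneg_left _ (by norm_num)
  apply Real.exp_le_exp.2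
  rw [hn]
  have h8 := mul_le_mul_of_nonneg_right h4 hla
  linarith

/-- all complex `t` -/
theorem all_t : ∃ K : ℝ, 0 < K ∧ ∀ (Y H : ℂ → ℂ), Sg Y H → ∀ t : ℂ, ∀ s : ℝ, 0 < s → s < 1 →
    mn (FF t H) s ≤ K * Real.exp (347 / 250 * ‖t‖ ^ 2 * la s) := by
  obtain ⟨K, hK, hcomp⟩ := comp_mn (11 / 10) (by norm_num)
  refine ⟨K + 400, by linarith, ?_⟩
  intro Y H S t s hs0 hs1
  have hla := la_nonneg hs0 hs1
  have hE : 1 ≤ Real.exp (347 / 250 * ‖t‖ ^ 2 * la s) := Real.one_le_exp (by positivity)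
  rcases le_or_gt t.re 0 with hre | hre
  · refine (hcomp Y H S t hre s hs0 hs1).trans ?_
    have h1 : (11 / 10 : ℝ) ^ 2 * (t.re ^ 2 / 2 + t.im ^ 2) ≤ 347 / 250 * ‖t‖ ^ 2 := by
      rw [nsq]
      nlinarith [sq_nonneg t.re, sq_nonneg t.im]
    have h2 : Real.exp ((11 / 10 : ℝ) ^ 2 * (t.re ^ 2 / 2 + t.im ^ 2) * la s) ≤ Real.exp (347 / 250 * ‖t‖ ^ 2 * la s) :=
      Real.exp_le_exp.2 (mul_le_mul_of_nonneg_right h1 hla)
    calc K * Real.exp ((11 / 10 : ℝ) ^ 2 * (t.re ^ 2 / 2 + t.im ^ 2) * la s) ≤ K * Real.exp (347 / 250 * ‖t‖ ^ 2 * la s) :=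
          mul_le_mul_of_nonneg_left h2 hK.le
      _ ≤ (K + 400) * Real.exp (347 / 250 * ‖t‖ ^ 2 * la s) := by
          apply mul_le_mul_of_nonneg_right _ (Real.exp_pos _).le
          linarith
  have hK400 : 400 * Real.exp (347 / 250 * ‖t‖ ^ 2 * la s) ≤ (K + 400) * Real.exp (347 / 250 * ‖t‖ ^ 2 * la s) := by
    apply mul_le_mul_of_nonneg_right _ (Real.exp_pos _).le
    linarith
  rcases le_or_gt ‖t‖ (721 / 1000) with hn | hn
  · rcases le_or_gt t.re (1 / 8) with h8 | h8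
    · exact (strip S (by rintro rfl; simp at hre) hre.le h8 hn hs0 hs1).trans hK400
    · exact (right S h8.le hn hs0 hs1).trans hK400
  · have ht0 : 0 < ‖t‖ := by linarith
    have h6 := Q90.SM.mn_shift S.dH (G := la s) hs0 hs1 (fun θ => by
      have h7 := goluzin S (cm_mem hs0 hs1 θ)
      rw [norm_cm hs0] at h7
      exact h7) t 0 le_rfl ht0.le ht0
    have e0 : (((0 / ‖t‖ : ℝ) : ℂ)) * t = 0 := by simp
    have e1 : mn (FF 0 H) s = 1 := by
      unfold Pool.Agent.TH325.SI.mn FF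
      simp
      have := Real.pi_pos
      field_simp
    rw [e0, e1, mul_one, sub_zero] at h6
    refine h6.trans ?_
    have h7 : ‖t‖ ≤ 347 / 250 * ‖t‖ ^ 2 := by nlinarith
    calc Real.exp (‖t‖ * la s) ≤ 1 * Real.exp (347 / 250 * ‖t‖ ^ 2 * la s) := by
          rw [one_mul]
          exact Real.exp_le_exp.2 (mul_le_mul_of_nonneg_right h7 hla)
      _ ≤ _ := by
          apply mul_le_mul_of_nonneg_right _ (Real.exp_pos _).le
          linarith

/-- `a ≤ 9/50` -/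
theorem fin18 : ∃ C : ℝ, ∀ a : ℝ, 0 < a → a ≤ 9 / 50 → ∀ R : ℝ, 1 < R →
    ∀ ψ h : ℂ → ℂ, IsSig ψ h → marshall a R h ≤ C := by
  obtain ⟨K, hK, hall⟩ := all_t
  have hac : ∀ a : ℝ, a ≤ 9 / 50 → 4 * a * (347 / 250) ≤ 12492 / 12500 := by
    intro a ha
    linarith
  refine ⟨K * 4000, fun a ha ha1 R hR ψ h hS => transfer ext_all hS (fun s hs hs1 => ?_) hR⟩
  have S := (ext_all ψ h hS).1
  have hac1 := hac a ha1
  have hl := la_nonneg hs hs1
  have hlt : 4 * a * (347 / 250) < 1 := lt_of_le_of_lt hac1 (by norm_num)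
  have hmain := em_of_expo gavg_all S.dH ha (C := 347 / 250) (K := 0) hlt hK.le hs hs1
    (fun t => by
      have := hall _ (hat h 0) S t s hs hs1
      rw [add_zero]
      refine this.trans (le_of_eq ?_)
      congr 2
      ring) (by
      have h3 : 0 ≤ (1 - 4 * a * (347 / 250)) * la s := mul_nonneg (sub_nonneg.2 hlt.le) hl
      rw [mul_zero]
      exact h3)
  refine hmain.trans ?_
  apply mul_le_mul_of_nonneg_left _ hK.le
  rw [div_le_iff₀ (sub_pos.2 hlt)]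
  have h4 : (2:ℝ) ≤ 4000 * (1 - 12492 / 12500) := by norm_num
  exact h4.trans (mul_le_mul_of_nonneg_left (sub_le_sub_left hac1 1) (by norm_num))

end Q90.HS
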