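import Mathlib
import Pool.Agent.Q90.HS.Fin18
import Pool.Agent.Q14.SM.Fam

/-! Holomorphic families: the maximum principle in the parameter. -/

set_option autoImplicit false
open Complex Filter Topology Set Metric MeasureTheory

namespace Q90.HS

open Pool.Agent.TH325.SI (mn em la la_pos la_nonneg cm_mem norm_cm cont_cm)
open Pool.Agent.W677.Mar (hat Sg goluzin H_bloch hat_hasDeriv)
open Q90.SM (FF IsSig IsFam marshall transfer ext_all em_of_expo gavg_all)

/-- integrals of holomorphic functions depending on a parameter -/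
theorem hol_int {f : ℝ → ℂ → ℂ} {a b : ℝ} (hab : a ≤ b) {B : ℝ}
    (hd : ∀ τ ∈ Ioc a b, DifferentiableOn ℂ (f τ) (ball 0 1))
    (hm : ∀ m ∈ ball (0:ℂ) 1, AEStronglyMeasurable (fun τ => f τ m) (volume.restrict (Ioc a b)))
    (hB : ∀ τ ∈ Ioc a b, ∀ m ∈ ball (0:ℂ) 1, ‖f τ m‖ ≤ B) :
    DifferentiableOn ℂ (fun m => ∫ τ in a..b, f τ m) (ball 0 1) := by
  intro x₀ hx₀
  have hn : ‖x₀‖ < 1 := mem_ball_zero_iff.1 hx₀
  set ε : ℝ := (1 - ‖x₀‖) / 2 with hε
  have hε0 : 0 < ε := by rw [hε]; linarith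
  have hsub : ∀ x ∈ ball x₀ ε, closedBall x (ε / 2) ⊆ ball (0:ℂ) 1 := by
    intro x hx y hy
    rw [mem_ball_zero_iff]
    have h1 : ‖x - x₀‖ < ε := by rw [← dist_eq_norm]; exact hx
    have h2 : ‖y - x‖ ≤ ε / 2 := by rw [← dist_eq_norm]; exact hy
    have h3 : ‖y‖ ≤ ‖y - x‖ + ‖x - x₀‖ + ‖x₀‖ := by
      calc ‖y‖ = ‖(y - x) + (x - x₀) + x₀‖ := by congr 1; ring
        _ ≤ _ := norm_add₃_le
    rw [hε] at h1 h2
    linarith
  have hsub0 : ball x₀ ε ⊆ ball (0:ℂ) 1 := fun x hx => hsub x hx (mem_closedBall_self (by positivity))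
  have hae : ∀ᵐ τ ∂(volume.restrict (Ioc a b)), τ ∈ Ioc a b := ae_restrict_mem measurableSet_Ioc
  have hda : ∀ τ ∈ Ioc a b, ∀ x ∈ ball x₀ ε, HasDerivAt (fun m => f τ m) (deriv (f τ) x) x := fun τ hτ x hx =>
    ((hd τ hτ).differentiableAt (isOpen_ball.mem_nhds (hsub0 hx))).hasDerivAt
  have h1 := hasDerivAt_integral_of_dominated_loc_of_deriv_le (μ := volume.restrict (Ioc a b)) (F := fun m τ => f τ m)
    (F' := fun m τ => deriv (f τ) m) (x₀ := x₀) (s := ball x₀ ε) (bound := fun _ => B / (ε / 2)) (ball_mem_nhds x₀ hε0)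
    (by
      filter_upwards [ball_mem_nhds x₀ hε0] with x hx
      exact hm x (hsub0 hx))
    (by
      refine ⟨hm x₀ hx₀, ?_⟩
      apply HasFiniteIntegral.of_bounded (C := B)
      filter_upwards [hae] with τ hτ
      exact hB τ hτ x₀ hx₀)
    (by
      -- limit of difference quotients
      set w : ℕ → ℂ := fun n => ((ε / 2 / ((n : ℝ) + 1) : ℝ) : ℂ) with hw
      have hwn : ∀ n, ‖w n‖ = ε / 2 / ((n : ℝ) + 1) := by
        intro n
        simp only [hw]
        rw [Complex.norm_real, Real.norm_of_nonneg (by positivity)]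
      have hw0 : ∀ n, w n ≠ 0 := by
        intro n h
        have := hwn n
        rw [h, norm_zero] at this
        have h2 : (0 : ℝ) < ε / 2 / ((n : ℝ) + 1) := by positivity
        linarith
      have hwx : ∀ n, x₀ + w n ∈ ball (0:ℂ) 1 := by
        intro n
        apply hsub0
        rw [mem_ball, dist_eq_norm, add_sub_cancel_left, hwn]
        calc ε / 2 / ((n : ℝ) + 1) ≤ ε / 2 / 1 := by
              apply div_le_div_of_nonneg_left (by positivity) one_pos
              have : (0:ℝ) ≤ n := n.cast_nonneg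
              linarith
          _ < ε := by linarith
      have hlim : Tendsto w atTop (𝓝[≠] 0) := by
        rw [tendsto_nhdsWithin_iff]
        refine ⟨?_, Eventually.of_forall hw0⟩
        rw [tendsto_zero_iff_norm_tendsto_zero]
        simp only [hwn]
        have h2 : Tendsto (fun n : ℕ => ε / 2 * (1 / ((n : ℝ) + 1))) atTop (𝓝 (ε / 2 * 0)) :=
          tendsto_one_div_add_atTop_nhds_zero_nat.const_mul _
        rw [mul_zero] at h2
        refine h2.congr fun n => ?_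
        ring
      refine aestronglyMeasurable_of_tendsto_ae atTop (f := fun n τ => (w n)⁻¹ • (f τ (x₀ + w n) - f τ x₀)) ?_ ?_
      · intro n
        exact ((hm _ (hwx n)).sub (hm _ hx₀)).const_smul ((w n)⁻¹)
      · filter_upwards [hae] with τ hτ
        have h3 := (hda τ hτ x₀ (mem_ball_self hε0)).tendsto_slope_zero
        exact h3.comp hlim)
    (by
      filter_upwards [hae] with τ hτ x hx
      refine norm_deriv_le_of_forall_mem_sphere_norm_le (by positivity) ?_ ?_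
      · refine DifferentiableOn.diffContOnCl ?_
        rw [closure_ball _ (by positivity)]
        exact (hd τ hτ).mono (hsub x hx)
      · intro y hy
        exact hB τ hτ y (hsub x hx (sphere_subset_closedBall hy)))
    (integrable_const _)
    (by
      filter_upwards [hae] with τ hτ x hx
      exact hda τ hτ x hx)
  have h2 := h1.2.differentiableAt.differentiableWithinAt (s := ball (0:ℂ) 1)
  refine h2.congr (fun x _ => ?_) ?_
  · rw [intervalIntegral.integral_of_le hab]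
  · rw [intervalIntegral.integral_of_le hab]

/-- dependence of `log ψ'` on the parameter -/
theorem hat_param {Ψ : ℂ → ℂ → ℂ} (hF : IsFam Ψ) {G : ℂ → ℂ → ℂ} (hG : ∀ m ∈ ball (0:ℂ) 1, IsSig (Ψ m) (G m)) {v : ℂ}
    (hv : v ∈ ball (0:ℂ) 1) (hv0 : v ≠ 0) :
    DifferentiableOn ℂ (fun m => hat (G m) 0 v) (ball 0 1) ∧ hat (G 0) 0 v = 0 := by
  have hn : ‖v‖ < 1 := mem_ball_zero_iff.1 hv
  have hS : ∀ m ∈ ball (0:ℂ) 1, ∃ Y, Sg Y (hat (G m) 0) := fun m hm => ⟨_, (ext_all (Ψ m) (G m) (hG m hm)).1⟩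
  have hτv : ∀ τ ∈ Icc (0:ℝ) 1, (τ : ℂ) * v ∈ ball (0:ℂ) 1 := by
    intro τ hτ
    rw [mem_ball_zero_iff, norm_mul, Complex.norm_real, Real.norm_of_nonneg hτ.1]
    calc τ * ‖v‖ ≤ 1 * ‖v‖ := mul_le_mul_of_nonneg_right hτ.2 (norm_nonneg v)
      _ < 1 := by linarith
  set f : ℝ → ℂ → ℂ := fun τ m => v * deriv (hat (G m) 0) ((τ : ℂ) * v) with hf
  have hfc : ∀ m ∈ ball (0:ℂ) 1, ContinuousOn (fun τ : ℝ => f τ m) (Icc 0 1) := by
    intro m hm
    obtain ⟨Y, S⟩ := hS m hm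
    simp only [hf]
    apply continuousOn_const.mul
    apply (S.dH.deriv isOpen_ball).continuousOn.comp
    · fun_prop
    · intro τ hτ
      exact hτv τ hτ
  have hint : ∀ m ∈ ball (0:ℂ) 1, hat (G m) 0 v = ∫ τ in (0:ℝ)..1, f τ m := by
    intro m hm
    obtain ⟨Y, S⟩ := hS m hm
    have h1 : ∀ τ ∈ uIcc (0:ℝ) 1, HasDerivAt (fun τ : ℝ => hat (G m) 0 ((τ : ℂ) * v)) (f τ m) τ := by
      intro τ hτ
      rw [uIcc_of_le zero_le_one] at hτ
      have h2 : HasDerivAt (hat (G m) 0) (deriv (hat (G m) 0) ((τ : ℂ) * v)) ((τ : ℂ) * v) :=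
        (S.dH.differentiableAt (isOpen_ball.mem_nhds (hτv τ hτ))).hasDerivAt
      have h3 : HasDerivAt (fun τ : ℝ => (τ : ℂ) * v) v τ := by
        simpa using (Complex.ofRealCLM.hasDerivAt (x := τ)).mul_const v
      have h4 := HasDerivAt.comp τ h2 h3
      simp only [hf]
      rw [mul_comm]
      exact h4
    have h5 := intervalIntegral.integral_eq_sub_of_hasDerivAt h1 (by
      apply ContinuousOn.intervalIntegrable
      rw [uIcc_of_le zero_le_one]
      exact hfc m hm)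
    rw [h5]
    simp [S.H0]
  have hfd : ∀ τ ∈ Ioc (0:ℝ) 1, DifferentiableOn ℂ (f τ) (ball 0 1) ∧ f τ 0 = 0 := by
    intro τ hτ
    have hm1 := hτv τ ⟨hτ.1.le, hτ.2⟩
    have hne : (τ : ℂ) * v ≠ 0 := mul_ne_zero (by exact_mod_cast hτ.1.ne') hv0
    have hz : 1 < ‖((τ : ℂ) * v)⁻¹‖ := Pool.Agent.W677.Mar.inv_ext hm1 hne
    obtain ⟨h1, h2⟩ := Q14.SM.fam Ψ hF G hG _ hz
    have e : ∀ m ∈ ball (0:ℂ) 1, f τ m = v * (deriv (G m) ((τ : ℂ) * v)⁻¹ * -(((τ : ℂ) * v) ^ 2)⁻¹) := by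
      intro m hm
      simp only [hf]
      rw [(hat_hasDeriv (hG m hm).hol hm1 hne).deriv]
    constructor
    · exact ((h1.mul_const _).const_mul v).congr e
    · rw [e 0 (mem_ball_self one_pos), h2]
      ring
  have hfB : ∀ τ ∈ Ioc (0:ℝ) 1, ∀ m ∈ ball (0:ℂ) 1, ‖f τ m‖ ≤ 6 / (1 - ‖v‖) := by
    intro τ hτ m hm
    obtain ⟨Y, S⟩ := hS m hm
    have hm1 := hτv τ ⟨hτ.1.le, hτ.2⟩
    have h1 := H_bloch S hm1
    have h2 : ‖(τ : ℂ) * v‖ ≤ ‖v‖ := by
      rw [norm_mul, Complex.norm_real, Real.norm_of_nonneg hτ.1.le]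
      exact mul_le_of_le_one_left (norm_nonneg v) hτ.2
    have h3 : 0 < 1 - ‖v‖ := by linarith
    rw [le_div_iff₀ h3]
    simp only [hf]
    rw [norm_mul]
    calc ‖v‖ * ‖deriv (hat (G m) 0) ((τ : ℂ) * v)‖ * (1 - ‖v‖)
        ≤ 1 * ‖deriv (hat (G m) 0) ((τ : ℂ) * v)‖ * (1 - ‖(τ : ℂ) * v‖) := by
          apply mul_le_mul _ (by linarith) h3.le (by positivity)
          exact mul_le_mul_of_nonneg_right hn.le (norm_nonneg _)
      _ ≤ 6 := by rw [one_mul]; exact h1
  constructor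
  · have h1 := hol_int (f := f) (a := 0) (b := 1) zero_le_one (fun τ hτ => (hfd τ hτ).1) (fun m hm => by
      apply ContinuousOn.aestronglyMeasurable _ measurableSet_Ioc
      exact (hfc m hm).mono Ioc_subset_Icc_self) hfB
    exact h1.congr fun m hm => hint m hm
  · rw [hint 0 (mem_ball_self one_pos), intervalIntegral.integral_of_le zero_le_one]
    rw [setIntegral_congr_fun (g := fun _ => (0:ℂ)) measurableSet_Ioc (fun τ hτ => (hfd τ hτ).2)]
    simp

/-- the maximum principle for the means -/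
theorem fam_mn {c K : ℝ} (hc : 0 ≤ c) (hK : 0 < K)
    (hall : ∀ (Y H : ℂ → ℂ), Sg Y H → ∀ t : ℂ, ∀ s : ℝ, 0 < s → s < 1 → mn (FF t H) s ≤ K * Real.exp (c * ‖t‖ ^ 2 * la s))
    {Ψ : ℂ → ℂ → ℂ} (hF : IsFam Ψ) {l : ℂ} {h : ℂ → ℂ} (hl : ‖l‖ < 1) (hS : IsSig (Ψ l) h) (t : ℂ) {s : ℝ} (hs0 : 0 < s) (hs1 : s < 1) :
    mn (FF t (hat h 0)) s ≤ K * Real.exp (c * ‖l‖ ^ 2 * ‖t‖ ^ 2 * la s) := by
  classical
  have hpi := Real.pi_pos
  have hpi0 : (0:ℝ) ≤ 2 * Real.pi := by positivity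
  have hla := la_nonneg hs0 hs1
  obtain ⟨g₀, hg₀⟩ : ∃ g : ℂ → ℂ → ℂ, ∀ m ∈ ball (0:ℂ) 1, IsSig (Ψ m) (g m) := by
    choose! g hg using hF.1
    exact ⟨g, hg⟩
  set G : ℂ → ℂ → ℂ := fun m => if m = l then h else g₀ m with hG
  have hGS : ∀ m ∈ ball (0:ℂ) 1, IsSig (Ψ m) (G m) := by
    intro m hm
    simp only [hG]
    split_ifs with hml
    · rw [hml]; exact hS
    · exact hg₀ m hm
  have hGl : G l = h := by simp [hG]
  have hSg : ∀ m ∈ ball (0:ℂ) 1, ∃ Y, Sg Y (hat (G m) 0) := fun m hm => ⟨_, (ext_all (Ψ m) (G m) (hGS m hm)).1⟩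
  have hlb : l ∈ ball (0:ℂ) 1 := mem_ball_zero_iff.2 hl
  have h0b : (0:ℂ) ∈ ball (0:ℂ) 1 := mem_ball_self one_pos
  set g : ℝ → ℂ → ℂ := fun θ m => hat (G m) 0 (circleMap 0 s θ) with hg
  have hgp : ∀ θ : ℝ, DifferentiableOn ℂ (g θ) (ball 0 1) ∧ g θ 0 = 0 := fun θ =>
    hat_param hF hGS (cm_mem hs0 hs1 θ) (Pool.Agent.TH325.SI.cm_ne hs0 θ)
  have hgc : ∀ m ∈ ball (0:ℂ) 1, Continuous fun θ => g θ m := by
    intro m hm
    obtain ⟨Y, S⟩ := hSg m hm
    exact cont_cm S.dH hs0 hs1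
  have hgL : ∀ θ : ℝ, ∀ m ∈ ball (0:ℂ) 1, ‖g θ m‖ ≤ la s := by
    intro θ m hm
    obtain ⟨Y, S⟩ := hSg m hm
    have h7 := goluzin S (cm_mem hs0 hs1 θ)
    rw [norm_cm hs0] at h7
    exact h7
  -- the case l = 0
  by_cases hl0 : l = 0
  · have h1 : ∀ θ : ℝ, hat h 0 (circleMap 0 s θ) = 0 := by
      intro θ
      have h2 := (hgp θ).2
      simp only [hg] at h2
      have hG0 : G 0 = h := by
        have h3 := hGl
        rw [hl0] at h3
        exact h3
      rw [hG0] at h2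
      exact h2
    have h2 : mn (FF t (hat h 0)) s = 1 := by
      rw [mn_re]
      simp only [h1]
      simp
      field_simp
    have h3 := hall _ (hat h 0) (ext_all (Ψ l) h hS).1 0 s hs0 hs1
    rw [hl0, norm_zero, h2]
    have h4 : mn (FF 0 (hat h 0)) s = 1 := by
      rw [mn_re]
      simp
      field_simp
    rw [h4, norm_zero] at h3
    simpa using h3
  have hln : 0 < ‖l‖ := norm_pos_iff.2 hl0
  -- the quotient
  set q : ℝ → ℂ → ℂ := fun θ => dslope (g θ) 0 with hq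
  have hqd : ∀ θ : ℝ, DifferentiableOn ℂ (q θ) (ball 0 1) := fun θ =>
    (Complex.differentiableOn_dslope (isOpen_ball.mem_nhds h0b)).2 (hgp θ).1
  have hqe : ∀ θ : ℝ, ∀ m : ℂ, m ≠ 0 → q θ m = m⁻¹ * g θ m := by
    intro θ m hm
    simp only [hq]
    rw [dslope_of_ne _ hm, slope_def_field, (hgp θ).2, sub_zero, sub_zero]
    field_simp
  have hqB : ∀ θ : ℝ, ∀ m ∈ ball (0:ℂ) 1, ‖q θ m‖ ≤ la s + 1 := by
    intro θ m hm
    have h1 := Complex.norm_dslope_le_div_of_mapsTo_ball (f := g θ) (c := 0) (R₁ := 1) (R₂ := la s + 1) (hgp θ).1 (by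
      intro x hx
      rw [(hgp θ).2, mem_closedBall_zero_iff]
      linarith [hgL θ x hx]) hm
    rw [div_one] at h1
    exact h1
  have hqm : ∀ m ∈ ball (0:ℂ) 1, Measurable fun θ => q θ m := by
    intro m hm
    by_cases hm0 : m = 0
    · have hlim : Tendsto (fun n : ℕ => ((1 / ((n : ℝ) + 2) : ℝ) : ℂ)) atTop (𝓝 0) := by
        rw [tendsto_zero_iff_norm_tendsto_zero]
        have h1 : Tendsto (fun n : ℕ => 1 / ((n : ℝ) + 2)) atTop (𝓝 0) := by
          have h2 := (tendsto_add_atTop_iff_nat 1).2 (tendsto_one_div_add_atTop_nhds_zero_nat (𝕜 := ℝ))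
          refine h2.congr fun n => ?_
          push_cast
          congr 1
          ring
        refine h1.congr fun n => ?_
        rw [Complex.norm_real, Real.norm_of_nonneg (by positivity)]
      have hnb : ∀ n : ℕ, ((1 / ((n : ℝ) + 2) : ℝ) : ℂ) ∈ ball (0:ℂ) 1 := by
        intro n
        rw [mem_ball_zero_iff, Complex.norm_real, Real.norm_of_nonneg (by positivity), div_lt_one (by positivity)]
        have : (0:ℝ) ≤ n := n.cast_nonneg
        linarith
      have hnz : ∀ n : ℕ, ((1 / ((n : ℝ) + 2) : ℝ) : ℂ) ≠ 0 := by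
        intro n
        have h1 : (1 / ((n : ℝ) + 2) : ℝ) ≠ 0 := by positivity
        exact_mod_cast h1
      refine measurable_of_tendsto_metrizable (f := fun n θ => q θ ((1 / ((n : ℝ) + 2) : ℝ) : ℂ)) ?_ ?_
      · intro n
        simp only [hqe _ _ (hnz n)]
        exact ((hgc _ (hnb n)).measurable).const_mul _
      · rw [tendsto_pi_nhds]
        intro θ
        have h3 : ContinuousAt (q θ) 0 := ((hqd θ).differentiableAt (isOpen_ball.mem_nhds h0b)).continuousAt
        rw [hm0]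
        exact h3.tendsto.comp hlim
    · simp only [hqe _ _ hm0]
      exact ((hgc _ hm).measurable).const_mul _
  set τ : ℂ := t * l with hτ
  set F : ℝ → ℂ → ℂ := fun θ m => Complex.exp (τ / 2 * q θ m) with hFd
  have hFm : ∀ m ∈ ball (0:ℂ) 1, Measurable fun θ => F θ m := fun m hm =>
    Complex.measurable_exp.comp ((hqm m hm).const_mul _)
  set M : ℝ := Real.exp (‖τ‖ / 2 * (la s + 1)) with hM
  have hFB : ∀ θ : ℝ, ∀ m ∈ ball (0:ℂ) 1, ‖F θ m‖ ≤ M := by
    intro θ m hm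
    simp only [hFd]
    rw [Complex.norm_exp]
    apply Real.exp_le_exp.2
    calc (τ / 2 * q θ m).re ≤ ‖τ / 2 * q θ m‖ := Complex.re_le_norm _
      _ = ‖τ‖ / 2 * ‖q θ m‖ := by rw [norm_mul, norm_div]; norm_num
      _ ≤ _ := by
          apply mul_le_mul_of_nonneg_left (hqB θ m hm) (by positivity)
  have hM0 : 0 < M := Real.exp_pos _
  set P : ℝ := ∫ θ in (0:ℝ)..(2 * Real.pi), ‖F θ l‖ ^ 2 with hP
  set Sm : ℂ → ℂ := fun m => ∫ θ in (0:ℝ)..(2 * Real.pi), F θ m * (starRingEnd ℂ) (F θ l) with hSm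
  have hSd : DifferentiableOn ℂ Sm (ball 0 1) := by
    apply hol_int (f := fun θ m => F θ m * (starRingEnd ℂ) (F θ l)) (B := M * M) hpi0
    · intro θ _
      apply DifferentiableOn.mul_const
      exact ((hqd θ).const_mul _).cexp
    · intro m hm
      exact ((hFm m hm).mul (Complex.continuous_conj.measurable.comp (hFm l hlb))).aestronglyMeasurable
    · intro θ _ m hm
      rw [norm_mul, RCLike.norm_conj]
      exact mul_le_mul (hFB θ m hm) (hFB θ l hlb) (norm_nonneg _) hM0.le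
  have hint : ∀ m ∈ ball (0:ℂ) 1, IntervalIntegrable (fun θ => ‖F θ m‖ ^ 2) volume 0 (2 * Real.pi) := by
    intro m hm
    rw [intervalIntegrable_iff_integrableOn_Ioc_of_le hpi0]
    refine ⟨((hFm m hm).norm.pow_const 2).aestronglyMeasurable, ?_⟩
    apply HasFiniteIntegral.of_bounded (C := M ^ 2)
    refine Eventually.of_forall fun θ => ?_
    rw [Real.norm_of_nonneg (by positivity)]
    exact pow_le_pow_left₀ (norm_nonneg _) (hFB θ m hm) 2
  have hSl : Sm l = (P : ℂ) := by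
    simp only [hSm, hP]
    rw [← intervalIntegral.integral_ofReal]
    apply intervalIntegral.integral_congr
    intro θ _
    simp only
    rw [Complex.mul_conj, Complex.normSq_eq_norm_sq]
  have hSb : ∀ m ∈ ball (0:ℂ) 1, ‖Sm m‖ ≤ ((∫ θ in (0:ℝ)..(2 * Real.pi), ‖F θ m‖ ^ 2) + P) / 2 := by
    intro m hm
    have h1 : ‖Sm m‖ ≤ ∫ θ in (0:ℝ)..(2 * Real.pi), ‖F θ m * (starRingEnd ℂ) (F θ l)‖ :=
      intervalIntegral.norm_integral_le_integral_norm hpi0
    have h2 : ∫ θ in (0:ℝ)..(2 * Real.pi), ‖F θ m * (starRingEnd ℂ) (F θ l)‖ ≤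
        ∫ θ in (0:ℝ)..(2 * Real.pi), (‖F θ m‖ ^ 2 / 2 + ‖F θ l‖ ^ 2 / 2) := by
      apply intervalIntegral.integral_mono_on hpi0
      · rw [intervalIntegrable_iff_integrableOn_Ioc_of_le hpi0]
        refine ⟨((hFm m hm).mul (Complex.continuous_conj.measurable.comp (hFm l hlb))).norm.aestronglyMeasurable, ?_⟩
        apply HasFiniteIntegral.of_bounded (C := M * M)
        refine Eventually.of_forall fun θ => ?_
        rw [norm_norm, norm_mul, RCLike.norm_conj]
        exact mul_le_mul (hFB θ m hm) (hFB θ l hlb) (norm_nonneg _) hM0.le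
      · exact ((hint m hm).div_const 2).add ((hint l hlb).div_const 2)
      · intro θ _
        rw [norm_mul, RCLike.norm_conj]
        nlinarith [sq_nonneg (‖F θ m‖ - ‖F θ l‖)]
    rw [intervalIntegral.integral_add ((hint m hm).div_const 2) ((hint l hlb).div_const 2), intervalIntegral.integral_div,
      intervalIntegral.integral_div] at h2
    rw [hP]
    linarith
  -- the circle of radius ρ
  have hcirc : ∀ ρ : ℝ, ‖l‖ < ρ → ρ < 1 → P ≤ 2 * Real.pi * (K * Real.exp (c * (‖τ‖ / ρ) ^ 2 * la s)) := by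
    intro ρ hρl hρ1
    have hρ0 : 0 < ρ := hln.trans hρl
    set Q : ℝ := 2 * Real.pi * (K * Real.exp (c * (‖τ‖ / ρ) ^ 2 * la s)) with hQ
    have hmQ : ∀ m : ℂ, ‖m‖ = ρ → ∫ θ in (0:ℝ)..(2 * Real.pi), ‖F θ m‖ ^ 2 ≤ Q := by
      intro m hmρ
      have hm0 : m ≠ 0 := by
        rw [← norm_pos_iff, hmρ]
        exact hρ0
      have hmb : m ∈ ball (0:ℂ) 1 := by
        rw [mem_ball_zero_iff, hmρ]
        exact hρ1
      obtain ⟨Y, S⟩ := hSg m hmb
      have h1 := hall Y _ S (τ / m) s hs0 hs1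
      have e1 : ∀ θ : ℝ, ‖F θ m‖ ^ 2 = ‖FF (τ / m) (hat (G m) 0) (circleMap 0 s θ)‖ ^ 2 := by
        intro θ
        simp only [hFd]
        rw [hqe θ m hm0]
        unfold FF
        simp only [hg]
        congr 3
        field_simp
      have e2 : ∫ θ in (0:ℝ)..(2 * Real.pi), ‖F θ m‖ ^ 2 = 2 * Real.pi * mn (FF (τ / m) (hat (G m) 0)) s := by
        simp only [e1]
        unfold Pool.Agent.TH325.SI.mn
        field_simp
      rw [e2, hQ]
      rw [norm_div, hmρ] at h1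
      exact mul_le_mul_of_nonneg_left h1 (by positivity)
    have h2 : ‖Sm l‖ ≤ (Q + P) / 2 := by
      refine Complex.norm_le_of_forall_mem_frontier_norm_le (U := ball (0:ℂ) ρ) isBounded_ball ?_ ?_ ?_
      · refine DifferentiableOn.diffContOnCl ?_
        rw [closure_ball _ hρ0.ne']
        refine hSd.mono ?_
        intro x hx
        rw [mem_ball_zero_iff]
        rw [mem_closedBall_zero_iff] at hx
        linarith
      · intro m hm
        rw [frontier_ball _ hρ0.ne', mem_sphere_zero_iff_norm] at hm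
        have hmb : m ∈ ball (0:ℂ) 1 := by
          rw [mem_ball_zero_iff, hm]
          exact hρ1
        have h3 := hSb m hmb
        have h4 := hmQ m hm
        linarith
      · apply subset_closure
        rw [mem_ball_zero_iff]
        exact hρl
    have hP0 : 0 ≤ P := intervalIntegral.integral_nonneg hpi0 (fun θ _ => by positivity)
    rw [hSl, Complex.norm_real, Real.norm_of_nonneg hP0] at h2
    linarith
  -- the limit
  have hlim : P ≤ 2 * Real.pi * (K * Real.exp (c * (‖τ‖ / 1) ^ 2 * la s)) := by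
    have h1 : ContinuousAt (fun ρ : ℝ => 2 * Real.pi * (K * Real.exp (c * (‖τ‖ / ρ) ^ 2 * la s))) 1 := by
      apply ContinuousAt.mul continuousAt_const
      apply ContinuousAt.mul continuousAt_const
      apply Real.continuous_exp.continuousAt.comp
      apply ContinuousAt.mul _ continuousAt_const
      apply ContinuousAt.mul continuousAt_const
      apply ContinuousAt.pow
      exact continuousAt_const.div continuousAt_id one_ne_zero
    refine ge_of_tendsto (h1.tendsto.mono_left (nhdsWithin_le_nhds (s := Iio 1))) ?_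
    have : Ioo ‖l‖ 1 ∈ 𝓝[<] (1 : ℝ) := Ioo_mem_nhdsLT hl
    filter_upwards [this] with ρ hρ
    exact hcirc ρ hρ.1 hρ.2
  have e3 : P = 2 * Real.pi * mn (FF t (hat h 0)) s := by
    have e1 : ∀ θ : ℝ, ‖F θ l‖ ^ 2 = ‖FF t (hat h 0) (circleMap 0 s θ)‖ ^ 2 := by
      intro θ
      simp only [hFd]
      rw [hqe θ l hl0]
      unfold FF
      simp only [hg, hGl, hτ]
      congr 3
      field_simp
    rw [hP]
    simp only [e1]
    unfold Pool.Agent.TH325.SI.mn
    field_simp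
  rw [e3] at hlim
  have h5 := le_of_mul_le_mul_left hlim (by positivity)
  refine h5.trans (le_of_eq ?_)
  rw [hτ, norm_mul, div_one]
  congr 2
  ring

/-- families: `a k² ≤ 9/50` -/
theorem fam18 : ∃ C : ℝ, ∀ a k : ℝ, 0 < a → 0 ≤ k → k < 1 → a * k ^ 2 ≤ 9 / 50 → ∀ R : ℝ, 1 < R →
    ∀ Ψ : ℂ → ℂ → ℂ, IsFam Ψ → ∀ (l : ℂ) (h : ℂ → ℂ), ‖l‖ ≤ k → IsSig (Ψ l) h → marshall a R h ≤ C := by
  obtain ⟨K, hK, hall⟩ := all_t
  refine ⟨K * 4000, fun a k ha hk0 hk1 hak R hR Ψ hF l h hl hS => transfer ext_all hS (fun s hs hs1 => ?_) hR⟩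
  have S := (ext_all (Ψ l) h hS).1
  have hac1 : 4 * a * (347 / 250 * k ^ 2) ≤ 12492 / 12500 := by linarith
  have hl' := la_nonneg hs hs1
  have hlt : 4 * a * (347 / 250 * k ^ 2) < 1 := lt_of_le_of_lt hac1 (by norm_num)
  have hmain := em_of_expo gavg_all S.dH ha (C := 347 / 250 * k ^ 2) (K := 0) hlt hK.le hs hs1
    (fun t => by
      have h1 := fam_mn (c := 347 / 250) (by norm_num) hK hall hF (lt_of_le_of_lt hl hk1) hS t hs hs1
      refine h1.trans ?_
      apply mul_le_mul_of_nonneg_left _ hK.le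
      apply Real.exp_le_exp.2
      rw [add_zero]
      have h2 : ‖l‖ ^ 2 ≤ k ^ 2 := pow_le_pow_left₀ (norm_nonneg l) hl 2
      calc 347 / 250 * ‖l‖ ^ 2 * ‖t‖ ^ 2 * la s ≤ 347 / 250 * k ^ 2 * ‖t‖ ^ 2 * la s := by gcongr
        _ = _ := by ring) (by
      have h3 : 0 ≤ (1 - 4 * a * (347 / 250 * k ^ 2)) * la s := mul_nonneg (sub_nonneg.2 hlt.le) hl'
      rw [mul_zero]
      exact h3)
  refine hmain.trans ?_
  apply mul_le_mul_of_nonneg_left _ hK.le
  rw [div_le_iff₀ (sub_pos.2 hlt)]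
  have h4 : (2:ℝ) ≤ 4000 * (1 - 12492 / 12500) := by norm_num
  exact h4.trans (mul_le_mul_of_nonneg_left (sub_le_sub_left hac1 1) (by norm_num))

end Q90.HS
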