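import Pool.Agent.Q90.HS.Adj

/-! The sums for the powers of `1 - v` (job HS3). -/

set_option autoImplicit false
open Filter Topology

namespace Q90.HS

/-- the coefficients of `(1 - v) ^ b` -/
noncomputable def cb (b : ℝ) (m : ℕ) : ℝ := ∏ i ∈ Finset.range m, ((i : ℝ) - b) / (i + 1)

/-- the terms of the sum -/
noncomputable def TT (μ b : ℝ) (m : ℕ) : ℝ :=
  ∏ i ∈ Finset.range m, ((i : ℝ) - b) * (i + 1 - b) / ((i + 1 + μ) * (i + 1))

theorem cb_zero (b : ℝ) : cb b 0 = 1 := by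
  unfold cb
  simp

theorem cb_succ (b : ℝ) (m : ℕ) : cb b (m + 1) = cb b m * (((m : ℝ) - b) / (m + 1)) := by
  unfold cb
  rw [Finset.prod_range_succ]

theorem TT_zero (μ b : ℝ) : TT μ b 0 = 1 := by
  unfold TT
  simp

theorem TT_succ (μ b : ℝ) (m : ℕ) :
    TT μ b (m + 1) = TT μ b m * (((m : ℝ) - b) * (m + 1 - b) / ((m + 1 + μ) * (m + 1))) := by
  unfold TT
  rw [Finset.prod_range_succ]

theorem cb_neg (θ : ℝ) (m : ℕ) : cb (-θ) m = aa θ m := by
  unfold cb aa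
  refine Finset.prod_congr rfl fun i _ => ?_
  congr 1
  ring

theorem cb_add_one (b : ℝ) (m : ℕ) : cb (b + 1) (m + 1) = cb b m * (-(b + 1) / (m + 1)) := by
  induction m with
  | zero =>
    rw [cb_succ, cb_zero, cb_zero]
    push_cast
    ring
  | succ m ih =>
    rw [cb_succ, ih, cb_succ b m]
    push_cast
    have h1 : (m : ℝ) + 1 ≠ 0 := by positivity
    have h2 : (m : ℝ) + 1 + 1 ≠ 0 := by positivity
    field_simp
    ring

theorem cb_diff (b : ℝ) (m : ℕ) : cb (b + 1) (m + 1) = cb b (m + 1) - cb b m := by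
  rw [cb_add_one, cb_succ]
  have h1 : (m : ℝ) + 1 ≠ 0 := by positivity
  field_simp
  ring

theorem pc_mul_succ (θ : ℝ) (p : Polynomial ℂ) (m : ℕ) :
    pc θ ((1 - Polynomial.X) * p) (m + 1) = pc θ p (m + 1) - pc θ p m := by
  rw [pc_eq, pc_eq, pc_eq]
  simp only [Polynomial.coe_mul, Polynomial.coe_sub, Polynomial.coe_one, Polynomial.coe_X]
  have : (1 - PowerSeries.X) * (p : PowerSeries ℂ) * AS θ =
      (p : PowerSeries ℂ) * AS θ - PowerSeries.X * ((p : PowerSeries ℂ) * AS θ) := by ring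
  rw [this, map_sub, PowerSeries.coeff_succ_X_mul]

theorem pc_mul_zero (θ : ℝ) (p : Polynomial ℂ) :
    pc θ ((1 - Polynomial.X) * p) 0 = pc θ p 0 := by
  rw [pc_eq, pc_eq]
  simp only [Polynomial.coe_mul, Polynomial.coe_sub, Polynomial.coe_one, Polynomial.coe_X]
  have : (1 - PowerSeries.X) * (p : PowerSeries ℂ) * AS θ =
      (p : PowerSeries ℂ) * AS θ - PowerSeries.X * ((p : PowerSeries ℂ) * AS θ) := by ring
  rw [this, map_sub, PowerSeries.coeff_zero_X_mul, sub_zero]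

theorem pc_pow (θ : ℝ) (N m : ℕ) : pc θ ((1 - Polynomial.X) ^ N) m = (cb ((N : ℝ) - θ) m : ℂ) := by
  induction N generalizing m with
  | zero =>
    rw [pow_zero, pc_one, Nat.cast_zero, zero_sub, cb_neg]
  | succ N ih =>
    have e : (((N + 1 : ℕ) : ℝ)) - θ = ((N : ℝ) - θ) + 1 := by
      push_cast
      ring
    rw [pow_succ', e]
    cases m with
    | zero => rw [pc_mul_zero, ih, cb_zero, cb_zero]
    | succ m =>
      rw [pc_mul_succ, ih, ih, cb_diff]
      push_cast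
      rfl

theorem cb_TT {μ : ℝ} (hμ : 0 < μ) (b : ℝ) (m : ℕ) : (b - m) * om μ m * cb b m ^ 2 = b * TT μ b m := by
  induction m with
  | zero =>
    rw [om_zero, cb_zero, TT_zero]
    simp
  | succ m ih =>
    have h1 : (m : ℝ) + 1 ≠ 0 := by positivity
    have h2 : (m : ℝ) + 1 + μ ≠ 0 := by positivity
    rw [TT_succ, ← mul_assoc, ← ih, om_succ, cb_succ]
    push_cast
    field_simp
    ring

theorem QQ_pow {θ lam : ℝ} (hθ : 0 < θ) (hl : 0 < lam) (N : ℕ) :
    QQ θ (lam + 2 * θ) N ((1 - Polynomial.X) ^ N) = ((N : ℝ) - θ) * ∑' m : ℕ, TT (lam + 2 * θ) ((N : ℝ) - θ) m := by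
  unfold QQ
  rw [← tsum_mul_left]
  refine tsum_congr fun m => ?_
  rw [pc_pow, Complex.norm_real, Real.norm_eq_abs, sq_abs, ← cb_TT (by positivity)]
  ring

theorem TT_next {μ : ℝ} (hμ : 0 < μ) (b : ℝ) (m : ℕ) :
    TT μ (b + 1) (m + 1) = b * (b + 1) * TT μ b m / ((m + 1) * (m + 1 + μ)) := by
  induction m with
  | zero =>
    rw [TT_succ, TT_zero, TT_zero]
    push_cast
    have h2 : (0 : ℝ) + 1 + μ ≠ 0 := by positivity
    field_simp
    ring
  | succ m ih =>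
    rw [TT_succ, ih, TT_succ μ b m]
    have h1 : (m : ℝ) + 1 ≠ 0 := by positivity
    have h2 : (m : ℝ) + 1 + μ ≠ 0 := by positivity
    have h3 : (m : ℝ) + 1 + 1 ≠ 0 := by positivity
    have h4 : (m : ℝ) + 1 + 1 + μ ≠ 0 := by positivity
    push_cast
    field_simp
    ring

/-- the summability and decay of the terms -/
def RR (μ b : ℝ) : Prop :=
  Summable (TT μ b) ∧ Tendsto (fun n : ℕ => ((n : ℝ) + 1) * TT μ b n) atTop (𝓝 0)

theorem RR_base {θ lam : ℝ} (hθ : 0 < θ) (hθ1 : θ < 1) (hl : 0 < lam) : RR (lam + 2 * θ) (-θ) := by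
  obtain ⟨h1, h2⟩ := Bm_main hθ hθ1 hl
  have hμ : 0 < lam + 2 * θ := by positivity
  have hT : ∀ m : ℕ, TT (lam + 2 * θ) (-θ) m = ((m : ℝ) + θ) / θ * (om (lam + 2 * θ) m * aa θ m ^ 2) := by
    intro m
    have := cb_TT hμ (-θ) m
    rw [cb_neg] at this
    field_simp
    linarith
  have hT0 : ∀ m : ℕ, 0 ≤ TT (lam + 2 * θ) (-θ) m := by
    intro m
    rw [hT]
    have := om_pos hμ.le m
    positivity
  have hT1 : ∀ m : ℕ, TT (lam + 2 * θ) (-θ) m ≤ θ⁻¹ * (Bm θ lam m / ((m : ℝ) + 1)) := by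
    intro m
    rw [hT]
    have h3 := om_pos hμ.le m
    have e : θ⁻¹ * (Bm θ lam m / ((m : ℝ) + 1)) =
        ((m : ℝ) + 1) / θ * (om (lam + 2 * θ) m * aa θ m ^ 2) := by
      unfold Bm
      field_simp
    rw [e]
    refine mul_le_mul_of_nonneg_right ?_ (by positivity)
    exact div_le_div_of_nonneg_right (by linarith) hθ.le
  refine ⟨Summable.of_nonneg_of_le hT0 hT1 (h1.mul_left _), ?_⟩
  have h3 := h2.const_mul θ⁻¹
  rw [mul_zero] at h3
  refine squeeze_zero (fun m => mul_nonneg (by positivity) (hT0 m)) (fun m => ?_) h3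
  have h4 := mul_le_mul_of_nonneg_left (hT1 m) (by positivity : (0 : ℝ) ≤ (m : ℝ) + 1)
  refine h4.trans (le_of_eq ?_)
  field_simp

theorem RR_step {μ b : ℝ} (hμ : 0 < μ) (h : RR μ b) : RR μ (b + 1) := by
  obtain ⟨h1, h2⟩ := h
  have hb : ∀ n : ℕ, |TT μ (b + 1) (n + 1)| ≤ |b * (b + 1)| * |TT μ b n| / ((n : ℝ) + 1) := by
    intro n
    rw [TT_next hμ, abs_div, abs_mul (b * (b + 1)), abs_of_pos (by positivity : (0 : ℝ) < ((n : ℝ) + 1) * (n + 1 + μ))]
    refine div_le_div_of_nonneg_left (by positivity) (by positivity) ?_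
    have h3 : (1 : ℝ) ≤ (n : ℝ) + 1 + μ := by
      have : (0 : ℝ) ≤ n := Nat.cast_nonneg n
      linarith
    nlinarith
  refine ⟨?_, ?_⟩
  · refine (summable_nat_add_iff 1).1 ?_
    refine Summable.of_norm_bounded (h1.abs.mul_left |b * (b + 1)|) fun n => ?_
    rw [Real.norm_eq_abs]
    refine (hb n).trans ?_
    refine div_le_self (by positivity) ?_
    have : (0 : ℝ) ≤ n := Nat.cast_nonneg n
    linarith
  · refine (tendsto_add_atTop_iff_nat 1).1 ?_
    have h3 := (h2.abs).const_mul (2 * |b * (b + 1)|)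
    rw [abs_zero, mul_zero] at h3
    refine squeeze_zero_norm (fun n => ?_) h3
    have hn : (0 : ℝ) ≤ n := Nat.cast_nonneg n
    rw [Real.norm_eq_abs, abs_mul, abs_of_pos (by positivity : (0 : ℝ) < (((n + 1 : ℕ) : ℝ) + 1)), abs_mul ((n : ℝ) + 1),
      abs_of_pos (by positivity : (0 : ℝ) < (n : ℝ) + 1)]
    push_cast
    calc ((n : ℝ) + 1 + 1) * |TT μ (b + 1) (n + 1)|
        ≤ (2 * ((n : ℝ) + 1)) * (|b * (b + 1)| * |TT μ b n| / ((n : ℝ) + 1)) := by
          refine mul_le_mul (by linarith) (hb n) (abs_nonneg _) (by positivity)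
      _ = 2 * |b * (b + 1)| * |TT μ b n| := by field_simp
      _ ≤ 2 * |b * (b + 1)| * (((n : ℝ) + 1) * |TT μ b n|) := by
          refine mul_le_mul_of_nonneg_left ?_ (by positivity)
          exact le_mul_of_one_le_left (abs_nonneg _) (by linarith)

theorem RR_all {θ lam : ℝ} (hθ : 0 < θ) (hθ1 : θ < 1) (hl : 0 < lam) (N : ℕ) :
    RR (lam + 2 * θ) ((N : ℝ) - θ) := by
  induction N with
  | zero =>
    rw [Nat.cast_zero, zero_sub]
    exact RR_base hθ hθ1 hl
  | succ N ih =>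
    have e : (((N + 1 : ℕ) : ℝ)) - θ = ((N : ℝ) - θ) + 1 := by
      push_cast
      ring
    rw [e]
    exact RR_step (by positivity) ih

/-- the recurrence (a contiguous relation of Gauss) -/
theorem rec_S {μ b : ℝ} (hμ : 0 < μ) (h : RR μ b) :
    (1 + μ + b) * (μ + b) * ∑' m, TT μ (b + 1) m = (μ + 2 * b) * (μ + 2 * b + 1) * ∑' m, TT μ b m := by
  set q : ℝ → ℝ := fun x => (μ + 2 * b + 1) * x - b * (2 * μ + 3 * b + 1) - (μ + 2 * b + 1) with hq
  have h' := RR_step hμ h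
  have hpart : ∀ n : ℕ, ∑ m ∈ Finset.range (n + 1),
      ((1 + μ + b) * (μ + b) * TT μ (b + 1) m - (μ + 2 * b) * (μ + 2 * b + 1) * TT μ b m) =
      TT μ b n * q ((n : ℝ) + 1) := by
    intro n
    induction n with
    | zero =>
      rw [Finset.sum_range_one, TT_zero, TT_zero, hq]
      push_cast
      ring
    | succ n ih =>
      rw [Finset.sum_range_succ, ih, TT_next hμ, TT_succ μ b n, hq]
      have h1 : (n : ℝ) + 1 ≠ 0 := by positivity
      have h2 : (n : ℝ) + 1 + μ ≠ 0 := by positivity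
      push_cast
      field_simp
      ring
  have hlim0 : Tendsto (fun n : ℕ => TT μ b n * q ((n : ℝ) + 1)) atTop (𝓝 0) := by
    have h3 := (h.2.abs).const_mul (|μ + 2 * b + 1| + |b * (2 * μ + 3 * b + 1)| + |μ + 2 * b + 1|)
    rw [abs_zero, mul_zero] at h3
    refine squeeze_zero_norm (fun n => ?_) h3
    have hn : (0 : ℝ) ≤ n := Nat.cast_nonneg n
    rw [Real.norm_eq_abs, abs_mul, abs_mul ((n : ℝ) + 1), abs_of_pos (by positivity : (0 : ℝ) < (n : ℝ) + 1)]
    have h4 : |q ((n : ℝ) + 1)| ≤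
        (|μ + 2 * b + 1| + |b * (2 * μ + 3 * b + 1)| + |μ + 2 * b + 1|) * ((n : ℝ) + 1) := by
      rw [hq]
      simp only
      refine (abs_sub _ _).trans ?_
      refine (add_le_add_left (abs_sub _ _) _).trans ?_
      rw [abs_mul (μ + 2 * b + 1), abs_of_pos (by positivity : (0 : ℝ) < (n : ℝ) + 1)]
      have a1 := abs_nonneg (μ + 2 * b + 1)
      have a2 := abs_nonneg (b * (2 * μ + 3 * b + 1))
      nlinarith
    calc |TT μ b n| * |q ((n : ℝ) + 1)| ≤ |TT μ b n| *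
        ((|μ + 2 * b + 1| + |b * (2 * μ + 3 * b + 1)| + |μ + 2 * b + 1|) * ((n : ℝ) + 1)) :=
          mul_le_mul_of_nonneg_left h4 (abs_nonneg _)
      _ = _ := by ring
  have hs1 := (h'.1.mul_left ((1 + μ + b) * (μ + b))).sub (h.1.mul_left ((μ + 2 * b) * (μ + 2 * b + 1)))
  have hlim1 : Tendsto (fun n : ℕ => ∑ m ∈ Finset.range (n + 1),
      ((1 + μ + b) * (μ + b) * TT μ (b + 1) m - (μ + 2 * b) * (μ + 2 * b + 1) * TT μ b m)) atTop
      (𝓝 (∑' m, ((1 + μ + b) * (μ + b) * TT μ (b + 1) m - (μ + 2 * b) * (μ + 2 * b + 1) * TT μ b m))) :=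
    (tendsto_add_atTop_iff_nat 1).2 hs1.hasSum.tendsto_sum_nat
  simp_rw [hpart] at hlim1
  have h5 := tendsto_nhds_unique hlim1 hlim0
  rw [(h'.1.mul_left _).tsum_sub (h.1.mul_left _), tsum_mul_left, tsum_mul_left] at h5
  linarith

theorem S_pos' {θ lam : ℝ} (hθ : 0 < θ) (hθ1 : θ < 1) (hl : 0 < lam) (N : ℕ) :
    0 < ∑' m, TT (lam + 2 * θ) ((N : ℝ) - θ) m := by
  induction N with
  | zero =>
    have h1 := (RR_all hθ hθ1 hl 0).1
    have hT : ∀ m : ℕ, 0 < TT (lam + 2 * θ) (((0 : ℕ) : ℝ) - θ) m := by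
      intro m
      unfold TT
      refine Finset.prod_pos fun i _ => ?_
      rw [Nat.cast_zero]
      have h2 : (i : ℝ) - (0 - θ) = (i : ℝ) + θ := by ring
      have h3 : (i : ℝ) + 1 - (0 - θ) = (i : ℝ) + 1 + θ := by ring
      rw [h2, h3]
      positivity
    exact h1.tsum_pos (fun m => (hT m).le) 0 (hT 0)
  | succ N ih =>
    have h1 := rec_S (by positivity) (RR_all hθ hθ1 hl N)
    have e : (((N + 1 : ℕ) : ℝ)) - θ = ((N : ℝ) - θ) + 1 := by
      push_cast
      ring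
    rw [e]
    have hN : (0 : ℝ) ≤ N := Nat.cast_nonneg N
    have e1 : lam + 2 * θ + 2 * ((N : ℝ) - θ) = lam + 2 * N := by ring
    have e2 : 1 + (lam + 2 * θ) + ((N : ℝ) - θ) = 1 + lam + θ + N := by ring
    have e3 : lam + 2 * θ + ((N : ℝ) - θ) = lam + θ + N := by ring
    rw [e1, e2, e3] at h1
    have h2 : 0 < (lam + 2 * (N : ℝ)) * (lam + 2 * N + 1) *
        ∑' m, TT (lam + 2 * θ) ((N : ℝ) - θ) m := by positivity
    rw [← h1] at h2
    exact (mul_pos_iff_of_pos_left (by positivity)).1 h2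

theorem gs (_h : S_dec) : S_gs := by
  intro θ lam hθ hθ1 hl
  have h0 := QQ_pow hθ hl 0
  have h1 := QQ_pow hθ hl 1
  have s0 := S_pos' hθ hθ1 hl 0
  have r0 := rec_S (by positivity) (RR_all hθ hθ1 hl 0)
  rw [pow_zero] at h0
  rw [pow_one] at h1
  refine ⟨?_, fun N => ?_, ?_⟩
  · rw [h0, Nat.cast_zero] at *
    nlinarith
  · rw [QQ_pow hθ hl (N + 1)]
    refine mul_pos ?_ (S_pos' hθ hθ1 hl (N + 1))
    push_cast
    have hN : (0 : ℝ) ≤ N := Nat.cast_nonneg N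
    linarith
  · rw [h0, h1]
    have e : (((1 : ℕ) : ℝ)) - θ = (((0 : ℕ) : ℝ) - θ) + 1 := by
      push_cast
      ring
    rw [e]
    rw [Nat.cast_zero] at r0 ⊢
    have e1 : lam + 2 * θ + 2 * (0 - θ) = lam := by ring
    have e2 : 1 + (lam + 2 * θ) + (0 - θ) = lam + θ + 1 := by ring
    have e3 : lam + 2 * θ + (0 - θ) = lam + θ := by ring
    rw [e1, e2, e3] at r0
    linear_combination (1 - θ) * θ * r0

end Q90.HS
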