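import Mathlib
import Pool.Agent.Q90.SM.Gavg

/-! Averages over a half plane of Gaussians in `t`. -/

set_option autoImplicit false
open Complex Filter Topology Set Metric MeasureTheory

namespace Q90.HS

open Pool.Agent.TH325.SI (mn em la la_pos cont_cm)
open Q90.SM (FF lint_eq)

theorem gauss_int {b : ℝ} (hb : 0 < b) : ∫⁻ x : ℝ, ENNReal.ofReal (Real.exp (-b * x ^ 2)) = ENNReal.ofReal (Real.sqrt (Real.pi / b)) := by
  rw [← integral_gaussian b, ofReal_integral_eq_lintegral_ofReal (integrable_exp_neg_mul_sq hb)]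
  exact Eventually.of_forall fun x => (Real.exp_pos _).le

theorem gauss_int_Ioi {b : ℝ} (hb : 0 < b) : ∫⁻ x in Ioi (0:ℝ), ENNReal.ofReal (Real.exp (-b * x ^ 2)) = ENNReal.ofReal (Real.sqrt (Real.pi / b) / 2) := by
  rw [← integral_gaussian_Ioi b, ofReal_integral_eq_lintegral_ofReal (integrable_exp_neg_mul_sq hb).integrableOn]
  exact Eventually.of_forall fun x => (Real.exp_pos _).le

theorem expo_split {b : ℝ} (hb : 0 < b) (X x : ℝ) : ENNReal.ofReal (Real.exp (-x * X - b * x ^ 2)) =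
    ENNReal.ofReal (Real.exp (X ^ 2 / (4 * b))) * ENNReal.ofReal (Real.exp (-b * (x + X / (2 * b)) ^ 2)) := by
  rw [← ENNReal.ofReal_mul (Real.exp_pos _).le, ← Real.exp_add]
  congr 2
  field_simp
  ring

theorem meas_g (b : ℝ) : Measurable fun x : ℝ => ENNReal.ofReal (Real.exp (-b * x ^ 2)) := by
  fun_prop

theorem gaussR {b : ℝ} (hb : 0 < b) (X : ℝ) : ∫⁻ x : ℝ, ENNReal.ofReal (Real.exp (-x * X - b * x ^ 2)) =
    ENNReal.ofReal (Real.sqrt (Real.pi / b) * Real.exp (X ^ 2 / (4 * b))) := by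
  simp_rw [expo_split hb X]
  rw [lintegral_const_mul _ (by fun_prop),
    lintegral_add_right_eq_self (fun x : ℝ => ENNReal.ofReal (Real.exp (-b * x ^ 2))) (X / (2 * b)), gauss_int hb,
    ← ENNReal.ofReal_mul (Real.exp_pos _).le, mul_comm]

theorem gaussI {b : ℝ} (hb : 0 < b) {X : ℝ} (hX : X ≤ 0) : ENNReal.ofReal (Real.sqrt (Real.pi / b) / 2 * Real.exp (X ^ 2 / (4 * b))) ≤
    ∫⁻ x in Ioi (0:ℝ), ENNReal.ofReal (Real.exp (-x * X - b * x ^ 2)) := by
  simp_rw [expo_split hb X]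
  rw [lintegral_const_mul _ (by fun_prop), mul_comm (Real.sqrt (Real.pi / b) / 2), ENNReal.ofReal_mul (Real.exp_pos _).le]
  gcongr
  rw [← gauss_int_Ioi hb, ← lintegral_indicator measurableSet_Ioi, ← lintegral_indicator measurableSet_Ioi]
  have hm : X / (2 * b) ≤ 0 := div_nonpos_of_nonpos_of_nonneg hX (by positivity)
  have e : ∫⁻ x : ℝ, (Ioi (0:ℝ)).indicator (fun x => ENNReal.ofReal (Real.exp (-b * (x + X / (2 * b)) ^ 2))) x =
      ∫⁻ x : ℝ, (Ioi (X / (2 * b))).indicator (fun x => ENNReal.ofReal (Real.exp (-b * x ^ 2))) (x + X / (2 * b)) := by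
    apply lintegral_congr
    intro x
    by_cases hx : 0 < x
    · rw [indicator_of_mem (by exact hx), indicator_of_mem (by show X / (2 * b) < x + X / (2 * b); linarith)]
    · rw [indicator_of_notMem (by exact hx), indicator_of_notMem (by
        show ¬ X / (2 * b) < x + X / (2 * b)
        intro h
        apply hx
        linarith)]
  rw [e, lintegral_add_right_eq_self (fun x : ℝ => (Ioi (X / (2 * b))).indicator (fun x => ENNReal.ofReal (Real.exp (-b * x ^ 2))) x)]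
  apply lintegral_mono
  intro x
  apply indicator_le_indicator_of_subset
  · intro u hu
    exact lt_of_le_of_lt hm hu
  · intro u
    positivity

/-- the product Gaussian on the half plane -/
theorem gauss_half {b1 b2 : ℝ} (h1 : 0 < b1) (h2 : 0 < b2) {X Y : ℝ} (hX : X ≤ 0) :
    ENNReal.ofReal (Real.pi / (2 * Real.sqrt (b1 * b2)) * Real.exp (X ^ 2 / (4 * b1) + Y ^ 2 / (4 * b2))) ≤
    ∫⁻ p : ℝ × ℝ, ENNReal.ofReal (Real.exp (-p.1 * X - b1 * p.1 ^ 2)) * ENNReal.ofReal (Real.exp (-p.2 * Y - b2 * p.2 ^ 2))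
      ∂((volume.restrict (Ioi (0:ℝ))).prod volume) := by
  rw [lintegral_prod_mul (μ := volume.restrict (Ioi (0:ℝ))) (ν := volume)
    (f := fun x : ℝ => ENNReal.ofReal (Real.exp (-x * X - b1 * x ^ 2)))
    (g := fun y : ℝ => ENNReal.ofReal (Real.exp (-y * Y - b2 * y ^ 2))) (by fun_prop) (by fun_prop), gaussR h2]
  have e : Real.pi / (2 * Real.sqrt (b1 * b2)) * Real.exp (X ^ 2 / (4 * b1) + Y ^ 2 / (4 * b2)) =
      (Real.sqrt (Real.pi / b1) / 2 * Real.exp (X ^ 2 / (4 * b1))) * (Real.sqrt (Real.pi / b2) * Real.exp (Y ^ 2 / (4 * b2))) := by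
    rw [Real.exp_add, Real.sqrt_mul h1.le, Real.sqrt_div Real.pi_pos.le, Real.sqrt_div Real.pi_pos.le]
    have h3 : Real.sqrt Real.pi * Real.sqrt Real.pi = Real.pi := Real.mul_self_sqrt Real.pi_pos.le
    have h4 : 0 < Real.sqrt b1 := Real.sqrt_pos.2 h1
    have h5 : 0 < Real.sqrt b2 := Real.sqrt_pos.2 h2
    field_simp
    nlinarith [h3]
  rw [e, ENNReal.ofReal_mul (by positivity)]
  gcongr
  exact gaussI h1 hX

theorem gauss_half0 {b1 b2 : ℝ} (h1 : 0 < b1) (h2 : 0 < b2) :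
    ∫⁻ p : ℝ × ℝ, ENNReal.ofReal (Real.exp (-b1 * p.1 ^ 2)) * ENNReal.ofReal (Real.exp (-b2 * p.2 ^ 2))
      ∂((volume.restrict (Ioi (0:ℝ))).prod volume) = ENNReal.ofReal (Real.pi / (2 * Real.sqrt (b1 * b2))) := by
  rw [lintegral_prod_mul (μ := volume.restrict (Ioi (0:ℝ))) (ν := volume)
    (f := fun x : ℝ => ENNReal.ofReal (Real.exp (-b1 * x ^ 2)))
    (g := fun y : ℝ => ENNReal.ofReal (Real.exp (-b2 * y ^ 2))) (by fun_prop) (by fun_prop), gauss_int h2, gauss_int_Ioi h1, ← ENNReal.ofReal_mul (by positivity)]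
  congr 1
  rw [Real.sqrt_mul h1.le, Real.sqrt_div Real.pi_pos.le, Real.sqrt_div Real.pi_pos.le]
  have h3 : Real.sqrt Real.pi * Real.sqrt Real.pi = Real.pi := Real.mul_self_sqrt Real.pi_pos.le
  have h4 : 0 < Real.sqrt b1 := Real.sqrt_pos.2 h1
  have h5 : 0 < Real.sqrt b2 := Real.sqrt_pos.2 h2
  field_simp
  nlinarith [h3]

end Q90.HS
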