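import Pool.Agent.Q90.HS.Gs

/-! Positivity (job HS4). -/

set_option autoImplicit false
open Filter Topology

namespace Q90.HS

theorem pc_add (θ : ℝ) (p q : Polynomial ℂ) (m : ℕ) : pc θ (p + q) m = pc θ p m + pc θ q m := by
  unfold pc
  rw [← Finset.sum_add_distrib]
  refine Finset.sum_congr rfl fun l _ => ?_
  rw [Polynomial.coeff_add, add_mul]

theorem pc_C_mul (θ : ℝ) (c : ℂ) (p : Polynomial ℂ) (m : ℕ) :
    pc θ (Polynomial.C c * p) m = c * pc θ p m := by
  unfold pc
  rw [Finset.mul_sum]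
  refine Finset.sum_congr rfl fun l _ => ?_
  rw [Polynomial.coeff_C_mul, mul_assoc]

theorem BB_C_right (θ μ : ℝ) (N : ℕ) (c : ℂ) (p q : Polynomial ℂ) :
    BB θ μ N p (Polynomial.C c * q) = c * BB θ μ N p q := by
  unfold BB
  rw [← tsum_mul_left]
  refine tsum_congr fun m => ?_
  rw [pc_C_mul]
  ring

theorem BB_conj (θ μ : ℝ) (N : ℕ) (p q : Polynomial ℂ) :
    (starRingEnd ℂ) (BB θ μ N p q) = BB θ μ N q p := by
  unfold BB
  rw [Complex.conj_tsum]
  refine tsum_congr fun m => ?_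
  simp only [map_mul, Complex.conj_ofReal, Complex.conj_conj]
  ring

theorem BB_self (θ μ : ℝ) (N : ℕ) (p : Polynomial ℂ) : BB θ μ N p p = (QQ θ μ N p : ℂ) := by
  unfold BB QQ
  rw [Complex.ofReal_tsum]
  refine tsum_congr fun m => ?_
  rw [Complex.conj_mul']
  push_cast
  ring

theorem BB_add_right (h : S_dec) {θ lam : ℝ} (hθ : 0 < θ) (hθ1 : θ < 1) (hl : 0 < lam) (N : ℕ)
    (p q q' : Polynomial ℂ) :
    BB θ (lam + 2 * θ) N p (q + q') = BB θ (lam + 2 * θ) N p q + BB θ (lam + 2 * θ) N p q' := by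
  unfold BB
  rw [← (sumBB h hθ hθ1 hl N p q).tsum_add (sumBB h hθ hθ1 hl N p q')]
  refine tsum_congr fun m => ?_
  rw [pc_add]
  ring

theorem BB_add_left (h : S_dec) {θ lam : ℝ} (hθ : 0 < θ) (hθ1 : θ < 1) (hl : 0 < lam) (N : ℕ)
    (p p' q : Polynomial ℂ) :
    BB θ (lam + 2 * θ) N (p + p') q = BB θ (lam + 2 * θ) N p q + BB θ (lam + 2 * θ) N p' q := by
  rw [← BB_conj, BB_add_right h hθ hθ1 hl, map_add, BB_conj, BB_conj]

theorem BB_C_left (θ μ : ℝ) (N : ℕ) (c : ℂ) (p q : Polynomial ℂ) :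
    BB θ μ N (Polynomial.C c * p) q = (starRingEnd ℂ) c * BB θ μ N p q := by
  rw [← BB_conj, BB_C_right, map_mul, BB_conj]

theorem BB_zero_right (θ μ : ℝ) (N : ℕ) (p : Polynomial ℂ) : BB θ μ N p 0 = 0 := by
  have := BB_C_right θ μ N 0 p 0
  simpa using this

/-! ## The operators -/

theorem X_deriv_coeff (p : Polynomial ℂ) (k : ℕ) :
    (Polynomial.X * Polynomial.derivative p).coeff k = (k : ℂ) * p.coeff k := by
  cases k with
  | zero => simp
  | succ k =>
    rw [Polynomial.coeff_X_mul, Polynomial.coeff_derivative]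
    push_cast
    ring

theorem Lm_coeff (N : ℕ) (p : Polynomial ℂ) (k : ℕ) :
    (Lm N p).coeff k = ((N : ℂ) - k) * p.coeff k + ((k : ℂ) + 1) * p.coeff (k + 1) := by
  unfold Lm
  rw [sub_mul, one_mul, Polynomial.coeff_add, Polynomial.coeff_sub, Polynomial.coeff_C_mul, X_deriv_coeff,
    Polynomial.coeff_derivative]
  ring

theorem Lp_coeff_succ (θ lam : ℝ) (N : ℕ) (p : Polynomial ℂ) (k : ℕ) :
    (Lp θ lam N p).coeff (k + 1) = ((N : ℂ) - θ - ((k : ℂ) + 1)) * p.coeff (k + 1) +
      ((k : ℂ) + lam + 1 + θ) * p.coeff k := by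
  unfold Lp
  have e : Polynomial.X * (1 - Polynomial.X) * Polynomial.derivative p =
      Polynomial.X * Polynomial.derivative p - Polynomial.X * (Polynomial.X * Polynomial.derivative p) := by ring
  rw [e, mul_assoc (Polynomial.C _) Polynomial.X p, Polynomial.coeff_add, Polynomial.coeff_sub, Polynomial.coeff_sub,
    Polynomial.coeff_C_mul, Polynomial.coeff_C_mul, X_deriv_coeff, Polynomial.coeff_X_mul, Polynomial.coeff_X_mul,
    X_deriv_coeff]
  push_cast
  ring

theorem Lm_natDegree {K : ℕ} {q : Polynomial ℂ} (hq : q.natDegree ≤ K + 1) : (Lm (K + 1) q).natDegree ≤ K := by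
  rw [Polynomial.natDegree_le_iff_coeff_eq_zero]
  intro j hj
  rw [Lm_coeff]
  have h1 : q.coeff (j + 1) = 0 := Polynomial.coeff_eq_zero_of_natDegree_lt (by omega)
  rw [h1]
  rcases Nat.lt_or_ge (K + 1) j with h | h
  · rw [Polynomial.coeff_eq_zero_of_natDegree_lt (by omega : q.natDegree < j)]
    ring
  · have h2 : j = K + 1 := by omega
    rw [h2]
    push_cast
    ring

theorem Lp_natDegree {θ lam : ℝ} {N K : ℕ} {q : Polynomial ℂ} (hq : q.natDegree ≤ K) :
    (Lp θ lam N q).natDegree ≤ K + 1 := by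
  rw [Polynomial.natDegree_le_iff_coeff_eq_zero]
  intro j hj
  obtain ⟨k, rfl⟩ : ∃ k, j = k + 1 := ⟨j - 1, by omega⟩
  rw [Lp_coeff_succ, Polynomial.coeff_eq_zero_of_natDegree_lt (by omega : q.natDegree < k + 1),
    Polynomial.coeff_eq_zero_of_natDegree_lt (by omega : q.natDegree < k)]
  ring

theorem Lm_eval (N : ℕ) (p : Polynomial ℂ) : (Lm N p).eval 1 = (N : ℂ) * p.eval 1 := by
  unfold Lm
  simp

theorem Lp_eval (θ lam : ℝ) (N : ℕ) (p : Polynomial ℂ) :
    (Lp θ lam N p).eval 1 = ((N : ℂ) + lam + 1) * p.eval 1 := by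
  unfold Lp
  simp only [Polynomial.eval_add, Polynomial.eval_sub, Polynomial.eval_mul, Polynomial.eval_C, Polynomial.eval_X,
    Polynomial.eval_one]
  push_cast
  ring

theorem Lp_add (θ lam : ℝ) (N : ℕ) (p q : Polynomial ℂ) :
    Lp θ lam N (p + q) = Lp θ lam N p + Lp θ lam N q := by
  unfold Lp
  rw [Polynomial.derivative_add]
  ring

theorem Lp_C_mul (θ lam : ℝ) (N : ℕ) (c : ℂ) (p : Polynomial ℂ) :
    Lp θ lam N (Polynomial.C c * p) = Polynomial.C c * Lp θ lam N p := by
  unfold Lp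
  rw [Polynomial.derivative_C_mul]
  ring

theorem Lp_zero (θ lam : ℝ) (N : ℕ) : Lp θ lam N 0 = 0 := by
  unfold Lp
  simp

theorem Lm_pow (N : ℕ) : Lm (N + 1) ((1 - Polynomial.X) ^ (N + 1)) = 0 := by
  unfold Lm
  rw [Polynomial.derivative_pow_succ]
  simp only [Polynomial.derivative_sub, Polynomial.derivative_one, Polynomial.derivative_X]
  push_cast
  simp only [map_add, map_natCast, map_one]
  ring

theorem Lm_Lp (θ lam : ℝ) (K : ℕ) (q : Polynomial ℂ) :
    Lm (K + 2) (Lp θ lam (K + 1) q) =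
      Lp θ lam K (Lm (K + 1) q) + Polynomial.C ((2 * ((K : ℝ) + 1) + lam + 1 : ℝ) : ℂ) * q := by
  unfold Lm Lp
  simp only [Polynomial.derivative_add, Polynomial.derivative_sub, Polynomial.derivative_mul, Polynomial.derivative_C,
    Polynomial.derivative_X, Polynomial.derivative_one]
  push_cast
  simp only [map_add, map_sub, map_mul, map_natCast, map_one, map_ofNat]
  ring

/-- every polynomial is a constant plus `L_+ q` -/
theorem elim {θ lam : ℝ} (hθ : 0 < θ) (hl : 0 < lam) (N : ℕ) : ∀ (k : ℕ) (p : Polynomial ℂ), p.natDegree ≤ k →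
    ∃ (c : ℂ) (q : Polynomial ℂ), q.natDegree ≤ k - 1 ∧ p = Polynomial.C c + Lp θ lam N q := by
  intro k
  induction k with
  | zero =>
    intro p hp
    refine ⟨p.coeff 0, 0, by simp, ?_⟩
    rw [Lp_zero, add_zero]
    exact Polynomial.eq_C_of_natDegree_le_zero hp
  | succ k ih =>
    intro p hp
    have hk : ((k : ℂ) + lam + 1 + θ) ≠ 0 := by
      have : ((k : ℝ) + lam + 1 + θ) ≠ 0 := by positivity
      exact_mod_cast this
    set q0 : Polynomial ℂ := Polynomial.monomial k (p.coeff (k + 1) / ((k : ℂ) + lam + 1 + θ)) with hq0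
    have hq0d : q0.natDegree ≤ k := Polynomial.natDegree_monomial_le _
    have h1 : (p - Lp θ lam N q0).natDegree ≤ k := by
      rw [Polynomial.natDegree_le_iff_coeff_eq_zero]
      intro j hj
      rcases Nat.lt_or_ge (k + 1) j with h | h
      · rw [Polynomial.coeff_sub, Polynomial.coeff_eq_zero_of_natDegree_lt (by omega : p.natDegree < j),
          Polynomial.coeff_eq_zero_of_natDegree_lt (lt_of_le_of_lt (Lp_natDegree hq0d) h), sub_zero]
      · have h2 : j = k + 1 := by omega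
        rw [h2, Polynomial.coeff_sub, Lp_coeff_succ, hq0, Polynomial.coeff_monomial, Polynomial.coeff_monomial,
          if_neg (by omega), if_pos rfl]
        field_simp
        ring
    obtain ⟨c, q1, hq1, he⟩ := ih _ h1
    refine ⟨c, q0 + q1, ?_, ?_⟩
    · refine (Polynomial.natDegree_add_le _ _).trans (max_le (by omega) (by omega))
    · rw [Lp_add]
      linear_combination he

/-- the decomposition of the polynomials of degree at most `N + 1` -/
theorem decomp (ha : S_adj) (hg : S_gs) {θ lam : ℝ} (hθ : 0 < θ) (hθ1 : θ < 1) (hl : 0 < lam) (N : ℕ)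
    (p : Polynomial ℂ) (hp : p.natDegree ≤ N + 1) (hp1 : p.eval 1 = 0) :
    ∃ (x : ℂ) (q : Polynomial ℂ), q.natDegree ≤ N ∧ q.eval 1 = 0 ∧
      p = Polynomial.C x * (1 - Polynomial.X) ^ (N + 1) + Lp θ lam N q := by
  have hE : ((1 - Polynomial.X : Polynomial ℂ) ^ (N + 1)).natDegree ≤ N + 1 := by
    refine Polynomial.natDegree_pow_le.trans ?_
    have h1 : (1 - Polynomial.X : Polynomial ℂ).natDegree ≤ 1 := by
      refine (Polynomial.natDegree_sub_le _ _).trans ?_
      simp
    calc (N + 1) * (1 - Polynomial.X : Polynomial ℂ).natDegree ≤ (N + 1) * 1 := Nat.mul_le_mul_left _ h1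
      _ = N + 1 := mul_one _
  obtain ⟨c', q', hq', he'⟩ := elim hθ hl N (N + 1) _ hE
  obtain ⟨c, q, hq, he⟩ := elim hθ hl N (N + 1) p hp
  have hc' : c' ≠ 0 := by
    intro h0
    rw [h0, map_zero, zero_add] at he'
    have h1 := ha θ lam hθ hθ1 hl N q' ((1 - Polynomial.X) ^ (N + 1))
    rw [← he', Lm_pow, BB_zero_right, BB_self] at h1
    have h2 := (hg θ lam hθ hθ1 hl).2.1 N
    have h3 : QQ θ (lam + 2 * θ) (N + 1) ((1 - Polynomial.X) ^ (N + 1)) = 0 := by exact_mod_cast h1
    linarith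
  have hfin : p = Polynomial.C (c / c') * (1 - Polynomial.X) ^ (N + 1) +
      Lp θ lam N (q + Polynomial.C (-(c / c')) * q') := by
    rw [Lp_add, Lp_C_mul]
    have e1 : Polynomial.C (c / c') * Polynomial.C c' = (Polynomial.C c : Polynomial ℂ) := by
      rw [← Polynomial.C_mul, div_mul_cancel₀ _ hc']
    rw [Polynomial.C_neg]
    linear_combination he - Polynomial.C (c / c') * he' - e1
  refine ⟨c / c', q + Polynomial.C (-(c / c')) * q', ?_, ?_, hfin⟩
  · refine (Polynomial.natDegree_add_le _ _).trans (max_le (by omega) ?_)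
    refine (Polynomial.natDegree_C_mul_le _ _).trans (by omega)
  · have h1 := congrArg (Polynomial.eval (1 : ℂ)) hfin
    rw [hp1, Polynomial.eval_add, Lp_eval, Polynomial.eval_mul, Polynomial.eval_pow] at h1
    simp only [Polynomial.eval_sub, Polynomial.eval_one, Polynomial.eval_X, sub_self] at h1
    rw [zero_pow (Nat.succ_ne_zero N), mul_zero, zero_add] at h1
    have hN : ((N : ℂ) + lam + 1) ≠ 0 := by
      have : ((N : ℝ) + lam + 1) ≠ 0 := by positivity
      exact_mod_cast this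
    rcases mul_eq_zero.1 h1.symm with h2 | h2
    · exact absurd h2 hN
    · exact h2

theorem pos (hd : S_dec) (ha : S_adj) (hg : S_gs) : S_pos := by
  intro θ lam hθ hθ1 hl N
  induction N using Nat.strong_induction_on with
  | _ N ih =>
    intro p hp hp1
    rcases Nat.eq_zero_or_pos N with h0 | h0
    · rw [h0] at hp
      have h1 := Polynomial.eq_C_of_natDegree_le_zero hp
      have h2 : p = 0 := by
        rw [h1, Polynomial.eval_C] at hp1
        rw [h1, hp1, map_zero]
      have h3 := BB_self θ (lam + 2 * θ) N p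
      rw [h2, BB_zero_right] at h3
      have h4 : QQ θ (lam + 2 * θ) N (0 : Polynomial ℂ) = 0 := by exact_mod_cast h3.symm
      rw [h2, h4]
    · obtain ⟨M, rfl⟩ : ∃ M, N = M + 1 := ⟨N - 1, by omega⟩
      obtain ⟨x, q, hq, hq1, he⟩ := decomp ha hg hθ hθ1 hl M p hp hp1
      set E : Polynomial ℂ := (1 - Polynomial.X) ^ (M + 1) with hE
      have hEpos : 0 < QQ θ (lam + 2 * θ) (M + 1) E := (hg θ lam hθ hθ1 hl).2.1 M
      have hcr : BB θ (lam + 2 * θ) (M + 1) (Lp θ lam M q) E = 0 := by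
        rw [ha θ lam hθ hθ1 hl M q E, hE, Lm_pow, BB_zero_right]
      have hcr' : BB θ (lam + 2 * θ) (M + 1) E (Lp θ lam M q) = 0 := by
        rw [← BB_conj, hcr, map_zero]
      -- the second part
      have hLL : ∃ t : ℝ, 0 ≤ t ∧ BB θ (lam + 2 * θ) (M + 1) (Lp θ lam M q) (Lp θ lam M q) = (t : ℂ) := by
        rcases Nat.eq_zero_or_pos M with hM | hM
        · refine ⟨0, le_rfl, ?_⟩
          have h1 : q = 0 := by
            have h2 := Polynomial.eq_C_of_natDegree_le_zero (by omega : q.natDegree ≤ 0)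
            rw [h2, Polynomial.eval_C] at hq1
            rw [h2, hq1, map_zero]
          rw [h1, Lp_zero, BB_zero_right]
          simp
        · obtain ⟨K, rfl⟩ : ∃ K, M = K + 1 := ⟨M - 1, by omega⟩
          refine ⟨QQ θ (lam + 2 * θ) K (Lm (K + 1) q) +
            (2 * ((K : ℝ) + 1) + lam + 1) * QQ θ (lam + 2 * θ) (K + 1) q, ?_, ?_⟩
          · have h1 : 0 ≤ QQ θ (lam + 2 * θ) K (Lm (K + 1) q) := by
              refine ih K (by omega) _ (Lm_natDegree hq) ?_
              rw [Lm_eval, hq1, mul_zero]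
            have h2 : 0 ≤ QQ θ (lam + 2 * θ) (K + 1) q := ih (K + 1) (by omega) _ hq hq1
            positivity
          · rw [ha θ lam hθ hθ1 hl (K + 1) q, Lm_Lp, BB_add_right hd hθ hθ1 hl, BB_C_right, BB_self,
              ← BB_conj θ _ (K + 1) (Lp θ lam K (Lm (K + 1) q)) q, ha θ lam hθ hθ1 hl K, BB_self, Complex.conj_ofReal]
            push_cast
            ring
      obtain ⟨t, ht, hLLt⟩ := hLL
      have hfin : (QQ θ (lam + 2 * θ) (M + 1) p : ℂ) = ((‖x‖ ^ 2 * QQ θ (lam + 2 * θ) (M + 1) E + t : ℝ) : ℂ) := by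
        rw [← BB_self, he, BB_add_right hd hθ hθ1 hl, BB_add_left hd hθ hθ1 hl, BB_add_left hd hθ hθ1 hl, BB_C_left,
          BB_C_left, BB_C_right, BB_C_right, hcr, hcr', hLLt, BB_self]
        have h1 : (starRingEnd ℂ) x * x = ((‖x‖ ^ 2 : ℝ) : ℂ) := by
          rw [Complex.conj_mul']
          push_cast
          rfl
        push_cast at h1 ⊢
        linear_combination (QQ θ (lam + 2 * θ) (M + 1) E : ℂ) * h1
      have hfin' : QQ θ (lam + 2 * θ) (M + 1) p = ‖x‖ ^ 2 * QQ θ (lam + 2 * θ) (M + 1) E + t := by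
        exact_mod_cast hfin
      rw [hfin']
      have := hEpos.le
      positivity

end Q90.HS
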