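import Mathlib
import Pool.Agent.Q90.HS.Half
import Pool.Agent.Q90.HS.Comp
import Pool.Agent.Q90.SM.Sharp

/-! The part of the circle where `|ψ'| ≤ 1`. -/

set_option autoImplicit false
open Complex Filter Topology Set Metric MeasureTheory

namespace Q90.HS

open Pool.Agent.TH325.SI (mn em la la_pos cont_cm refl_lint hat_cm ep ep_per log_eq mn_nonneg)
open Pool.Agent.W677.Mar (hat Sg)
open Q90.SM (FF lint_eq IsSig ext_all circ)

theorem mn_eq_lint {H : ℂ → ℂ} (hH : DifferentiableOn ℂ H (ball 0 1)) {s : ℝ} (hs : 0 < s) (hs1 : s < 1) (t : ℂ) :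
    ∫⁻ θ in Ioc 0 (2 * Real.pi), ENNReal.ofReal (Real.exp (t * H (circleMap 0 s θ)).re) = ENNReal.ofReal (2 * Real.pi * mn (FF t H) s) := by
  have hpi := Real.pi_pos
  have hc := cont_cm hH hs hs1
  have e1 : mn (FF t H) s = (2 * Real.pi)⁻¹ * ∫ θ in (0:ℝ)..(2 * Real.pi), Real.exp (t * H (circleMap 0 s θ)).re := by
    unfold mn
    congr 1
    apply intervalIntegral.integral_congr
    intro θ _
    simp only
    unfold FF
    rw [Complex.norm_exp, ← Real.exp_nat_mul]
    congr 1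
    have : ((2:ℕ):ℝ) * (t / 2 * H (circleMap 0 s θ)).re = (((2:ℝ):ℂ) * (t / 2 * H (circleMap 0 s θ))).re := by
      rw [Complex.re_ofReal_mul]
      norm_num
    rw [this]
    congr 1
    push_cast
    ring
  have hct : Continuous fun θ : ℝ => Real.exp (t * H (circleMap 0 s θ)).re :=
    Real.continuous_exp.comp (Complex.continuous_re.comp (continuous_const.mul hc))
  rw [lint_eq hct (fun θ => (Real.exp_pos _).le), e1]
  congr 1
  field_simp

/-- the average over the half plane -/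
theorem half_avg {H : ℂ → ℂ} (hH : DifferentiableOn ℂ H (ball 0 1)) {s : ℝ} (hs : 0 < s) (hs1 : s < 1) {a K c : ℝ}
    (ha : 0 < a) (hK : 0 < K) (hac : a * c < 1)
    (hexp : ∀ t : ℂ, t.re ≤ 0 → mn (FF t H) s ≤ K * Real.exp (c * (t.re ^ 2 / 2 + t.im ^ 2) * la s)) :
    ∫⁻ θ in Ioc 0 (2 * Real.pi), (if (H (circleMap 0 s θ)).re ≤ 0 then
      ENNReal.ofReal (Real.exp (a * ((H (circleMap 0 s θ)).re ^ 2 / 2 + (H (circleMap 0 s θ)).im ^ 2 / 4) / la s)) else 0) ≤
    ENNReal.ofReal (2 * Real.pi * (K / (1 - a * c))) := by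
  have hpi := Real.pi_pos
  have hL := la_pos hs hs1
  set L : ℝ := la s with hLd
  have hc := cont_cm hH hs hs1
  set w : ℝ → ℂ := fun θ => H (circleMap 0 s θ) with hw
  set b1 : ℝ := L / (2 * a) with hb1
  set b2 : ℝ := L / a with hb2
  have hb10 : 0 < b1 := by positivity
  have hb20 : 0 < b2 := by positivity
  have h1ac : 0 < 1 - a * c := by linarith
  set d1 : ℝ := b1 - c * L / 2 with hd1
  set d2 : ℝ := b2 - c * L with hd2
  have ed1 : d1 = (1 - a * c) * b1 := by rw [hd1, hb1]; field_simp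
  have ed2 : d2 = (1 - a * c) * b2 := by rw [hd2, hb2]; field_simp
  have hd10 : 0 < d1 := by rw [ed1]; positivity
  have hd20 : 0 < d2 := by rw [ed2]; positivity
  set μ : Measure (ℝ × ℝ) := (volume.restrict (Ioi (0:ℝ))).prod volume with hμ
  set B : ℝ := Real.sqrt (b1 * b2) with hB
  have hB0 : 0 < B := Real.sqrt_pos.2 (by positivity)
  -- pointwise
  have h1 : ∀ θ : ℝ, (if (w θ).re ≤ 0 then ENNReal.ofReal (Real.exp (a * ((w θ).re ^ 2 / 2 + (w θ).im ^ 2 / 4) / L)) else 0) ≤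
      ENNReal.ofReal (2 * B / Real.pi) * ∫⁻ p : ℝ × ℝ, ENNReal.ofReal (Real.exp (-p.1 * (w θ).re - b1 * p.1 ^ 2)) *
        ENNReal.ofReal (Real.exp (-p.2 * (w θ).im - b2 * p.2 ^ 2)) ∂μ := by
    intro θ
    split_ifs with h
    · have h2 := gauss_half hb10 hb20 (X := (w θ).re) (Y := (w θ).im) h
      refine le_trans (le_of_eq ?_) (mul_le_mul_right h2 _)
      rw [← ENNReal.ofReal_mul (by positivity)]
      congr 1
      have e1 : a * ((w θ).re ^ 2 / 2 + (w θ).im ^ 2 / 4) / L = (w θ).re ^ 2 / (4 * b1) + (w θ).im ^ 2 / (4 * b2) := by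
        rw [hb1, hb2]
        field_simp
        ring
      rw [e1]
      have e2 : 2 * B / Real.pi * (Real.pi / (2 * B)) = 1 := by field_simp
      rw [← mul_assoc, e2, one_mul]
    · exact zero_le
  have hmeas : Measurable (Function.uncurry fun (θ : ℝ) (p : ℝ × ℝ) => ENNReal.ofReal (Real.exp (-p.1 * (w θ).re - b1 * p.1 ^ 2)) *
        ENNReal.ofReal (Real.exp (-p.2 * (w θ).im - b2 * p.2 ^ 2))) := by
    have hwc : Continuous w := hc
    have hr : Continuous fun q : ℝ × (ℝ × ℝ) => (w q.1).re := Complex.continuous_re.comp (hwc.comp continuous_fst)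
    have hi : Continuous fun q : ℝ × (ℝ × ℝ) => (w q.1).im := Complex.continuous_im.comp (hwc.comp continuous_fst)
    have hA : Measurable fun q : ℝ × (ℝ × ℝ) => ENNReal.ofReal (Real.exp (-q.2.1 * (w q.1).re - b1 * q.2.1 ^ 2)) := by
      apply Measurable.ennreal_ofReal
      apply Continuous.measurable
      apply Real.continuous_exp.comp
      exact ((continuous_fst.comp continuous_snd).neg.mul hr).sub (continuous_const.mul ((continuous_fst.comp continuous_snd).pow 2))
    have hB : Measurable fun q : ℝ × (ℝ × ℝ) => ENNReal.ofReal (Real.exp (-q.2.2 * (w q.1).im - b2 * q.2.2 ^ 2)) := by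
      apply Measurable.ennreal_ofReal
      apply Continuous.measurable
      apply Real.continuous_exp.comp
      exact ((continuous_snd.comp continuous_snd).neg.mul hi).sub (continuous_const.mul ((continuous_snd.comp continuous_snd).pow 2))
    exact hA.mul hB
  have h2 : ∫⁻ θ in Ioc 0 (2 * Real.pi), (if (w θ).re ≤ 0 then ENNReal.ofReal (Real.exp (a * ((w θ).re ^ 2 / 2 + (w θ).im ^ 2 / 4) / L)) else 0) ≤
      ENNReal.ofReal (2 * B / Real.pi) * ∫⁻ p : ℝ × ℝ, (∫⁻ θ in Ioc 0 (2 * Real.pi), ENNReal.ofReal (Real.exp (-p.1 * (w θ).re - b1 * p.1 ^ 2)) *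
        ENNReal.ofReal (Real.exp (-p.2 * (w θ).im - b2 * p.2 ^ 2))) ∂μ := by
    have h7 : Measurable fun θ : ℝ => ∫⁻ p : ℝ × ℝ, ENNReal.ofReal (Real.exp (-p.1 * (w θ).re - b1 * p.1 ^ 2)) *
        ENNReal.ofReal (Real.exp (-p.2 * (w θ).im - b2 * p.2 ^ 2)) ∂μ := hmeas.lintegral_prod_right'
    rw [← lintegral_lintegral_swap hmeas.aemeasurable, ← lintegral_const_mul _ h7]
    exact lintegral_mono h1
  refine h2.trans ?_
  -- inner integral
  have h3 : ∀ᵐ p : ℝ × ℝ ∂μ, (∫⁻ θ in Ioc 0 (2 * Real.pi), ENNReal.ofReal (Real.exp (-p.1 * (w θ).re - b1 * p.1 ^ 2)) *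
        ENNReal.ofReal (Real.exp (-p.2 * (w θ).im - b2 * p.2 ^ 2))) ≤
      ENNReal.ofReal (2 * Real.pi * K) * (ENNReal.ofReal (Real.exp (-d1 * p.1 ^ 2)) * ENNReal.ofReal (Real.exp (-d2 * p.2 ^ 2))) := by
    have h4 : ∀ᵐ p : ℝ × ℝ ∂μ, p.1 ∈ Ioi (0:ℝ) :=
      Measure.quasiMeasurePreserving_fst.ae (ae_restrict_mem (measurableSet_Ioi (a := (0:ℝ))))
    filter_upwards [h4] with p hp
    have hp0 : 0 < p.1 := hp
    set t : ℂ := ⟨-p.1, p.2⟩ with ht
    have e1 : ∀ θ : ℝ, ENNReal.ofReal (Real.exp (-p.1 * (w θ).re - b1 * p.1 ^ 2)) *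
        ENNReal.ofReal (Real.exp (-p.2 * (w θ).im - b2 * p.2 ^ 2)) =
        ENNReal.ofReal (Real.exp (-b1 * p.1 ^ 2 + -b2 * p.2 ^ 2)) * ENNReal.ofReal (Real.exp (t * w θ).re) := by
      intro θ
      rw [← ENNReal.ofReal_mul (Real.exp_pos _).le, ← ENNReal.ofReal_mul (Real.exp_pos _).le, ← Real.exp_add, ← Real.exp_add]
      congr 2
      rw [Complex.mul_re]
      simp only [ht]
      ring
    simp only [e1]
    rw [lintegral_const_mul]
    · have e2 := mn_eq_lint hH hs hs1 t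
      rw [e2, ← ENNReal.ofReal_mul (Real.exp_pos _).le, ← ENNReal.ofReal_mul (Real.exp_pos _).le, ← ENNReal.ofReal_mul (by positivity)]
      apply ENNReal.ofReal_le_ofReal
      have h5 := hexp t (by simp only [ht]; linarith)
      calc Real.exp (-b1 * p.1 ^ 2 + -b2 * p.2 ^ 2) * (2 * Real.pi * mn (FF t H) s)
          ≤ Real.exp (-b1 * p.1 ^ 2 + -b2 * p.2 ^ 2) * (2 * Real.pi * (K * Real.exp (c * (t.re ^ 2 / 2 + t.im ^ 2) * L))) := by
            gcongr
        _ = 2 * Real.pi * K * (Real.exp (-b1 * p.1 ^ 2 + -b2 * p.2 ^ 2) * Real.exp (c * (t.re ^ 2 / 2 + t.im ^ 2) * L)) := by ring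
        _ = _ := by
            rw [← Real.exp_add, ← Real.exp_add]
            congr 2
            simp only [ht, hd1, hd2]
            ring
    · apply Measurable.ennreal_ofReal
      apply Continuous.measurable
      exact Real.continuous_exp.comp (Complex.continuous_re.comp (continuous_const.mul hc))
  have h6 := lintegral_mono_ae h3
  rw [lintegral_const_mul _ (by fun_prop), gauss_half0 hd10 hd20] at h6
  refine (mul_le_mul_right h6 _).trans (le_of_eq ?_)
  rw [← ENNReal.ofReal_mul (by positivity), ← ENNReal.ofReal_mul (by positivity)]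
  congr 1
  have e3 : Real.sqrt (d1 * d2) = (1 - a * c) * B := by
    rw [ed1, ed2, hB]
    have : (1 - a * c) * b1 * ((1 - a * c) * b2) = (1 - a * c) ^ 2 * (b1 * b2) := by ring
    rw [this, Real.sqrt_mul (by positivity), Real.sqrt_sq h1ac.le]
  rw [e3]
  field_simp

/-- the exterior version -/
theorem side : ∀ a : ℝ, 0 < a → a < 1 → ∃ C : ℝ, ∀ R : ℝ, 1 < R → ∀ ψ h : ℂ → ℂ, IsSig ψ h →
    ∫⁻ θ in Ioc 0 (2 * Real.pi), (if (h (circ R θ)).re ≤ 0 then
      ENNReal.ofReal (Real.exp (a * ((h (circ R θ)).re ^ 2 / 2 + (h (circ R θ)).im ^ 2 / 4) / Real.log (R ^ 2 / (R ^ 2 - 1)))) else 0) ≤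
    ENNReal.ofReal C := by
  intro a ha ha1
  -- `γ² = (1 + 1 / a) / 2`
  set c : ℝ := (1 + 1 / a) / 2 with hc
  have h1a : 1 < 1 / a := by rw [lt_div_iff₀ ha]; linarith
  have hc1 : 1 < c := by rw [hc]; linarith
  have hac : a * c < 1 := by
    have : a * c = (a + 1) / 2 := by rw [hc]; field_simp
    rw [this]
    linarith
  have hγ : 1 < Real.sqrt c := by
    rw [Real.lt_sqrt (by norm_num)]
    linarith
  have hγ2 : Real.sqrt c ^ 2 = c := Real.sq_sqrt (by linarith)
  obtain ⟨K, hK, hmain⟩ := comp_mn (Real.sqrt c) hγ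
  rw [hγ2] at hmain
  refine ⟨2 * Real.pi * (K / (1 - a * c)), fun R hR ψ h hS => ?_⟩
  have S := (ext_all ψ h hS).1
  have hR0 : 0 < R⁻¹ := by positivity
  have hR1 : R⁻¹ < 1 := inv_lt_one_of_one_lt₀ hR
  have hside := half_avg S.dH hR0 hR1 ha hK hac (fun t ht => hmain _ (hat h 0) S t ht R⁻¹ hR0 hR1)
  rw [log_eq hR]
  refine le_trans (le_of_eq ?_) hside
  have hcirc : ∀ θ : ℝ, circ R θ = ep R θ := fun θ => rfl
  set F : ℝ → ENNReal := fun θ => (if (h (ep R θ)).re ≤ 0 then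
      ENNReal.ofReal (Real.exp (a * ((h (ep R θ)).re ^ 2 / 2 + (h (ep R θ)).im ^ 2 / 4) / la R⁻¹)) else 0) with hF
  have hcont : Continuous fun θ : ℝ => h (ep R θ) := by
    have h1 := cont_cm S.dH hR0 hR1
    have h2 : (fun θ : ℝ => h (ep R θ)) = (fun θ => hat h 0 (circleMap 0 R⁻¹ θ)) ∘ (fun θ => -θ) := by
      funext θ
      simp only [Function.comp]
      rw [hat_cm hR0, inv_inv, neg_neg]
    rw [h2]
    exact h1.comp continuous_neg
  have hFm : Measurable F := by
    apply Measurable.ite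
    · exact measurableSet_le (Complex.continuous_re.comp hcont).measurable measurable_const
    · apply Measurable.ennreal_ofReal
      apply Continuous.measurable
      apply Real.continuous_exp.comp
      apply Continuous.div_const
      apply Continuous.mul continuous_const
      exact (((Complex.continuous_re.comp hcont).pow 2).div_const _).add (((Complex.continuous_im.comp hcont).pow 2).div_const _)
    · exact measurable_const
  have h3 := refl_lint hFm (fun θ => by simp only [hF, ep_per R θ])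
  have h4 : ∫⁻ θ in Ioc 0 (2 * Real.pi), F (-θ) = ∫⁻ θ in Ioc 0 (2 * Real.pi), (if (hat h 0 (circleMap 0 R⁻¹ θ)).re ≤ 0 then
      ENNReal.ofReal (Real.exp (a * ((hat h 0 (circleMap 0 R⁻¹ θ)).re ^ 2 / 2 + (hat h 0 (circleMap 0 R⁻¹ θ)).im ^ 2 / 4) / la R⁻¹)) else 0) := by
    congr 1
    funext θ
    simp only [hF]
    rw [hat_cm hR0, inv_inv]
  rw [← h4, h3]
  rfl

end Q90.HS
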